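import Pool.Agent.LibJP91.Defs

/-!
# Uniform count of the exceptional primitive triples with given exponents (MP_252f3f_nt): definitions

Continuation of `Pool/Agent/LibJP91`. Bivariate polynomials in `r` (inner variable) and `s` (outer
variable).
-/

open Polynomial JP91
open scoped Polynomial.Bivariate

namespace PX91

/-- Total degree at most `T`. -/
def TD {R : Type*} [Semiring R] (Q : R[X][Y]) (T : ℕ) : Prop :=
  ∀ i j : ℕ, T < i + j → (Q.coeff j).coeff i = 0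

/-- Total degree at most `2 l` with the form of degree `2 l` equal to `c (r s) ^ l`. -/
def Top {R : Type*} [Semiring R] (f : R[X][Y]) (l : ℕ) (c : R) : Prop :=
  TD f (2 * l) ∧ ∀ i j : ℕ, i + j = 2 * l → (f.coeff j).coeff i = if i = l then c else 0

/-- The sum of the absolute values of the coefficients. -/
noncomputable def n1 (Q : ℤ[X][Y]) : ℤ := Q.sum fun _ p => p.sum fun _ a => |a|

/-- The substitution `r ↦ r T ^ a`, `s ↦ s T ^ b`. -/
noncomputable def wt (a b : ℕ) : ℤ[X][Y] →+* ℤ[X][Y][X] :=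
  eval₂RingHom (eval₂RingHom ((C : ℤ[X][Y] →+* ℤ[X][Y][X]).comp
    ((C : ℤ[X] →+* ℤ[X][Y]).comp (C : ℤ →+* ℤ[X])))
      (C (C X : ℤ[X][Y]) * X ^ a : ℤ[X][Y][X])) (C (Y : ℤ[X][Y]) * X ^ b : ℤ[X][Y][X])

/-- One step of the reduction: `H r ^ x Q` modulo `FF x y z H G`, see `sg_dvd`. -/
noncomputable def sg (x y z : ℕ) (H G : ℤ) (Q : ℤ[X][Y]) : ℤ[X][Y] :=
  C (C H) * C X ^ x * (Q %ₘ Y ^ x) + (cC ^ z - C (C G) * cB ^ y) * (Q /ₘ Y ^ x)

/-- `x C D(A) - z A D(C)` for the derivation `D g = ∂ₛ f ∂ᵣ g - ∂ᵣ f ∂ₛ g`. -/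
noncomputable def E3 (x z : ℕ) (f : ℤ[X][Y]) : ℤ[X][Y] :=
  Y * derivative f * (C (C ((x : ℤ) - 2 * z)) * C X ^ 2 + C (C (x : ℤ)) * Y ^ 2) -
    C X * dr f * (C (C (x : ℤ)) * C X ^ 2 + C (C ((x : ℤ) - 2 * z)) * Y ^ 2)

/-- The degree in `r` of the norm of `g` modulo the monic polynomial `f`. -/
noncomputable def dn (f g : ℤ[X][Y]) : ℕ := (resultant f g f.natDegree g.natDegree).natDegree

/-- The parity conditions of the points. -/
def Par (x y z : ℕ) (H G r s : ℤ) : Prop :=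
  (H = 2 ^ x ∧ G = 1 ∧ Odd (r + s)) ∨
    (y < z ∧ H = 2 ^ z ∧ G = 2 ^ (z - y) ∧ Odd r ∧ Odd s)

/-- The pairs of exponents of `r`, `s` of total degree `≤ D` with `i < l` or `j < l`. -/
def Mo (l D : ℕ) : Finset (ℕ × ℕ) :=
  ((Finset.range (D + 1)) ×ˢ (Finset.range (D + 1))).filter
    fun p => p.1 + p.2 ≤ D ∧ (p.1 < l ∨ p.2 < l)

end PX91
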