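import Pool.Agent.LibPX91.W1

open Polynomial JP91
open scoped Polynomial.Bivariate

namespace PX91

section

variable {R : Type*} [CommRing R] (f : R → ℤ)

private noncomputable def E1_N (p : R[X]) : ℤ := p.sum fun _ a => f a

variable {f}

private theorem E1_nonneg (h0 : ∀ a, 0 ≤ f a) (p : R[X]) : 0 ≤ E1_N f p := by
  unfold E1_N
  rw [Polynomial.sum_def]
  exact Finset.sum_nonneg fun i _ => h0 _

private theorem E1_eq (hz : f 0 = 0) {p : R[X]} {n : ℕ} (h : ∀ i, n ≤ i → p.coeff i = 0) :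
    E1_N f p = ∑ i ∈ Finset.range n, f (p.coeff i) := by
  unfold E1_N
  rw [Polynomial.sum_def]
  refine Finset.sum_subset ?_ ?_
  · intro i hi
    rw [Finset.mem_range]
    by_contra hcon
    exact (mem_support_iff.1 hi) (h i (not_lt.1 hcon))
  · intro i _ hi
    rw [notMem_support_iff.1 hi, hz]

private theorem E1_zero : E1_N f (0 : R[X]) = 0 := by
  unfold E1_N
  rw [Polynomial.sum_def, support_zero, Finset.sum_empty]

private theorem E1_bound (p q : R[X]) :
    ∃ n, (∀ i, n ≤ i → p.coeff i = 0) ∧ (∀ i, n ≤ i → q.coeff i = 0) :=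
  ⟨max p.natDegree q.natDegree + 1,
    fun i hi => coeff_eq_zero_of_natDegree_lt (by
      have := le_max_left p.natDegree q.natDegree
      omega),
    fun i hi => coeff_eq_zero_of_natDegree_lt (by
      have := le_max_right p.natDegree q.natDegree
      omega)⟩

private theorem E1_add (hz : f 0 = 0) (ha : ∀ a b, f (a + b) ≤ f a + f b) (p q : R[X]) :
    E1_N f (p + q) ≤ E1_N f p + E1_N f q := by
  obtain ⟨n, h1, h2⟩ := E1_bound p q
  rw [E1_eq hz h1, E1_eq hz h2, E1_eq hz (n := n) (fun i hi => by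
    rw [coeff_add, h1 i hi, h2 i hi, add_zero]), ← Finset.sum_add_distrib]
  refine Finset.sum_le_sum fun i _ => ?_
  rw [coeff_add]
  exact ha _ _

private theorem E1_sub (hz : f 0 = 0) (ha : ∀ a b, f (a - b) ≤ f a + f b) (p q : R[X]) :
    E1_N f (p - q) ≤ E1_N f p + E1_N f q := by
  obtain ⟨n, h1, h2⟩ := E1_bound p q
  rw [E1_eq hz h1, E1_eq hz h2, E1_eq hz (n := n) (fun i hi => by
    rw [coeff_sub, h1 i hi, h2 i hi, sub_zero]), ← Finset.sum_add_distrib]
  refine Finset.sum_le_sum fun i _ => ?_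
  rw [coeff_sub]
  exact ha _ _

private theorem E1_sum (hz : f 0 = 0) (ha : ∀ a b, f (a + b) ≤ f a + f b) {ι : Type*}
    (s : Finset ι) (g : ι → R[X]) : E1_N f (∑ i ∈ s, g i) ≤ ∑ i ∈ s, E1_N f (g i) := by
  classical
  induction s using Finset.induction_on with
  | empty =>
    rw [Finset.sum_empty, Finset.sum_empty, E1_zero]
  | insert a s has ih =>
    rw [Finset.sum_insert has, Finset.sum_insert has]
    exact (E1_add hz ha _ _).trans (by linarith)

private theorem E1_monomial (hz : f 0 = 0) (n : ℕ) (a : R) : E1_N f (monomial n a) = f a := by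
  unfold E1_N
  rw [sum_monomial_index a _ hz]

private theorem E1_mul (hz : f 0 = 0) (ha : ∀ a b, f (a + b) ≤ f a + f b)
    (hm : ∀ a b, f (a * b) ≤ f a * f b) (p q : R[X]) :
    E1_N f (p * q) ≤ E1_N f p * E1_N f q := by
  rw [mul_eq_sum_sum]
  refine (E1_sum hz ha _ _).trans ?_
  have h1 : ∀ i, E1_N f (q.sum fun j a => (monomial (i + j)) (p.coeff i * a)) ≤
      f (p.coeff i) * E1_N f q := by
    intro i
    rw [Polynomial.sum_def]
    refine (E1_sum hz ha _ _).trans ?_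
    unfold E1_N
    rw [Polynomial.sum_def, Finset.mul_sum]
    refine Finset.sum_le_sum fun j _ => ?_
    have h2 := E1_monomial hz (i + j) (p.coeff i * q.coeff j)
    unfold E1_N at h2
    rw [h2]
    exact hm _ _
  have h3 : E1_N f p * E1_N f q = ∑ i ∈ p.support, f (p.coeff i) * E1_N f q := by
    conv_lhs => unfold E1_N
    rw [Polynomial.sum_def, Finset.sum_mul]
    rfl
  rw [h3]
  exact Finset.sum_le_sum fun i _ => h1 i

private theorem E1_coeff (h0 : ∀ a, 0 ≤ f a) (hz : f 0 = 0) (p : R[X]) (i : ℕ) :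
    f (p.coeff i) ≤ E1_N f p := by
  obtain ⟨n, h1, -⟩ := E1_bound p p
  by_cases hi : n ≤ i
  · rw [h1 i hi, hz]
    exact E1_nonneg h0 p
  · rw [E1_eq hz h1]
    exact Finset.single_le_sum (f := fun i => f (p.coeff i)) (fun j _ => h0 _)
      (Finset.mem_range.2 (not_le.1 hi))

end

private noncomputable def E1_L : ℤ[X] → ℤ := E1_N (fun a : ℤ => |a|)

private theorem E1_n1 (Q : ℤ[X][Y]) : n1 Q = E1_N E1_L Q := rfl

private theorem E1_L0 (p : ℤ[X]) : 0 ≤ E1_L p := E1_nonneg (fun a => abs_nonneg a) p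

private theorem E1_Lz : E1_L 0 = 0 := E1_zero

private theorem E1_La (p q : ℤ[X]) : E1_L (p + q) ≤ E1_L p + E1_L q :=
  E1_add abs_zero (fun a b => abs_add_le a b) p q

private theorem E1_Ls (p q : ℤ[X]) : E1_L (p - q) ≤ E1_L p + E1_L q :=
  E1_sub abs_zero (fun a b => abs_sub a b) p q

private theorem E1_Lm (p q : ℤ[X]) : E1_L (p * q) ≤ E1_L p * E1_L q :=
  E1_mul abs_zero (fun a b => abs_add_le a b) (fun a b => (abs_mul a b).le) p q

/-- Row E1 (ONLY MATHLIB, EASY). The sum of the absolute values of the coefficients. -/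
theorem n1_nonneg (Q : ℤ[X][Y]) : 0 ≤ n1 Q := E1_nonneg E1_L0 Q

theorem n1_add (P Q : ℤ[X][Y]) : n1 (P + Q) ≤ n1 P + n1 Q := E1_add E1_Lz E1_La P Q

theorem n1_sub (P Q : ℤ[X][Y]) : n1 (P - Q) ≤ n1 P + n1 Q := E1_sub E1_Lz E1_Ls P Q

theorem n1_mul (P Q : ℤ[X][Y]) : n1 (P * Q) ≤ n1 P * n1 Q := E1_mul E1_Lz E1_La E1_Lm P Q

private theorem E1_one : n1 (1 : ℤ[X][Y]) = 1 := by
  rw [E1_n1, ← C_1, ← monomial_zero_left, E1_monomial E1_Lz]
  unfold E1_L
  rw [← C_1, ← monomial_zero_left, E1_monomial abs_zero, abs_one]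

theorem n1_pow (P : ℤ[X][Y]) (n : ℕ) : n1 (P ^ n) ≤ n1 P ^ n := by
  induction n with
  | zero =>
    rw [pow_zero, pow_zero, E1_one]
  | succ n ih =>
    rw [pow_succ, pow_succ]
    exact (n1_mul _ _).trans (mul_le_mul_of_nonneg_right ih (n1_nonneg P))

theorem n1_CC (a : ℤ) : n1 (C (C a)) = |a| := by
  rw [E1_n1, ← monomial_zero_left, E1_monomial E1_Lz]
  unfold E1_L
  rw [← monomial_zero_left, E1_monomial abs_zero]

theorem n1_mono (i j : ℕ) : n1 (C X ^ i * Y ^ j) = 1 := by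
  rw [← C_pow, C_mul_X_pow_eq_monomial, E1_n1, E1_monomial E1_Lz]
  unfold E1_L
  rw [X_pow_eq_monomial, E1_monomial abs_zero, abs_one]

theorem n1_abc : n1 cA ≤ 1 ∧ n1 cB ≤ 2 ∧ n1 cC ≤ 2 := by
  have h1 : n1 (C X * Y : ℤ[X][Y]) = 1 := by
    have := n1_mono 1 1
    rwa [pow_one, pow_one] at this
  have h2 : n1 (C X ^ 2 : ℤ[X][Y]) = 1 := by
    have := n1_mono 2 0
    rwa [pow_zero, mul_one] at this
  have h3 : n1 (Y ^ 2 : ℤ[X][Y]) = 1 := by
    have := n1_mono 0 2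
    rwa [pow_zero, one_mul] at this
  refine ⟨h1.le, ?_, ?_⟩
  · refine (n1_sub _ _).trans ?_
    rw [h2, h3]
    norm_num
  · refine (n1_add _ _).trans ?_
    rw [h2, h3]
    norm_num

/-- `FF`: at most `2 ^ z + |H| + |G| 2 ^ y`. -/
theorem n1_FF (x y z : ℕ) (H G : ℤ) : n1 (FF x y z H G) ≤ 2 ^ z + |H| + |G| * 2 ^ y := by
  obtain ⟨hA, hB, hC⟩ := n1_abc
  have h1 : n1 (cC ^ z) ≤ 2 ^ z :=
    (n1_pow _ _).trans (pow_le_pow_left₀ (n1_nonneg _) hC z)
  have h2 : n1 (C (C H) * cA ^ x) ≤ |H| := by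
    refine (n1_mul _ _).trans ?_
    rw [n1_CC]
    have h3 : n1 (cA ^ x) ≤ 1 := (n1_pow _ _).trans (pow_le_one₀ (n1_nonneg _) hA)
    calc |H| * n1 (cA ^ x) ≤ |H| * 1 := mul_le_mul_of_nonneg_left h3 (abs_nonneg H)
      _ = |H| := mul_one _
  have h3 : n1 (C (C G) * cB ^ y) ≤ |G| * 2 ^ y := by
    refine (n1_mul _ _).trans ?_
    rw [n1_CC]
    exact mul_le_mul_of_nonneg_left
      ((n1_pow _ _).trans (pow_le_pow_left₀ (n1_nonneg _) hB y)) (abs_nonneg G)
  unfold FF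
  have h4 := n1_sub (cC ^ z - C (C H) * cA ^ x) (C (C G) * cB ^ y)
  have h5 := n1_sub (cC ^ z) (C (C H) * cA ^ x)
  linarith

theorem coeff_le_n1 (Q : ℤ[X][Y]) (i j : ℕ) : |(Q.coeff j).coeff i| ≤ n1 Q :=
  (E1_coeff (f := fun a : ℤ => |a|) (fun a => abs_nonneg a) abs_zero (Q.coeff j) i).trans
    (E1_coeff E1_L0 E1_Lz Q j)

private theorem E1_n1_eq {Q : ℤ[X][Y]} {a b : ℕ} (ha : ∀ j, a ≤ j → Q.coeff j = 0)
    (hb : ∀ i j, b ≤ i → (Q.coeff j).coeff i = 0) :
    n1 Q = ∑ j ∈ Finset.range a, ∑ i ∈ Finset.range b, |(Q.coeff j).coeff i| := by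
  rw [E1_n1, E1_eq E1_Lz ha]
  refine Finset.sum_congr rfl fun j _ => ?_
  exact E1_eq abs_zero fun i hi => hb i j hi

/-- A sum over any finite set containing the support. -/
private theorem E1_n1_eq' {Q : ℤ[X][Y]} {a b : ℕ} (ha : Q.natDegree < a)
    (hb : ∀ j, (Q.coeff j).natDegree < b) :
    n1 Q = ∑ j ∈ Finset.range a, ∑ i ∈ Finset.range b, |(Q.coeff j).coeff i| :=
  E1_n1_eq (fun j hj => coeff_eq_zero_of_natDegree_lt (by omega))
    (fun i j hi => coeff_eq_zero_of_natDegree_lt ((hb j).trans_le hi))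

theorem n1_le {Q : ℤ[X][Y]} {a b : ℕ} {K : ℤ} (ha : Q.natDegree ≤ a)
    (hb : ∀ j, (Q.coeff j).natDegree ≤ b) (hK : ∀ i j, |(Q.coeff j).coeff i| ≤ K) :
    n1 Q ≤ (a + 1) * (b + 1) * K := by
  rw [E1_n1_eq' (a := a + 1) (b := b + 1) (by omega) (fun j => Nat.lt_succ_of_le (hb j))]
  calc ∑ j ∈ Finset.range (a + 1), ∑ i ∈ Finset.range (b + 1), |(Q.coeff j).coeff i|
      ≤ ∑ j ∈ Finset.range (a + 1), ∑ i ∈ Finset.range (b + 1), K :=
        Finset.sum_le_sum fun j _ => Finset.sum_le_sum fun i _ => hK i j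
    _ = (a + 1) * (b + 1) * K := by
        simp only [Finset.sum_const, Finset.card_range, nsmul_eq_mul]
        push_cast
        ring

/-- A sum over any finite set containing the support. -/
theorem n1_eq {Q : ℤ[X][Y]} {a b : ℕ} (ha : Q.natDegree < a) (hb : ∀ j, (Q.coeff j).natDegree < b) :
    n1 Q = ∑ j ∈ Finset.range a, ∑ i ∈ Finset.range b, |(Q.coeff j).coeff i| :=
  E1_n1_eq' ha hb

private theorem E1_divMod (Q : ℤ[X][Y]) (x j : ℕ) :
    (Q %ₘ Y ^ x).coeff j = (if j < x then Q.coeff j else 0) ∧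
      (Q /ₘ Y ^ x).coeff j = Q.coeff (j + x) := by
  have hm : (Y ^ x : ℤ[X][Y]).Monic := monic_X_pow x
  have h := modByMonic_add_div Q (Y ^ x)
  have hd : ∀ i, x ≤ i → (Q %ₘ Y ^ x).coeff i = 0 := by
    intro i hi
    apply coeff_eq_zero_of_degree_lt
    have h1 := degree_modByMonic_lt Q hm
    rw [degree_X_pow] at h1
    exact h1.trans_le (by exact_mod_cast hi)
  constructor
  · split_ifs with hj
    · have h2 := congrArg (fun p => coeff p j) h
      simp only [coeff_add, coeff_X_pow_mul'] at h2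
      rw [if_neg (by omega), add_zero] at h2
      exact h2
    · exact hd j (not_lt.1 hj)
  · have h2 := congrArg (fun p => coeff p (j + x)) h
    simp only [coeff_add, coeff_X_pow_mul'] at h2
    rw [if_pos (by omega), hd (j + x) (by omega), zero_add, Nat.add_sub_cancel] at h2
    exact h2

/-- Division by `s ^ x` separates the monomials. -/
theorem n1_divMod (Q : ℤ[X][Y]) (x : ℕ) : n1 (Q %ₘ Y ^ x) + n1 (Q /ₘ Y ^ x) = n1 Q := by
  obtain ⟨a, ha, -⟩ := E1_bound Q Q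
  rw [E1_n1, E1_n1, E1_n1, E1_eq E1_Lz (p := Q %ₘ Y ^ x) (n := x) (fun i hi => by
      rw [(E1_divMod Q x i).1, if_neg (by omega)]),
    E1_eq E1_Lz (p := Q /ₘ Y ^ x) (n := a) (fun i hi => by
      rw [(E1_divMod Q x i).2, ha _ (by omega)]),
    E1_eq E1_Lz (p := Q) (n := x + a) (fun i hi => ha i (by omega)), Finset.sum_range_add]
  congr 1
  · refine Finset.sum_congr rfl fun i hi => ?_
    rw [(E1_divMod Q x i).1, if_pos (Finset.mem_range.1 hi)]
  · refine Finset.sum_congr rfl fun i _ => ?_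
    rw [(E1_divMod Q x i).2, add_comm]

/-- The coefficients of the remainder and of the quotient. -/
theorem coeff_divMod (Q : ℤ[X][Y]) (x j : ℕ) :
    (Q %ₘ Y ^ x).coeff j = (if j < x then Q.coeff j else 0) ∧
      (Q /ₘ Y ^ x).coeff j = Q.coeff (j + x) := E1_divMod Q x j

/-- The value at an integral point, `|s| ≤ r`, `1 ≤ r`, of a polynomial of total degree `≤ T`. -/
theorem eval_le {Q : ℤ[X][Y]} {T : ℕ} (hQ : TD Q T) {r s : ℤ} (hr : 1 ≤ r) (hs : |s| ≤ r) :
    |Q.evalEval r s| ≤ n1 Q * r ^ T := by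
  have hr0 : (0 : ℤ) ≤ r := by omega
  have hrs : |s| ≤ r := hs
  have hcb : ∀ i j, T + 1 ≤ i → (Q.coeff j).coeff i = 0 := fun i j hi => hQ i j (by omega)
  have hca : ∀ j, T + 1 ≤ j → Q.coeff j = 0 := fun j hj => by
    ext i
    rw [coeff_zero]
    exact hQ i j (by omega)
  have hQd : Q.natDegree < T + 1 := by
    by_contra hcon
    have h1 := hca Q.natDegree (not_lt.1 hcon)
    rw [coeff_natDegree, leadingCoeff_eq_zero] at h1
    rw [h1, natDegree_zero] at hcon
    omega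
  have hQc : ∀ j, (Q.coeff j).natDegree < T + 1 := by
    intro j
    by_contra hcon
    have h1 := hcb (Q.coeff j).natDegree j (not_lt.1 hcon)
    rw [coeff_natDegree, leadingCoeff_eq_zero] at h1
    rw [h1, natDegree_zero] at hcon
    omega
  have hev : Q.evalEval r s =
      ∑ j ∈ Finset.range (T + 1), ∑ i ∈ Finset.range (T + 1), (Q.coeff j).coeff i * r ^ i * s ^ j := by
    unfold evalEval
    rw [eval_eq_sum_range' hQd, eval_finsetSum]
    refine Finset.sum_congr rfl fun j _ => ?_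
    rw [eval_mul, eval_pow, eval_C, eval_eq_sum_range' (hQc j), Finset.sum_mul]
  rw [hev, E1_n1_eq hca hcb, Finset.sum_mul]
  refine (Finset.abs_sum_le_sum_abs _ _).trans (Finset.sum_le_sum fun j _ => ?_)
  rw [Finset.sum_mul]
  refine (Finset.abs_sum_le_sum_abs _ _).trans (Finset.sum_le_sum fun i _ => ?_)
  by_cases hT : T < i + j
  · rw [hQ i j hT]
    simp
  · rw [abs_mul, abs_mul, abs_pow, abs_pow, abs_of_nonneg hr0, mul_assoc]
    refine mul_le_mul_of_nonneg_left ?_ (abs_nonneg _)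
    calc r ^ i * |s| ^ j ≤ r ^ i * r ^ j :=
          mul_le_mul_of_nonneg_left (pow_le_pow_left₀ (abs_nonneg s) hrs j) (pow_nonneg hr0 i)
      _ = r ^ (i + j) := (pow_add r i j).symm
      _ ≤ r ^ T := pow_le_pow_right₀ hr (not_lt.1 hT)

end PX91
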