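import Pool.Agent.LibPX91.E1

open Polynomial JP91
open scoped Polynomial.Bivariate

namespace PX91

private theorem E2_eq (Q : ℤ[X][Y]) (x : ℕ) : Q = Q %ₘ Y ^ x + Y ^ x * (Q /ₘ Y ^ x) :=
  (modByMonic_add_div Q (Y ^ x)).symm

private theorem E2_mod_add (P Q : ℤ[X][Y]) (x : ℕ) :
    (P + Q) %ₘ Y ^ x = P %ₘ Y ^ x + Q %ₘ Y ^ x := by
  ext1 j
  rw [coeff_add, (coeff_divMod (P + Q) x j).1, (coeff_divMod P x j).1, (coeff_divMod Q x j).1,
    coeff_add]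
  split_ifs
  · rfl
  · rw [add_zero]

private theorem E2_div_add (P Q : ℤ[X][Y]) (x : ℕ) :
    (P + Q) /ₘ Y ^ x = P /ₘ Y ^ x + Q /ₘ Y ^ x := by
  ext1 j
  rw [coeff_add, (coeff_divMod (P + Q) x j).2, (coeff_divMod P x j).2, (coeff_divMod Q x j).2,
    coeff_add]

private theorem E2_mod_smul (c : ℤ) (Q : ℤ[X][Y]) (x : ℕ) :
    (C (C c) * Q) %ₘ Y ^ x = C (C c) * (Q %ₘ Y ^ x) := by
  ext1 j
  rw [coeff_C_mul, (coeff_divMod (C (C c) * Q) x j).1, (coeff_divMod Q x j).1, coeff_C_mul]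
  split_ifs
  · rfl
  · rw [mul_zero]

private theorem E2_div_smul (c : ℤ) (Q : ℤ[X][Y]) (x : ℕ) :
    (C (C c) * Q) /ₘ Y ^ x = C (C c) * (Q /ₘ Y ^ x) := by
  ext1 j
  rw [coeff_C_mul, (coeff_divMod (C (C c) * Q) x j).2, (coeff_divMod Q x j).2, coeff_C_mul]

private theorem E2_mod (Q₀ Q₁ : ℤ[X][Y]) (x : ℕ) :
    (Q₀ %ₘ Y ^ x + Y ^ x * Q₁) %ₘ Y ^ x = Q₀ %ₘ Y ^ x := by
  ext1 j
  rw [(coeff_divMod _ x j).1, (coeff_divMod Q₀ x j).1]
  split_ifs with h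
  · rw [coeff_add, (coeff_divMod Q₀ x j).1, if_pos h, coeff_X_pow_mul', if_neg (by omega), add_zero]
  · rfl

private theorem E2_div (Q₀ Q₁ : ℤ[X][Y]) (x : ℕ) :
    (Q₀ %ₘ Y ^ x + Y ^ x * Q₁) /ₘ Y ^ x = Q₁ := by
  ext1 j
  rw [(coeff_divMod _ x j).2, coeff_add, (coeff_divMod Q₀ x (j + x)).1, if_neg (by omega),
    zero_add, coeff_X_pow_mul]

private theorem E2_n1 {x y z : ℕ} {H G : ℤ} (hH : 0 ≤ H) (hG : 0 ≤ G)
    (h2 : 2 ^ z + G * 2 ^ y ≤ 2 * H) (Q : ℤ[X][Y]) : n1 (sg x y z H G Q) ≤ 2 * H * n1 Q := by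
  have h0 := n1_nonneg (Q %ₘ Y ^ x)
  have h1 := n1_nonneg (Q /ₘ Y ^ x)
  have e1 : n1 (C (C H) * C X ^ x * (Q %ₘ Y ^ x)) ≤ H * n1 (Q %ₘ Y ^ x) := by
    refine (n1_mul _ _).trans (mul_le_mul_of_nonneg_right ?_ h0)
    refine (n1_mul _ _).trans ?_
    have h3 := n1_mono x 0
    rw [pow_zero, mul_one] at h3
    rw [n1_CC, h3, mul_one, abs_of_nonneg hH]
  have e2 : n1 (cC ^ z - C (C G) * cB ^ y) ≤ 2 * H := by
    refine (n1_sub _ _).trans (le_trans (add_le_add ?_ ?_) h2)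
    · exact (n1_pow _ _).trans (pow_le_pow_left₀ (n1_nonneg _) n1_abc.2.2 z)
    · refine (n1_mul _ _).trans ?_
      rw [n1_CC, abs_of_nonneg hG]
      exact mul_le_mul_of_nonneg_left
        ((n1_pow _ _).trans (pow_le_pow_left₀ (n1_nonneg _) n1_abc.2.1 y)) hG
  have e3 : n1 ((cC ^ z - C (C G) * cB ^ y) * (Q /ₘ Y ^ x)) ≤ 2 * H * n1 (Q /ₘ Y ^ x) :=
    (n1_mul _ _).trans (mul_le_mul_of_nonneg_right e2 h1)
  unfold sg
  refine (n1_add _ _).trans ?_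
  rw [← n1_divMod Q x]
  nlinarith [mul_nonneg hH h0]

/-- Row E2 (EASY). One step of the reduction: `Q = Q₀ + Y ^ x * Q₁` (`Polynomial.modByMonic_add_div`)
and `H r ^ x Q - sg Q = (H (r s) ^ x - C ^ z + G B ^ y) Q₁ = - FF Q₁`. -/
theorem sg_dvd (x y z : ℕ) (H G : ℤ) (Q : ℤ[X][Y]) :
    FF x y z H G ∣ C (C H) * C X ^ x * Q - sg x y z H G Q := by
  refine ⟨-(Q /ₘ Y ^ x), ?_⟩
  have h : Q = Q %ₘ Y ^ x + Y ^ x * (Q /ₘ Y ^ x) := E2_eq Q x
  unfold sg FF cA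
  conv_lhs => rw [h]
  rw [E2_mod, E2_div]
  ring

/-- `sg` is linear (`coeff_divMod`). -/
theorem sg_add (x y z : ℕ) (H G : ℤ) (P Q : ℤ[X][Y]) :
    sg x y z H G (P + Q) = sg x y z H G P + sg x y z H G Q := by
  unfold sg
  rw [E2_mod_add, E2_div_add]
  ring

theorem sg_smul (x y z : ℕ) (H G c : ℤ) (Q : ℤ[X][Y]) :
    sg x y z H G (C (C c) * Q) = C (C c) * sg x y z H G Q := by
  unfold sg
  rw [E2_mod_smul, E2_div_smul]
  ring

theorem sg_iter_add (x y z : ℕ) (H G : ℤ) (P Q : ℤ[X][Y]) (k : ℕ) :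
    (sg x y z H G)^[k] (P + Q) = (sg x y z H G)^[k] P + (sg x y z H G)^[k] Q := by
  induction k with
  | zero => rfl
  | succ k ih => rw [Function.iterate_succ_apply', Function.iterate_succ_apply',
      Function.iterate_succ_apply', ih, sg_add]

theorem sg_iter_smul (x y z : ℕ) (H G c : ℤ) (Q : ℤ[X][Y]) (k : ℕ) :
    (sg x y z H G)^[k] (C (C c) * Q) = C (C c) * (sg x y z H G)^[k] Q := by
  induction k with
  | zero => rfl
  | succ k ih => rw [Function.iterate_succ_apply', Function.iterate_succ_apply', ih, sg_smul]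

/-- Iterated (induction on `k`). -/
theorem sg_iter_dvd (x y z : ℕ) (H G : ℤ) (Q : ℤ[X][Y]) (k : ℕ) :
    FF x y z H G ∣ (C (C H) * C X ^ x) ^ k * Q - (sg x y z H G)^[k] Q := by
  induction k with
  | zero =>
    rw [pow_zero, one_mul, Function.iterate_zero_apply, sub_self]
    exact dvd_zero _
  | succ k ih =>
    rw [Function.iterate_succ_apply']
    have h : (C (C H) * C X ^ x) ^ (k + 1) * Q - sg x y z H G ((sg x y z H G)^[k] Q) =
        (C (C H) * C X ^ x) * ((C (C H) * C X ^ x) ^ k * Q - (sg x y z H G)^[k] Q) +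
        (C (C H) * C X ^ x * (sg x y z H G)^[k] Q - sg x y z H G ((sg x y z H G)^[k] Q)) := by
      ring
    rw [h]
    exact dvd_add (Dvd.dvd.mul_left ih _) (sg_dvd x y z H G _)

/-- The norm: `n1 (sg Q) ≤ H n1 Q₀ + (2 ^ z + G 2 ^ y) n1 Q₁ ≤ 2 H (n1 Q₀ + n1 Q₁)` (`n1_divMod`). -/
theorem sg_iter_n1 {x y z : ℕ} {H G : ℤ} (hH : 0 ≤ H) (hG : 0 ≤ G) (h2 : 2 ^ z + G * 2 ^ y ≤ 2 * H)
    (Q : ℤ[X][Y]) (k : ℕ) : n1 ((sg x y z H G)^[k] Q) ≤ (2 * H) ^ k * n1 Q := by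
  induction k with
  | zero => rw [pow_zero, one_mul, Function.iterate_zero_apply]
  | succ k ih =>
    rw [Function.iterate_succ_apply']
    have h3 : (0 : ℤ) ≤ 2 * H := by linarith
    have h4 : (2 * H) ^ (k + 1) * n1 Q = 2 * H * ((2 * H) ^ k * n1 Q) := by ring
    rw [h4]
    exact (E2_n1 hH hG h2 _).trans (mul_le_mul_of_nonneg_left ih h3)

/-- Row E2, last part (EASY-MEDIUM). The monomials with `x ≤ j` have total degree
`≤ E + (2 z - x) k` after `k` steps. Induction on `k`: the first summand of `sg Q` has no monomials with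
`x ≤ j`; the quotient `Q₁` has coefficient `0` at `(i, j)` if `E + (2 z - x) k < i + j + x`
(`coeff_divMod`), and `cC ^ z - G cB ^ y` has total degree `≤ 2 z` as `y ≤ z` (expand the coefficient
of the product, or: `Q₁ = 0` if `E + (2 z - x) k < x`, and otherwise `TD_mul`). -/
theorem sg_iter_high {x y z : ℕ} {H G : ℤ} (hyz : y ≤ z) (hx : x ≤ 2 * z) {Q : ℤ[X][Y]} {E : ℕ}
    (hQ : TD Q E) (k : ℕ) {i j : ℕ} (hj : x ≤ j) (hij : E + (2 * z - x) * k < i + j) :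
    ((((sg x y z H G)^[k] Q).coeff j).coeff i) = 0 := by
  induction k generalizing i j with
  | zero =>
    rw [Function.iterate_zero_apply]
    exact hQ i j (by omega)
  | succ k ih =>
    rw [Function.iterate_succ_apply']
    obtain ⟨P, hP⟩ : ∃ P, P = (sg x y z H G)^[k] Q := ⟨_, rfl⟩
    rw [← hP] at ih ⊢
    have hW : TD (cC ^ z - C (C G) * cB ^ y) (2 * z) :=
      TD_sub (TD_pow TD_cC.1 z) (TD_mono (TD_mul (TD_CC G) (TD_pow TD_cC.2.1 y)) (by omega))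
    have h1 : C (C H) * C X ^ x * (P %ₘ Y ^ x) = C (C H * X ^ x) * (P %ₘ Y ^ x) := by
      rw [C_mul, C_pow]
    unfold sg
    rw [coeff_add, coeff_add, h1, coeff_C_mul, (coeff_divMod P x j).1, if_neg (by omega), mul_zero,
      coeff_zero, zero_add]
    rcases Nat.lt_or_ge (E + (2 * z - x) * k) x with h2 | h2
    · have h3 : P /ₘ Y ^ x = 0 := by
        ext j' i'
        rw [(coeff_divMod P x j').2, coeff_zero, coeff_zero]
        exact ih (by omega) (by omega)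
      rw [h3, mul_zero, coeff_zero, coeff_zero]
    · have h3 : TD (P /ₘ Y ^ x) (E + (2 * z - x) * k - x) := by
        intro i' j' hij'
        rw [(coeff_divMod P x j').2]
        exact ih (by omega) (by omega)
      refine TD_mul hW h3 i j ?_
      rw [Nat.mul_succ] at hij
      omega

end PX91
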