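import Pool.Agent.LibPX91.W2
import Pool.Agent.LibJP91.B1

open Polynomial JP91
open scoped Polynomial.Bivariate

namespace PX91

private theorem E3_CX {k : Type*} [Field k] (P : k[X][Y]) (l i j : ℕ) :
    ((C X ^ l * P).coeff j).coeff i = if l ≤ i then (P.coeff j).coeff (i - l) else 0 := by
  rw [← C_pow, coeff_C_mul, coeff_X_pow_mul']

private theorem E3_step {k : Type*} [Field k] {f : k[X][Y]} {l : ℕ} {c : k} (hf : Top f l c)
    (hc : c ≠ 0) (hl : 1 ≤ l) (D : ℕ) (P : k[X][Y]) (hP : TD P D)
    (h0 : ∀ j < l, (P.coeff j).coeff (D - j) = 0) :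
    ∃ W V : k[X][Y], C X ^ l * P = f * W + V ∧ TD V (D + l - 1) := by
  classical
  rcases Nat.lt_or_ge D l with hD | hD
  · refine ⟨0, C X ^ l * P, by rw [mul_zero, zero_add], ?_⟩
    intro i j hij
    rw [E3_CX]
    split_ifs with h1
    · rcases Nat.lt_or_ge D (i - l + j) with h2 | h2
      · exact hP _ _ h2
      · have h3 : i - l = D - j := by omega
        rw [h3]
        exact h0 j (by omega)
    · rfl
  · obtain ⟨v, hv⟩ : ∃ v : k[X][Y], v = ∑ t ∈ Finset.range (D + 1 - l),
        monomial t (monomial (D - l - t) ((P.coeff (l + t)).coeff (D - l - t))) := ⟨_, rfl⟩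
    have hvc : ∀ i j, (v.coeff j).coeff i =
        if i + j = D - l then (P.coeff (l + j)).coeff i else 0 := by
      intro i j
      rw [hv, finsetSum_coeff, finsetSum_coeff]
      have h1 : ∀ t ∈ Finset.range (D + 1 - l), ((monomial t (monomial (D - l - t)
          ((P.coeff (l + t)).coeff (D - l - t))) : k[X][Y]).coeff j).coeff i =
          if t = j then (if D - l - t = i then (P.coeff (l + t)).coeff (D - l - t) else 0)
            else 0 := by
        intro t ht
        rw [coeff_monomial]
        split_ifs with h2 h3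
        · rw [coeff_monomial, if_pos h3]
        · rw [coeff_monomial, if_neg h3]
        · rw [coeff_zero]
      rw [Finset.sum_congr rfl h1, Finset.sum_ite_eq']
      by_cases h2 : j ∈ Finset.range (D + 1 - l)
      · rw [if_pos h2]
        have h3 := Finset.mem_range.1 h2
        by_cases h4 : D - l - j = i
        · rw [if_pos h4, if_pos (by omega), h4]
        · rw [if_neg h4, if_neg (by omega)]
      · rw [if_neg h2]
        rw [Finset.mem_range] at h2
        rw [if_neg (by omega)]
    have hW : ∀ i j, ((C (C c⁻¹) * v).coeff j).coeff i = c⁻¹ * (v.coeff j).coeff i := by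
      intro i j
      rw [coeff_C_mul, coeff_C_mul]
    have hWT : TD (C (C c⁻¹) * v) (D - l) := by
      intro i j hij
      rw [hW, hvc, if_neg (by omega), mul_zero]
    refine ⟨C (C c⁻¹) * v, C X ^ l * P - f * (C (C c⁻¹) * v), by ring, ?_⟩
    intro i j hij
    rw [coeff_sub, coeff_sub, sub_eq_zero, E3_CX]
    rcases Nat.lt_or_ge (D + l) (i + j) with h1 | h1
    · rw [TD_mul hf.1 hWT i j (by omega)]
      split_ifs with h2
      · exact hP _ _ (by omega)
      · rfl
    · have h2 : i + j = 2 * l + (D - l) := by omega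
      rw [top_mul hf hWT h2]
      by_cases h3 : l ≤ i
      · rw [if_pos h3]
        by_cases h4 : l ≤ j
        · rw [if_pos ⟨h3, h4⟩, hW, hvc, if_pos (by omega), ← mul_assoc, mul_inv_cancel₀ hc,
            one_mul, Nat.add_sub_cancel' h4]
        · rw [if_neg (fun h => h4 h.2)]
          have h5 : i - l = D - j := by omega
          rw [h5]
          exact h0 j (by omega)
      · rw [if_neg h3, if_neg (fun h => h3 h.1)]

/-- Row E3 (MEDIUM, ONLY MATHLIB and W2). Linear algebra at infinity: more than `l a` polynomials of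
total degree `≤ D` have a nontrivial combination `P` such that `r ^ K P = f W + V` with `V` of total
degree `≤ D + K - a`. Induction on `a`, for all `m`, `D`, `P` (same scheme as `la_field` in
LibJP91/B1.lean). `a = 0`: `K = 0`, `W = 0`, `V` = any of the combinations. Step from `a` to `a + 1`:
the linear map `κ ↦` (the coefficients of `r ^ (D - j) s ^ j`, `j < l`, in `∑ κ i • P i`) into `Fin l → k`
has a kernel of dimension `≥ m - l > l a`; let `κ₁, …, κ_{l a + 1}` be linearly independent elements of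
it and `P'_t = ∑ κ_t i • P i`. The form of degree `D` of `P'_t` is `s ^ l v_t`; with
`W_t = c⁻¹ v_t` one has `r ^ l P'_t = f W_t + V_t` with `V_t` of total degree `≤ D + l - 1`, or, if
`D + l = 0`, everything is `0` (`top_mul`; `v_t = ∑_{l ≤ j ≤ D} (coefficient) r ^ (D - j) s ^ (j - l)`, which
is `0` if `D < l`). Apply the induction hypothesis to the family `V_t`, `D + l - 1` and `a`. -/
theorem la_inf {k : Type*} [Field k] {f : k[X][Y]} {l : ℕ} {c : k} (hf : Top f l c) (hc : c ≠ 0)
    (hl : 1 ≤ l) (a D m : ℕ) (hm : l * a < m) (P : Fin m → k[X][Y]) (hP : ∀ i, TD (P i) D) :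
    ∃ b : Fin m → k, b ≠ 0 ∧ ∃ (K : ℕ) (W V : k[X][Y]),
      C X ^ K * ∑ i, C (C (b i)) * P i = f * W + V ∧
      ∀ i j : ℕ, D + K < i + j + a → (V.coeff j).coeff i = 0 := by
  induction a generalizing D m with
  | zero =>
    have hm' : 0 < m := by simpa using hm
    refine ⟨fun _ => 1, fun h => one_ne_zero (congrFun h ⟨0, hm'⟩), 0, 0, ∑ i, P i, ?_, ?_⟩
    · simp
    · intro i j hij
      exact TD_sum Finset.univ P (fun i _ => hP i) i j (by omega)
  | succ a ih =>
    -- the linear map
    let L : (Fin m → k) →ₗ[k] (Fin l → k) :=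
      { toFun := fun κ j => ∑ i, κ i * ((P i).coeff j).coeff (D - j)
        map_add' := fun κ κ' => by
          funext j
          rw [Pi.add_apply, ← Finset.sum_add_distrib]
          refine Finset.sum_congr rfl fun i _ => ?_
          rw [Pi.add_apply, add_mul]
        map_smul' := fun r κ => by
          funext j
          rw [RingHom.id_apply, Pi.smul_apply, smul_eq_mul, Finset.mul_sum]
          refine Finset.sum_congr rfl fun i _ => ?_
          rw [Pi.smul_apply, smul_eq_mul, mul_assoc] }
    have hr : Module.finrank k L.range ≤ l := by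
      have h1 := Submodule.finrank_le L.range
      rwa [Module.finrank_fin_fun] at h1
    have hsum := L.finrank_range_add_finrank_ker
    rw [Module.finrank_fin_fun] at hsum
    have hker : l * a < Module.finrank k L.ker := by
      have h1 : l * (a + 1) = l * a + l := by ring
      omega
    obtain ⟨b⟩ : Nonempty (Module.Basis (Fin (Module.finrank k L.ker)) k L.ker) :=
      ⟨Module.finBasis k L.ker⟩
    have hV : ∀ t : Fin (Module.finrank k L.ker), ∃ W V : k[X][Y],
        C X ^ l * ∑ i, C (C ((b t : Fin m → k) i)) * P i = f * W + V ∧ TD V (D + l - 1) := by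
      intro t
      refine E3_step hf hc hl D _ ?_ ?_
      · refine TD_sum Finset.univ _ fun i _ => ?_
        have h1 := TD_mul (TD_CC ((b t : Fin m → k) i)) (hP i)
        rwa [zero_add] at h1
      · intro j hj
        have h1 : L (b t : Fin m → k) = 0 := (b t).2
        have h2 := congrFun h1 ⟨j, hj⟩
        have h3 : ∑ i, (b t : Fin m → k) i * ((P i).coeff j).coeff (D - j) = 0 := h2
        rw [finsetSum_coeff, finsetSum_coeff, ← h3]
        refine Finset.sum_congr rfl fun i _ => ?_
        rw [coeff_C_mul, coeff_C_mul]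
    choose Wt Vt hWV hVT using hV
    obtain ⟨b', hb', K', W', V', hE, hC⟩ := ih (D + l - 1) _ hker Vt hVT
    refine ⟨((∑ t, b' t • b t : L.ker) : Fin m → k), ?_, K' + l,
      C X ^ K' * ∑ t, C (C (b' t)) * Wt t + W', V', ?_, ?_⟩
    · intro h
      have h1 : (∑ t, b' t • b t : L.ker) = 0 := Subtype.ext h
      exact hb' (funext fun t => Fintype.linearIndependent_iff.1 b.linearIndependent b' h1 t)
    · have h1 : ∑ i, C (C (((∑ t, b' t • b t : L.ker) : Fin m → k) i)) * P i =
          ∑ t, C (C (b' t)) * ∑ i, C (C ((b t : Fin m → k) i)) * P i := by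
        have h2 : ∀ i, C (C (((∑ t, b' t • b t : L.ker) : Fin m → k) i)) * P i =
            ∑ t, C (C (b' t)) * (C (C ((b t : Fin m → k) i)) * P i) := by
          intro i
          rw [Submodule.coe_sum, Finset.sum_apply, map_sum, map_sum, Finset.sum_mul]
          refine Finset.sum_congr rfl fun t _ => ?_
          rw [Submodule.coe_smul, Pi.smul_apply, smul_eq_mul, C_mul, C_mul, mul_assoc]
        rw [Finset.sum_congr rfl fun i _ => h2 i, Finset.sum_comm]
        refine Finset.sum_congr rfl fun t _ => ?_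
        rw [Finset.mul_sum]
      rw [h1]
      have h4 : C X ^ l * ∑ t, C (C (b' t)) * ∑ i, C (C ((b t : Fin m → k) i)) * P i =
          f * ∑ t, C (C (b' t)) * Wt t + ∑ t, C (C (b' t)) * Vt t := by
        rw [Finset.mul_sum, Finset.mul_sum, ← Finset.sum_add_distrib]
        refine Finset.sum_congr rfl fun t _ => ?_
        linear_combination C (C (b' t)) * hWV t
      rw [pow_add, mul_assoc, h4, mul_add, hE]
      ring
    · intro i j hij
      exact hC i j (by omega)

/-- Row E3, second part (EASY). Over `ℤ`: apply the first part over `ℚ` to the mapped polynomials and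
clear the denominators (of the `b i`, and of the coefficients of `W` and `V`), as in `la_int` of
LibJP91/B1.lean. -/
theorem la_inf_int {f : ℤ[X][Y]} {l : ℕ} {c : ℤ} (hf : Top f l c) (hc : c ≠ 0)
    (hl : 1 ≤ l) (a D m : ℕ) (hm : l * a < m) (P : Fin m → ℤ[X][Y]) (hP : ∀ i, TD (P i) D) :
    ∃ b : Fin m → ℤ, b ≠ 0 ∧ ∃ (κ : ℤ) (K : ℕ) (W V : ℤ[X][Y]), κ ≠ 0 ∧
      C (C κ) * C X ^ K * ∑ i, C (C (b i)) * P i = f * W + V ∧
      ∀ i j : ℕ, D + K < i + j + a → (V.coeff j).coeff i = 0 := by
  obtain ⟨φ, hφ⟩ : ∃ φ : ℤ[X] →+* ℚ[X], φ = mapRingHom (Int.castRingHom ℚ) := ⟨_, rfl⟩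
  have hinj0 : Function.Injective (Int.castRingHom ℚ) := RingHom.injective_int _
  have hφinj : Function.Injective φ := by
    rw [hφ]
    exact Polynomial.map_injective _ hinj0
  have hφC : ∀ z : ℤ, φ (C z) = C (z : ℚ) := by
    intro z
    rw [hφ, coe_mapRingHom, map_C, eq_intCast]
  have hφX : φ X = X := by
    rw [hφ, coe_mapRingHom, map_X]
  have hco : ∀ (Q : ℤ[X][Y]) (i j : ℕ), ((Q.map φ).coeff j).coeff i = ((Q.coeff j).coeff i : ℚ) := by
    intro Q i j
    rw [coeff_map, hφ, coe_mapRingHom, coeff_map, eq_intCast]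
  have hTD : ∀ (Q : ℤ[X][Y]) (T : ℕ), TD Q T → TD (Q.map φ) T := by
    intro Q T hQ i j hij
    rw [hco, hQ i j hij, Int.cast_zero]
  have hfQ : Top (f.map φ) l (c : ℚ) := by
    refine ⟨hTD _ _ hf.1, ?_⟩
    intro i j hij
    rw [hco, hf.2 i j hij]
    split_ifs
    · rfl
    · exact Int.cast_zero
  obtain ⟨b, hb, K, W, V, hWV, hV⟩ := la_inf hfQ (by exact_mod_cast hc) hl a D m hm
    (fun i => (P i).map φ) (fun i => hTD _ _ (hP i))
  obtain ⟨N, hN, b', hb'⟩ := B1_den_fun b
  obtain ⟨N1, hN1, W1, hW1⟩ := B1_den2 W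
  obtain ⟨N2, hN2, V1, hV1⟩ := B1_den2 V
  rw [← hφ] at hW1 hV1
  have e2 : ∀ (z : ℤ) (p : ℚ[X][Y]), z • p = C (C (z : ℚ)) * p := by
    intro z p
    rw [zsmul_eq_mul]
    congr 1
  refine ⟨b', ?_, N1 * N2, K, C (C (N * N2)) * W1, C (C (N * N1)) * V1, mul_ne_zero hN1 hN2, ?_,
    ?_⟩
  · intro h
    refine hb (funext fun i => ?_)
    have h1 := hb' i
    rw [h, Pi.zero_apply, Int.cast_zero] at h1
    rcases mul_eq_zero.1 h1.symm with h2 | h2
    · exact absurd (by exact_mod_cast h2) hN
    · exact h2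
  · refine Polynomial.map_injective φ hφinj ?_
    have e1 : ∀ z : ℤ, (C (C z) : ℤ[X][Y]).map φ = C (C (z : ℚ)) := by
      intro z
      rw [map_C, hφC]
    have e4 : (C X : ℤ[X][Y]).map φ = C X := by rw [map_C, hφX]
    rw [Polynomial.map_mul, Polynomial.map_mul, Polynomial.map_add, Polynomial.map_mul,
      Polynomial.map_mul, Polynomial.map_mul, Polynomial.map_pow,
      e4, Polynomial.map_sum, hW1, hV1, e1, e1, e1, e2, e2]
    have e3 : ∀ i, (C (C (b' i)) * P i).map φ = C (C (N : ℚ)) * (C (C (b i)) * (P i).map φ) := by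
      intro i
      rw [Polynomial.map_mul, e1, hb' i, C_mul, C_mul, mul_assoc]
    rw [Finset.sum_congr rfl fun i _ => e3 i, ← Finset.mul_sum]
    push_cast
    rw [C_mul, C_mul, C_mul, C_mul, C_mul, C_mul]
    linear_combination (C (C (N1 : ℚ)) * C (C (N2 : ℚ)) * C (C (N : ℚ))) * hWV
  · intro i j hij
    rw [coeff_C_mul, coeff_C_mul]
    have h1 : (((V1.coeff j).coeff i : ℤ) : ℚ) = 0 := by
      rw [← hco, hV1, e2, coeff_C_mul, coeff_C_mul, hV i j hij, mul_zero]
    rw [Int.cast_eq_zero.1 h1, mul_zero]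

end PX91
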