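import Pool.Agent.LibPX91.W1

open Polynomial JP91
open scoped Polynomial.Bivariate

namespace PX91

private theorem W3_self {R : Type*} [CommRing R] {p : R[X]}
    (h : p.natTrailingDegree = p.natDegree) : p = monomial p.natDegree p.leadingCoeff := by
  ext k
  rw [coeff_monomial]
  split_ifs with hk
  · rw [← hk]
    rfl
  · rcases Nat.lt_or_gt_of_ne hk with h1 | h1
    · exact coeff_eq_zero_of_natDegree_lt h1
    · exact coeff_eq_zero_of_lt_natTrailingDegree (by omega)

private theorem W3_mono {R : Type*} [CommRing R] [IsDomain R] {p q : R[X]} {r : R} {n : ℕ}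
    (hr : r ≠ 0) (h : p * q = monomial n r) : ∃ (j k : ℕ) (p' q' : R), j + k = n ∧
      p = monomial j p' ∧ q = monomial k q' ∧ p' * q' = r := by
  have hpq : p * q ≠ 0 := by
    rw [h, Ne, monomial_eq_zero_iff]
    exact hr
  have hp : p ≠ 0 := left_ne_zero_of_mul hpq
  have hq : q ≠ 0 := right_ne_zero_of_mul hpq
  have h1 : p.natDegree + q.natDegree = n := by
    rw [← natDegree_mul hp hq, h, natDegree_monomial_eq _ hr]
  have h2 : p.natTrailingDegree + q.natTrailingDegree = n := by
    rw [← natTrailingDegree_mul hp hq, h, natTrailingDegree_monomial hr]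
  have h3 := natTrailingDegree_le_natDegree p
  have h4 := natTrailingDegree_le_natDegree q
  have h5 := W3_self (p := p) (by omega)
  have h6 := W3_self (p := q) (by omega)
  refine ⟨p.natDegree, q.natDegree, p.leadingCoeff, q.leadingCoeff, h1, h5, h6, ?_⟩
  have h7 := leadingCoeff_mul p q
  rw [h, leadingCoeff_monomial] at h7
  exact h7.symm

/-- Row W3 (EASY-MEDIUM). The coefficients of the weighted substitution. Both sides are additive in
`Q`; for `Q = monomial j (monomial i c) = C (C c) * C X ^ i * Y ^ j` one has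
`wt a b Q = C (C (C c)) * C (C X) ^ i * C Y ^ j * X ^ (a i + b j)`. -/
theorem coeff_wt (a b : ℕ) (Q : ℤ[X][Y]) (m i j : ℕ) :
    (((wt a b Q).coeff m).coeff j).coeff i =
      if a * i + b * j = m then (Q.coeff j).coeff i else 0 := by
  induction Q using Polynomial.induction_on' with
  | add p q hp hq =>
    rw [map_add, coeff_add, coeff_add, coeff_add, hp, hq, coeff_add, coeff_add]
    split_ifs <;> simp
  | monomial j₀ p =>
    induction p using Polynomial.induction_on' with
    | add p q hp hq =>
      rw [map_add, map_add, coeff_add, coeff_add, coeff_add, hp, hq, coeff_add, coeff_add]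
      split_ifs <;> simp
    | monomial i₀ c =>
      have h1 : wt a b (monomial j₀ (monomial i₀ c)) =
          C (C (C c) * C (X ^ i₀) * Y ^ j₀ : ℤ[X][Y]) * X ^ (a * i₀ + b * j₀) := by
        rw [← C_mul_X_pow_eq_monomial, ← C_mul_X_pow_eq_monomial]
        simp only [wt, map_mul, map_pow, coe_eval₂RingHom, eval₂_C, eval₂_X, RingHom.comp_apply]
        ring
      rw [h1, coeff_C_mul, coeff_X_pow]
      by_cases hm : m = a * i₀ + b * j₀
      · rw [if_pos hm, mul_one, mul_assoc, coeff_C_mul, coeff_C_mul, coeff_C_mul, coeff_X_pow,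
          coeff_monomial]
        by_cases hj : j = j₀
        · subst hj
          rw [if_pos rfl, if_pos rfl, mul_one, coeff_X_pow, coeff_monomial]
          by_cases hi : i = i₀
          · subst hi
            rw [if_pos rfl, if_pos hm.symm, if_pos rfl, mul_one]
          · rw [if_neg hi, if_neg (Ne.symm hi), mul_zero]
            simp
        · rw [if_neg hj, if_neg (Ne.symm hj), mul_zero]
          simp
      · rw [if_neg hm, mul_zero, coeff_zero, coeff_zero]
        split_ifs with h
        · rw [coeff_monomial]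
          split_ifs with hj
          · subst hj
            rw [coeff_monomial, if_neg]
            rintro rfl
            exact hm h.symm
          · simp
        · rfl

/-- Row W3, second part (EASY). -/
theorem wt_le_iff (a b : ℕ) (Q : ℤ[X][Y]) (T : ℕ) : (wt a b Q).natDegree ≤ T ↔
    ∀ i j : ℕ, T < a * i + b * j → (Q.coeff j).coeff i = 0 := by
  rw [natDegree_le_iff_coeff_eq_zero]
  constructor
  · intro h i j hij
    have h1 := coeff_wt a b Q (a * i + b * j) i j
    rw [if_pos rfl, h _ hij] at h1
    rw [← h1]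
    simp
  · intro h m hm
    ext j i
    rw [coeff_wt]
    split_ifs with h1
    · rw [h i j (by omega)]
      simp
    · simp

/-- Row W3, third part (EASY). -/
theorem le_wt (a b : ℕ) {Q : ℤ[X][Y]} {i j : ℕ} (h : (Q.coeff j).coeff i ≠ 0) :
    a * i + b * j ≤ (wt a b Q).natDegree := by
  by_contra hcon
  exact h ((wt_le_iff a b Q _).1 le_rfl i j (by omega))

/-- Row W3, fourth part (EASY). `wt a b` is injective, and the degree of a product in a domain. -/
theorem wt_mul (a b : ℕ) {f g : ℤ[X][Y]} (hf : f ≠ 0) (hg : g ≠ 0) :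
    (wt a b (f * g)).natDegree = (wt a b f).natDegree + (wt a b g).natDegree := by
  have h0 : ∀ {g : ℤ[X][Y]}, g ≠ 0 → wt a b g ≠ 0 := by
    intro g hg h
    apply hg
    ext j i
    have h1 := coeff_wt a b g (a * i + b * j) i j
    rw [if_pos rfl, h] at h1
    rw [← h1]
    simp
  rw [map_mul, natDegree_mul (h0 hf) (h0 hg)]

/-- Row W3, fifth part (EASY). A product of two polynomials which is a monomial: both are monomials
(`natDegree` and `natTrailingDegree` are additive in the domains `ℤ[X][Y]` and `ℤ[X]`). -/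
theorem of_mul_eq_monomial {p q : ℤ[X][Y]} {c : ℤ} {m n : ℕ} (hc : c ≠ 0)
    (h : p * q = C (C c) * C X ^ m * Y ^ n) :
    ∃ (a : ℤ) (i j : ℕ), a ≠ 0 ∧ i ≤ m ∧ j ≤ n ∧ p = C (C a) * C X ^ i * Y ^ j := by
  have h1 : p * q = monomial n (monomial m c) := by
    rw [h, ← C_mul_X_pow_eq_monomial, ← C_mul_X_pow_eq_monomial, C_mul, C_pow]
  obtain ⟨j, k, p', q', hj, hp, hq, h2⟩ := W3_mono (by rw [Ne, monomial_eq_zero_iff]; exact hc) h1
  obtain ⟨i, k', a, b, hi, hp', hq', h3⟩ := W3_mono hc h2
  refine ⟨a, i, j, ?_, by omega, by omega, ?_⟩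
  · rintro rfl
    rw [zero_mul] at h3
    exact hc h3.symm
  · rw [hp, hp', ← C_mul_X_pow_eq_monomial, ← C_mul_X_pow_eq_monomial, C_mul, C_pow]

end PX91
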