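import Pool.Agent.LibPX91.W2
import Pool.Agent.LibPX91.W3
import Pool.Agent.LibJP91.A3

open Polynomial JP91
open scoped Polynomial.Bivariate

namespace PX91

private theorem N1_cA (x i j : ℕ) :
    ((cA ^ x).coeff j).coeff i = if i = x ∧ j = x then (1 : ℤ) else 0 := by
  have h : cA ^ x = C (X ^ x) * (X : ℤ[X][Y]) ^ x := by rw [cA, mul_pow, C_pow]
  rw [h, coeff_C_mul_X_pow]
  by_cases hj : j = x
  · rw [if_pos hj, coeff_X_pow]
    by_cases hi : i = x
    · rw [if_pos hi, if_pos ⟨hi, hj⟩]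
    · rw [if_neg hi, if_neg fun h => hi h.1]
  · rw [if_neg hj, coeff_zero, if_neg fun h => hj h.2]

private theorem N1_wtX (a b : ℕ) : wt a b (C X) = C (C X) * X ^ a := by
  simp [wt]

private theorem N1_wtY (a b : ℕ) : wt a b Y = C (Y : ℤ[X][Y]) * X ^ b := by
  simp [wt]

private theorem N1_wtC (a b : ℕ) (c : ℤ) : wt a b (C (C c)) = C (C (C c)) := by
  simp [wt]

private theorem N1_deg {x y z n a b : ℕ} (H G : ℤ) (hy : y ≤ n) (hz : z ≤ n) (ha : a ≤ x)
    (hb : b ≤ x) (hab : a + b = 2 * n) : (wt a b (FF x y z H G)).natDegree ≤ 2 * n * x := by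
  have hX : (wt a b (C X)).natDegree ≤ a := by
    rw [N1_wtX]
    exact natDegree_C_mul_X_pow_le _ _
  have hY : (wt a b Y).natDegree ≤ b := by
    rw [N1_wtY]
    exact natDegree_C_mul_X_pow_le _ _
  have hX2 : (wt a b (C X) ^ 2).natDegree ≤ 2 * x :=
    natDegree_pow_le.trans (Nat.mul_le_mul_left 2 (hX.trans ha))
  have hY2 : (wt a b Y ^ 2).natDegree ≤ 2 * x :=
    natDegree_pow_le.trans (Nat.mul_le_mul_left 2 (hY.trans hb))
  have hC : (wt a b cC).natDegree ≤ 2 * x := by
    rw [cC, map_add, map_pow, map_pow]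
    exact natDegree_add_le_of_degree_le hX2 hY2
  have hB : (wt a b cB).natDegree ≤ 2 * x := by
    rw [cB, map_sub, map_pow, map_pow]
    exact (natDegree_sub_le _ _).trans (max_le hX2 hY2)
  have hA : (wt a b cA).natDegree ≤ 2 * n := by
    rw [cA, map_mul, ← hab]
    exact natDegree_mul_le.trans (Nat.add_le_add hX hY)
  have hCC : ∀ c : ℤ, ∀ Q : ℤ[X][Y][X], (wt a b (C (C c)) * Q).natDegree ≤ Q.natDegree := by
    intro c Q
    rw [N1_wtC]
    exact natDegree_C_mul_le _ _
  have h1 : (wt a b cC ^ z).natDegree ≤ 2 * n * x := by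
    calc (wt a b cC ^ z).natDegree ≤ z * (wt a b cC).natDegree := natDegree_pow_le
      _ ≤ n * (2 * x) := Nat.mul_le_mul hz hC
      _ = 2 * n * x := by ring
  have h2 : (wt a b cB ^ y).natDegree ≤ 2 * n * x := by
    calc (wt a b cB ^ y).natDegree ≤ y * (wt a b cB).natDegree := natDegree_pow_le
      _ ≤ n * (2 * x) := Nat.mul_le_mul hy hB
      _ = 2 * n * x := by ring
  have h3 : (wt a b cA ^ x).natDegree ≤ 2 * n * x := by
    calc (wt a b cA ^ x).natDegree ≤ x * (wt a b cA).natDegree := natDegree_pow_le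
      _ ≤ x * (2 * n) := Nat.mul_le_mul_left x hA
      _ = 2 * n * x := by ring
  rw [FF, map_sub, map_sub, map_mul, map_mul, map_pow, map_pow, map_pow]
  refine (natDegree_sub_le _ _).trans (max_le ?_ ((hCC G _).trans h2))
  exact (natDegree_sub_le _ _).trans (max_le h1 ((hCC H _).trans h3))

/-- Row N1 (EASY). The top form of `FF` if `x > max y z`: `- H (r s) ^ x`, as `2 y, 2 z < 2 x`. -/
theorem FF_top {x y z : ℕ} (H G : ℤ) (hn : max y z < x) : Top (FF x y z H G) x (-H) := by
  have hy : y < x := (le_max_left y z).trans_lt hn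
  have hz : z < x := (le_max_right y z).trans_lt hn
  have t1 : TD (cC ^ z) (2 * z) := TD_pow TD_cC.1 z
  have t2 : TD (C (C G) * cB ^ y) (2 * y) := by
    have h := TD_mul (TD_CC G) (TD_pow TD_cC.2.1 y)
    rwa [zero_add] at h
  have t3 : TD (C (C H) * cA ^ x) (2 * x) := by
    have h := TD_mul (TD_CC H) (TD_pow TD_cC.2.2 x)
    rwa [zero_add] at h
  refine ⟨TD_sub (TD_sub (TD_mono t1 (by omega)) t3) (TD_mono t2 (by omega)), fun i j hij => ?_⟩
  rw [FF, coeff_sub, coeff_sub, coeff_sub, coeff_sub, t1 i j (by omega), t2 i j (by omega),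
    coeff_C_mul, coeff_C_mul, N1_cA]
  by_cases hi : i = x
  · rw [if_pos ⟨hi, by omega⟩, if_pos hi]
    ring
  · rw [if_neg fun h => hi h.1, if_neg hi]
    ring

/-- Row N1, second part (EASY). The Newton polygon of `FF`: with `n = max y z`, `v = 2 n - x`, the
weight of `r` equal to `v` and that of `s` equal to `x`: `wt v x cC` and `wt v x cB` have degree
`≤ 2 x`, `wt v x cA` has degree `v + x = 2 n`; so all three terms have weight `≤ 2 n x`. -/
theorem FF_wt {x y z : ℕ} (H G : ℤ) (hn : max y z < x) (hx : x < 2 * max y z) :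
    (wt (2 * max y z - x) x (FF x y z H G)).natDegree ≤ 2 * max y z * x ∧
      (wt x (2 * max y z - x) (FF x y z H G)).natDegree ≤ 2 * max y z * x := by
  have hy : y ≤ max y z := le_max_left y z
  have hz : z ≤ max y z := le_max_right y z
  exact ⟨N1_deg H G hy hz (by omega) le_rfl (by omega),
    N1_deg H G hy hz le_rfl (by omega) (by omega)⟩

end PX91
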