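import Pool.Agent.LibPX91.E2
import Pool.Agent.LibPX91.N1

open Polynomial JP91
open scoped Polynomial.Bivariate

namespace PX91

private theorem E4_coeff {κ : ℤ} (K : ℕ) (R : ℤ[X][Y]) (i j : ℕ) :
    ((C (C κ) * C X ^ K * R).coeff j).coeff (i + K) = κ * (R.coeff j).coeff i := by
  have h : (C (C κ) * C X ^ K * R : ℤ[X][Y]) = C (C κ * X ^ K) * R := by
    rw [C_mul, C_pow]
  rw [h, coeff_C_mul, mul_assoc, coeff_C_mul, coeff_X_pow_mul]

/-- Row E4 (MEDIUM). If `κ r ^ K P = f W + V` with `V` of total degree `≤ D + K - a`, then the reduction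
`R = sg^[k] (P g)`, `FF = f g`, `a = 2 (x - z) k`, has total degree `≤ E + (2 z - x) k`, `E = D + 2 x`.
`g` has total degree `≤ 2 x` (`td_cofactor` for `f`, or `TD` hypothesis `hg`). Modulo `FF`:
`κ r ^ K R = κ r ^ K (H r ^ x) ^ k P g = (H r ^ x) ^ k V g` (`sg_iter_dvd`). Suppose that `R` has
total degree `T > E + (2 z - x) k` (`TD_exists`), with a monomial `(i, j)`, `i + j = T`; then `j < x` by
`sg_iter_high`. The polynomial `M = κ r ^ K R - (H r ^ x) ^ k V g` is a multiple of `FF` of total degree
`≤ K + T`, because the second term has total degree `≤ x k + (E + K - a) = K + E + (2 z - x) k < K + T`;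
by `top_dvd` with `FF_top` its coefficient at `(i + K, j)` is `0`, but it is `κ` times that of `R` at
`(i, j)`. (The subtraction `E + K - a` is meant in the form: the coefficients of `V g` at `(i, j)` vanish
if `E + K < i + j + a`; expand the coefficients of the product.) -/
theorem sg_low {x y z : ℕ} {H G : ℤ} (hyz : y < z) (hzx : z < x) (hx : x < 2 * z) (hH : H ≠ 0)
    {f g P W V : ℤ[X][Y]} (hfg : FF x y z H G = f * g) (hg : TD g (2 * x)) {D : ℕ} (hP : TD P D)
    {κ : ℤ} (hκ : κ ≠ 0) {K k : ℕ} (h1 : C (C κ) * C X ^ K * P = f * W + V)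
    (h2 : ∀ i j : ℕ, D + K < i + j + 2 * (x - z) * k → (V.coeff j).coeff i = 0) :
    TD ((sg x y z H G)^[k] (P * g)) (D + 2 * x + (2 * z - x) * k) := by
  set R := (sg x y z H G)^[k] (P * g) with hR
  by_cases hR0 : R = 0
  · intro i j _
    rw [hR0]; simp
  obtain ⟨T, i, j, hT, hij, hne⟩ := TD_exists hR0
  by_cases hle : T ≤ D + 2 * x + (2 * z - x) * k
  · exact TD_mono hT hle
  push Not at hle
  exfalso
  have hj : j < x := by
    by_contra hc
    push Not at hc
    refine hne (sg_iter_high hyz.le hx.le (TD_mul hP hg) k hc ?_)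
    rw [hij]; exact hle
  set U : ℤ[X][Y] := (C (C H) * C X ^ x) ^ k with hU
  have hUTD : TD U (x * k) := by
    have h0 : TD (C (C H) * C X ^ x : ℤ[X][Y]) x := by
      have := TD_mul (TD_CC (R := ℤ) H) (TD_pow (TD_CX (R := ℤ)) x)
      simpa using this
    exact TD_pow h0 k
  have hsecond : ∀ i' j' : ℕ, K + T ≤ i' + j' → (((U * V * g).coeff j').coeff i') = 0 := by
    by_cases hc : D + K < 2 * (x - z) * k
    · have hV : V = 0 := by
        ext b a
        rw [h2 a b (by omega)]
        simp
      intro i' j' _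
      rw [hV]; simp
    · push Not at hc
      have hVTD : TD V (D + K - 2 * (x - z) * k) := by
        intro a b hab
        exact h2 a b (by omega)
      have hTD := TD_mul (TD_mul hUTD hVTD) hg
      intro i' j' hij'
      refine hTD i' j' (lt_of_lt_of_le ?_ hij')
      obtain ⟨u, hu⟩ := Nat.exists_eq_add_of_lt hzx
      have hxz : x - z = u + 1 := by omega
      obtain ⟨v, hv⟩ := Nat.exists_eq_add_of_lt hx
      have h2zx : 2 * z - x = v + 1 := by omega
      have hxk : x * k = 2 * (x - z) * k + (2 * z - x) * k := by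
        rw [← add_mul]
        congr 1
        omega
      omega
  set M : ℤ[X][Y] := C (C κ) * C X ^ K * R - U * V * g with hM
  have hdvd : FF x y z H G ∣ M := by
    have e : M = -(C (C κ) * C X ^ K) * (U * (P * g) - R) + FF x y z H G * (U * W) := by
      have h1' : U * g * (C (C κ) * C X ^ K * P) = U * g * (f * W + V) := by rw [h1]
      rw [hM, hfg]
      linear_combination h1'
    rw [e]
    exact dvd_add (Dvd.dvd.mul_left (sg_iter_dvd x y z H G (P * g) k) _) (dvd_mul_right _ _)
  have hMTD : TD M (K + T) := by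
    refine TD_sub ?_ ?_
    · have := TD_mul (TD_mul (TD_CC (R := ℤ) κ) (TD_pow (TD_CX (R := ℤ)) K)) hT
      simpa using this
    · intro a b hab
      exact hsecond a b (by omega)
  have hmax : max y z < x := by
    rw [max_eq_right hyz.le]; exact hzx
  have hfin := top_dvd (FF_top H G hmax) (neg_ne_zero.mpr hH) hdvd hMTD
    (i := i + K) (j := j) (by omega) hj
  rw [hM, coeff_sub, coeff_sub, E4_coeff, hsecond (i + K) j (by omega), sub_zero] at hfin
  exact (mul_ne_zero hκ hne) hfin

end PX91
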