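import Pool.Agent.LibPX91.E1

open Polynomial JP91
open scoped Polynomial.Bivariate

namespace PX91

/-- the value at `ζ` of the coefficients, `r ↦ ζ` -/
private noncomputable def E5_ev (ζ : ℂ) : ℤ[X] →+* ℂ := eval₂RingHom (Int.castRingHom ℂ) ζ

private theorem E5_ev_apply (ζ : ℂ) (p : ℤ[X]) :
    E5_ev ζ p = (p.map (Int.castRingHom ℂ)).eval ζ := by
  rw [eval_map]
  rfl

private theorem E5_ev_le {ζ : ℂ} (hζ : ‖ζ‖ = 1) (p : ℤ[X]) :
    ‖E5_ev ζ p‖ ≤ ((p.sum fun _ a => |a| : ℤ) : ℝ) := by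
  have h1 : E5_ev ζ p = p.sum fun i a => ((a : ℤ) : ℂ) * ζ ^ i := by
    show eval₂ (Int.castRingHom ℂ) ζ p = _
    rw [eval₂_eq_sum]
    rfl
  rw [h1, Polynomial.sum, Polynomial.sum, Int.cast_sum]
  refine (norm_sum_le _ _).trans (Finset.sum_le_sum fun i _ => ?_)
  rw [norm_mul, norm_pow, hζ, one_pow, mul_one, Int.cast_abs, Complex.norm_intCast]

private theorem E5_sum_le {ζ : ℂ} (hζ : ‖ζ‖ = 1) (F : ℤ[X][Y]) :
    ((F.map (E5_ev ζ)).sum fun _ a => ‖a‖) ≤ (n1 F : ℝ) := by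
  unfold n1
  rw [Polynomial.sum, Polynomial.sum, Int.cast_sum]
  refine (Finset.sum_le_sum_of_subset_of_nonneg (Polynomial.support_map_subset (E5_ev ζ) F)
    fun i _ _ => norm_nonneg _).trans (Finset.sum_le_sum fun i _ => ?_)
  rw [coeff_map]
  exact E5_ev_le hζ _

private theorem E5_natDegree {f g F : ℤ[X][Y]} (hf : f.Monic) (hfg : F = f * g) {a : ℕ}
    (ha : F.natDegree ≤ a) : g.natDegree ≤ a := by
  rcases eq_or_ne g 0 with rfl | hg
  · rw [natDegree_zero]
    exact Nat.zero_le _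
  · rw [hfg, hf.natDegree_mul' hg] at ha
    omega

private theorem E5_val {f g F : ℤ[X][Y]} (hf : f.Monic) (hfg : F = f * g) {a : ℕ}
    (ha : F.natDegree ≤ a) {ζ : ℂ} (hζ : ‖ζ‖ = 1) (j : ℕ) :
    ‖E5_ev ζ (g.coeff j)‖ ≤ 2 ^ a * (n1 F : ℝ) := by
  have h1 : (F.map (E5_ev ζ)).mahlerMeasure =
      (f.map (E5_ev ζ)).mahlerMeasure * (g.map (E5_ev ζ)).mahlerMeasure := by
    rw [hfg, Polynomial.map_mul, mahlerMeasure_mul]
  have h2 : 1 ≤ (f.map (E5_ev ζ)).mahlerMeasure := by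
    apply one_le_mahlerMeasure_of_one_le_norm_leadingCoeff
    rw [(hf.map (E5_ev ζ)).leadingCoeff, norm_one]
  have h3 : (g.map (E5_ev ζ)).mahlerMeasure ≤ (n1 F : ℝ) := by
    refine le_trans ?_ ((mahlerMeasure_le_sum_norm_coeff _).trans (E5_sum_le hζ F))
    rw [h1]
    exact le_mul_of_one_le_left (mahlerMeasure_nonneg _) h2
  have h4 := norm_coeff_le_choose_mul_mahlerMeasure j (g.map (E5_ev ζ))
  rw [coeff_map] at h4
  refine h4.trans ?_
  have h5 : (((g.map (E5_ev ζ)).natDegree.choose j : ℕ) : ℝ) ≤ 2 ^ a := by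
    have h6 : (g.map (E5_ev ζ)).natDegree.choose j ≤ 2 ^ a :=
      (Nat.choose_le_two_pow _ _).trans (Nat.pow_le_pow_right (by norm_num)
        (natDegree_map_le.trans (E5_natDegree hf hfg ha)))
    exact_mod_cast h6
  exact mul_le_mul h5 h3 (mahlerMeasure_nonneg _) (by positivity)

private theorem E5_coeff {f g F : ℤ[X][Y]} (hf : f.Monic) (hfg : F = f * g) {a : ℕ}
    (ha : F.natDegree ≤ a) (i j : ℕ) :
    |(((g.coeff j).coeff i : ℤ) : ℝ)| ≤ 2 ^ a * (n1 F : ℝ) := by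
  set p : ℂ[X] := (g.coeff j).map (Int.castRingHom ℂ) with hp
  have hB : (0 : ℝ) ≤ 2 ^ a * (n1 F : ℝ) :=
    mul_nonneg (by positivity) (by exact_mod_cast n1_nonneg F)
  have h1 : ∑ i ∈ p.support, ‖p.coeff i‖ ^ 2 ≤ (2 ^ a * (n1 F : ℝ)) ^ 2 := by
    rw [sum_sq_norm_coeff_eq_circleAverage]
    apply Real.circleAverage_mono_on_of_le_circle
    · apply ContinuousOn.circleIntegrable (by norm_num)
      exact (p.continuous.norm.pow 2).continuousOn
    · intro x hx
      have hx1 : ‖x‖ = 1 := by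
        have := mem_sphere_zero_iff_norm.1 hx
        rwa [abs_one] at this
      have h2 := E5_val hf hfg ha hx1 j
      rw [E5_ev_apply] at h2
      exact pow_le_pow_left₀ (norm_nonneg _) h2 2
  have h2 : ‖p.coeff i‖ ^ 2 ≤ (2 ^ a * (n1 F : ℝ)) ^ 2 := by
    by_cases hi : i ∈ p.support
    · exact (Finset.single_le_sum (f := fun i => ‖p.coeff i‖ ^ 2) (fun _ _ => by positivity) hi).trans h1
    · rw [notMem_support_iff.1 hi, norm_zero, zero_pow two_ne_zero]
      positivity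
  have h3 := abs_le_of_sq_le_sq h2 hB
  rw [hp, coeff_map, abs_norm] at h3
  have h4 : ‖(Int.castRingHom ℂ) ((g.coeff j).coeff i)‖ = |(((g.coeff j).coeff i : ℤ) : ℝ)| := by
    show ‖(((g.coeff j).coeff i : ℤ) : ℂ)‖ = _
    rw [Complex.norm_intCast]
  rwa [h4] at h3

/-- Row E5 (ONLY MATHLIB and E1, MEDIUM). The norm of a cofactor of a monic factor. For `ζ` on the unit
circle let `f_ζ, g_ζ, F_ζ ∈ ℂ[X]` be the images under `r ↦ ζ` (map by
`eval₂RingHom (Int.castRingHom ℂ) ζ : ℤ[X] →+* ℂ`). `f_ζ` is monic, so its Mahler measure is `≥ 1`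
(`one_le_mahlerMeasure_of_one_le_norm_leadingCoeff`), and by `mahlerMeasure_mul`,
`mahlerMeasure_le_sum_norm_coeff`: `M(g_ζ) ≤ M(F_ζ) ≤ n1 F`. By
`norm_coeff_le_choose_mul_mahlerMeasure` each coefficient `g_j(ζ)` of `g_ζ` is at most
`2 ^ a n1 F` in absolute value. So each coefficient of `g_j` is at most `2 ^ a n1 F`: it is the mean over
the circle of `g_j(ζ) ζ ^ (-i)` (a finite mean over the roots of unity of large order, or
`circleAverage`/`circleIntegral`, or the files Analysis/Polynomial/Fourier.lean and MahlerMeasure.lean: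
the coefficients are at most `2 ^ b` times the Mahler measure of `g_j`, so with the bound
`2 ^ (a + b)` as in the statement this is enough). Then `n1_le`. -/
theorem cof_norm {f g F : ℤ[X][Y]} (hf : f.Monic) (hfg : F = f * g) {a b : ℕ}
    (ha : F.natDegree ≤ a) (hb : ∀ j, (g.coeff j).natDegree ≤ b) :
    n1 g ≤ (a + 1) * (b + 1) * 2 ^ (a + b) * n1 F := by
  rw [mul_assoc]
  refine n1_le (E5_natDegree hf hfg ha) hb fun i j => ?_
  have h1 := E5_coeff hf hfg ha i j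
  have h2 : |(g.coeff j).coeff i| ≤ 2 ^ a * n1 F := by exact_mod_cast h1
  refine h2.trans (mul_le_mul_of_nonneg_right ?_ (n1_nonneg F))
  exact pow_le_pow_right₀ (by norm_num) (Nat.le_add_right a b)

end PX91
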