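import Mathlib

namespace PX91

attribute [local instance] Matrix.seminormedAddCommGroup in
private theorem E6_siegel {ι κ : Type*} [Fintype ι] [Fintype κ] (A : Matrix ι κ ℤ) (B : ℕ) (hB : 1 ≤ B)
    (hA : ∀ i j, |A i j| ≤ B) (hi : 1 ≤ Fintype.card ι)
    (hρ : 4 * Fintype.card ι ≤ 3 * Fintype.card κ) :
    ∃ t : κ → ℤ, t ≠ 0 ∧ A.mulVec t = 0 ∧ ∀ j, |t j| ≤ ((Fintype.card κ : ℤ) * B) ^ 3 := by
  have hlt : Fintype.card ι < Fintype.card κ := by omega
  obtain ⟨t, ht, hAt, hn⟩ := Int.Matrix.exists_ne_zero_int_vec_norm_le A hlt hi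
  refine ⟨t, ht, hAt, fun j => ?_⟩
  have hB' : (1 : ℝ) ≤ (B : ℝ) := by exact_mod_cast hB
  have hA1 : ‖A‖ ≤ (B : ℝ) := by
    rw [Matrix.norm_le_iff (by positivity)]
    intro i j
    rw [Int.norm_eq_abs]
    exact_mod_cast hA i j
  have hk1 : (1 : ℝ) ≤ (Fintype.card κ : ℝ) := by
    have : 1 ≤ Fintype.card κ := by omega
    exact_mod_cast this
  have h0 : (Fintype.card κ : ℝ) * max 1 ‖A‖ ≤ (Fintype.card κ : ℝ) * B :=
    mul_le_mul_of_nonneg_left (max_le hB' hA1) (by linarith)
  have h1 : (1 : ℝ) ≤ (Fintype.card κ : ℝ) * max 1 ‖A‖ :=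
    one_le_mul_of_one_le_of_one_le hk1 (le_max_left _ _)
  have hltR : (Fintype.card ι : ℝ) < (Fintype.card κ : ℝ) := by exact_mod_cast hlt
  have hρR : 4 * (Fintype.card ι : ℝ) ≤ 3 * (Fintype.card κ : ℝ) := by exact_mod_cast hρ
  have h3 : (Fintype.card ι : ℝ) / ((Fintype.card κ : ℝ) - Fintype.card ι) ≤ 3 := by
    rw [div_le_iff₀ (by linarith)]
    linarith
  have h4 : ‖t‖ ≤ ((Fintype.card κ : ℝ) * B) ^ (3 : ℝ) :=
    hn.trans ((Real.rpow_le_rpow_of_exponent_le h1 h3).trans
      (Real.rpow_le_rpow (by linarith) h0 (by norm_num)))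
  have h5 : ‖t j‖ ≤ ‖t‖ := norm_le_pi_norm t j
  have h6 : ‖t j‖ ≤ ((Fintype.card κ : ℝ) * B) ^ (3 : ℕ) := by
    refine (h5.trans h4).trans (le_of_eq ?_)
    exact_mod_cast Real.rpow_natCast ((Fintype.card κ : ℝ) * B) 3
  rw [Int.norm_eq_abs] at h6
  exact_mod_cast h6

/-- Row E6 (ONLY MATHLIB, MEDIUM). Siegel's lemma with the rank instead of the number of equations.
Over `ℚ` the rank of `A` is at most `ρ`: among any `ρ + 1` vectors there is by `hker` a nontrivial
combination in the kernel (for vectors of `ℚ ^ κ` multiply by a common denominator), so the image has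
dimension `≤ ρ`. Choose a set `R` of rows which is a basis of the row space over `ℚ`, `r = card R ≤ ρ`
(`exists_linearIndependent`, or `Matrix.rank`). If `r = 0` then `A = 0` and any unit vector will do.
Otherwise `Int.Matrix.exists_ne_zero_int_vec_norm_le` for the submatrix of the rows in `R` gives `t ≠ 0` with
`‖t‖ ≤ (n max(1, ‖A'‖)) ^ (r / (n - r)) ≤ (n B) ^ 3`, `n = card κ`, as `4 r ≤ 3 n`; the other rows are
rational combinations of those in `R`, so they vanish at `t` too. -/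
theorem siegel_rank {ι κ : Type*} [Fintype ι] [Fintype κ] (A : Matrix ι κ ℤ) (B : ℕ) (hB : 1 ≤ B)
    (hA : ∀ i j, |A i j| ≤ B) (ρ : ℕ) (h0 : 1 ≤ Fintype.card κ) (hρ : 4 * ρ ≤ 3 * Fintype.card κ)
    (hker : ∀ v : Fin (ρ + 1) → κ → ℤ, ∃ b : Fin (ρ + 1) → ℤ, b ≠ 0 ∧
      A.mulVec (∑ t, b t • v t) = 0) :
    ∃ t : κ → ℤ, t ≠ 0 ∧ A.mulVec t = 0 ∧ ∀ j, |t j| ≤ ((Fintype.card κ : ℤ) * B) ^ 3 := by
  classical
  obtain ⟨ι', a, hainj, hspan, hli⟩ := exists_linearIndependent' ℚ
    (fun (i : ι) (j : κ) => ((A i j : ℤ) : ℚ))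
  haveI : Finite ι' := Finite.of_injective a hainj
  haveI : Fintype ι' := Fintype.ofFinite ι'
  -- the number of rows of the basis
  have hr : Fintype.card ι' ≤ ρ := by
    by_contra hcon
    have hcard : Fintype.card (Fin (ρ + 1)) ≤ Fintype.card ι' := by
      rw [Fintype.card_fin]; omega
    obtain ⟨e⟩ := Function.Embedding.nonempty_of_card_le hcard
    obtain ⟨b, hb, hAb⟩ := hker (fun t j => A (a (e t)) j)
    obtain ⟨w, hw⟩ : ∃ w : κ → ℤ, w = ∑ t, b t • (fun j => A (a (e t)) j) := ⟨_, rfl⟩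
    rw [← hw] at hAb
    have hrow : ∀ i, ∑ j, A i j * w j = 0 := fun i => congrFun hAb i
    have hwj : ∀ j, w j = ∑ t, b t * A (a (e t)) j := by
      intro j
      rw [hw]
      simp [Finset.sum_apply]
    have hww : ∑ j, w j * w j = 0 := by
      calc ∑ j, w j * w j = ∑ j, ∑ t, b t * (A (a (e t)) j * w j) := by
            refine Finset.sum_congr rfl fun j _ => ?_
            conv_lhs => rw [hwj j, Finset.sum_mul]
            refine Finset.sum_congr rfl fun t _ => ?_
            rw [← hwj j]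
            ring
        _ = ∑ t, b t * ∑ j, A (a (e t)) j * w j := by
            rw [Finset.sum_comm]
            refine Finset.sum_congr rfl fun t _ => ?_
            rw [Finset.mul_sum]
        _ = 0 := Finset.sum_eq_zero fun t _ => by rw [hrow, mul_zero]
    have hw0 : ∀ j, w j = 0 := by
      intro j
      have := (Finset.sum_eq_zero_iff_of_nonneg (fun j _ => mul_self_nonneg (w j))).1 hww j
        (Finset.mem_univ j)
      exact mul_self_eq_zero.1 this
    have hli2 : LinearIndependent ℚ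
        (fun t : Fin (ρ + 1) => fun j : κ => ((A (a (e t)) j : ℤ) : ℚ)) :=
      hli.comp e e.injective
    apply hb
    funext t
    have := Fintype.linearIndependent_iff.1 hli2 (fun t => (b t : ℚ)) (by
      funext j
      have h1 := hwj j
      rw [hw0 j] at h1
      have h2 : ((∑ t, b t * A (a (e t)) j : ℤ) : ℚ) = 0 := by rw [← h1]; norm_num
      push_cast at h2
      simpa [Finset.sum_apply] using h2) t
    exact_mod_cast this
  by_cases hr0 : Fintype.card ι' = 0
  · have hE : IsEmpty ι' := Fintype.card_eq_zero_iff.1 hr0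
    have hz : ∀ i j, A i j = 0 := by
      intro i j
      have h1 : (fun j => ((A i j : ℤ) : ℚ)) ∈
          Submodule.span ℚ (Set.range (fun (i : ι) (j : κ) => ((A i j : ℤ) : ℚ))) :=
        Submodule.subset_span ⟨i, rfl⟩
      rw [← hspan, Set.range_eq_empty, Submodule.span_empty, Submodule.mem_bot] at h1
      have := congrFun h1 j
      simpa using this
    haveI : Nonempty κ := Fintype.card_pos_iff.1 h0
    obtain ⟨j0⟩ := ‹Nonempty κ›
    refine ⟨Pi.single j0 1, ?_, ?_, ?_⟩
    · intro h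
      have := congrFun h j0
      simp at this
    · funext i
      simp [Matrix.mulVec, dotProduct, hz]
    · intro j
      have h1 : (1 : ℤ) ≤ ((Fintype.card κ : ℤ) * B) ^ 3 := by
        apply one_le_pow₀
        have h2 : (1 : ℤ) ≤ (Fintype.card κ : ℤ) := by exact_mod_cast h0
        have h3 : (1 : ℤ) ≤ (B : ℤ) := by exact_mod_cast hB
        nlinarith
      rcases eq_or_ne j j0 with rfl | hj
      · simpa using h1
      · rw [Pi.single_eq_of_ne hj]
        simp only [abs_zero]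
        linarith
  · obtain ⟨t, ht, hAt, hbd⟩ := E6_siegel (fun (i : ι') j => A (a i) j) B hB (fun i j => hA _ _)
      (by omega) (by omega)
    refine ⟨t, ht, ?_, hbd⟩
    funext i
    obtain ⟨φ, hφ⟩ : ∃ φ : (κ → ℚ) →ₗ[ℚ] ℚ, ∀ w, φ w = ∑ j, w j * (t j : ℚ) := by
      refine ⟨∑ j, (t j : ℚ) • LinearMap.proj j, fun w => ?_⟩
      simp [mul_comm]
    have hle : Submodule.span ℚ (Set.range (fun (i : ι) (j : κ) => ((A i j : ℤ) : ℚ))) ≤
        LinearMap.ker φ := by
      rw [← hspan, Submodule.span_le]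
      rintro _ ⟨i', rfl⟩
      rw [SetLike.mem_coe, LinearMap.mem_ker, hφ]
      have h1 : ∑ j, A (a i') j * t j = 0 := congrFun hAt i'
      have h2 : ((∑ j, A (a i') j * t j : ℤ) : ℚ) = 0 := by rw [h1]; norm_num
      push_cast at h2
      simpa using h2
    have h1 : (fun j => ((A i j : ℤ) : ℚ)) ∈
        Submodule.span ℚ (Set.range (fun (i : ι) (j : κ) => ((A i j : ℤ) : ℚ))) :=
      Submodule.subset_span ⟨i, rfl⟩
    have h2 := hle h1
    rw [LinearMap.mem_ker, hφ] at h2
    have h3 : ((∑ j, A i j * t j : ℤ) : ℚ) = 0 := by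
      push_cast
      exact h2
    have h4 : ∑ j, A i j * t j = 0 := by exact_mod_cast h3
    exact h4

end PX91
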