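import Pool.Agent.LibPX91.N1

open Polynomial JP91
open scoped Polynomial.Bivariate

namespace PX91

private theorem N1b_unit {p : ℤ[X]} (hp : IsUnit p) : p.coeff 0 ≠ 0 := by
  obtain ⟨r, hr, rfl⟩ := isUnit_iff.mp hp
  rw [coeff_C_zero]
  exact hr.ne_zero

/-- A polynomial of degree `N` in `s` with a unit as leading coefficient. -/
private theorem N1b_low {f : ℤ[X][Y]} (a b : ℕ) (hu : IsUnit f.leadingCoeff) :
    b * f.natDegree ≤ (wt a b f).natDegree := by
  have h := le_wt a b (Q := f) (i := 0) (j := f.natDegree) (N1b_unit hu)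
  omega

private theorem N1b_low' {f : ℤ[X][Y]} (a b : ℕ) (hu : IsUnit (Bivariate.swap f).leadingCoeff) :
    a * (Bivariate.swap f).natDegree ≤ (wt a b f).natDegree := by
  have h0 := N1b_unit hu
  rw [leadingCoeff, coeff_coeff_swap] at h0
  have h := le_wt a b h0
  omega

private theorem N1b_mono (c : ℤ) (m n i j : ℕ) :
    ((C (C c) * C X ^ m * (Y : ℤ[X][Y]) ^ n).coeff j).coeff i = if i = m ∧ j = n then c else 0 := by
  have h : C (C c) * C X ^ m * (Y : ℤ[X][Y]) ^ n = C (C c * X ^ m) * (X : ℤ[X][Y]) ^ n := by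
    rw [C_mul, C_pow]
  rw [h, coeff_C_mul_X_pow]
  by_cases hj : j = n
  · rw [if_pos hj, coeff_C_mul_X_pow]
    by_cases hi : i = m
    · rw [if_pos hi, if_pos ⟨hi, hj⟩]
    · rw [if_neg hi, if_neg fun h => hi h.1]
  · rw [if_neg hj, coeff_zero, if_neg fun h => hj h.2]

/-- Row N1, third part (MEDIUM). The top form of a monic factor `f` of `FF`, `N = f.natDegree`,
`n = max y z`, `v = 2 n - x`, `FF = f * g`.
(1) `wt v x f` has degree exactly `x N`: it is `≥ x N` because of the monomial `s ^ N` of coefficient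
`1` (`le_wt`), likewise that of `wt v x g` is `≥ x (2 n - N)` as the leading coefficient of `g` in
`s` is a unit (`FF_lead`, `g.natDegree = 2 n - N`), and the sum is `≤ 2 n x` (`wt_mul`, `FF_wt`).
Likewise for `wt x v` with the degree in `r`: `(Bivariate.swap f).natDegree = N` (`deg_eq`) and the
leading coefficient of `swap f` is a unit (`swap_lead`), so `f` has a monomial `± r ^ N`, and similarly
`g` a monomial `± r ^ (2 n - N)` (`FF_swap_lead`).
(2) The leading coefficients of `wt 1 1 f` and `wt 1 1 g` have the product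
`C (C (-H)) * C X ^ x * Y ^ x` (`FF_top`, `coeff_wt`), so by `of_mul_eq_monomial` the top form of `f` is
`c r ^ i s ^ j` with `c ≠ 0` and that of `g` is `c' r ^ (x - i) s ^ (x - j)`, of total degrees `i + j` and
`2 x - i - j`.
(3) By (1): `v i + x j ≤ x N`, `v (x - i) + x (x - j) ≤ x (2 n - N)`, with sum
`v x + x x = 2 n x`; so `v i + x j = x N`; likewise `x i + v j = x N`. Hence `(x - v) (i - j) = 0`,
`x - v = 2 (x - n) > 0`, so `i = j =: l` and `x N = (v + x) l = 2 n l`. `l ≥ 1` as `N ≥ 1`, and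
`l ≤ x`. -/
theorem fac_top {x y z : ℕ} {H G : ℤ} (h : Dat x y z H G) (hn : max y z < x) {f : ℤ[X][Y]}
    (hf : f.Monic) (hd : f ∣ FF x y z H G) (h1 : 1 ≤ f.natDegree) :
    ∃ (c : ℤ) (l : ℕ), c ≠ 0 ∧ 1 ≤ l ∧ l ≤ x ∧ x * f.natDegree = 2 * max y z * l ∧ Top f l c := by
  have hF := FF_lead h
  have hFs := FF_swap_lead h
  have hNs := deg_eq h hf hd
  have hus := swap_lead h hd
  have hx2 : x < 2 * max y z := lt_of_lt_of_le h.hx2 (Nat.mul_le_mul_left 2 (le_max_right y z))
  have hW := FF_wt (x := x) (y := y) (z := z) H G hn hx2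
  have hT := FF_top (x := x) (y := y) (z := z) H G hn
  have hH0 : H ≠ 0 := by
    have := h.hH1
    omega
  set n := max y z with hnd
  obtain ⟨v, hv⟩ : ∃ v, v = 2 * n - x := ⟨_, rfl⟩
  have hvx : v + x = 2 * n := by omega
  have hvlt : v < x := by omega
  rw [← hv] at hW
  obtain ⟨g, hg⟩ := hd
  rw [hg] at hF hFs hW hT
  have hf0 : f ≠ 0 := hf.ne_zero
  have hg0 : g ≠ 0 := by
    rintro rfl
    rw [mul_zero] at hF
    exact absurd hF.2 (by simp)
  have hN := natDegree_mul hf0 hg0
  rw [hF.1] at hN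
  have hul : IsUnit f.leadingCoeff := by
    rw [hf.leadingCoeff]
    exact isUnit_one
  have hug : IsUnit g.leadingCoeff := by
    have h2 := hF.2
    rw [leadingCoeff_mul] at h2
    exact isUnit_of_mul_isUnit_right h2
  have hsf0 : Bivariate.swap f ≠ 0 := by
    intro h0
    rw [h0] at hus
    simp at hus
  have hugs : IsUnit (Bivariate.swap g).leadingCoeff := by
    have h2 := hFs.2
    rw [map_mul, leadingCoeff_mul] at h2
    exact isUnit_of_mul_isUnit_right h2
  have hsg0 : Bivariate.swap g ≠ 0 := by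
    intro h0
    rw [h0] at hugs
    simp at hugs
  have hNs2 : 2 * n = (Bivariate.swap f).natDegree + (Bivariate.swap g).natDegree := by
    rw [← hFs.1, map_mul, natDegree_mul hsf0 hsg0]
  rw [hNs] at hNs2
  have hgs : (Bivariate.swap g).natDegree = g.natDegree := by omega
  set N := f.natDegree with hNd
  set M := g.natDegree with hMd
  -- the weights
  have a1 : x * N ≤ (wt v x f).natDegree := N1b_low v x hul
  have a2 : x * M ≤ (wt v x g).natDegree := N1b_low v x hug
  have a3 : x * N ≤ (wt x v f).natDegree := by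
    have h2 := N1b_low' x v hus
    rwa [hNs] at h2
  have a4 : x * M ≤ (wt x v g).natDegree := by
    have h2 := N1b_low' x v hugs
    rwa [hgs] at h2
  have b1 := wt_mul v x hf0 hg0
  have b2 := wt_mul x v hf0 hg0
  have b3 : 2 * n * x = x * N + x * M := by rw [hN]; ring
  have c1 : (wt v x f).natDegree ≤ x * N := by
    have := hW.1
    omega
  have c2 : (wt v x g).natDegree ≤ x * M := by
    have := hW.1
    omega
  have c3 : (wt x v f).natDegree ≤ x * N := by
    have := hW.2
    omega
  have c4 : (wt x v g).natDegree ≤ x * M := by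
    have := hW.2
    omega
  -- the top form
  have hfg0 : f * g ≠ 0 := mul_ne_zero hf0 hg0
  have hxx : ((f * g).coeff x).coeff x ≠ 0 := by
    rw [hT.2 x x (by ring), if_pos rfl]
    exact neg_ne_zero.mpr hH0
  have d1 : (wt 1 1 (f * g)).natDegree = 2 * x := by
    refine le_antisymm ?_ ?_
    · rw [wt_le_iff]
      intro i j hij
      exact hT.1 i j (by omega)
    · have h2 := le_wt 1 1 hxx
      omega
  have d2 := wt_mul 1 1 hf0 hg0
  rw [d1] at d2
  have d3 : (wt 1 1 f).leadingCoeff * (wt 1 1 g).leadingCoeff = C (C (-H)) * C X ^ x * Y ^ x := by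
    rw [← leadingCoeff_mul, ← map_mul, leadingCoeff, d1]
    ext j i
    rw [coeff_wt, N1b_mono]
    by_cases hij : i + j = 2 * x
    · rw [if_pos (by omega), hT.2 i j hij]
      by_cases hi : i = x
      · rw [if_pos hi, if_pos ⟨hi, by omega⟩]
      · rw [if_neg hi, if_neg fun h => hi h.1]
    · rw [if_neg (by omega), if_neg (by omega)]
  obtain ⟨c, i, j, hc, hi, hj, hp⟩ := of_mul_eq_monomial (neg_ne_zero.mpr hH0) d3
  have d4 := d3
  rw [mul_comm] at d4
  obtain ⟨c', i', j', hc', hi', hj', hq⟩ := of_mul_eq_monomial (neg_ne_zero.mpr hH0) d4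
  have e1 : i + i' = x ∧ j + j' = x := by
    rw [hp, hq] at d3
    have h2 : (C (C c) * C X ^ i * Y ^ j) * (C (C c') * C X ^ i' * (Y : ℤ[X][Y]) ^ j') =
        C (C (c * c')) * C X ^ (i + i') * Y ^ (j + j') := by
      rw [C_mul, C_mul, pow_add, pow_add]
      ring
    rw [h2] at d3
    have h3 := N1b_mono (c * c') (i + i') (j + j') (i + i') (j + j')
    rw [if_pos ⟨rfl, rfl⟩, d3, N1b_mono] at h3
    by_contra h4
    rw [if_neg h4] at h3
    exact mul_ne_zero hc hc' h3.symm
  have e2 : i + j = (wt 1 1 f).natDegree ∧ (f.coeff j).coeff i = c := by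
    have h2 := coeff_wt 1 1 f (wt 1 1 f).natDegree i j
    rw [← leadingCoeff, hp, N1b_mono, if_pos ⟨rfl, rfl⟩] at h2
    by_cases h3 : 1 * i + 1 * j = (wt 1 1 f).natDegree
    · rw [if_pos h3] at h2
      exact ⟨by omega, h2.symm⟩
    · rw [if_neg h3] at h2
      exact absurd h2 hc
  have e3 : (g.coeff j').coeff i' ≠ 0 := by
    have h2 := coeff_wt 1 1 g (wt 1 1 g).natDegree i' j'
    rw [← leadingCoeff, hq, N1b_mono, if_pos ⟨rfl, rfl⟩] at h2
    by_cases h3 : 1 * i' + 1 * j' = (wt 1 1 g).natDegree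
    · rw [if_pos h3] at h2
      rw [← h2]
      exact hc'
    · rw [if_neg h3] at h2
      exact absurd h2 hc'
  have e2' : (f.coeff j).coeff i ≠ 0 := by
    rw [e2.2]
    exact hc
  have f1 := (le_wt v x e2').trans c1
  have f2 := (le_wt x v e2').trans c3
  have f3 := (le_wt v x e3).trans c2
  have f4 := (le_wt x v e3).trans c4
  obtain ⟨g1, g2⟩ := e1
  have k1 : v * i + x * j + (v * i' + x * j') = x * N + x * M := by
    rw [← b3, ← hvx]
    calc v * i + x * j + (v * i' + x * j') = v * (i + i') + x * (j + j') := by ring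
      _ = (v + x) * x := by rw [g1, g2]; ring
  have k2 : x * i + v * j + (x * i' + v * j') = x * N + x * M := by
    rw [← b3, ← hvx]
    calc x * i + v * j + (x * i' + v * j') = x * (i + i') + v * (j + j') := by ring
      _ = (v + x) * x := by rw [g1, g2]; ring
  have k3 : v * i + x * j = x * N := by omega
  have k4 : x * i + v * j = x * N := by omega
  obtain ⟨w, hw⟩ : ∃ w, x = v + (w + 1) := ⟨x - v - 1, by omega⟩
  have k5 : i = j := by
    have h2 : v * i + x * j = x * i + v * j := by rw [k3, k4]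
    rw [hw] at h2
    have h3 : (w + 1) * j = (w + 1) * i := by
      have h4 : (v + (w + 1)) * j = v * j + (w + 1) * j := by ring
      have h5 : (v + (w + 1)) * i = v * i + (w + 1) * i := by ring
      omega
    exact (Nat.eq_of_mul_eq_mul_left (Nat.succ_pos w) h3).symm
  subst k5
  have k6 : x * N = 2 * n * i := by
    rw [← k3, ← hvx]
    ring
  refine ⟨c, i, hc, ?_, hi, k6, ?_, ?_⟩
  · rcases Nat.eq_zero_or_pos i with h0 | h0
    · rw [h0, mul_zero] at k6
      have h2 : 0 < x * N := Nat.mul_pos (by omega) h1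
      omega
    · exact h0
  · intro a b hab
    exact (wt_le_iff 1 1 f (wt 1 1 f).natDegree).mp le_rfl a b (by omega)
  · intro a b hab
    have h2 := coeff_wt 1 1 f (wt 1 1 f).natDegree a b
    have hab' : 1 * a + 1 * b = (wt 1 1 f).natDegree := by omega
    rw [← leadingCoeff, hp, N1b_mono, if_pos hab'] at h2
    rw [← h2]
    by_cases ha : a = i
    · rw [if_pos ⟨ha, by omega⟩, if_pos ha]
    · rw [if_neg fun h => ha h.1, if_neg ha]

end PX91
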