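import Pool.Agent.LibPX91.W1
import Pool.Agent.LibJP91.A8

open Polynomial JP91
open scoped Polynomial.Bivariate

namespace PX91

private theorem N2_ext {R : Type*} [CommRing R] {f g : R[X]} (hf : f.Monic) {n : ℕ}
    (hn : g.natDegree ≤ n) :
    resultant f g f.natDegree n = resultant f g f.natDegree g.natDegree := by
  obtain ⟨k, rfl⟩ := Nat.exists_eq_add_of_le hn
  rw [resultant_add_right_deg _ _ _ _ _ le_rfl, hf.coeff_natDegree, one_pow, one_mul]

/-- Row N2 (EASY, resultants). For `f` monic and irreducible and `¬ f ∣ g` the resultant is not `0`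
(`res_ne_zero`), and it is multiplicative in `g` (`Polynomial.resultant_mul_right`). -/
theorem dn_mul {f g₁ g₂ : ℤ[X][Y]} (hf : f.Monic) (hi : Irreducible f) (h1 : ¬ f ∣ g₁)
    (h2 : ¬ f ∣ g₂) : dn f (g₁ * g₂) = dn f g₁ + dn f g₂ := by
  have hg1 : g₁ ≠ 0 := by
    rintro rfl
    exact h1 (dvd_zero _)
  have hg2 : g₂ ≠ 0 := by
    rintro rfl
    exact h2 (dvd_zero _)
  unfold dn
  rw [natDegree_mul hg1 hg2, resultant_mul_right f g₁ g₂ _ le_rfl,
    natDegree_mul (res_ne_zero f g₁ hf hi h1 _ le_rfl) (res_ne_zero f g₂ hf hi h2 _ le_rfl)]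

private theorem N2_one (f : ℤ[X][Y]) (hf : f.Monic) : dn f 1 = 0 := by
  unfold dn
  rw [resultant_one_right, hf.coeff_natDegree, one_pow, natDegree_one]

theorem dn_pow {f g : ℤ[X][Y]} (hf : f.Monic) (hi : Irreducible f) (h : ¬ f ∣ g) (n : ℕ) :
    dn f (g ^ n) = n * dn f g := by
  induction n with
  | zero => rw [pow_zero, N2_one f hf, zero_mul]
  | succ n ih =>
    have h' : ¬ f ∣ g ^ n := fun h' => h (hi.prime.dvd_of_dvd_pow h')
    rw [pow_succ, dn_mul hf hi h' h, ih]
    ring

/-- Second part (EASY): `resultant f g N n` does not depend on `n ≥ g.natDegree` as `f` is monic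
(`resultant_add_right_deg`), `resultant_add_mul_right`, and `g₁ = - g₂ + f * h`; the resultant of
`- g₂` is `±` that of `g₂`. -/
theorem dn_congr {f g₁ g₂ : ℤ[X][Y]} (hf : f.Monic) (h : f ∣ g₁ + g₂) :
    dn f g₁ = dn f g₂ := by
  obtain ⟨q, hq⟩ := h
  have e : g₁ = C (-1) * g₂ + f * q := by
    rw [C_neg, C_1]
    linear_combination hq
  set n := g₁.natDegree + g₂.natDegree + q.natDegree + f.natDegree with hn
  have e1 : resultant f g₁ f.natDegree n = (-1) ^ f.natDegree * resultant f g₂ f.natDegree n := by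
    conv_lhs => rw [e]
    rw [resultant_add_mul_right _ _ _ _ _ (by omega) le_rfl, resultant_C_mul_right]
  rw [N2_ext hf (g := g₁) (n := n) (by omega), N2_ext hf (g := g₂) (n := n) (by omega)] at e1
  unfold dn
  rw [e1]
  rcases neg_one_pow_eq_or ℤ[X] f.natDegree with h1 | h1
  · rw [h1, one_mul]
  · rw [h1, neg_one_mul, natDegree_neg]

theorem dn_CC {f : ℤ[X][Y]} (hf : f.Monic) (a : ℤ) : dn f (C (C a)) = 0 := by
  unfold dn
  rw [natDegree_C, resultant_C_zero_right, ← C_pow, natDegree_C]

theorem dn_CX {f : ℤ[X][Y]} (hf : f.Monic) : dn f (C X) = f.natDegree := by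
  unfold dn
  rw [natDegree_C, resultant_C_zero_right, natDegree_X_pow]

private theorem N2_sign {R : Type*} [CommRing R] (m : ℕ) (p : R[X]) :
    ((-1) ^ m * p).natDegree = p.natDegree := by
  rcases neg_one_pow_eq_or R[X] m with h1 | h1
  · rw [h1, one_mul]
  · rw [h1, neg_one_mul, natDegree_neg]

theorem dn_Y {f : ℤ[X][Y]} (hf : f.Monic) : dn f Y = (f.coeff 0).natDegree := by
  have h1 := resultant_X_pow_right f f.natDegree 1 le_rfl
  unfold dn
  rw [natDegree_X]
  rw [pow_one, pow_one] at h1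
  rw [h1, N2_sign]

private theorem N2_eval {R : Type*} [CommRing R] {f : R[X][Y]} {T : ℕ} (hT : TD f T) {r : R[X]}
    (hr : r.natDegree ≤ 1) : (f.eval r).natDegree ≤ T := by
  rw [eval_eq_sum, Polynomial.sum]
  refine natDegree_sum_le_of_forall_le _ _ fun j hj => ?_
  have hj' : f.coeff j ≠ 0 := mem_support_iff.1 hj
  have h1 : (f.coeff j).natDegree + j ≤ T := by
    by_contra hcon
    have h2 := hT (f.coeff j).natDegree j (by omega)
    exact hj' (leadingCoeff_eq_zero.1 h2)
  refine (natDegree_mul_le).trans ?_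
  have h3 : (r ^ j).natDegree ≤ j := by
    refine natDegree_pow_le.trans ?_
    calc j * r.natDegree ≤ j * 1 := Nat.mul_le_mul_left j hr
      _ = j := mul_one j
  omega

private theorem N2_pair {R : Type*} [CommRing R] [IsDomain R] {f : R[X][Y]} {T : ℕ} (hT : TD f T)
    {r : R[X]} (hr : r.natDegree ≤ 1) :
    (resultant f ((X - C r) * (X + C r)) f.natDegree (1 + 1)).natDegree ≤ 2 * T := by
  have h1 := resultant_mul_right f (X - C r) (X + C r) f.natDegree le_rfl
  rw [natDegree_X_sub_C, natDegree_X_add_C] at h1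
  rw [h1, resultant_X_sub_C_right _ _ _ le_rfl, resultant_X_add_C_right _ _ _ le_rfl]
  refine natDegree_mul_le.trans ?_
  rw [N2_sign, N2_sign]
  have h2 := N2_eval hT hr
  have h3 := N2_eval hT (r := -r) (by rwa [natDegree_neg])
  omega

/-- Third part (EASY-MEDIUM). `cB = (r - s) (r + s)` and the resultants with `s ∓ r` are
`± f(r, ± r)` (`resultant_X_sub_C_right`, `resultant_X_add_C_right`, also for `cB`: `resultant_mul_right`
and `resultant_C_mul_right` or `cB = - ((Y - C X) * (Y + C X))`), of degree `≤ T` as `TD f T`. For `cC`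
pass to `ℂ[X][Y]` (`resultant_map_map` with the injective ring homomorphism
`mapRingHom (Int.castRingHom ℂ) : ℤ[X] →+* ℂ[X]`, which preserves `natDegree`), where
`s ^ 2 + r ^ 2 = (s - i r) (s + i r)`. -/
theorem dn_le {f : ℤ[X][Y]} (hf : f.Monic) {T : ℕ} (hT : TD f T) :
    dn f cB ≤ 2 * T ∧ dn f cC ≤ 2 * T := by
  have hdB : cB.natDegree = 2 := by
    have e : cB = -(X ^ 2 - C (X ^ 2) : ℤ[X][Y]) := by
      unfold cB
      rw [C_pow]
      ring
    rw [e, natDegree_neg, natDegree_X_pow_sub_C]
  have hdC : cC.natDegree = 2 := by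
    have e : cC = (X ^ 2 + C (X ^ 2) : ℤ[X][Y]) := by
      unfold cC
      rw [C_pow]
      ring
    rw [e, natDegree_X_pow_add_C]
  constructor
  · have e : cB = C (-1) * ((X - C X) * (X + C X) : ℤ[X][Y]) := by
      unfold cB
      rw [C_neg, C_1]
      ring
    unfold dn
    rw [hdB]
    conv_lhs => rw [e]
    rw [resultant_C_mul_right, N2_sign]
    exact N2_pair hT natDegree_X_le
  · have hinj : Function.Injective (Int.castRingHom ℂ) := Int.cast_injective
    have hinj' : Function.Injective (mapRingHom (Int.castRingHom ℂ)) := map_injective _ hinj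
    have hnd : ∀ p : ℤ[X], (mapRingHom (Int.castRingHom ℂ) p).natDegree = p.natDegree := fun p =>
      natDegree_map_eq_of_injective hinj p
    have hT' : TD (f.map (mapRingHom (Int.castRingHom ℂ))) T := by
      intro i j hij
      rw [coeff_map, coe_mapRingHom, coeff_map, hT i j hij, map_zero]
    have e : cC.map (mapRingHom (Int.castRingHom ℂ)) =
        ((X - C (C Complex.I * X)) * (X + C (C Complex.I * X)) : ℂ[X][Y]) := by
      have hI : (C Complex.I : ℂ[X]) ^ 2 = -1 := by
        rw [← C_pow, Complex.I_sq, C_neg, C_1]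
      have h1 : (C (C Complex.I * X) : ℂ[X][Y]) ^ 2 = - C X ^ 2 := by
        rw [← C_pow, mul_pow, hI, neg_one_mul, C_neg, C_pow]
      unfold cC
      rw [Polynomial.map_add, Polynomial.map_pow, Polynomial.map_pow, map_C, map_X, coe_mapRingHom,
        map_X]
      linear_combination h1
    unfold dn
    rw [← hnd, ← resultant_map_map, hdC, e]
    have hfd : f.natDegree = (f.map (mapRingHom (Int.castRingHom ℂ))).natDegree :=
      (natDegree_map_eq_of_injective hinj' f).symm
    rw [hfd]
    refine N2_pair hT' ?_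
    exact (natDegree_C_mul_le _ _).trans natDegree_X_le

/-- Fourth part (EASY): `res_deg`, and again independence of `n`. -/
theorem dn_le_deg {f g : ℤ[X][Y]} (hf : f.Monic) {a b : ℕ} (ha : g.natDegree ≤ a)
    (hb : ∀ j, (f.coeff j).natDegree ≤ b) (hb' : ∀ j, (g.coeff j).natDegree ≤ b) :
    dn f g ≤ (f.natDegree + a) * b := by
  unfold dn
  exact (res_deg f g _ _ b hb hb').trans (Nat.mul_le_mul_right b (by omega))

end PX91
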