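import Pool.Agent.LibPX91.Defs
import Pool.Agent.LibJP91.A5

open Polynomial JP91
open scoped Polynomial.Bivariate

namespace PX91

private noncomputable def N3_D (f : ℤ[X][Y]) : Derivation ℤ ℤ[X][Y] ℤ[X][Y] :=
  Derivation.mk' (AddMonoidHom.toIntLinearMap
    (AddMonoidHom.mk' (fun g => derivative f * dr g - dr f * derivative g) (by
      intro a b
      simp only [dr_add, derivative_add]
      ring))) (by
    intro a b
    simp only [AddMonoidHom.coe_toIntLinearMap, AddMonoidHom.mk'_apply, dr_mul, derivative_mul,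
      smul_eq_mul]
    ring)

private theorem N3_D_apply (f g : ℤ[X][Y]) :
    N3_D f g = derivative f * dr g - dr f * derivative g := rfl

private theorem N3_D_A (f : ℤ[X][Y]) : N3_D f cA = Y * derivative f - C X * dr f := by
  have h1 : dr cA = Y := by
    unfold cA
    rw [dr_mul, dr_CX, dr_Y]
    ring
  have h2 : derivative cA = C X := by
    unfold cA
    simp
  rw [N3_D_apply, h1, h2]
  ring

private theorem N3_dr_sub (f g : ℤ[X][Y]) : dr (f - g) = dr f - dr g := by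
  unfold dr
  simp only [map_sub]

private theorem N3_dr_sq (f : ℤ[X][Y]) : dr (f ^ 2) = 2 * f * dr f := by
  rw [pow_two, dr_mul]
  ring

private theorem N3_D_B (f : ℤ[X][Y]) :
    N3_D f cB = 2 * (C X * derivative f + Y * dr f) := by
  have h1 : dr cB = 2 * C X := by
    unfold cB
    rw [N3_dr_sub, N3_dr_sq, N3_dr_sq, dr_CX, dr_Y]
    ring
  have h2 : derivative cB = -(2 * Y) := by
    unfold cB
    rw [← C_pow, derivative_sub, derivative_C, derivative_X_pow]
    simp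
    exact map_ofNat C 2
  rw [N3_D_apply, h1, h2]
  ring

private theorem N3_D_C (f : ℤ[X][Y]) :
    N3_D f cC = 2 * (C X * derivative f - Y * dr f) := by
  have h1 : dr cC = 2 * C X := by
    unfold cC
    rw [dr_add, N3_dr_sq, N3_dr_sq, dr_CX, dr_Y]
    ring
  have h2 : derivative cC = 2 * Y := by
    unfold cC
    rw [← C_pow, derivative_add, derivative_C, derivative_X_pow]
    simp
    exact map_ofNat C 2
  rw [N3_D_apply, h1, h2]
  ring

private theorem N3_D_CC (f : ℤ[X][Y]) (a : ℤ) : N3_D f (C (C a)) = 0 := by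
  rw [N3_D_apply, dr_CC, derivative_C]
  ring

private theorem N3_D_self (f : ℤ[X][Y]) : N3_D f f = 0 := by
  rw [N3_D_apply]
  ring

/-- Row N3 (EASY, like `key_dvd` in LibJP91/A5.lean, whose auxiliary lemmas you can use). For the
derivation `D g = ∂ₛ f ∂ᵣ g - ∂ᵣ f ∂ₛ g` (`A5_D f`) and `F = FF x y z H G`: `D F` is a multiple of `f`.
With `A = cA`, `B = cB`, `C = cC`:
`D F = z C^(z-1) D C - x H A^(x-1) D A - y G B^(y-1) D B`. Multiply by `C` and replace
`C ^ z = F + H A ^ x + G B ^ y`: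
`C D F = z F D C + H A^(x-1) (z A D C - x C D A) + G B^(y-1) (z B D C - y C D B)`, where
`x C D A - z A D C = E3 x z f` and `y C D B - z B D C = 2 E1 y z f`
(`D A = s fₛ - r fᵣ`, `D B = 2 (r fₛ + s fᵣ)`, `D C = 2 (r fₛ - s fᵣ)`). -/
theorem key3 {x y z : ℕ} {H G : ℤ} (hx : 1 ≤ x) (hy : 1 ≤ y) (hz : 1 ≤ z) {f : ℤ[X][Y]}
    (hd : f ∣ FF x y z H G) :
    f ∣ C (C H) * cA ^ (x - 1) * E3 x z f + 2 * (C (C G) * cB ^ (y - 1) * E1 y z f) := by
  have hDF : f ∣ N3_D f (FF x y z H G) := by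
    obtain ⟨g, hg⟩ := hd
    rw [hg, (N3_D f).leibniz, N3_D_self, smul_zero, add_zero, smul_eq_mul]
    exact dvd_mul_right _ _
  have hF : N3_D f (FF x y z H G) = (z : ℤ[X][Y]) * cC ^ (z - 1) * N3_D f cC -
      C (C H) * ((x : ℤ[X][Y]) * cA ^ (x - 1) * N3_D f cA) -
      C (C G) * ((y : ℤ[X][Y]) * cB ^ (y - 1) * N3_D f cB) := by
    unfold FF
    rw [map_sub, map_sub, (N3_D f).leibniz, (N3_D f).leibniz, N3_D_CC, N3_D_CC,
      (N3_D f).leibniz_pow, (N3_D f).leibniz_pow, (N3_D f).leibniz_pow]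
    simp only [smul_eq_mul, nsmul_eq_mul, mul_zero, add_zero]
    ring
  have hE1 : 2 * E1 y z f = (y : ℤ[X][Y]) * cC * N3_D f cB - (z : ℤ[X][Y]) * cB * N3_D f cC := by
    rw [N3_D_B, N3_D_C]
    unfold E1 cC cB
    simp only [map_sub, map_add, map_natCast]
    ring
  have hE3 : E3 x z f = (x : ℤ[X][Y]) * cC * N3_D f cA - (z : ℤ[X][Y]) * cA * N3_D f cC := by
    rw [N3_D_C, N3_D_A]
    unfold E3 cA cC
    simp only [map_sub, map_mul, map_natCast, map_ofNat]
    ring
  have hkey : C (C H) * cA ^ (x - 1) * E3 x z f + 2 * (C (C G) * cB ^ (y - 1) * E1 y z f) =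
      FF x y z H G * ((z : ℤ[X][Y]) * N3_D f cC) - N3_D f (FF x y z H G) * cC := by
    have h1 : 2 * (C (C G) * cB ^ (y - 1) * E1 y z f) =
        C (C G) * cB ^ (y - 1) * (2 * E1 y z f) := by ring
    rw [h1, hE1, hE3, hF]
    generalize N3_D f cB = DB
    generalize N3_D f cA = DA
    generalize N3_D f cC = DC
    unfold FF
    obtain ⟨x', rfl⟩ : ∃ x', x = x' + 1 := ⟨x - 1, by omega⟩
    obtain ⟨y', rfl⟩ : ∃ y', y = y' + 1 := ⟨y - 1, by omega⟩
    obtain ⟨z', rfl⟩ : ∃ z', z = z' + 1 := ⟨z - 1, by omega⟩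
    simp only [Nat.add_sub_cancel]
    ring
  rw [hkey]
  exact dvd_sub (Dvd.dvd.mul_right hd _) (Dvd.dvd.mul_right hDF _)

end PX91
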