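import Pool.Agent.LibPX91.N1
import Pool.Agent.LibPX91.N2
import Pool.Agent.LibPX91.N3
import Pool.Agent.LibJP91.A9

open Polynomial JP91
open scoped Polynomial.Bivariate

namespace PX91

private theorem N4_zero {f g : ℤ[X][Y]} {r s : ℤ} (h0 : f.evalEval r s = 0) (h : f ∣ g) :
    g.evalEval r s = 0 := by
  obtain ⟨k, rfl⟩ := h
  rw [evalEval_mul, h0, zero_mul]

/-- Row N4 (EASY-MEDIUM). The polynomials `cA`, `cB`, `cC` are not multiples of a good factor: their
values at its point are `r s`, `r² - s²`, `r² + s²`, positive (`evalEval` is a ring homomorphism). -/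
theorem not_dvd_abc {x y z : ℕ} {H G : ℤ} {f : ℤ[X][Y]} (hf : Good x y z H G f) :
    ¬ f ∣ cA ∧ ¬ f ∣ cB ∧ ¬ f ∣ cC ∧ 1 ≤ f.natDegree ∧ ∀ a : ℤ, a ≠ 0 → ¬ f ∣ C (C a) := by
  obtain ⟨r, s, hs, hr, -, h0⟩ := hf.pt
  refine ⟨fun h => ?_, fun h => ?_, fun h => ?_, ?_, fun a ha h => ?_⟩
  · have h1 := N4_zero h0 h
    have h2 : cA.evalEval r s = r * s := by simp [cA, evalEval]
    rw [h2] at h1
    nlinarith
  · have h1 := N4_zero h0 h
    have h2 : cB.evalEval r s = r ^ 2 - s ^ 2 := by simp [cB, evalEval]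
    rw [h2] at h1
    nlinarith
  · have h1 := N4_zero h0 h
    have h2 : cC.evalEval r s = r ^ 2 + s ^ 2 := by simp [cC, evalEval]
    rw [h2] at h1
    nlinarith
  · have h2 : f ≠ 1 := by
      intro h3
      have h4 := hf.irr.not_isUnit
      rw [h3] at h4
      exact h4 isUnit_one
    exact hf.mon.natDegree_pos.2 h2
  · have h1 := N4_zero h0 h
    have h2 : (C (C a) : ℤ[X][Y]).evalEval r s = a := by simp [evalEval]
    rw [h2] at h1
    exact ha h1

/-- Row N4, second part (EASY). `dn f cA = 2 N`: `dn_mul`, `dn_CX`, `dn_Y`, and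
`(f.coeff 0).natDegree = N`, because the leading coefficient of `swap f` is a unit of `ℤ[X]`, that is
`± 1` (`swap_lead`), `(swap f).natDegree = N` (`deg_eq`), `coeff_coeff_swap`, `natDegree_coeff_le`.
And `dn f (E1 y z f) ≤ (2 N + 2) (N + 3)`: `dn_le_deg` with `a = N + 2`, `b = N + 3`, `E1_deg`,
`E1_deg'`. -/
theorem dn_AE {x y z : ℕ} {H G : ℤ} (h : Dat x y z H G) {f : ℤ[X][Y]} (hf : Good x y z H G f) :
    dn f cA = 2 * f.natDegree ∧
      dn f (E1 y z f) ≤ (2 * f.natDegree + 2) * (f.natDegree + 3) := by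
  obtain ⟨hA, -, -, hN, -⟩ := not_dvd_abc hf
  have hdeg := deg_eq h hf.mon hf.dvd
  refine ⟨?_, ?_⟩
  · have hX : ¬ f ∣ (C X : ℤ[X][Y]) := fun hd => hA (by unfold cA; exact hd.mul_right _)
    have hY : ¬ f ∣ (Y : ℤ[X][Y]) := fun hd => hA (by unfold cA; exact hd.mul_left _)
    have h0 : (f.coeff 0).natDegree = f.natDegree := by
      refine le_antisymm ?_ ?_
      · rw [← hdeg]
        exact natDegree_coeff_le f 0
      · have hu := swap_lead h hf.dvd
        rw [leadingCoeff, hdeg, Polynomial.isUnit_iff] at hu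
        obtain ⟨u, hu, hu2⟩ := hu
        refine le_natDegree_of_ne_zero ?_
        rw [← coeff_coeff_swap, ← hu2, coeff_C_zero]
        exact hu.ne_zero
    have h1 : dn f cA = dn f (C X) + dn f Y := by
      unfold cA
      exact dn_mul hf.mon hf.irr hX hY
    rw [h1, dn_CX hf.mon, dn_Y hf.mon, h0]
    ring
  · have h2 := dn_le_deg (f := f) (g := E1 y z f) hf.mon (a := f.natDegree + 2)
      (b := f.natDegree + 3) (E1_deg y z hf.mon hN)
      (fun j => by
        have := natDegree_coeff_le f j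
        rw [hdeg] at this
        omega)
      (fun j => by
        have := E1_deg' y z f j
        rw [hdeg] at this
        exact this)
    have h6 : f.natDegree + (f.natDegree + 2) = 2 * f.natDegree + 2 := by ring
    rw [h6] at h2
    exact h2

end PX91
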