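import Pool.Agent.LibPX91.E5
import Pool.Agent.LibPX91.N4
import Pool.Agent.LibPX91.N1b

open Polynomial JP91
open scoped Polynomial.Bivariate

namespace PX91

private theorem E7a_num (x : ℕ) (hx : 3 ≤ x) : (3 : ℤ) * (2 * x + 1) ^ 2 ≤ 2 ^ (3 * x) := by
  induction x, hx using Nat.le_induction with
  | base => norm_num
  | succ n hn ih =>
    have h1 : (2 : ℤ) ^ (3 * (n + 1)) = 8 * 2 ^ (3 * n) := by
      rw [show 3 * (n + 1) = 3 * n + 3 by ring, pow_add]; ring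
    rw [h1]
    have h2 : (3 : ℤ) ≤ n := by exact_mod_cast hn
    push_cast
    nlinarith

/-- Row E7a (EASY). The cofactor: `n1 FF ≤ 3 H ≤ 3 2 ^ x` (`n1_FF`, `h2`), `TD g (2 x)` and
`FF.natDegree = 2 z ≤ 2 x` (`fac_top`, `td_cofactor`, `TD_natDegree`, `FF_lead`; `FF` has total degree
`≤ 2 x` by `FF_top`); `cof_norm` with `a = b = 2 x`: `n1 g ≤ (2 x + 1) ^ 2 2 ^ (4 x) 3 2 ^ x ≤ 2 ^ (8 x)`,
`x ≥ 3` (by `Dat`, `z ≥ 2`). -/
theorem cof {x y z : ℕ} {H G : ℤ} (h : Dat x y z H G) (hyz : y < z)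
    (h2 : 2 ^ z + G * 2 ^ y ≤ 2 * H) {f g : ℤ[X][Y]} (hf : Good x y z H G f)
    (hfg : FF x y z H G = f * g) : TD g (2 * x) ∧ n1 g ≤ 2 ^ (8 * x) := by
  have hz2 : z < x := h.hx
  have hx2 : x < 2 * z := h.hx2
  have hx3 : 3 ≤ x := by omega
  have hn : max y z < x := max_lt (by omega) hz2
  obtain ⟨hFT, -⟩ := FF_top (x := x) (y := y) (z := z) H G hn
  have hdeg : 1 ≤ f.natDegree := (not_dvd_abc hf).2.2.2.1
  obtain ⟨c, l, hc, hl1, hlx, -, hTop⟩ := fac_top h hn hf.mon hf.dvd hdeg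
  have hFT' : TD (f * g) (2 * x) := by rw [← hfg]; exact hFT
  have hg : TD g (2 * x) := by
    intro i j hij
    exact td_cofactor hTop hc hFT' i j (by omega)
  refine ⟨hg, ?_⟩
  have hn1 : n1 (FF x y z H G) ≤ 3 * 2 ^ x := by
    have h3 := n1_FF x y z H G
    have hH : 0 ≤ H := by have := h.hH1; linarith
    have hG : 0 ≤ G := by have := h.hG1; linarith
    rw [abs_of_nonneg hH, abs_of_nonneg hG] at h3
    have := h.hH2
    linarith
  have h4 := cof_norm hf.mon hfg (TD_natDegree hFT).1 (TD_natDegree hg).2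
  have hn0 : 0 ≤ n1 (FF x y z H G) := n1_nonneg _
  have h5 : (2 : ℤ) ^ (2 * x + 2 * x) * 2 ^ x * 2 ^ (3 * x) = 2 ^ (8 * x) := by
    rw [← pow_add, ← pow_add]; congr 1; ring
  have h6 := E7a_num x hx3
  calc n1 g ≤ (((2 * x : ℕ) : ℤ) + 1) * (((2 * x : ℕ) : ℤ) + 1) * 2 ^ (2 * x + 2 * x) *
        n1 (FF x y z H G) := h4
    _ ≤ (((2 * x : ℕ) : ℤ) + 1) * (((2 * x : ℕ) : ℤ) + 1) * 2 ^ (2 * x + 2 * x) * (3 * 2 ^ x) :=
        mul_le_mul_of_nonneg_left hn1 (by positivity)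
    _ = 2 ^ (2 * x + 2 * x) * 2 ^ x * (3 * (2 * x + 1) ^ 2) := by push_cast; ring
    _ ≤ 2 ^ (2 * x + 2 * x) * 2 ^ x * 2 ^ (3 * x) :=
        mul_le_mul_of_nonneg_left h6 (by positivity)
    _ = 2 ^ (8 * x) := h5

end PX91
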