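import Pool.Agent.LibPX91.E3
import Pool.Agent.LibPX91.E4
import Pool.Agent.LibPX91.E6
import Pool.Agent.LibPX91.E7a

open Polynomial JP91
open scoped Polynomial.Bivariate

namespace PX91

private noncomputable def E7_mon (p : ℕ × ℕ) : ℤ[X][Y] := C X ^ p.1 * Y ^ p.2

private noncomputable def E7_pol (l D : ℕ) (t : {p // p ∈ Mo l D} → ℤ) : ℤ[X][Y] :=
  ∑ p : {p // p ∈ Mo l D}, C (C (t p)) * E7_mon p.1

private theorem E7_coeff_CC (a : ℤ) (Q : ℤ[X][Y]) (i j : ℕ) :
    ((C (C a) * Q).coeff j).coeff i = a * (Q.coeff j).coeff i := by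
  rw [coeff_C_mul, coeff_C_mul]

private theorem E7_coeff_mon (p : ℕ × ℕ) (i j : ℕ) :
    ((E7_mon p).coeff j).coeff i = if p = (i, j) then 1 else 0 := by
  unfold E7_mon
  rw [← C_pow, coeff_C_mul, coeff_X_pow]
  obtain ⟨a, b⟩ := p
  by_cases hj : j = b
  · subst hj
    rw [if_pos rfl, mul_one, coeff_X_pow]
    by_cases hi : i = a
    · subst hi
      rw [if_pos rfl, if_pos rfl]
    · rw [if_neg hi, if_neg]
      intro h
      exact hi (Prod.ext_iff.1 h).1.symm
  · rw [if_neg hj, mul_zero, coeff_zero, if_neg]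
    intro h
    exact hj (Prod.ext_iff.1 h).2.symm

private theorem E7_coeff_sum {ι : Type} (s : Finset ι) (F : ι → ℤ[X][Y]) (i j : ℕ) :
    ((∑ a ∈ s, F a).coeff j).coeff i = ∑ a ∈ s, ((F a).coeff j).coeff i := by
  rw [finset_sum_coeff, finset_sum_coeff]

private theorem E7_coeff_pol (l D : ℕ) (t : {p // p ∈ Mo l D} → ℤ) (i j : ℕ) :
    ((E7_pol l D t).coeff j).coeff i =
      if h : (i, j) ∈ Mo l D then t ⟨(i, j), h⟩ else 0 := by
  unfold E7_pol
  rw [E7_coeff_sum]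
  have h1 : ∀ p ∈ (Finset.univ : Finset {p // p ∈ Mo l D}),
      ((C (C (t p)) * E7_mon p.1).coeff j).coeff i = if p.1 = (i, j) then t p else 0 := by
    intro p _
    rw [E7_coeff_CC, E7_coeff_mon, mul_ite, mul_one, mul_zero]
  rw [Finset.sum_congr rfl h1]
  by_cases h : (i, j) ∈ Mo l D
  · rw [dif_pos h, Finset.sum_eq_single (⟨(i, j), h⟩ : {p // p ∈ Mo l D})]
    · rw [if_pos rfl]
    · intro p _ hp
      rw [if_neg]
      intro h2
      exact hp (Subtype.ext h2)
    · intro h2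
      exact absurd (Finset.mem_univ _) h2
  · rw [dif_neg h]
    refine Finset.sum_eq_zero fun p _ => ?_
    rw [if_neg]
    intro h2
    exact h (h2 ▸ p.2)

private theorem E7_mem_Mo {l D : ℕ} {p : ℕ × ℕ} (h : p ∈ Mo l D) :
    p.1 + p.2 ≤ D ∧ (p.1 < l ∨ p.2 < l) := by
  unfold Mo at h
  exact (Finset.mem_filter.1 h).2

private theorem E7_TD_pol (l D : ℕ) (t : {p // p ∈ Mo l D} → ℤ) : TD (E7_pol l D t) D := by
  intro i j hij
  rw [E7_coeff_pol, dif_neg]
  intro h
  have h1 := (E7_mem_Mo h).1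
  simp only at h1
  omega

private theorem E7_pol_comb (l D m : ℕ) (b : Fin m → ℤ) (v : Fin m → {p // p ∈ Mo l D} → ℤ) :
    ∑ i, C (C (b i)) * E7_pol l D (v i) = E7_pol l D (∑ i, b i • v i) := by
  refine Polynomial.ext fun j => Polynomial.ext fun i => ?_
  rw [E7_coeff_sum, E7_coeff_pol]
  have h1 : ∀ a ∈ (Finset.univ : Finset (Fin m)),
      ((C (C (b a)) * E7_pol l D (v a)).coeff j).coeff i =
        b a * if h : (i, j) ∈ Mo l D then v a ⟨(i, j), h⟩ else 0 := by
    intro a _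
    rw [E7_coeff_CC, E7_coeff_pol]
  rw [Finset.sum_congr rfl h1]
  by_cases h : (i, j) ∈ Mo l D
  · rw [dif_pos h, Finset.sum_apply]
    refine Finset.sum_congr rfl fun a _ => ?_
    rw [dif_pos h, Pi.smul_apply, smul_eq_mul]
  · rw [dif_neg h]
    refine Finset.sum_eq_zero fun a _ => ?_
    rw [dif_neg h, mul_zero]

private theorem E7_iter_zero (x y z : ℕ) (H G : ℤ) (k : ℕ) :
    (sg x y z H G)^[k] 0 = 0 := by
  have h1 := sg_iter_smul x y z H G 0 0 k
  rwa [C_0, C_0, zero_mul, zero_mul] at h1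

private theorem E7_iter_sum (x y z : ℕ) (H G : ℤ) (k : ℕ) {ι : Type} (s : Finset ι)
    (F : ι → ℤ[X][Y]) :
    (sg x y z H G)^[k] (∑ a ∈ s, F a) = ∑ a ∈ s, (sg x y z H G)^[k] (F a) := by
  classical
  induction s using Finset.induction_on with
  | empty => rw [Finset.sum_empty, Finset.sum_empty, E7_iter_zero]
  | insert a s ha ih => rw [Finset.sum_insert ha, Finset.sum_insert ha, sg_iter_add, ih]

private theorem E7_iter_pol (x y z : ℕ) (H G : ℤ) (k l D : ℕ) (g : ℤ[X][Y])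
    (t : {p // p ∈ Mo l D} → ℤ) (i j : ℕ) :
    (((sg x y z H G)^[k] (E7_pol l D t * g)).coeff j).coeff i =
      ∑ p, (((sg x y z H G)^[k] (E7_mon p.1 * g)).coeff j).coeff i * t p := by
  unfold E7_pol
  rw [Finset.sum_mul, E7_iter_sum, E7_coeff_sum]
  refine Finset.sum_congr rfl fun p _ => ?_
  rw [mul_assoc, sg_iter_smul, E7_coeff_CC, mul_comm]

private theorem E7_sg_TD {x y z : ℕ} (H G : ℤ) (hy : y ≤ x) (hz : z ≤ x) {Q : ℤ[X][Y]} {T : ℕ}
    (hQ : TD Q T) : TD (sg x y z H G Q) (T + 2 * x) := by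
  have h0 : TD (Q %ₘ Y ^ x) T := by
    intro i j hij
    rw [(coeff_divMod Q x j).1]
    by_cases hj : j < x
    · rw [if_pos hj, hQ i j hij]
    · rw [if_neg hj, coeff_zero]
  have h1 : TD (Q /ₘ Y ^ x) T := by
    intro i j hij
    rw [(coeff_divMod Q x j).2]
    exact hQ i (j + x) (by omega)
  have h2 : TD (C (C H) * C X ^ x * (Q %ₘ Y ^ x)) (T + 2 * x) :=
    TD_mono (TD_mul (TD_mul (TD_CC H) (TD_pow TD_CX x)) h0) (by omega)
  have h3 : TD (cC ^ z - C (C G) * cB ^ y) (2 * x) := by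
    refine TD_sub (TD_mono (TD_pow TD_cC.1 z) (by omega)) ?_
    exact TD_mono (TD_mul (TD_CC G) (TD_pow TD_cC.2.1 y)) (by omega)
  have h4 : TD ((cC ^ z - C (C G) * cB ^ y) * (Q /ₘ Y ^ x)) (T + 2 * x) :=
    TD_mono (TD_mul h3 h1) (by omega)
  exact TD_add h2 h4

private theorem E7_iter_TD {x y z : ℕ} (H G : ℤ) (hy : y ≤ x) (hz : z ≤ x) {Q : ℤ[X][Y]} {T : ℕ}
    (hQ : TD Q T) (k : ℕ) : TD ((sg x y z H G)^[k] Q) (T + 2 * x * k) := by
  induction k with
  | zero => exact hQ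
  | succ k ih =>
    rw [Function.iterate_succ_apply']
    exact TD_mono (E7_sg_TD H G hy hz ih) (le_of_eq (by ring))

private theorem E7_n1_zero : n1 (0 : ℤ[X][Y]) = 0 := by
  have h1 := n1_CC 0
  rwa [C_0, C_0, abs_zero] at h1

private theorem E7_n1_sum {ι : Type} (s : Finset ι) (F : ι → ℤ[X][Y]) :
    n1 (∑ a ∈ s, F a) ≤ ∑ a ∈ s, n1 (F a) := by
  classical
  induction s using Finset.induction_on with
  | empty => rw [Finset.sum_empty, Finset.sum_empty, E7_n1_zero]
  | insert a s ha ih =>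
    rw [Finset.sum_insert ha, Finset.sum_insert ha]
    exact (n1_add _ _).trans (add_le_add le_rfl ih)

private theorem E7_n1_pol (l D : ℕ) (t : {p // p ∈ Mo l D} → ℤ) {K : ℤ}
    (hK : ∀ p, |t p| ≤ K) : n1 (E7_pol l D t) ≤ (Mo l D).card * K := by
  unfold E7_pol
  refine (E7_n1_sum _ _).trans ?_
  have h1 : ∀ p ∈ (Finset.univ : Finset {p // p ∈ Mo l D}),
      n1 (C (C (t p)) * E7_mon p.1) ≤ K := by
    intro p _
    refine (n1_mul _ _).trans ?_
    have h2 : n1 (E7_mon p.1) = 1 := n1_mono p.1.1 p.1.2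
    rw [n1_CC, h2, mul_one]
    exact hK p
  refine (Finset.sum_le_sum h1).trans ?_
  rw [Finset.sum_const, Finset.card_univ, Fintype.card_coe, nsmul_eq_mul]

/-- Row E7b (STRONG or MEDIUM). The auxiliary polynomial. Let `l`, `c` be as in `fac_top`
(`max y z = z < x`), `D = 16 x`, `w = 2 (x - z)`, `k = 20 x / w + 1`, so that `20 x < w k ≤ 20 x + w ≤ 21 x`
(`w < x`) and `k ≥ 21`. The unknowns are the coefficients `t (i, j)`, `(i, j) ∈ Mo l D`, of
`P = ∑ t (i, j) r ^ i s ^ j`; their number is `l (2 D + 3 - 2 l) ≥ 30 l x` (`card_Mo`), and `≤ 35 x ^ 2`.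
The equations: the coefficients of `sg^[k] (P * g)` at all `(i, j)` with
`18 x + (2 z - x) k < i + j ≤ 100 x k`, say (finitely many; for larger `i + j` they are `0` since
one step of `sg` increases the total degree by at most `2 x`); they are linear in `t` (`sg_iter_add`,
`sg_iter_smul`), with coefficients at most
`(2 H) ^ k n1 g ≤ 2 ^ ((x + 1) k + 8 x) ≤ 2 ^ (2 x k) =: B` (`sg_iter_n1`, `coeff_le_n1`, `n1_mul`,
`n1_mono`). `siegel_rank` with `ρ = l (w k)`: `4 ρ ≤ 84 l x ≤ 90 l x`; `hker`: apply `la_inf_int` with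
`a = w k`, `m = ρ + 1` to the polynomials of the `v t`, and `sg_low`. So there is `t ≠ 0` with
`|t| ≤ (35 x² B) ^ 3`, and `n1 P ≤ 35 x² (35 x² B) ^ 3 ≤ 2 ^ (8 x k)`. `¬ f ∣ P` by `not_dvd_of_supp`. -/
theorem runge_P {x y z : ℕ} {H G : ℤ} (h : Dat x y z H G) (hyz : y < z)
    (h2 : 2 ^ z + G * 2 ^ y ≤ 2 * H) {f g : ℤ[X][Y]} (hf : Good x y z H G f)
    (hfg : FF x y z H G = f * g) {k : ℕ} (hk : k = 20 * x / (2 * (x - z)) + 1) :
    ∃ P : ℤ[X][Y], ¬ f ∣ P ∧ TD P (16 * x) ∧ n1 P ≤ 2 ^ (10 * x * k) ∧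
      TD ((sg x y z H G)^[k] (P * g)) (18 * x + (2 * z - x) * k) := by
  classical
  obtain ⟨D, hD⟩ : ∃ D : ℕ, D = 16 * x := ⟨_, rfl⟩
  rw [← hD]
  obtain ⟨hgT, hgn⟩ := cof h hyz h2 hf hfg
  have hzx : z < x := h.hx
  have hx2 : x < 2 * z := h.hx2
  have hz1 : 1 ≤ z := h.hz
  have hmax : max y z < x := max_lt (hyz.trans hzx) hzx
  obtain ⟨c, l, hc, hl1, hlx, -, htop⟩ := fac_top h hmax hf.mon hf.dvd (not_dvd_abc hf).2.2.2.1
  -- the numbers
  have hwpos : 0 < 2 * (x - z) := by omega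
  have hwx : 2 * (x - z) ≤ x := by omega
  have hk1 : 20 * x < 2 * (x - z) * k := by
    rw [hk]
    exact Nat.lt_mul_div_succ _ hwpos
  have hk2 : 2 * (x - z) * k ≤ 21 * x := by
    have h3 := Nat.mul_div_le (20 * x) (2 * (x - z))
    rw [hk, mul_add, mul_one]
    omega
  have hk3 : 21 ≤ k := by
    have h3 : 20 ≤ 20 * x / (2 * (x - z)) := by
      rw [Nat.le_div_iff_mul_le hwpos]
      omega
    omega
  have hcard0 : (Mo l D).card = l * (2 * D + 3 - 2 * l) := card_Mo (by omega)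
  have hcard1 : 30 * (l * x) ≤ (Mo l D).card := by
    rw [hcard0]
    have h3 : 30 * x ≤ 2 * D + 3 - 2 * l := by omega
    calc 30 * (l * x) = l * (30 * x) := by ring
      _ ≤ _ := Nat.mul_le_mul_left l h3
  have hcard2 : (Mo l D).card ≤ 35 * x ^ 2 := by
    rw [hcard0]
    have h3 : 2 * D + 3 - 2 * l ≤ 35 * x := by omega
    calc l * (2 * D + 3 - 2 * l) ≤ x * (35 * x) := Nat.mul_le_mul hlx h3
      _ = 35 * x ^ 2 := by ring
  set N : ℕ := 18 * x + 2 * x * k with hN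
  set S : ℤ[X][Y] → ℤ[X][Y] := (sg x y z H G)^[k] with hS
  set A : Matrix (Fin (N + 1) × Fin (N + 1)) {p // p ∈ Mo l D} ℤ := fun q p =>
    if 18 * x + (2 * z - x) * k < (q.1 : ℕ) + q.2 then
      ((S (E7_mon p.1 * g)).coeff q.2).coeff q.1 else 0 with hA
  have hmv : ∀ (t : {p // p ∈ Mo l D} → ℤ) (q : Fin (N + 1) × Fin (N + 1)),
      A.mulVec t q = if 18 * x + (2 * z - x) * k < (q.1 : ℕ) + q.2 then
        ((S (E7_pol l D t * g)).coeff q.2).coeff q.1 else 0 := by
    intro t q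
    show ∑ p, A q p * t p = _
    by_cases hq : 18 * x + (2 * z - x) * k < (q.1 : ℕ) + q.2
    · rw [if_pos hq, hS, E7_iter_pol]
      refine Finset.sum_congr rfl fun p _ => ?_
      simp only [hA, if_pos hq, hS]
    · rw [if_neg hq]
      refine Finset.sum_eq_zero fun p _ => ?_
      simp only [hA, if_neg hq, zero_mul]
  have hHpos : (0 : ℤ) ≤ H := by have := h.hH1; omega
  have hGpos : (0 : ℤ) ≤ G := by have := h.hG1; omega
  have hAB : ∀ q p, |A q p| ≤ ((2 ^ (2 * x * k) : ℕ) : ℤ) := by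
    intro q p
    have hBpos : (0 : ℤ) ≤ ((2 ^ (2 * x * k) : ℕ) : ℤ) := Int.natCast_nonneg _
    by_cases hq : 18 * x + (2 * z - x) * k < (q.1 : ℕ) + q.2
    · have h3 : A q p = ((S (E7_mon p.1 * g)).coeff q.2).coeff q.1 := by
        simp only [hA, if_pos hq]
      rw [h3]
      refine (coeff_le_n1 _ _ _).trans ?_
      refine (sg_iter_n1 hHpos hGpos h2 _ k).trans ?_
      have h4 : n1 (E7_mon p.1 * g) ≤ 2 ^ (8 * x) := by
        refine (n1_mul _ _).trans ?_
        have h5 : n1 (E7_mon p.1) = 1 := n1_mono p.1.1 p.1.2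
        rw [h5, one_mul]
        exact hgn
      have h5 : (2 * H) ^ k ≤ (2 ^ ((x + 1) * k) : ℤ) := by
        rw [pow_mul]
        refine pow_le_pow_left₀ (by omega) ?_ k
        rw [pow_succ, mul_comm]
        have := h.hH2
        omega
      have h6 : (2 * H) ^ k * n1 (E7_mon p.1 * g) ≤ 2 ^ ((x + 1) * k) * 2 ^ (8 * x) :=
        mul_le_mul h5 h4 (n1_nonneg _) (by positivity)
      refine h6.trans ?_
      rw [← pow_add]
      push_cast
      refine pow_le_pow_right₀ (by norm_num) ?_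
      have h7 : 8 * x ≤ k * (x - 1) := by
        calc 8 * x ≤ 21 * (x - 1) := by omega
          _ ≤ k * (x - 1) := Nat.mul_le_mul_right _ hk3
      have h8 : k * (x - 1) + k = k * x := by
        rw [← Nat.mul_succ]
        congr 1
        omega
      calc (x + 1) * k + 8 * x ≤ (x + 1) * k + k * (x - 1) := by omega
        _ = x * k + (k * (x - 1) + k) := by ring
        _ = x * k + k * x := by rw [h8]
        _ = 2 * x * k := by ring
    · have h3 : A q p = 0 := by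
        simp only [hA, if_neg hq]
      rw [h3, abs_zero]
      exact hBpos
  have hcc : Fintype.card {p // p ∈ Mo l D} = (Mo l D).card := Fintype.card_coe _
  have hlx1 : 1 ≤ l * x := Nat.mul_pos hl1 (by omega)
  obtain ⟨t, ht0, htA, htb⟩ := siegel_rank A (2 ^ (2 * x * k)) Nat.one_le_two_pow hAB
    (l * (2 * (x - z) * k)) (by rw [hcc]; omega)
    (by
      rw [hcc]
      have h3 : l * (2 * (x - z) * k) ≤ 21 * (l * x) := by
        calc l * (2 * (x - z) * k) ≤ l * (21 * x) := Nat.mul_le_mul_left l hk2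
          _ = 21 * (l * x) := by ring
      omega)
    (by
      intro v
      obtain ⟨b, hb, κ, K, W, V, hκ, h3, h4⟩ := la_inf_int htop hc hl1 (2 * (x - z) * k) D
        (l * (2 * (x - z) * k) + 1) (Nat.lt_succ_self _) (fun i => E7_pol l D (v i))
        (fun i => E7_TD_pol l D (v i))
      refine ⟨b, hb, ?_⟩
      rw [E7_pol_comb] at h3
      have h5 := sg_low hyz hzx hx2 (by have := h.hH1; omega) hfg hgT
        (E7_TD_pol l D (∑ i, b i • v i)) hκ h3 h4
      funext q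
      rw [hmv]
      by_cases hq : 18 * x + (2 * z - x) * k < (q.1 : ℕ) + q.2
      · rw [if_pos hq]
        exact h5 q.1 q.2 (by omega)
      · rw [if_neg hq]
        rfl)
  refine ⟨E7_pol l D t, ?_, E7_TD_pol _ _ _, ?_, ?_⟩
  · refine not_dvd_of_supp htop hc ?_ ?_
    · intro h0
      apply ht0
      funext p
      have h3 := E7_coeff_pol l D t p.1.1 p.1.2
      rw [h0, coeff_zero, coeff_zero, dif_pos p.2] at h3
      exact h3.symm
    · intro i j hij
      rw [E7_coeff_pol] at hij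
      by_cases hm : (i, j) ∈ Mo l D
      · exact (E7_mem_Mo hm).2
      · rw [dif_neg hm] at hij
        exact absurd rfl hij
  · refine (E7_n1_pol l D t htb).trans ?_
    rw [hcc]
    have h3 : 35 * x ^ 2 ≤ 2 ^ (x * k) := by
      have h4 : x ≤ 2 ^ x := Nat.lt_two_pow_self.le
      calc 35 * x ^ 2 ≤ 2 ^ (6 * x) * (2 ^ x) ^ 2 := by
            refine Nat.mul_le_mul ?_ (Nat.pow_le_pow_left h4 2)
            calc 35 ≤ 2 ^ 6 := by norm_num
              _ ≤ 2 ^ (6 * x) := Nat.pow_le_pow_right (by norm_num) (by omega)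
        _ = 2 ^ (8 * x) := by rw [← pow_mul, ← pow_add]; congr 1; ring
        _ ≤ 2 ^ (x * k) := Nat.pow_le_pow_right (by norm_num) (by
            calc 8 * x ≤ 21 * x := by omega
              _ ≤ k * x := Nat.mul_le_mul_right _ hk3
              _ = x * k := mul_comm _ _)
    have h4 : (Mo l D).card ≤ 2 ^ (x * k) := hcard2.trans h3
    have h5 : (Mo l D).card * ((Mo l D).card * 2 ^ (2 * x * k)) ^ 3 ≤
        2 ^ (10 * x * k) := by
      calc (Mo l D).card * ((Mo l D).card * 2 ^ (2 * x * k)) ^ 3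
          ≤ 2 ^ (x * k) * (2 ^ (x * k) * 2 ^ (2 * x * k)) ^ 3 :=
            Nat.mul_le_mul h4 (Nat.pow_le_pow_left (Nat.mul_le_mul_right _ h4) 3)
        _ = 2 ^ (10 * x * k) := by
            rw [← pow_add, ← pow_mul, ← pow_add]
            congr 1
            ring
    exact_mod_cast h5
  · intro i j hij
    by_cases hN1 : i < N + 1 ∧ j < N + 1
    · have h3 := congrFun htA (⟨i, hN1.1⟩, ⟨j, hN1.2⟩)
      rw [hmv, if_pos hij] at h3
      exact h3
    · have h3 : TD (E7_pol l D t * g) (18 * x) :=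
        TD_mono (TD_mul (E7_TD_pol l D t) hgT) (by omega)
      have h4 := E7_iter_TD H G (hyz.le.trans hzx.le) hzx.le h3 k
      exact h4 i j (by omega)

end PX91
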