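import Pool.Agent.LibPX91.E7

open Polynomial JP91
open scoped Polynomial.Bivariate

namespace PX91

private theorem E8_num {x z k : ℕ} (hzx : z < x) (hx2 : x < 2 * z)
    (hk : k = 20 * x / (2 * (x - z)) + 1) :
    20 * x < 2 * (x - z) * k ∧ 21 ≤ k := by
  have hw : 0 < 2 * (x - z) := by omega
  refine ⟨?_, ?_⟩
  · rw [hk]
    exact Nat.lt_mul_div_succ (20 * x) hw
  · have h1 : 20 ≤ 20 * x / (2 * (x - z)) := by
      rw [Nat.le_div_iff_mul_le hw]
      omega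
    omega

private theorem E8_zero {x y z : ℕ} {H G : ℤ} {Q : ℤ[X][Y]} {r s : ℤ} {k : ℕ}
    (h0 : (FF x y z H G).evalEval r s = 0) :
    (H * r ^ x) ^ k * Q.evalEval r s = ((sg x y z H G)^[k] Q).evalEval r s := by
  obtain ⟨W, hW⟩ := sg_iter_dvd x y z H G Q k
  have h1 := congrArg (fun p => evalEval r s p) hW
  simp only [evalEval_mul, evalEval_sub, evalEval_pow, h0, zero_mul] at h1
  have h2 : (C (C H) : ℤ[X][Y]).evalEval r s = H := by simp [evalEval]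
  have h3 : (C X : ℤ[X][Y]).evalEval r s = r := by simp [evalEval]
  rw [h2, h3] at h1
  linarith

/-- Row E8 (EASY-MEDIUM). With `P` as in `runge_P`: at a point of the curve
`H ^ k r ^ (x k) (P g)(r, s) = R(r, s)`, `R = sg^[k] (P g)` (`sg_iter_dvd`), and
`|R(r, s)| ≤ n1 R r ^ (18 x + (2 z - x) k)` (`eval_le`), `n1 R ≤ (2 H) ^ k n1 P n1 g` (`sg_iter_n1`). If
`(P g)(r, s) ≠ 0` then, dividing by `H ^ k r ^ ((2 z - x) k)`:
`r ^ (2 (x - z) k) ≤ 2 ^ k 2 ^ (10 x k + 8 x) r ^ (18 x)`, and `2 (x - z) k ≥ 20 x`, so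
`r ^ (2 x) ≤ 2 ^ (k + 10 x k + 8 x) < 2 ^ (12 x k)` (`k ≥ 21`), and `r < 2 ^ (6 k)`. -/
theorem far {x y z : ℕ} {H G : ℤ} (h : Dat x y z H G) (hyz : y < z)
    (h2 : 2 ^ z + G * 2 ^ y ≤ 2 * H) {f g : ℤ[X][Y]} (hf : Good x y z H G f)
    (hfg : FF x y z H G = f * g) {k : ℕ} (hk : k = 20 * x / (2 * (x - z)) + 1) :
    ∃ P : ℤ[X][Y], ¬ f ∣ P ∧ TD P (16 * x) ∧ ∀ r s : ℤ, 1 ≤ s → s < r →
      (FF x y z H G).evalEval r s = 0 → 2 ^ (6 * k) ≤ r → (P * g).evalEval r s = 0 := by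
  obtain ⟨P, hP1, hP2, hP3, hP4⟩ := runge_P h hyz h2 hf hfg hk
  obtain ⟨-, hg⟩ := cof h hyz h2 hf hfg
  refine ⟨P, hP1, hP2, ?_⟩
  intro r s hs hr h0 hrk
  by_contra hcon
  obtain ⟨hwk, hk21⟩ := E8_num h.hx h.hx2 hk
  have hr1 : 1 ≤ r := by linarith
  have hH1 : 1 ≤ H := by have := h.hH1; linarith
  have hH0 : 0 ≤ H := by linarith
  have e1 := E8_zero (x := x) (y := y) (z := z) (H := H) (G := G) (Q := P * g) (k := k) h0
  have e2 : |((sg x y z H G)^[k] (P * g)).evalEval r s| ≤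
      n1 ((sg x y z H G)^[k] (P * g)) * r ^ (18 * x + (2 * z - x) * k) :=
    eval_le hP4 hr1 (by rw [abs_le]; constructor <;> linarith)
  have e3 := sg_iter_n1 (x := x) (y := y) (z := z) (H := H) (G := G) hH0
    (by have := h.hG1; linarith) h2 (P * g) k
  have e4 : n1 (P * g) ≤ 2 ^ (10 * x * k) * 2 ^ (8 * x) := by
    refine (n1_mul P g).trans ?_
    exact mul_le_mul hP3 hg (n1_nonneg g) (by positivity)
  have e5 : 1 ≤ |(P * g).evalEval r s| := Int.one_le_abs hcon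
  have hHr : 0 < (H * r ^ x) ^ k := by positivity
  have e6 : (H * r ^ x) ^ k ≤
      (2 * H) ^ k * (2 ^ (10 * x * k) * 2 ^ (8 * x)) * r ^ (18 * x + (2 * z - x) * k) := by
    calc (H * r ^ x) ^ k = (H * r ^ x) ^ k * 1 := (mul_one _).symm
      _ ≤ (H * r ^ x) ^ k * |(P * g).evalEval r s| := mul_le_mul_of_nonneg_left e5 hHr.le
      _ = |((sg x y z H G)^[k] (P * g)).evalEval r s| := by
          rw [← e1, abs_mul, abs_of_pos hHr]
      _ ≤ n1 ((sg x y z H G)^[k] (P * g)) * r ^ (18 * x + (2 * z - x) * k) := e2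
      _ ≤ (2 * H) ^ k * (2 ^ (10 * x * k) * 2 ^ (8 * x)) * r ^ (18 * x + (2 * z - x) * k) := by
          refine mul_le_mul_of_nonneg_right (e3.trans ?_) (by positivity)
          exact mul_le_mul_of_nonneg_left e4 (by positivity)
  -- divide by `H ^ k` and `r ^ ((2 z - x) k + 18 x)`
  obtain ⟨u, hu⟩ : ∃ u, 2 * (x - z) * k = 18 * x + 2 * x + u := by
    exact ⟨2 * (x - z) * k - 20 * x, by omega⟩
  have hxk : x * k = (2 * z - x) * k + (18 * x + 2 * x + u) := by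
    rw [← hu, ← Nat.add_mul]
    congr 1
    have h3 := h.hx
    have h4 := h.hx2
    omega
  have e7 : H ^ k * (r ^ (18 * x + (2 * z - x) * k) * r ^ (2 * x + u)) ≤
      H ^ k * (r ^ (18 * x + (2 * z - x) * k) * 2 ^ (k + 10 * x * k + 8 * x)) := by
    calc H ^ k * (r ^ (18 * x + (2 * z - x) * k) * r ^ (2 * x + u)) = (H * r ^ x) ^ k := by
          rw [mul_pow, ← pow_mul, hxk, ← pow_add]
          congr 2
          ring
      _ ≤ _ := e6
      _ = H ^ k * (r ^ (18 * x + (2 * z - x) * k) * 2 ^ (k + 10 * x * k + 8 * x)) := by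
          rw [mul_pow, pow_add 2 (k + 10 * x * k), pow_add 2 k]
          ring
  have e8 : r ^ (2 * x + u) ≤ 2 ^ (k + 10 * x * k + 8 * x) := by
    have hHk : 0 < H ^ k := by positivity
    have hrk' : 0 < r ^ (18 * x + (2 * z - x) * k) := by positivity
    exact le_of_mul_le_mul_left (le_of_mul_le_mul_left e7 hHk) hrk'
  have e9 : (2 : ℤ) ^ (6 * k * (2 * x)) ≤ 2 ^ (k + 10 * x * k + 8 * x) := by
    calc (2 : ℤ) ^ (6 * k * (2 * x)) = (2 ^ (6 * k)) ^ (2 * x) := by rw [pow_mul]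
      _ ≤ r ^ (2 * x) := pow_le_pow_left₀ (by positivity) hrk _
      _ ≤ r ^ (2 * x + u) := pow_le_pow_right₀ hr1 (Nat.le_add_right _ _)
      _ ≤ _ := e8
  have e10 : 6 * k * (2 * x) ≤ k + 10 * x * k + 8 * x :=
    (pow_le_pow_iff_right₀ (by norm_num : (1 : ℤ) < 2)).1 e9
  have hx1 : 1 ≤ x := by have := h.hx; omega
  have e11 : 1 * k ≤ x * k := Nat.mul_le_mul_right k hx1
  have e12 : x * 21 ≤ x * k := Nat.mul_le_mul_left x hk21
  have e13 : 6 * k * (2 * x) = 12 * (x * k) := by ring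
  have e14 : 10 * x * k = 10 * (x * k) := by ring
  rw [e13, e14] at e10
  omega

end PX91
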