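import Pool.Agent.LibPX91.N4

open Polynomial JP91
open scoped Polynomial.Bivariate

namespace PX91

private theorem S1_dr_sub (f g : ℤ[X][Y]) : dr (f - g) = dr f - dr g := by
  unfold dr
  simp only [map_sub]

/-- The Euler derivation `r ∂ᵣ + s ∂ₛ`. -/
private noncomputable def S1_E (g : ℤ[X][Y]) : ℤ[X][Y] := C X * dr g + Y * derivative g

/-- The derivation `r ∂ᵣ - s ∂ₛ`. -/
private noncomputable def S1_M (g : ℤ[X][Y]) : ℤ[X][Y] := C X * dr g - Y * derivative g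

private theorem S1_E_mul (f g : ℤ[X][Y]) : S1_E (f * g) = S1_E f * g + f * S1_E g := by
  unfold S1_E
  rw [dr_mul, derivative_mul]
  ring

private theorem S1_M_mul (f g : ℤ[X][Y]) : S1_M (f * g) = S1_M f * g + f * S1_M g := by
  unfold S1_M
  rw [dr_mul, derivative_mul]
  ring

private theorem S1_E_sub (f g : ℤ[X][Y]) : S1_E (f - g) = S1_E f - S1_E g := by
  unfold S1_E
  rw [S1_dr_sub, derivative_sub]
  ring

private theorem S1_M_sub (f g : ℤ[X][Y]) : S1_M (f - g) = S1_M f - S1_M g := by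
  unfold S1_M
  rw [S1_dr_sub, derivative_sub]
  ring

private theorem S1_E_add (f g : ℤ[X][Y]) : S1_E (f + g) = S1_E f + S1_E g := by
  unfold S1_E
  rw [dr_add, derivative_add]
  ring

private theorem S1_M_add (f g : ℤ[X][Y]) : S1_M (f + g) = S1_M f + S1_M g := by
  unfold S1_M
  rw [dr_add, derivative_add]
  ring

private theorem S1_E_C (a : ℤ) : S1_E (C (C a)) = 0 := by
  unfold S1_E
  rw [dr_CC, derivative_C]
  ring

private theorem S1_M_C (a : ℤ) : S1_M (C (C a)) = 0 := by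
  unfold S1_M
  rw [dr_CC, derivative_C]
  ring

private theorem S1_EX : S1_E (C X) = C X := by
  unfold S1_E
  rw [dr_CX, derivative_C]
  ring

private theorem S1_EY : S1_E (Y : ℤ[X][Y]) = Y := by
  unfold S1_E
  rw [dr_Y, derivative_X]
  ring

private theorem S1_MX : S1_M (C X) = C X := by
  unfold S1_M
  rw [dr_CX, derivative_C]
  ring

private theorem S1_MY : S1_M (Y : ℤ[X][Y]) = -(Y : ℤ[X][Y]) := by
  unfold S1_M
  rw [dr_Y, derivative_X]
  ring

private theorem S1_E_one : S1_E 1 = 0 := by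
  have h := S1_E_C 1
  rwa [C_1, C_1] at h

private theorem S1_M_one : S1_M 1 = 0 := by
  have h := S1_M_C 1
  rwa [C_1, C_1] at h

private theorem S1_E_pow {u : ℤ[X][Y]} (hu : S1_E u = 2 * u) (n : ℕ) :
    S1_E (u ^ n) = 2 * (n : ℤ[X][Y]) * u ^ n := by
  induction n with
  | zero => simp [S1_E_one]
  | succ n ih =>
    rw [pow_succ, S1_E_mul, ih, hu]
    push_cast
    ring

private theorem S1_M_pow {u v : ℤ[X][Y]} (hu : S1_M u = 2 * v) (n : ℕ) :
    u * S1_M (u ^ n) = 2 * (n : ℤ[X][Y]) * (u ^ n * v) := by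
  induction n with
  | zero => simp [S1_M_one]
  | succ n ih =>
    rw [pow_succ, S1_M_mul, hu, mul_add, ← mul_assoc, ih]
    push_cast
    ring

private theorem S1_EA : S1_E cA = 2 * cA := by
  unfold cA
  rw [S1_E_mul, S1_EX, S1_EY]
  ring

private theorem S1_EB : S1_E cB = 2 * cB := by
  unfold cB
  rw [S1_E_sub, pow_two, pow_two, S1_E_mul, S1_E_mul, S1_EX, S1_EY]
  ring

private theorem S1_EC : S1_E cC = 2 * cC := by
  unfold cC
  rw [S1_E_add, pow_two, pow_two, S1_E_mul, S1_E_mul, S1_EX, S1_EY]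
  ring

private theorem S1_MA : S1_M cA = 2 * 0 := by
  unfold cA
  rw [S1_M_mul, S1_MX, S1_MY]
  ring

private theorem S1_MB : S1_M cB = 2 * cC := by
  unfold cB cC
  rw [S1_M_sub, pow_two, pow_two, S1_M_mul, S1_M_mul, S1_MX, S1_MY]
  ring

private theorem S1_MC : S1_M cC = 2 * cB := by
  unfold cB cC
  rw [S1_M_add, pow_two, pow_two, S1_M_mul, S1_M_mul, S1_MX, S1_MY]
  ring

private theorem S1_MAx (x : ℕ) : S1_M (cA ^ x) = 0 := by
  induction x with
  | zero => simp [S1_M_one]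
  | succ n ih =>
    rw [pow_succ, S1_M_mul, ih, S1_MA]
    ring

/-- Row S (EASY-MEDIUM). A good factor divides `FF` only once. If `F = FF = f * g` and `f ∣ g` then `f`
divides `F`, `∂F/∂s` and `∂F/∂r` (`derivative`, `dr`). With `c = C ^ z`, `a = H A ^ x`, `b = G B ^ y`
(`A = cA`, `B = cB`, `C = cC`), modulo `f`: `c = a + b`;
`r ∂ᵣF + s ∂ₛF = 2 (z c - x a - y b)`, so `z c = x a + y b`; and multiplying
`r ∂ᵣF - s ∂ₛF = 2 (z C^(z-1) B - y G B^(y-1) C)` by `C B / 2`: `z c B ^ 2 = y b C ^ 2`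
(`f` does not divide `2`: `not_dvd_abc`). Hence `(x - z) c = (x - y) b` and so
`f ∣ b (z (x - y) B ^ 2 - y (x - z) C ^ 2)`; as `f` is prime and does not divide `b`
(`not_dvd_abc`), it divides the second factor; at `r = 0` this gives
`at0 f ∣ C (x (z - y)) * X ^ 4`, which contradicts `not_dvd` (`y ≠ z`, `x ≥ 1`). -/
theorem mult_one {x y z : ℕ} {H G : ℤ} (h : Dat x y z H G) {f : ℤ[X][Y]}
    (hf : Good x y z H G f) {g : ℤ[X][Y]} (hg : FF x y z H G = f * g) : ¬ f ∣ g := by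
  rintro ⟨k, rfl⟩
  obtain ⟨-, hB, -, -, hc⟩ := not_dvd_abc hf
  have hp : Prime f := hf.irr.prime
  -- the two derivatives are multiples of `f`
  have hE : f ∣ S1_E (FF x y z H G) := by
    rw [hg, S1_E_mul, S1_E_mul]
    exact ⟨S1_E f * k + (S1_E f * k + f * S1_E k), by ring⟩
  have hM : f ∣ S1_M (FF x y z H G) := by
    rw [hg, S1_M_mul, S1_M_mul]
    exact ⟨S1_M f * k + (S1_M f * k + f * S1_M k), by ring⟩
  have e1 : S1_E (FF x y z H G) = 2 * ((z : ℤ[X][Y]) * cC ^ z) -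
      2 * ((x : ℤ[X][Y]) * (C (C H) * cA ^ x)) - 2 * ((y : ℤ[X][Y]) * (C (C G) * cB ^ y)) := by
    unfold FF
    rw [S1_E_sub, S1_E_sub, S1_E_mul, S1_E_mul, S1_E_C, S1_E_C, S1_E_pow S1_EA, S1_E_pow S1_EB,
      S1_E_pow S1_EC]
    ring
  have e2 : cC * cB * S1_M (FF x y z H G) = 2 * ((z : ℤ[X][Y]) * cC ^ z * cB ^ 2) -
      2 * ((y : ℤ[X][Y]) * (C (C G) * cB ^ y) * cC ^ 2) := by
    have m1 := S1_M_pow S1_MC z
    have m2 := S1_M_pow S1_MB y
    unfold FF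
    rw [S1_M_sub, S1_M_sub, S1_M_mul, S1_M_mul, S1_M_C, S1_M_C, S1_MAx]
    linear_combination cB * m1 - C (C G) * cC * m2
  have hF : f ∣ FF x y z H G := hf.dvd
  -- the combination
  have key : f ∣ C (C 2) * (C (C G) * cB ^ y *
      (C (C ((z : ℤ) * ((x : ℤ) - y))) * cB ^ 2 - C (C ((y : ℤ) * ((x : ℤ) - z))) * cC ^ 2)) := by
    have h1 : f ∣ ((x : ℤ[X][Y]) - (z : ℤ[X][Y])) * (cC * cB * S1_M (FF x y z H G)) +
        (z : ℤ[X][Y]) * cB ^ 2 * S1_E (FF x y z H G) -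
        2 * (z : ℤ[X][Y]) * (x : ℤ[X][Y]) * cB ^ 2 * FF x y z H G :=
      dvd_sub (dvd_add (Dvd.dvd.mul_left (Dvd.dvd.mul_left hM _) _) (Dvd.dvd.mul_left hE _))
        (Dvd.dvd.mul_left hF _)
    have h2 : ((x : ℤ[X][Y]) - (z : ℤ[X][Y])) * (cC * cB * S1_M (FF x y z H G)) +
        (z : ℤ[X][Y]) * cB ^ 2 * S1_E (FF x y z H G) -
        2 * (z : ℤ[X][Y]) * (x : ℤ[X][Y]) * cB ^ 2 * FF x y z H G =
        C (C 2) * (C (C G) * cB ^ y * (C (C ((z : ℤ) * ((x : ℤ) - y))) * cB ^ 2 -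
          C (C ((y : ℤ) * ((x : ℤ) - z))) * cC ^ 2)) := by
      have c2 : (C (C 2) : ℤ[X][Y]) = 2 := by
        rw [show (C 2 : ℤ[X]) = 2 from map_ofNat C 2]
        exact map_ofNat C 2
      have c3 : (C (C ((z : ℤ) * ((x : ℤ) - y))) : ℤ[X][Y]) =
          (z : ℤ[X][Y]) * ((x : ℤ[X][Y]) - (y : ℤ[X][Y])) := by simp
      have c4 : (C (C ((y : ℤ) * ((x : ℤ) - z))) : ℤ[X][Y]) =
          (y : ℤ[X][Y]) * ((x : ℤ[X][Y]) - (z : ℤ[X][Y])) := by simp
      rw [e1, e2, c2, c3, c4]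
      unfold FF
      ring
    rwa [h2] at h1
  rcases hp.dvd_or_dvd key with h3 | h3
  · exact hc 2 (by norm_num) h3
  rcases hp.dvd_or_dvd h3 with h4 | h4
  · rcases hp.dvd_or_dvd h4 with h5 | h5
    · have := h.hG1
      exact hc G (by omega) h5
    · exact hB (hp.dvd_of_dvd_pow h5)
  · have h5 : at0 f ∣ at0 (C (C ((z : ℤ) * ((x : ℤ) - y))) * cB ^ 2 -
        C (C ((y : ℤ) * ((x : ℤ) - z))) * cC ^ 2) := Polynomial.map_dvd (evalRingHom 0) h4
    have h6 : at0 (C (C ((z : ℤ) * ((x : ℤ) - y))) * cB ^ 2 -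
        C (C ((y : ℤ) * ((x : ℤ) - z))) * cC ^ 2) = C ((x : ℤ) * ((z : ℤ) - y)) * X ^ 4 := by
      unfold at0 cB cC
      simp only [Polynomial.map_sub, Polynomial.map_mul, Polynomial.map_pow, Polynomial.map_add,
        map_C, map_X, coe_evalRingHom, eval_X, eval_C, map_mul, map_sub, C_0]
      ring
    rw [h6] at h5
    refine not_dvd hf _ ?_ 4 h5
    have hx := h.hx
    have hyz := h.hyz
    have h7 : (x : ℤ) ≠ 0 := by omega
    have h8 : (z : ℤ) - y ≠ 0 := by omega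
    exact mul_ne_zero h7 h8

end PX91
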