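import Pool.Agent.LibPX91.E8
import Pool.Agent.LibPX91.S1
import Pool.Agent.LibJP91.B0

open Polynomial JP91
open scoped Polynomial.Bivariate

namespace PX91

/-- Row E8, second part (EASY). All points are zeros of `P` or of `g`, and `f` divides neither `P` nor
`g` (`mult_one`); `bezout` twice, with `M = N = f.natDegree ≤ 2 z ≤ 2 x` (`deg_eq`,
`natDegree_coeff_le`), `a = b = 16 x` resp. `a = b = 2 x` (`TD_natDegree`). -/
theorem far_card {x y z : ℕ} {H G : ℤ} (h : Dat x y z H G) (hyz : y < z)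
    (h2 : 2 ^ z + G * 2 ^ y ≤ 2 * H) {f : ℤ[X][Y]} (hf : Good x y z H G f) {k : ℕ}
    (hk : k = 20 * x / (2 * (x - z)) + 1) (S : Finset (ℤ × ℤ))
    (hS : ∀ p ∈ S, 1 ≤ p.2 ∧ p.2 < p.1 ∧ f.evalEval p.1 p.2 = 0 ∧ 2 ^ (6 * k) ≤ p.1) :
    S.card ≤ 1000 * x ^ 3 := by
  classical
  obtain ⟨g, hg⟩ := hf.dvd
  obtain ⟨P, hfP, hTP, hP⟩ := far h hyz h2 hf hg hk
  have hlead := FF_lead h
  have hmax : max y z = z := max_eq_right hyz.le
  have hF0 : FF x y z H G ≠ 0 := by
    intro h3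
    have h4 := hlead.2
    rw [h3, leadingCoeff_zero] at h4
    exact not_isUnit_zero h4
  have hg0 : g ≠ 0 := by
    intro h3
    rw [h3, mul_zero] at hg
    exact hF0 hg
  have hfg := mult_one h hf hg
  have hdeg : f.natDegree + g.natDegree = 2 * z := by
    rw [← natDegree_mul hf.mon.ne_zero hg0, ← hg, hlead.1, hmax]
  have hx := h.hx
  have hM : ∀ j, (f.coeff j).natDegree ≤ f.natDegree := fun j => by
    rw [← deg_eq h hf.mon hf.dvd]
    exact natDegree_coeff_le f j
  have hb : ∀ j, (g.coeff j).natDegree ≤ 2 * x := fun j => by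
    refine (natDegree_coeff_le g j).trans ?_
    have h3 := (FF_swap_lead h).1
    have h4 : Bivariate.swap f ≠ 0 := (map_ne_zero_iff _ (Bivariate.swap).injective).2
      hf.mon.ne_zero
    have h5 : Bivariate.swap g ≠ 0 := (map_ne_zero_iff _ (Bivariate.swap).injective).2 hg0
    rw [hg, map_mul, natDegree_mul h4 h5, hmax] at h3
    omega
  have c1 := bezout f P f.natDegree (16 * x) (16 * x) hf.mon hf.irr hfP hM (TD_natDegree hTP).1
    (TD_natDegree hTP).2 (S.filter fun p => P.evalEval p.1 p.2 = 0) (fun p hp => by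
      rw [Finset.mem_filter] at hp
      exact ⟨(hS p hp.1).2.2.1, hp.2⟩)
  have c2 := bezout f g f.natDegree (2 * x) (2 * x) hf.mon hf.irr hfg hM (by omega) hb
    (S.filter fun p => g.evalEval p.1 p.2 = 0) (fun p hp => by
      rw [Finset.mem_filter] at hp
      exact ⟨(hS p hp.1).2.2.1, hp.2⟩)
  have hsub : S ⊆ (S.filter fun p => P.evalEval p.1 p.2 = 0) ∪
      (S.filter fun p => g.evalEval p.1 p.2 = 0) := by
    intro p hp
    obtain ⟨p1, p2, p3, p4⟩ := hS p hp
    have h4 : (FF x y z H G).evalEval p.1 p.2 = 0 := by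
      rw [hg, evalEval_mul, p3, zero_mul]
    have h5 := hP p.1 p.2 p1 p2 h4 p4
    rw [evalEval_mul, mul_eq_zero] at h5
    rw [Finset.mem_union, Finset.mem_filter, Finset.mem_filter]
    exact h5.imp (fun h6 => ⟨hp, h6⟩) fun h6 => ⟨hp, h6⟩
  have hN : f.natDegree ≤ 2 * x := by omega
  have c3 := (Finset.card_le_card hsub).trans (Finset.card_union_le _ _)
  have d1 : f.natDegree * ((f.natDegree + 16 * x) * (f.natDegree + 16 * x)) ≤
      2 * x * ((2 * x + 16 * x) * (2 * x + 16 * x)) :=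
    Nat.mul_le_mul hN (Nat.mul_le_mul (by omega) (by omega))
  have d2 : f.natDegree * ((f.natDegree + 2 * x) * (f.natDegree + 2 * x)) ≤
      2 * x * ((2 * x + 2 * x) * (2 * x + 2 * x)) :=
    Nat.mul_le_mul hN (Nat.mul_le_mul (by omega) (by omega))
  have d3 : 2 * x * ((2 * x + 16 * x) * (2 * x + 16 * x)) +
      2 * x * ((2 * x + 2 * x) * (2 * x + 2 * x)) ≤ 1000 * x ^ 3 := by
    have d4 : 2 * x * ((2 * x + 16 * x) * (2 * x + 16 * x)) +
      2 * x * ((2 * x + 2 * x) * (2 * x + 2 * x)) = 680 * x ^ 3 := by ring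
    rw [d4]
    exact Nat.mul_le_mul (by norm_num) le_rfl
  omega

end PX91
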