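import Pool.Agent.LibPX91.E1
import Pool.Agent.LibJP91.A8

open Polynomial JP91
open scoped Polynomial.Bivariate

namespace PX91

/-- The sum of the absolute values of the coefficients. -/
noncomputable def l1 (p : ℤ[X]) : ℤ := p.sum fun _ a => |a|

private theorem H1_C (p : ℤ[X]) : n1 (C p) = l1 p := by
  unfold n1 l1
  rw [sum_C_index]
  rw [Polynomial.sum_def, support_zero, Finset.sum_empty]

private theorem H1_nonneg (p : ℤ[X]) : 0 ≤ l1 p := by
  rw [← H1_C]
  exact n1_nonneg _

private theorem H1_zero : l1 0 = 0 := by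
  unfold l1
  rw [Polynomial.sum_def, support_zero, Finset.sum_empty]

private theorem H1_coeff (f : ℤ[X][Y]) (j : ℕ) : l1 (f.coeff j) ≤ n1 f := by
  by_cases hj : j ∈ f.support
  · have h1 : n1 f = ∑ i ∈ f.support, l1 (f.coeff i) := by
      unfold n1 l1
      rw [Polynomial.sum_def]
    rw [h1]
    exact Finset.single_le_sum (f := fun i => l1 (f.coeff i)) (fun i _ => H1_nonneg _) hj
  · rw [notMem_support_iff.1 hj, H1_zero]
    exact n1_nonneg f

private theorem H1_n0 : n1 (0 : ℤ[X][Y]) = 0 := by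
  have h1 := H1_C 0
  rwa [C_0, H1_zero] at h1

private theorem H1_sum {ι : Type*} (s : Finset ι) (g : ι → ℤ[X][Y]) :
    n1 (∑ i ∈ s, g i) ≤ ∑ i ∈ s, n1 (g i) := by
  classical
  induction s using Finset.induction_on with
  | empty => rw [Finset.sum_empty, Finset.sum_empty, H1_n0]
  | insert a s has ih =>
    rw [Finset.sum_insert has, Finset.sum_insert has]
    exact (n1_add _ _).trans (by linarith)

private theorem H1_prod {B : ℤ} (hB : 1 ≤ B) {ι : Type*} (s : Finset ι) (g : ι → ℤ[X][Y])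
    (h : ∀ i ∈ s, n1 (g i) ≤ B) : n1 (∏ i ∈ s, g i) ≤ B ^ s.card := by
  classical
  induction s using Finset.induction_on with
  | empty =>
    rw [Finset.prod_empty, Finset.card_empty, pow_zero]
    have h1 := n1_CC 1
    rw [C_1, C_1, abs_one] at h1
    exact h1.le
  | insert a s has ih =>
    rw [Finset.prod_insert has, Finset.card_insert_of_notMem has, pow_succ, mul_comm (B ^ s.card)]
    refine (n1_mul _ _).trans ?_
    exact mul_le_mul (h a (Finset.mem_insert_self a s))
      (ih fun i hi => h i (Finset.mem_insert_of_mem hi)) (n1_nonneg _) (by omega)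

/-- Row H1 (EASY). Each entry of the Sylvester matrix is `0` or a coefficient `f.coeff j`, `g.coeff j`,
so its `l1` is at most `B` (`n1` is the sum of the `l1` of the coefficients); `l1` is subadditive and
submultiplicative; expand the determinant (`Matrix.det_apply`): `(m + n)!` products of `m + n`
entries. -/
theorem l1_resultant {f g : ℤ[X][Y]} {B : ℤ} (hB : 1 ≤ B) (hf : n1 f ≤ B) (hg : n1 g ≤ B)
    (m n : ℕ) : l1 (resultant f g m n) ≤ (m + n).factorial * B ^ (m + n) := by
  have hent : ∀ i j, n1 (C (sylvester f g m n i j)) ≤ B := by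
    intro i j
    rw [H1_C]
    refine Fin.addCases (fun j => ?_) (fun j => ?_) j
    · simp only [sylvester, Matrix.of_apply, Fin.addCases_left]
      split_ifs
      · exact (H1_coeff g _).trans hg
      · rw [H1_zero]
        omega
    · simp only [sylvester, Matrix.of_apply, Fin.addCases_right]
      split_ifs
      · exact (H1_coeff f _).trans hf
      · rw [H1_zero]
        omega
  rw [← H1_C, resultant, Matrix.det_apply', map_sum]
  refine (H1_sum _ _).trans ?_
  have h1 : ∀ σ ∈ (Finset.univ : Finset (Equiv.Perm (Fin (m + n)))),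
      n1 (C ((((Equiv.Perm.sign σ : ℤˣ) : ℤ) : ℤ[X]) * ∏ i, sylvester f g m n (σ i) i)) ≤
        B ^ (m + n) := by
    intro σ _
    rw [map_mul, map_prod]
    refine (n1_mul _ _).trans ?_
    have h2 : n1 (C ((((Equiv.Perm.sign σ : ℤˣ) : ℤ) : ℤ[X]))) = 1 := by
      have h3 : ((((Equiv.Perm.sign σ : ℤˣ) : ℤ) : ℤ[X])) = C ((Equiv.Perm.sign σ : ℤˣ) : ℤ) := by
        rw [eq_intCast]
      rw [h3, n1_CC]
      rcases Int.units_eq_one_or (Equiv.Perm.sign σ) with h4 | h4
      · rw [h4]; rfl
      · rw [h4]; rfl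
    rw [h2, one_mul]
    have h5 := H1_prod hB (Finset.univ : Finset (Fin (m + n)))
      (fun i => C (sylvester f g m n (σ i) i)) (fun i _ => hent _ _)
    rwa [Finset.card_univ, Fintype.card_fin] at h5
  refine (Finset.sum_le_sum h1).trans ?_
  rw [Finset.sum_const, Finset.card_univ, Fintype.card_perm, Fintype.card_fin, nsmul_eq_mul]

/-- Row H1, second part (EASY). `R = X ^ k * R₂` with `R₂.coeff 0 ≠ 0`; `R₂(r) = 0`, so `r` divides
`R₂.coeff 0`, which is a coefficient of `R`. -/
theorem root_le {R : ℤ[X]} (hR : R ≠ 0) {r : ℤ} (hr : 1 ≤ r) (h0 : R.eval r = 0) : r ≤ l1 R := by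
  obtain ⟨R₂, hR₂, hnd⟩ := exists_eq_pow_rootMultiplicity_mul_and_not_dvd R hR 0
  set k := rootMultiplicity 0 R
  rw [C_0, sub_zero] at hR₂ hnd
  have hev : R₂.coeff 0 ≠ 0 := fun h => hnd (X_dvd_iff.2 h)
  have h1 : R₂.eval r = 0 := by
    rw [hR₂, eval_mul, eval_pow, eval_X] at h0
    rcases mul_eq_zero.1 h0 with h2 | h2
    · exact absurd h2 (pow_ne_zero _ (by omega))
    · exact h2
  have h2 : r ∣ R₂.coeff 0 := by
    have h3 := sub_dvd_eval_sub r 0 R₂
    rw [sub_zero, h1, zero_sub, dvd_neg, ← coeff_zero_eq_eval_zero] at h3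
    exact h3
  have h3 : r ≤ |R₂.coeff 0| := Int.le_of_dvd (abs_pos.2 hev) ((dvd_abs _ _).2 h2)
  have h4 : R.coeff k = R₂.coeff 0 := by
    rw [hR₂, coeff_X_pow_mul', if_pos le_rfl, Nat.sub_self]
  have h5 := coeff_le_n1 (C R) k 0
  rw [coeff_C_zero, h4, H1_C] at h5
  exact h3.trans h5

/-- Row H1, third part (EASY, as in `bezout` of LibJP91/B0.lean). The resultant `R` of `f` and `P` is
nonzero (`res_ne_zero`), `C R = f * U + P * V` (`exists_mul_add_mul_eq_C_resultant`), so `R(r) = 0`. -/
theorem common_le {f P : ℤ[X][Y]} (hf : f.Monic) (hi : Irreducible f) (hP : ¬ f ∣ P) {B : ℤ}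
    (hB : 1 ≤ B) (hfB : n1 f ≤ B) (hPB : n1 P ≤ B) {r s : ℤ} (hr : 1 ≤ r)
    (h1 : f.evalEval r s = 0) (h2 : P.evalEval r s = 0) :
    r ≤ (f.natDegree + P.natDegree).factorial * B ^ (f.natDegree + P.natDegree) := by
  have hN : f.natDegree ≠ 0 := by
    intro h0
    have h3 := eq_one_of_monic_natDegree_zero hf h0
    exact hi.not_isUnit (h3 ▸ isUnit_one)
  have hR := res_ne_zero f P hf hi hP P.natDegree le_rfl
  obtain ⟨p, q, -, -, hpq⟩ := exists_mul_add_mul_eq_C_resultant f P (le_refl f.natDegree)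
    (le_refl P.natDegree) (Or.inl hN)
  have h3 : (resultant f P f.natDegree P.natDegree).eval r = 0 := by
    have h4 := congrArg (evalEval r s) hpq
    rw [evalEval_add, evalEval_mul, evalEval_mul, h1, h2, evalEval_C] at h4
    rw [← h4]
    ring
  exact (root_le hR hr h3).trans (l1_resultant hB hfB hPB _ _)

end PX91
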