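import Pool.Agent.LibPX91.E8

open Polynomial JP91
open scoped Polynomial.Bivariate

namespace PX91

private theorem H2_num (x : ℕ) (hx : 3 ≤ x) : (3 : ℤ) * (2 * x + 1) ^ 2 ≤ 2 ^ (3 * x) := by
  induction x, hx using Nat.le_induction with
  | base => norm_num
  | succ n hn ih =>
    have h1 : (2 : ℤ) ^ (3 * (n + 1)) = 8 * 2 ^ (3 * n) := by
      rw [show 3 * (n + 1) = 3 * n + 3 by ring, pow_add]; ring
    rw [h1]
    have h2 : (3 : ℤ) ≤ n := by exact_mod_cast hn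
    push_cast
    nlinarith

private theorem H2_neg (f : ℤ[X][Y]) : n1 f ≤ n1 (-f) := by
  have h1 : f = C (C (-1)) * (-f) := by
    rw [C_neg, C_neg, C_1, C_1]
    ring
  have h2 := n1_mul (C (C (-1))) (-f)
  rw [← h1, n1_CC] at h2
  simpa using h2

/-- Row H2 (EASY). As `cof` (file E7a), with the roles of the two factors exchanged: `FF = f * g`, the
leading coefficient of `g` is a unit (`FF_lead`), so `g` or `- g` is monic, and `cof_norm` applies to
`FF = (± g) * (± f)`, `a = b = 2 x` (`f` has total degree `≤ 2 x`: `td_cofactor` is not needed, as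
`fac_top` gives `Top f l c` with `l ≤ x`). -/
theorem n1_good {x y z : ℕ} {H G : ℤ} (h : Dat x y z H G) (hyz : y < z)
    (h2 : 2 ^ z + G * 2 ^ y ≤ 2 * H) {f : ℤ[X][Y]} (hf : Good x y z H G f) :
    n1 f ≤ 2 ^ (8 * x) := by
  have hz2 : z < x := h.hx
  have hx2 : x < 2 * z := h.hx2
  have hx3 : 3 ≤ x := by omega
  have hn : max y z < x := max_lt (by omega) hz2
  obtain ⟨hFT, -⟩ := FF_top (x := x) (y := y) (z := z) H G hn
  have hdeg : 1 ≤ f.natDegree := (not_dvd_abc hf).2.2.2.1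
  obtain ⟨c, l, hc, hl1, hlx, -, hTop⟩ := fac_top h hn hf.mon hf.dvd hdeg
  have hfT : TD f (2 * x) := by
    intro i j hij
    exact hTop.1 i j (by omega)
  have hn1 : n1 (FF x y z H G) ≤ 3 * 2 ^ x := by
    have h3 := n1_FF x y z H G
    have hH : 0 ≤ H := by have := h.hH1; linarith
    have hG : 0 ≤ G := by have := h.hG1; linarith
    rw [abs_of_nonneg hH, abs_of_nonneg hG] at h3
    have := h.hH2
    linarith
  have h4 : n1 f ≤ (((2 * x : ℕ) : ℤ) + 1) * (((2 * x : ℕ) : ℤ) + 1) * 2 ^ (2 * x + 2 * x) *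
      n1 (FF x y z H G) := by
    obtain ⟨g, hg⟩ := hf.dvd
    have hlead : g.leadingCoeff = (FF x y z H G).leadingCoeff := by
      rw [hg, leadingCoeff_mul, hf.mon.leadingCoeff, one_mul]
    have hu : IsUnit g.leadingCoeff := hlead ▸ (FF_lead h).2
    obtain ⟨r, hr, hrg⟩ := Polynomial.isUnit_iff.1 hu
    rcases Int.isUnit_iff.1 hr with h1 | h1
    · have hmon : g.Monic := by
        rw [Monic, ← hrg, h1, C_1]
      exact cof_norm hmon (by rw [hg, mul_comm]) (TD_natDegree hFT).1 (TD_natDegree hfT).2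
    · have hmon : (-g).Monic := by
        rw [Monic, leadingCoeff_neg, ← hrg, h1, C_neg, C_1, neg_neg]
      have h5 := cof_norm (g := -f) hmon (by rw [hg]; ring) (TD_natDegree hFT).1
        (b := 2 * x) (fun j => by
          rw [coeff_neg, natDegree_neg]
          exact (TD_natDegree hfT).2 j)
      exact (H2_neg f).trans h5
  have h5 : (2 : ℤ) ^ (2 * x + 2 * x) * 2 ^ x * 2 ^ (3 * x) = 2 ^ (8 * x) := by
    rw [← pow_add, ← pow_add]; congr 1; ring
  have h6 := H2_num x hx3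
  calc n1 f ≤ (((2 * x : ℕ) : ℤ) + 1) * (((2 * x : ℕ) : ℤ) + 1) * 2 ^ (2 * x + 2 * x) *
        n1 (FF x y z H G) := h4
    _ ≤ (((2 * x : ℕ) : ℤ) + 1) * (((2 * x : ℕ) : ℤ) + 1) * 2 ^ (2 * x + 2 * x) * (3 * 2 ^ x) :=
        mul_le_mul_of_nonneg_left hn1 (by positivity)
    _ = 2 ^ (2 * x + 2 * x) * 2 ^ x * (3 * (2 * x + 1) ^ 2) := by push_cast; ring
    _ ≤ 2 ^ (2 * x + 2 * x) * 2 ^ x * 2 ^ (3 * x) :=
        mul_le_mul_of_nonneg_left h6 (by positivity)
    _ = 2 ^ (8 * x) := h5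

private theorem H2_num8 {x z k : ℕ} (hzx : z < x) (hx2 : x < 2 * z)
    (hk : k = 20 * x / (2 * (x - z)) + 1) :
    20 * x < 2 * (x - z) * k ∧ 21 ≤ k := by
  have hw : 0 < 2 * (x - z) := by omega
  refine ⟨?_, ?_⟩
  · rw [hk]
    exact Nat.lt_mul_div_succ (20 * x) hw
  · have h1 : 20 ≤ 20 * x / (2 * (x - z)) := by
      rw [Nat.le_div_iff_mul_le hw]
      omega
    omega

private theorem H2_zero {x y z : ℕ} {H G : ℤ} {Q : ℤ[X][Y]} {r s : ℤ} {k : ℕ}
    (h0 : (FF x y z H G).evalEval r s = 0) :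
    (H * r ^ x) ^ k * Q.evalEval r s = ((sg x y z H G)^[k] Q).evalEval r s := by
  obtain ⟨W, hW⟩ := sg_iter_dvd x y z H G Q k
  have h1 := congrArg (fun p => evalEval r s p) hW
  simp only [evalEval_mul, evalEval_sub, evalEval_pow, h0, zero_mul] at h1
  have h2 : (C (C H) : ℤ[X][Y]).evalEval r s = H := by simp [evalEval]
  have h3 : (C X : ℤ[X][Y]).evalEval r s = r := by simp [evalEval]
  rw [h2, h3] at h1
  linarith

/-- Row H2, second part (EASY: the proof of `far`, file E8, with the bound of `runge_P` for `n1 P`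
kept). -/
theorem far2 {x y z : ℕ} {H G : ℤ} (h : Dat x y z H G) (hyz : y < z)
    (h2 : 2 ^ z + G * 2 ^ y ≤ 2 * H) {f g : ℤ[X][Y]} (hf : Good x y z H G f)
    (hfg : FF x y z H G = f * g) {k : ℕ} (hk : k = 20 * x / (2 * (x - z)) + 1) :
    ∃ P : ℤ[X][Y], ¬ f ∣ P ∧ TD P (16 * x) ∧ n1 P ≤ 2 ^ (10 * x * k) ∧
      ∀ r s : ℤ, 1 ≤ s → s < r → (FF x y z H G).evalEval r s = 0 → 2 ^ (6 * k) ≤ r →
        (P * g).evalEval r s = 0 := by
  obtain ⟨P, hP1, hP2, hP3, hP4⟩ := runge_P h hyz h2 hf hfg hk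
  obtain ⟨-, hg⟩ := cof h hyz h2 hf hfg
  refine ⟨P, hP1, hP2, hP3, ?_⟩
  intro r s hs hr h0 hrk
  by_contra hcon
  obtain ⟨hwk, hk21⟩ := H2_num8 h.hx h.hx2 hk
  have hr1 : 1 ≤ r := by linarith
  have hH1 : 1 ≤ H := by have := h.hH1; linarith
  have hH0 : 0 ≤ H := by linarith
  have e1 := H2_zero (x := x) (y := y) (z := z) (H := H) (G := G) (Q := P * g) (k := k) h0
  have e2 : |((sg x y z H G)^[k] (P * g)).evalEval r s| ≤
      n1 ((sg x y z H G)^[k] (P * g)) * r ^ (18 * x + (2 * z - x) * k) :=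
    eval_le hP4 hr1 (by rw [abs_le]; constructor <;> linarith)
  have e3 := sg_iter_n1 (x := x) (y := y) (z := z) (H := H) (G := G) hH0
    (by have := h.hG1; linarith) h2 (P * g) k
  have e4 : n1 (P * g) ≤ 2 ^ (10 * x * k) * 2 ^ (8 * x) := by
    refine (n1_mul P g).trans ?_
    exact mul_le_mul hP3 hg (n1_nonneg g) (by positivity)
  have e5 : 1 ≤ |(P * g).evalEval r s| := Int.one_le_abs hcon
  have hHr : 0 < (H * r ^ x) ^ k := by positivity
  have e6 : (H * r ^ x) ^ k ≤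
      (2 * H) ^ k * (2 ^ (10 * x * k) * 2 ^ (8 * x)) * r ^ (18 * x + (2 * z - x) * k) := by
    calc (H * r ^ x) ^ k = (H * r ^ x) ^ k * 1 := (mul_one _).symm
      _ ≤ (H * r ^ x) ^ k * |(P * g).evalEval r s| := mul_le_mul_of_nonneg_left e5 hHr.le
      _ = |((sg x y z H G)^[k] (P * g)).evalEval r s| := by
          rw [← e1, abs_mul, abs_of_pos hHr]
      _ ≤ n1 ((sg x y z H G)^[k] (P * g)) * r ^ (18 * x + (2 * z - x) * k) := e2
      _ ≤ (2 * H) ^ k * (2 ^ (10 * x * k) * 2 ^ (8 * x)) * r ^ (18 * x + (2 * z - x) * k) := by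
          refine mul_le_mul_of_nonneg_right (e3.trans ?_) (by positivity)
          exact mul_le_mul_of_nonneg_left e4 (by positivity)
  -- divide by `H ^ k` and `r ^ ((2 z - x) k + 18 x)`
  obtain ⟨u, hu⟩ : ∃ u, 2 * (x - z) * k = 18 * x + 2 * x + u := by
    exact ⟨2 * (x - z) * k - 20 * x, by omega⟩
  have hxk : x * k = (2 * z - x) * k + (18 * x + 2 * x + u) := by
    rw [← hu, ← Nat.add_mul]
    congr 1
    have h3 := h.hx
    have h4 := h.hx2
    omega
  have e7 : H ^ k * (r ^ (18 * x + (2 * z - x) * k) * r ^ (2 * x + u)) ≤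
      H ^ k * (r ^ (18 * x + (2 * z - x) * k) * 2 ^ (k + 10 * x * k + 8 * x)) := by
    calc H ^ k * (r ^ (18 * x + (2 * z - x) * k) * r ^ (2 * x + u)) = (H * r ^ x) ^ k := by
          rw [mul_pow, ← pow_mul, hxk, ← pow_add]
          congr 2
          ring
      _ ≤ _ := e6
      _ = H ^ k * (r ^ (18 * x + (2 * z - x) * k) * 2 ^ (k + 10 * x * k + 8 * x)) := by
          rw [mul_pow, pow_add 2 (k + 10 * x * k), pow_add 2 k]
          ring
  have e8 : r ^ (2 * x + u) ≤ 2 ^ (k + 10 * x * k + 8 * x) := by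
    have hHk : 0 < H ^ k := by positivity
    have hrk' : 0 < r ^ (18 * x + (2 * z - x) * k) := by positivity
    exact le_of_mul_le_mul_left (le_of_mul_le_mul_left e7 hHk) hrk'
  have e9 : (2 : ℤ) ^ (6 * k * (2 * x)) ≤ 2 ^ (k + 10 * x * k + 8 * x) := by
    calc (2 : ℤ) ^ (6 * k * (2 * x)) = (2 ^ (6 * k)) ^ (2 * x) := by rw [pow_mul]
      _ ≤ r ^ (2 * x) := pow_le_pow_left₀ (by positivity) hrk _
      _ ≤ r ^ (2 * x + u) := pow_le_pow_right₀ hr1 (Nat.le_add_right _ _)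
      _ ≤ _ := e8
  have e10 : 6 * k * (2 * x) ≤ k + 10 * x * k + 8 * x :=
    (pow_le_pow_iff_right₀ (by norm_num : (1 : ℤ) < 2)).1 e9
  have hx1 : 1 ≤ x := by have := h.hx; omega
  have e11 : 1 * k ≤ x * k := Nat.mul_le_mul_right k hx1
  have e12 : x * 21 ≤ x * k := Nat.mul_le_mul_left x hk21
  have e13 : 6 * k * (2 * x) = 12 * (x * k) := by ring
  have e14 : 10 * x * k = 10 * (x * k) := by ring
  rw [e13, e14] at e10
  omega

end PX91
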