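import Pool.Agent.LibPX91.H1
import Pool.Agent.LibPX91.H2
import Pool.Agent.LibPX91.S1
import Pool.Agent.LibJP91.A2
import Pool.Agent.LibJP91.B5

open Polynomial JP91
open scoped Polynomial.Bivariate

namespace PX91

/-- the bound of `k` -/
private theorem H3_k {x z : ℕ} (hx : z < x) : 20 * x / (2 * (x - z)) + 1 ≤ 10 * x + 1 := by
  have h1 : 20 * x / (2 * (x - z)) ≤ 10 * x := by
    apply Nat.div_le_of_le_mul
    have h2 : 1 ≤ x - z := by omega
    calc 20 * x = 2 * 1 * (10 * x) := by ring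
      _ ≤ 2 * (x - z) * (10 * x) := by gcongr
  omega

/-- the common zeros of `f` and `Q` -/
private theorem H3_common {x : ℕ} (hx : 1 ≤ x) {f Q : ℤ[X][Y]} (hf : f.Monic) (hi : Irreducible f)
    (hQ : ¬ f ∣ Q) (hfB : n1 f ≤ 2 ^ (110 * x ^ 2)) (hQB : n1 Q ≤ 2 ^ (110 * x ^ 2))
    (hfd : f.natDegree ≤ 2 * x) (hQd : Q.natDegree ≤ 16 * x) {r s : ℤ} (hr : 1 ≤ r)
    (h1 : f.evalEval r s = 0) (h2 : Q.evalEval r s = 0) : r ≤ 2 ^ (3000 * x ^ 3) := by
  have hB : (1 : ℤ) ≤ 2 ^ (110 * x ^ 2) := one_le_pow₀ (by norm_num)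
  have h3 := common_le hf hi hQ hB hfB hQB hr h1 h2
  have h4 : f.natDegree + Q.natDegree ≤ 18 * x := by omega
  have h5 : (f.natDegree + Q.natDegree).factorial ≤ 2 ^ (18 * x * (x + 5)) := by
    calc (f.natDegree + Q.natDegree).factorial ≤ (18 * x).factorial := Nat.factorial_le h4
      _ ≤ (18 * x) ^ (18 * x) := Nat.factorial_le_pow _
      _ ≤ (2 ^ (x + 5)) ^ (18 * x) := by
          refine Nat.pow_le_pow_left ?_ _
          have h6 : x ≤ 2 ^ x := Nat.lt_two_pow_self.le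
          rw [pow_add]
          omega
      _ = 2 ^ (18 * x * (x + 5)) := by
          rw [← pow_mul]
          congr 1
          ring
  have h6 : ((f.natDegree + Q.natDegree).factorial : ℤ) ≤ 2 ^ (18 * x * (x + 5)) := by
    exact_mod_cast h5
  calc r ≤ ((f.natDegree + Q.natDegree).factorial : ℤ) *
        (2 ^ (110 * x ^ 2)) ^ (f.natDegree + Q.natDegree) := h3
    _ ≤ 2 ^ (18 * x * (x + 5)) * (2 ^ (110 * x ^ 2)) ^ (18 * x) :=
        mul_le_mul h6 (pow_le_pow_right₀ hB h4) (by positivity) (by positivity)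
    _ = 2 ^ (18 * x * (x + 5) + 110 * x ^ 2 * (18 * x)) := by rw [← pow_mul, ← pow_add]
    _ ≤ 2 ^ (3000 * x ^ 3) := by
        refine pow_le_pow_right₀ (by norm_num) ?_
        have h7 : x ≤ x ^ 2 := Nat.le_self_pow (by norm_num) x
        have h8 : x ^ 2 ≤ x ^ 3 := Nat.pow_le_pow_right hx (by norm_num)
        calc 18 * x * (x + 5) + 110 * x ^ 2 * (18 * x) =
              18 * x ^ 2 + 90 * x + 1980 * x ^ 3 := by ring
          _ ≤ 3000 * x ^ 3 := by omega

/-- Row H3 (EASY-MEDIUM). The height of the points, case `y < z`. `h2` as in `caseI` (file V2). The point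
lies on some factor `f` (`exists_factors`), which is good. `k = 20 x / (2 (x - z)) + 1 ≤ 10 x + 1`. If
`r < 2 ^ (6 k)`: `6 k ≤ 66 x`. Otherwise (`far2`) `P(r, s) = 0` or `g(r, s) = 0`, and `f` divides
neither (`mult_one`). First case: `common_le` with `B = 2 ^ (110 x ^ 2) ≥ n1 P, n1 f` (`n1_good`),
`f.natDegree + P.natDegree ≤ 2 x + 16 x`, `(18 x)! ≤ (18 x) ^ (18 x) ≤ 2 ^ (18 x (x + 5))`: the exponent is at most
`18 x (x + 5) + 18 x * 110 x ^ 2 ≤ 3000 x ^ 3` (`x ≥ 3`). Second case: `B = 2 ^ (8 x)` (`cof`),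
`f.natDegree + g.natDegree = 2 z ≤ 2 x`. -/
theorem heightI {x y z : ℕ} {H G : ℤ} (h : Dat x y z H G) (hyz : y < z) {r s : ℤ}
    (hp : Pt x y z H G r s) (hpar : Par x y z H G r s) : r ≤ 2 ^ (3000 * x ^ 3) := by
  have hx := h.hx
  have hz := h.hz
  have hx1 : 1 ≤ x := by omega
  have h2 : 2 ^ z + G * 2 ^ y ≤ 2 * H := by
    have hzx : (2 : ℤ) ^ z ≤ 2 ^ x := pow_le_pow_right₀ (by norm_num) hx.le
    have hyx : (2 : ℤ) ^ y ≤ 2 ^ x := pow_le_pow_right₀ (by norm_num) (by omega)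
    rcases hpar with ⟨h3, h4, -⟩ | ⟨-, h3, h4, -⟩
    · rw [h3, h4]
      linarith
    · rw [h3, h4, ← pow_add, Nat.sub_add_cancel hyz.le]
      linarith
  obtain ⟨T, -, hT2, hT3⟩ := exists_factors h
  obtain ⟨f, hfT, hf0⟩ := hT3 r s hp.zero
  obtain ⟨hm, hi, hd⟩ := hT2 f hfT
  have hgood : Good x y z H G f := ⟨hm, hi, hd, r, s, hp.hs, hp.hr, hp.cop, hf0⟩
  obtain ⟨g, hfg⟩ := hd
  obtain ⟨k, hk⟩ : ∃ k, k = 20 * x / (2 * (x - z)) + 1 := ⟨_, rfl⟩
  have hk1 : k ≤ 10 * x + 1 := hk ▸ H3_k hx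
  have hx2 : x ≤ x ^ 2 := Nat.le_self_pow (by norm_num) x
  have hx3 : x ≤ x ^ 3 := Nat.le_self_pow (by norm_num) x
  have hr1 : 1 ≤ r := by have := hp.hs; have := hp.hr; omega
  by_cases hr : (2 : ℤ) ^ (6 * k) ≤ r
  · obtain ⟨P, hP1, hP2, hP3, hP4⟩ := far2 h hyz h2 hgood hfg hk
    have h5 := hP4 r s hp.hs hp.hr hp.zero hr
    rw [evalEval_mul] at h5
    have hfB : n1 f ≤ 2 ^ (110 * x ^ 2) :=
      (n1_good h hyz h2 hgood).trans (pow_le_pow_right₀ (by norm_num) (by omega))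
    have hfd : f.natDegree ≤ 2 * x := by
      have hF := (FF_lead h).1
      have hF0 : FF x y z H G ≠ 0 := by
        intro h0
        have h6 := (FF_lead h).2
        rw [h0, leadingCoeff_zero] at h6
        exact not_isUnit_zero h6
      have h6 := natDegree_le_of_dvd hgood.dvd hF0
      have : max y z = z := max_eq_right hyz.le
      omega
    rcases mul_eq_zero.1 h5 with h6 | h6
    · refine H3_common hx1 hm hi hP1 hfB (hP3.trans ?_) hfd (TD_natDegree hP2).1 hr1 hf0 h6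
      refine pow_le_pow_right₀ (by norm_num) ?_
      calc 10 * x * k ≤ 10 * x * (10 * x + 1) := Nat.mul_le_mul_left _ hk1
        _ = 100 * x ^ 2 + 10 * x := by ring
        _ ≤ 110 * x ^ 2 := by omega
    · obtain ⟨hg1, hg2⟩ := cof h hyz h2 hgood hfg
      refine H3_common hx1 hm hi (mult_one h hgood hfg) hfB
        (hg2.trans (pow_le_pow_right₀ (by norm_num) (by omega))) hfd ?_ hr1 hf0 h6
      exact (TD_natDegree hg1).1.trans (by omega)
  · push Not at hr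
    refine hr.le.trans (pow_le_pow_right₀ (by norm_num) ?_)
    omega

end PX91
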