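import Pool.Agent.LibPX91.Defs
import Pool.Agent.LibJP91.B5

open Polynomial JP91
open scoped Polynomial.Bivariate

namespace PX91

private theorem V3_aux {a c : ℤ} {n z κ : ℕ} (hc : 2 ≤ c) (h2 : c ^ 2 ≤ 2 * a ^ 2)
    (ha : 0 ≤ a) (hn : a ^ n ≤ c ^ z) (hk : z + κ ≤ n) : c ^ (2 * κ) ≤ 2 ^ (z + κ) := by
  obtain ⟨m, rfl⟩ := Nat.exists_eq_add_of_le hk
  have hc0 : (0 : ℤ) < c := by linarith
  have h3 : (c ^ 2) ^ (z + κ + m) ≤ (2 * a ^ 2) ^ (z + κ + m) :=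
    pow_le_pow_left₀ (by positivity) h2 _
  have h4 : (2 * a ^ 2) ^ (z + κ + m) = 2 ^ (z + κ + m) * (a ^ (z + κ + m)) ^ 2 := by
    rw [mul_pow, ← pow_mul, ← pow_mul]
    ring_nf
  have h5 : (a ^ (z + κ + m)) ^ 2 ≤ (c ^ z) ^ 2 := pow_le_pow_left₀ (by positivity) hn 2
  have h6 : (c ^ 2) ^ (z + κ + m) ≤ 2 ^ (z + κ + m) * (c ^ z) ^ 2 := by
    rw [h4] at h3
    exact h3.trans (mul_le_mul_of_nonneg_left h5 (by positivity))
  have e1 : (c ^ 2) ^ (z + κ + m) = (c ^ (2 * κ) * (c ^ 2) ^ m) * (c ^ z) ^ 2 := by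
    rw [← pow_mul, ← pow_mul, ← pow_mul, ← pow_add, ← pow_add]
    congr 1
    ring
  rw [e1] at h6
  have h7 : c ^ (2 * κ) * (c ^ 2) ^ m ≤ 2 ^ (z + κ + m) :=
    le_of_mul_le_mul_right h6 (by positivity)
  have h8 : (2 : ℤ) ^ m ≤ (c ^ 2) ^ m := pow_le_pow_left₀ (by norm_num) (by nlinarith) _
  have h9 : c ^ (2 * κ) * 2 ^ m ≤ 2 ^ (z + κ) * 2 ^ m := by
    rw [← pow_add]
    exact (mul_le_mul_of_nonneg_left h8 (by positivity)).trans h7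
  exact le_of_mul_le_mul_right h9 (by positivity)

/-- Row V3a (EASY-MEDIUM, elementary). Case `z < x`, `z < y` (`H = 2 ^ x`, `G = 1`): with
`a = 2 r s`, `b = r² - s²`, `c = r² + s²`: `a ^ x + b ^ y = c ^ z`, `a² + b² = c²`. If `a ≥ b` then
`2 a² ≥ c²`, so `2 ^ x c ^ (2 z) ≥ 2 ^ x a ^ (2 x) ≥ c ^ (2 x)`, `c ^ (2 (x - z)) ≤ 2 ^ x`; likewise
`c ^ (2 (y - z)) ≤ 2 ^ y` if `b ≥ a`. As `c² ≥ 2` this gives `c ^ (2 κ) ≤ 2 ^ (z + κ)` for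
`κ ≤ min x y - z`; and `r² ≤ c`. -/
theorem far3 {x y z κ : ℕ} {H G : ℤ} (h : Dat x y z H G) (hzy : z < y) (hκ1 : z + κ ≤ x)
    (hκ2 : z + κ ≤ y) {r s : ℤ} (hp : Pt x y z H G r s) : r ^ (4 * κ) ≤ 2 ^ (z + κ) := by
  have h0 := hp.zero
  rw [FF_eval] at h0
  have hs := hp.hs
  have hr := hp.hr
  have hH := h.hGH hzy
  have hG := h.hG hzy
  subst hH
  subst hG
  have hr0 : 0 < r := by linarith
  have hs0 : 0 < s := by linarith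
  have hc : 2 ≤ r ^ 2 + s ^ 2 := by nlinarith
  have hb0 : 0 ≤ r ^ 2 - s ^ 2 := by nlinarith
  have ha0 : 0 ≤ 2 * (r * s) := by positivity
  have e1 : (2 : ℤ) ^ x * (r * s) ^ x = (2 * (r * s)) ^ x := (mul_pow _ _ _).symm
  have hA : (2 * (r * s)) ^ x ≤ (r ^ 2 + s ^ 2) ^ z := by
    have : 0 ≤ (r ^ 2 - s ^ 2) ^ y := by positivity
    linarith
  have hB : (r ^ 2 - s ^ 2) ^ y ≤ (r ^ 2 + s ^ 2) ^ z := by
    have : 0 ≤ (2 * (r * s)) ^ x := by positivity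
    linarith
  have key : (r ^ 2 + s ^ 2) ^ (2 * κ) ≤ 2 ^ (z + κ) := by
    rcases le_total (r ^ 2 - s ^ 2) (2 * (r * s)) with hab | hab
    · refine V3_aux hc ?_ ha0 hA hκ1
      nlinarith [mul_self_le_mul_self hb0 hab]
    · refine V3_aux hc ?_ hb0 hB hκ2
      nlinarith [mul_self_le_mul_self ha0 hab]
  have e2 : r ^ (4 * κ) = (r ^ 2) ^ (2 * κ) := by
    rw [← pow_mul]
    congr 1
    ring
  rw [e2]
  exact (pow_le_pow_left₀ (by positivity) (by nlinarith) _).trans key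

end PX91
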