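import Pool.Agent.LibPX91.Defs
import Pool.Agent.LibJP91.Z1

open Polynomial JP91
open scoped Polynomial.Bivariate

namespace PX91

private theorem V5_even (p : ℕ) (h : 1 ≤ p) : Even ((2 : ℤ) ^ p) := by
  obtain ⟨w, rfl⟩ : ∃ w, p = w + 1 := ⟨p - 1, by omega⟩
  exact ⟨2 ^ w, by ring⟩

private theorem V5_two (p : ℕ) (h : 1 ≤ p) : (2 : ℤ) ≤ 2 ^ p := by
  calc (2 : ℤ) = 2 ^ 1 := (pow_one 2).symm
    _ ≤ 2 ^ p := pow_le_pow_right₀ (by norm_num) h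

private theorem V5_E {p q k m n : ℕ} (hA : Jes95.Adm m n) (hX : k < p) (hYZ : q ≠ k) (hY : 1 ≤ q)
    (hZ : 1 ≤ k) (hX2 : p < 2 * k) (hY2 : q < 2 * k)
    (e : (2 * m * n) ^ p + (m ^ 2 - n ^ 2) ^ q = (m ^ 2 + n ^ 2) ^ k) :
    Dat p q k (2 ^ p) 1 ∧ Pt p q k (2 ^ p) 1 m n ∧ Par p q k (2 ^ p) 1 m n := by
  obtain ⟨h1, h2, h3, h4⟩ := hA
  have hsq : n ^ 2 ≤ m ^ 2 := Nat.pow_le_pow_left h2.le 2
  refine ⟨?_, ?_, ?_⟩
  · exact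
    { hy := hY
      hz := hZ
      hx := hX
      hyz := hYZ
      hx2 := hX2
      hy2 := hY2
      hH := V5_even p (by omega)
      hH1 := V5_two p (by omega)
      hH2 := le_rfl
      hH3 := pow_le_pow_right₀ (by norm_num) hX.le
      hG1 := le_rfl
      hG2 := one_le_pow₀ (by norm_num)
      hG := fun _ => rfl
      hGH := fun _ => rfl }
  · refine ⟨by exact_mod_cast h1, by exact_mod_cast h2, Nat.isCoprime_iff_coprime.2 h3, ?_⟩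
    rw [FF_eval]
    have h5 : (((2 * m * n) ^ p + (m ^ 2 - n ^ 2) ^ q : ℕ) : ℤ) = (((m ^ 2 + n ^ 2) ^ k : ℕ) : ℤ) := by
      rw [e]
    push_cast [Nat.cast_sub hsq] at h5
    rw [← h5, mul_assoc, mul_pow]
    ring
  · refine Or.inl ⟨rfl, rfl, ?_⟩
    obtain ⟨j, hj⟩ : ∃ j, m + n = 2 * j + 1 := ⟨(m + n) / 2, by omega⟩
    exact ⟨j, by exact_mod_cast hj⟩

private theorem V5_cop {m n : ℕ} (hA : Jes95.Adm m n) :
    IsCoprime ((m : ℤ) + n) ((m : ℤ) - n) := by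
  obtain ⟨h1, h2, h3, h4⟩ := hA
  have h5 : IsCoprime (m : ℤ) (n : ℤ) := Nat.isCoprime_iff_coprime.2 h3
  obtain ⟨u, v, huv⟩ := h5
  have h6 : IsCoprime ((m : ℤ) + n) m := ⟨v, u - v, by linear_combination huv⟩
  have h7 : IsCoprime ((m : ℤ) + n) 2 := by
    obtain ⟨j, hj⟩ : ∃ j, m + n = 2 * j + 1 := ⟨(m + n) / 2, by omega⟩
    have hj' : (m : ℤ) + n = 2 * j + 1 := by exact_mod_cast hj
    exact ⟨1, -j, by linear_combination hj'⟩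
  obtain ⟨a, b, hab⟩ := h6.mul_right h7
  exact ⟨a + b, b, by linear_combination hab⟩

private theorem V5_O {p q k m n : ℕ} (hA : Jes95.Adm m n) (hX : k < p) (hYZ : q < k) (hY : 1 ≤ q)
    (hX2 : p < 2 * k)
    (e : (m ^ 2 - n ^ 2) ^ p + (2 * m * n) ^ q = (m ^ 2 + n ^ 2) ^ k) :
    Dat p q k (2 ^ k) (2 ^ (k - q)) ∧
      Pt p q k (2 ^ k) (2 ^ (k - q)) ((m : ℤ) + n) ((m : ℤ) - n) ∧
      Par p q k (2 ^ k) (2 ^ (k - q)) ((m : ℤ) + n) ((m : ℤ) - n) := by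
  have hc := V5_cop hA
  obtain ⟨h1, h2, h3, h4⟩ := hA
  have hsq : n ^ 2 ≤ m ^ 2 := Nat.pow_le_pow_left h2.le 2
  refine ⟨?_, ?_, ?_⟩
  · exact
    { hy := hY
      hz := by omega
      hx := hX
      hyz := hYZ.ne
      hx2 := hX2
      hy2 := by omega
      hH := V5_even k (by omega)
      hH1 := V5_two k (by omega)
      hH2 := pow_le_pow_right₀ (by norm_num) hX.le
      hH3 := le_rfl
      hG1 := one_le_pow₀ (by norm_num)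
      hG2 := pow_le_pow_right₀ (by norm_num) (by omega)
      hG := fun h => by omega
      hGH := fun h => by omega }
  · refine ⟨by omega, by omega, hc, ?_⟩
    rw [FF_eval]
    have h5 : (((m ^ 2 - n ^ 2) ^ p + (2 * m * n) ^ q : ℕ) : ℤ) = (((m ^ 2 + n ^ 2) ^ k : ℕ) : ℤ) := by
      rw [e]
    push_cast [Nat.cast_sub hsq] at h5
    have e1 : ((m : ℤ) + n) ^ 2 + ((m : ℤ) - n) ^ 2 = 2 * ((m : ℤ) ^ 2 + n ^ 2) := by ring
    have e2 : ((m : ℤ) + n) ^ 2 - ((m : ℤ) - n) ^ 2 = 2 * (2 * m * n) := by ring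
    have e3 : ((m : ℤ) + n) * ((m : ℤ) - n) = (m : ℤ) ^ 2 - n ^ 2 := by ring
    have e4 : (2 : ℤ) ^ k = 2 ^ (k - q) * 2 ^ q := by
      rw [← pow_add]
      congr 1
      omega
    rw [e1, e2, e3, mul_pow 2 ((m : ℤ) ^ 2 + n ^ 2), mul_pow 2 (2 * (m : ℤ) * n), ← h5]
    linear_combination (2 * (m : ℤ) * n) ^ q * e4
  · obtain ⟨j, hj⟩ : ∃ j, m + n = 2 * j + 1 := ⟨(m + n) / 2, by omega⟩
    have hj' : (m : ℤ) + n = 2 * j + 1 := by exact_mod_cast hj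
    exact Or.inr ⟨hYZ, rfl, rfl, ⟨j, hj'⟩, ⟨j - n, by linear_combination hj'⟩⟩

private theorem V5_sub {m n : ℕ} (h : n < m) : ((m : ℤ) ^ 2 - (n : ℤ) ^ 2).natAbs = m ^ 2 - n ^ 2 := by
  have hsq : n ^ 2 ≤ m ^ 2 := Nat.pow_le_pow_left h.le 2
  have h1 : (m : ℤ) ^ 2 - (n : ℤ) ^ 2 = ((m ^ 2 - n ^ 2 : ℕ) : ℤ) := by
    rw [Nat.cast_sub hsq]
    push_cast
    rfl
  rw [h1, Int.natAbs_natCast]

private theorem V5_add {m n : ℕ} : ((m : ℤ) ^ 2 + (n : ℤ) ^ 2).natAbs = m ^ 2 + n ^ 2 := by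
  have h1 : (m : ℤ) ^ 2 + (n : ℤ) ^ 2 = ((m ^ 2 + n ^ 2 : ℕ) : ℤ) := by push_cast; rfl
  rw [h1, Int.natAbs_natCast]

private theorem V5_mul {m n : ℕ} : (2 * (m : ℤ) * (n : ℤ)).natAbs = 2 * m * n := by
  have h1 : 2 * (m : ℤ) * (n : ℤ) = ((2 * m * n : ℕ) : ℤ) := by push_cast; rfl
  rw [h1, Int.natAbs_natCast]

private theorem V5_tau2 {m n : ℕ} (h : n < m) :
    tau 2 ((m : ℤ), (n : ℤ)) = (2 * m * n, m ^ 2 - n ^ 2, m ^ 2 + n ^ 2) := by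
  unfold tau
  rw [if_neg (by decide), if_neg (by decide), if_pos rfl]
  dsimp only
  rw [V5_sub h, V5_add, V5_mul]

private theorem V5_tau3 {m n : ℕ} (h : n < m) :
    tau 3 ((m : ℤ), (n : ℤ)) = (m ^ 2 - n ^ 2, 2 * m * n, m ^ 2 + n ^ 2) := by
  unfold tau
  rw [if_neg (by decide), if_neg (by decide), if_neg (by decide)]
  dsimp only
  rw [V5_sub h, V5_add, V5_mul]

private theorem V5_rs {m n : ℕ} (h : n < m) :
    (((m : ℤ) + n) * ((m : ℤ) - n)).natAbs = m ^ 2 - n ^ 2 ∧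
    ((((m : ℤ) + n) ^ 2 - ((m : ℤ) - n) ^ 2) / 2).natAbs = 2 * m * n ∧
    ((((m : ℤ) + n) ^ 2 + ((m : ℤ) - n) ^ 2) / 2).natAbs = m ^ 2 + n ^ 2 := by
  have e1 : ((m : ℤ) + n) ^ 2 + ((m : ℤ) - n) ^ 2 = 2 * ((m : ℤ) ^ 2 + n ^ 2) := by ring
  have e2 : ((m : ℤ) + n) ^ 2 - ((m : ℤ) - n) ^ 2 = 2 * (2 * m * n) := by ring
  have e3 : ((m : ℤ) + n) * ((m : ℤ) - n) = (m : ℤ) ^ 2 - n ^ 2 := by ring
  rw [e1, e2, e3, Int.mul_ediv_cancel_left _ (by norm_num), Int.mul_ediv_cancel_left _ (by norm_num)]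
  exact ⟨V5_sub h, V5_mul, V5_add⟩

private theorem V5_tau0 {m n : ℕ} (h : n < m) :
    tau 0 ((m : ℤ) + n, (m : ℤ) - n) = (m ^ 2 - n ^ 2, 2 * m * n, m ^ 2 + n ^ 2) := by
  obtain ⟨h1, h2, h3⟩ := V5_rs h
  unfold tau
  rw [if_pos rfl]
  dsimp only
  rw [h1, h2, h3]

private theorem V5_tau1 {m n : ℕ} (h : n < m) :
    tau 1 ((m : ℤ) + n, (m : ℤ) - n) = (2 * m * n, m ^ 2 - n ^ 2, m ^ 2 + n ^ 2) := by
  obtain ⟨h1, h2, h3⟩ := V5_rs h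
  unfold tau
  rw [if_neg (by decide), if_pos rfl]
  dsimp only
  rw [h1, h2, h3]

/-- Row V5 (EASY: adapt the proof of `JP91.param`, Pool/Agent/LibJP91/Z1.lean, whose statement is the
same without the parities). In the cases with `H = 2 ^ X'`, `G = 1`, `(r, s) = (m, n)` has opposite
parities; in the cases with `H = 2 ^ Z'`, `G = 2 ^ (Z' - Y')`, `Y' < Z'`, `(r, s) = (m + n, m - n)` are both
odd. `(X', Y')` is `(x, y)` or `(y, x)`. -/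
theorem param {a b c x y z : ℕ} (hab : a.Coprime b) (h : JB95.Sol a b c x y z) :
    ∃ (i : Fin 4) (X' Y' Z' : ℕ) (H G r s : ℤ), Dat X' Y' Z' H G ∧ Pt X' Y' Z' H G r s ∧
      Par X' Y' Z' H G r s ∧ ((X' = x ∧ Y' = y) ∨ (X' = y ∧ Y' = x)) ∧ Z' = z ∧
      (a, b, c) = tau i (r, s) := by
  obtain ⟨ho, hx2, hy2⟩ := JB95.tri h
  obtain ⟨ha, hb, hsq, hx, hy, hz, he, hn⟩ := h
  obtain ⟨m, n, hA, rfl, hab'⟩ := Jes95.prim_param (a := a) (b := b) (c := c) ⟨ha, hb, hab, hsq⟩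
  have hnm : n < m := hA.2.1
  rcases hab' with ⟨rfl, rfl⟩ | ⟨rfl, rfl⟩
  · -- `a` is the odd leg
    have hyx : z < y ∨ (y < z ∧ z < x) := by omega
    rcases hyx with hyx | ⟨h1, h2⟩
    · -- the even leg `b` with the exponent `y > z`
      obtain ⟨h3, h4, h5⟩ := V5_E hA hyx (by omega) hx hz hy2 hx2 (by rw [← he, add_comm])
      exact ⟨3, y, x, z, 2 ^ y, 1, m, n, h3, h4, h5, Or.inr ⟨rfl, rfl⟩, rfl, (V5_tau3 hnm).symm⟩
    · obtain ⟨h3, h4, h5⟩ := V5_O hA h2 h1 hy hx2 he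
      exact ⟨0, x, y, z, 2 ^ z, 2 ^ (z - y), _, _, h3, h4, h5, Or.inl ⟨rfl, rfl⟩, rfl,
        (V5_tau0 hnm).symm⟩
  · -- `a` is the even leg
    have hyx : z < x ∨ (x < z ∧ z < y) := by omega
    rcases hyx with hyx | ⟨h1, h2⟩
    · obtain ⟨h3, h4, h5⟩ := V5_E hA hyx (by omega) hy hz hx2 hy2 he
      exact ⟨2, x, y, z, 2 ^ x, 1, m, n, h3, h4, h5, Or.inl ⟨rfl, rfl⟩, rfl, (V5_tau2 hnm).symm⟩
    · obtain ⟨h3, h4, h5⟩ := V5_O hA h2 h1 hx hy2 (by rw [← he, add_comm])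
      exact ⟨1, y, x, z, 2 ^ z, 2 ^ (z - x), _, _, h3, h4, h5, Or.inr ⟨rfl, rfl⟩, rfl,
        (V5_tau1 hnm).symm⟩

end PX91
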