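import Pool.Agent.LibPX91.V6
import Pool.Agent.LibJB95.A6

open Polynomial JP91
open scoped Polynomial.Bivariate

namespace PX91

/-- Row V6b (EASY). The final theorem: `T` from `count_exp` with `E = ⌊K₀ (log C) ^ (9/4)⌋`
(`JB95.exp_bound`, `Real.log c ≤ Real.log C`) for the second part. -/
theorem main : ∃ K : ℕ,
    (∀ E : ℕ, 1 ≤ E → {t : ℕ × ℕ × ℕ | 0 < t.1 ∧ 0 < t.2.1 ∧ t.1.Coprime t.2.1 ∧
        t.1 ^ 2 + t.2.1 ^ 2 = t.2.2 ^ 2 ∧ ∃ x y z : ℕ, 0 < x ∧ 0 < y ∧ 0 < z ∧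
        x ≤ E ∧ y ≤ E ∧ z ≤ E ∧ t.1 ^ x + t.2.1 ^ y = t.2.2 ^ z ∧
        ¬ (x = 2 ∧ y = 2 ∧ z = 2)}.Finite ∧
      {t : ℕ × ℕ × ℕ | 0 < t.1 ∧ 0 < t.2.1 ∧ t.1.Coprime t.2.1 ∧
        t.1 ^ 2 + t.2.1 ^ 2 = t.2.2 ^ 2 ∧ ∃ x y z : ℕ, 0 < x ∧ 0 < y ∧ 0 < z ∧
        x ≤ E ∧ y ≤ E ∧ z ≤ E ∧ t.1 ^ x + t.2.1 ^ y = t.2.2 ^ z ∧
        ¬ (x = 2 ∧ y = 2 ∧ z = 2)}.ncard ≤ K * E ^ K) ∧
    ∀ C : ℕ, 3 ≤ C →
      (({t : ℕ × ℕ × ℕ | 0 < t.1 ∧ 0 < t.2.1 ∧ t.1.Coprime t.2.1 ∧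
        t.1 ^ 2 + t.2.1 ^ 2 = t.2.2 ^ 2 ∧ t.2.2 ≤ C ∧ ∃ x y z : ℕ, 0 < x ∧ 0 < y ∧ 0 < z ∧
        t.1 ^ x + t.2.1 ^ y = t.2.2 ^ z ∧ ¬ (x = 2 ∧ y = 2 ∧ z = 2)}).ncard : ℝ) ≤
      K * (Real.log C) ^ K := by
  obtain ⟨K, hK⟩ := count_exp
  obtain ⟨K₀, hK₀, hb⟩ := JB95.exp_bound
  have hsub : ∀ E : ℕ, ∀ T : Finset (ℕ × ℕ × ℕ), (∀ a b c x y z : ℕ, a.Coprime b →
      JB95.Sol a b c x y z → x ≤ E → y ≤ E → z ≤ E → (a, b, c) ∈ T) →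
      {t : ℕ × ℕ × ℕ | 0 < t.1 ∧ 0 < t.2.1 ∧ t.1.Coprime t.2.1 ∧
        t.1 ^ 2 + t.2.1 ^ 2 = t.2.2 ^ 2 ∧ ∃ x y z : ℕ, 0 < x ∧ 0 < y ∧ 0 < z ∧
        x ≤ E ∧ y ≤ E ∧ z ≤ E ∧ t.1 ^ x + t.2.1 ^ y = t.2.2 ^ z ∧
        ¬ (x = 2 ∧ y = 2 ∧ z = 2)} ⊆ (T : Set (ℕ × ℕ × ℕ)) := by
    intro E T hT t ht
    obtain ⟨h1, h2, h3, h4, x, y, z, h5, h6, h7, h8, h9, h10, h11, h12⟩ := ht
    have := hT t.1 t.2.1 t.2.2 x y z h3 ⟨h1, h2, h4, h5, h6, h7, h11, h12⟩ h8 h9 h10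
    simpa using this
  refine ⟨4 * K + ⌈(K : ℝ) * K₀ ^ K⌉₊, ?_, ?_⟩
  · intro E hE
    obtain ⟨T, hTc, hT⟩ := hK E
    have hs := hsub E T hT
    refine ⟨T.finite_toSet.subset hs, ?_⟩
    refine (Set.ncard_le_ncard hs T.finite_toSet).trans ?_
    rw [Set.ncard_coe_finset]
    refine hTc.trans ?_
    exact Nat.mul_le_mul (by omega) (Nat.pow_le_pow_right hE (by omega))
  · intro C hC
    set L : ℝ := Real.log C with hL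
    have hL1 : 1 ≤ L := by
      rw [hL, Real.le_log_iff_exp_le (by positivity)]
      have h3 : (3 : ℝ) ≤ C := by exact_mod_cast hC
      have := Real.exp_one_lt_d9
      linarith
    set E : ℕ := ⌊K₀ * L ^ (9 / 4 : ℝ)⌋₊ with hE
    obtain ⟨T, hTc, hT⟩ := hK E
    have hs : {t : ℕ × ℕ × ℕ | 0 < t.1 ∧ 0 < t.2.1 ∧ t.1.Coprime t.2.1 ∧
        t.1 ^ 2 + t.2.1 ^ 2 = t.2.2 ^ 2 ∧ t.2.2 ≤ C ∧ ∃ x y z : ℕ, 0 < x ∧ 0 < y ∧ 0 < z ∧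
        t.1 ^ x + t.2.1 ^ y = t.2.2 ^ z ∧ ¬ (x = 2 ∧ y = 2 ∧ z = 2)} ⊆
        (T : Set (ℕ × ℕ × ℕ)) := by
      intro t ht
      obtain ⟨h1, h2, h3, h4, hc, x, y, z, h5, h6, h7, h11, h12⟩ := ht
      have hsol : JB95.Sol t.1 t.2.1 t.2.2 x y z := ⟨h1, h2, h4, h5, h6, h7, h11, h12⟩
      have hbd := hb _ _ _ _ _ _ hsol
      have hcpos : 0 < t.2.2 := by
        rcases Nat.eq_zero_or_pos t.2.2 with h0 | h0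
        · rw [h0] at h4
          have : 0 < t.1 ^ 2 := by positivity
          omega
        · exact h0
      have hlog : Real.log t.2.2 ≤ L := by
        rw [hL]
        exact Real.log_le_log (by exact_mod_cast hcpos) (by exact_mod_cast hc)
      have hlog0 : 0 ≤ Real.log t.2.2 := Real.log_natCast_nonneg _
      have hle : ∀ w : ℕ, (w : ℝ) ≤ K₀ * Real.log t.2.2 ^ (9 / 4 : ℝ) → w ≤ E := by
        intro w hw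
        rw [hE]
        refine Nat.le_floor (hw.trans ?_)
        exact mul_le_mul_of_nonneg_left (Real.rpow_le_rpow hlog0 hlog (by norm_num)) hK₀.le
      have := hT t.1 t.2.1 t.2.2 x y z h3 hsol (hle x hbd.1) (hle y hbd.2.1) (hle z hbd.2.2)
      simpa using this
    have h1 : ({t : ℕ × ℕ × ℕ | 0 < t.1 ∧ 0 < t.2.1 ∧ t.1.Coprime t.2.1 ∧
        t.1 ^ 2 + t.2.1 ^ 2 = t.2.2 ^ 2 ∧ t.2.2 ≤ C ∧ ∃ x y z : ℕ, 0 < x ∧ 0 < y ∧ 0 < z ∧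
        t.1 ^ x + t.2.1 ^ y = t.2.2 ^ z ∧ ¬ (x = 2 ∧ y = 2 ∧ z = 2)}).ncard ≤ K * E ^ K := by
      refine (Set.ncard_le_ncard hs T.finite_toSet).trans ?_
      rw [Set.ncard_coe_finset]
      exact hTc
    have h2 : (E : ℝ) ≤ K₀ * L ^ 3 := by
      have h0 : (E : ℝ) ≤ K₀ * L ^ (9 / 4 : ℝ) := Nat.floor_le (by positivity)
      refine h0.trans (mul_le_mul_of_nonneg_left ?_ hK₀.le)
      have := Real.rpow_le_rpow_of_exponent_le hL1 (show (9 / 4 : ℝ) ≤ ((3 : ℕ) : ℝ) by norm_num)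
      rwa [Real.rpow_natCast] at this
    have h3 : ((({t : ℕ × ℕ × ℕ | 0 < t.1 ∧ 0 < t.2.1 ∧ t.1.Coprime t.2.1 ∧
        t.1 ^ 2 + t.2.1 ^ 2 = t.2.2 ^ 2 ∧ t.2.2 ≤ C ∧ ∃ x y z : ℕ, 0 < x ∧ 0 < y ∧ 0 < z ∧
        t.1 ^ x + t.2.1 ^ y = t.2.2 ^ z ∧ ¬ (x = 2 ∧ y = 2 ∧ z = 2)}).ncard : ℕ) : ℝ) ≤
        K * (E : ℝ) ^ K := by exact_mod_cast h1
    refine h3.trans ?_
    have h4 : (K : ℝ) * (E : ℝ) ^ K ≤ K * (K₀ * L ^ 3) ^ K :=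
      mul_le_mul_of_nonneg_left (pow_le_pow_left₀ (by positivity) h2 K) (by positivity)
    refine h4.trans ?_
    have h5 : (K : ℝ) * (K₀ * L ^ 3) ^ K = (K * K₀ ^ K) * L ^ (3 * K) := by
      rw [mul_pow, ← pow_mul]; ring
    rw [h5]
    refine mul_le_mul ?_ ?_ (by positivity) (by positivity)
    · push_cast
      have := Nat.le_ceil ((K : ℝ) * K₀ ^ K)
      have h6 : (0 : ℝ) ≤ 4 * K := by positivity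
      linarith
    · exact pow_le_pow_right₀ hL1 (by omega)

end PX91
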