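import Pool.Agent.LibPX91.H3
import Pool.Agent.LibPX91.V3
import Pool.Agent.LibPX91.V5
import Pool.Agent.LibPX91.V7

open Polynomial JP91
open scoped Polynomial.Bivariate

namespace PX91

/-- Row H4 (EASY). `param` gives `(a, b, c) = tau i (r, s)`, so `c ≤ r² + s² ≤ 2 r²`. If `Y' < Z'`:
`heightI`. If `Z' < Y'` (`Y' ≠ Z'` by `Dat`): `far3` with `κ = 1` gives `r ≤ r ^ 4 ≤ 2 ^ (Z' + 1) ≤ 2 ^ X'`.
`X' ≤ max x y`. -/
theorem height {a b c x y z : ℕ} (hab : a.Coprime b) (h : JB95.Sol a b c x y z) :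
    c ≤ 2 ^ (10 ^ 4 * (max x y) ^ 3) := by
  obtain ⟨i, X', Y', Z', H, G, r, s, hD, hP, hPar, hXY, hZ, htau⟩ := param hab h
  have hs := hP.hs
  have hr := hP.hr
  have hr1 : 1 ≤ r := by linarith
  have hX1 : 2 ≤ X' := by
    have h1 := hD.hz
    have h2 := hD.hx
    omega
  have hXm : X' ≤ max x y := by
    rcases hXY with ⟨h1, _⟩ | ⟨h1, _⟩
    · rw [h1]; exact le_max_left _ _
    · rw [h1]; exact le_max_right _ _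
  have hsr : s ^ 2 ≤ r ^ 2 := pow_le_pow_left₀ (by linarith) hr.le 2
  have hc : (c : ℤ) ≤ 2 * r ^ 2 := by
    have hc1 : c = (tau i (r, s)).2.2 := by rw [← htau]
    have h0 : (0 : ℤ) ≤ r ^ 2 + s ^ 2 := by positivity
    rw [hc1]
    unfold tau
    split_ifs
    · show ((((r ^ 2 + s ^ 2) / 2).natAbs : ℕ) : ℤ) ≤ _
      rw [Int.natAbs_of_nonneg (Int.ediv_nonneg h0 (by norm_num))]
      omega
    · show ((((r ^ 2 + s ^ 2) / 2).natAbs : ℕ) : ℤ) ≤ _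
      rw [Int.natAbs_of_nonneg (Int.ediv_nonneg h0 (by norm_num))]
      omega
    · show (((r ^ 2 + s ^ 2).natAbs : ℕ) : ℤ) ≤ _
      rw [Int.natAbs_of_nonneg h0]
      linarith
    · show (((r ^ 2 + s ^ 2).natAbs : ℕ) : ℤ) ≤ _
      rw [Int.natAbs_of_nonneg h0]
      linarith
  have hr3 : r ≤ 2 ^ (3000 * X' ^ 3) := by
    rcases lt_or_gt_of_ne hD.hyz with hlt | hgt
    · exact heightI hD hlt hP hPar
    · have h1 := far3 (κ := 1) hD hgt hD.hx hgt hP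
      have h2 : r ≤ r ^ (4 * 1) := le_self_pow₀ hr1 (by norm_num)
      have h3 : X' ≤ X' ^ 3 := Nat.le_self_pow (by norm_num) X'
      refine (h2.trans h1).trans (pow_le_pow_right₀ (by norm_num) ?_)
      have h4 := hD.hx
      omega
  have h5 : (c : ℤ) ≤ 2 ^ (6000 * X' ^ 3 + 1) := by
    have h6 : r ^ 2 ≤ (2 ^ (3000 * X' ^ 3)) ^ 2 := pow_le_pow_left₀ (by linarith) hr3 2
    have h7 : (2 : ℤ) ^ (6000 * X' ^ 3 + 1) = 2 * (2 ^ (3000 * X' ^ 3)) ^ 2 := by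
      rw [← pow_mul, ← pow_succ']
      congr 1
      ring
    rw [h7]
    linarith
  have h8 : c ≤ 2 ^ (6000 * X' ^ 3 + 1) := by exact_mod_cast h5
  refine h8.trans (Nat.pow_le_pow_right (by norm_num) ?_)
  have h9 : X' ^ 3 ≤ (max x y) ^ 3 := Nat.pow_le_pow_left hXm 3
  have h10 : 1 ≤ X' ^ 3 := Nat.one_le_pow _ _ (by omega)
  omega

/-- Row H4, second part (EASY, from `height` and `main`). -/
theorem main2 : (∀ a b c x y z : ℕ, 0 < a → 0 < b → a.Coprime b → a ^ 2 + b ^ 2 = c ^ 2 →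
      0 < x → 0 < y → 0 < z → a ^ x + b ^ y = c ^ z → ¬ (x = 2 ∧ y = 2 ∧ z = 2) →
      c ≤ 2 ^ (10 ^ 4 * (max x y) ^ 3)) ∧
    ∃ K : ℕ,
      (∀ E : ℕ, 1 ≤ E → {t : ℕ × ℕ × ℕ | 0 < t.1 ∧ 0 < t.2.1 ∧ t.1.Coprime t.2.1 ∧
          t.1 ^ 2 + t.2.1 ^ 2 = t.2.2 ^ 2 ∧ ∃ x y z : ℕ, 0 < x ∧ 0 < y ∧ 0 < z ∧
          x ≤ E ∧ y ≤ E ∧ z ≤ E ∧ t.1 ^ x + t.2.1 ^ y = t.2.2 ^ z ∧
          ¬ (x = 2 ∧ y = 2 ∧ z = 2)}.ncard ≤ K * E ^ K) ∧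
      ∀ C : ℕ, 3 ≤ C →
        (({t : ℕ × ℕ × ℕ | 0 < t.1 ∧ 0 < t.2.1 ∧ t.1.Coprime t.2.1 ∧
          t.1 ^ 2 + t.2.1 ^ 2 = t.2.2 ^ 2 ∧ t.2.2 ≤ C ∧ ∃ x y z : ℕ, 0 < x ∧ 0 < y ∧ 0 < z ∧
          t.1 ^ x + t.2.1 ^ y = t.2.2 ^ z ∧ ¬ (x = 2 ∧ y = 2 ∧ z = 2)}).ncard : ℝ) ≤
        K * (Real.log C) ^ K := by
  refine ⟨?_, ?_⟩
  · intro a b c x y z ha hb hab hsq hx hy hz he hn
    exact height hab ⟨ha, hb, hsq, hx, hy, hz, he, hn⟩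
  · obtain ⟨K, h1, h2⟩ := main
    exact ⟨K, fun E hE => (h1 E hE).2, h2⟩

end PX91
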