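import Pool.Agent.LibPX91.N1

open Polynomial JP91
open scoped Polynomial.Bivariate

namespace PX91

private theorem N1c_FF_TD {x y z : ℕ} (H G : ℤ) (hn : x < max y z) :
    TD (FF x y z H G) (2 * max y z) := by
  unfold FF
  have hC : TD (cC ^ z) (2 * z) := TD_pow TD_cC.1 z
  have hB : TD (cB ^ y) (2 * y) := TD_pow TD_cC.2.1 y
  have hA : TD (cA ^ x) (2 * x) := TD_pow TD_cC.2.2 x
  have hH : TD (C (C H) * cA ^ x) (2 * x) := by
    have := TD_mul (TD_CC H) hA
    rwa [zero_add] at this
  have hG : TD (C (C G) * cB ^ y) (2 * y) := by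
    have := TD_mul (TD_CC G) hB
    rwa [zero_add] at this
  exact TD_sub (TD_sub (TD_mono hC (by omega)) (TD_mono hH (by omega))) (TD_mono hG (by omega))

/-- Row N1, fourth part (EASY). If `x < max y z` then `FF` has total degree `≤ 2 max y z =: 2 n`, equal
to its degree in `s`; if `FF = f * g` then the total degrees of `f`, `g` (degrees of `wt 1 1`) are
`≥ N` and `≥ 2 n - N`, with sum `≤ 2 n`. -/
theorem fac_td {x y z : ℕ} {H G : ℤ} (h : Dat x y z H G) (hn : x < max y z) {f : ℤ[X][Y]}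
    (hf : f.Monic) (hd : f ∣ FF x y z H G) : TD f f.natDegree := by
  obtain ⟨g, hg⟩ := hd
  obtain ⟨hl1, hl2⟩ := FF_lead h
  have hFF0 : FF x y z H G ≠ 0 := by
    intro h0
    rw [h0, leadingCoeff_zero] at hl2
    exact not_isUnit_zero hl2
  have hg0 : g ≠ 0 := by
    rintro rfl
    rw [mul_zero] at hg
    exact hFF0 hg
  have hnd : f.natDegree + g.natDegree = 2 * max y z := by
    rw [← natDegree_mul hf.ne_zero hg0, ← hg, hl1]
  have hlc : IsUnit g.leadingCoeff := by
    have h1 : (FF x y z H G).leadingCoeff = g.leadingCoeff := by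
      rw [hg, leadingCoeff_mul, hf.leadingCoeff, one_mul]
    rwa [← h1]
  have hc : (g.coeff g.natDegree).coeff 0 ≠ 0 := by
    obtain ⟨u, hu, hu2⟩ := Polynomial.isUnit_iff.1 hlc
    rw [leadingCoeff] at hu2
    rw [← hu2, coeff_C_zero]
    exact hu.ne_zero
  have h2 : g.natDegree ≤ (wt 1 1 g).natDegree := by
    have := le_wt 1 1 hc
    simpa using this
  have h3 : (wt 1 1 (FF x y z H G)).natDegree ≤ 2 * max y z := by
    rw [wt_le_iff]
    intro i j hij
    exact N1c_FF_TD H G hn i j (by omega)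
  have h4 := wt_mul 1 1 hf.ne_zero hg0
  rw [← hg] at h4
  have h5 : (wt 1 1 f).natDegree ≤ f.natDegree := by omega
  rw [wt_le_iff] at h5
  intro i j hij
  exact h5 i j (by omega)

end PX91
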