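import Pool.Agent.LibPX91.N4
import Pool.Agent.LibPX91.N1b
import Pool.Agent.LibPX91.N1c

open Polynomial JP91
open scoped Polynomial.Bivariate

namespace PX91

/-- Row N4, third part (EASY-MEDIUM). From `key3` and `key_dvd` by `dn_congr`, `dn_mul`, `dn_pow`
(all factors are not divisible by `f`: `not_dvd_abc`, `not_dvd_E1`, and `E3`, `E2` because
otherwise `f` would divide the other term, which is a product of such factors):
`(x - 1) dn(A) + dn(E3) = (y - 1) dn(B) + dn(E1)` and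
`(z - 1) dn(C) + dn(E1) = (x - 1) dn(A) + dn(E2)`. -/
theorem dn_ineq {x y z : ℕ} {H G : ℤ} (h : Dat x y z H G) {f : ℤ[X][Y]}
    (hf : Good x y z H G f) {T : ℕ} (hT : TD f T) :
    (x - 1) * (2 * f.natDegree) ≤ (y - 1) * (2 * T) +
        (2 * f.natDegree + 2) * (f.natDegree + 3) ∧
      (x - 1) * (2 * f.natDegree) ≤ (z - 1) * (2 * T) +
        (2 * f.natDegree + 2) * (f.natDegree + 3) := by
  obtain ⟨hA, hB, hC, hN, hcst⟩ := not_dvd_abc hf
  obtain ⟨hdA, hdE⟩ := dn_AE h hf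
  obtain ⟨hdB, hdC⟩ := dn_le hf.mon hT
  have hprime : Prime f := hf.irr.prime
  have hE1 := not_dvd_E1 h hf
  have hH0 : H ≠ 0 := by have := h.hH1; omega
  have hG0 : G ≠ 0 := by have := h.hG1; omega
  have hx1 : 1 ≤ x := by have := h.hx; omega
  have h2 : (2 : ℤ[X][Y]) = C (C 2) := rfl
  have n2 : ¬ f ∣ (2 : ℤ[X][Y]) := by
    rw [h2]
    exact hcst 2 (by norm_num)
  have npow : ∀ (g : ℤ[X][Y]) (n : ℕ), ¬ f ∣ g → ¬ f ∣ g ^ n := fun g n hg hd =>
    hg (hprime.dvd_of_dvd_pow hd)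
  have nmul : ∀ g g' : ℤ[X][Y], ¬ f ∣ g → ¬ f ∣ g' → ¬ f ∣ g * g' := fun g g' hg hg' hd =>
    (hprime.dvd_or_dvd hd).elim hg hg'
  constructor
  · have hk := key3 hx1 h.hy h.hz hf.dvd
    have q1 : ¬ f ∣ C (C G) * cB ^ (y - 1) * E1 y z f :=
      nmul _ _ (nmul _ _ (hcst G hG0) (npow _ _ hB)) hE1
    have q2 : ¬ f ∣ 2 * (C (C G) * cB ^ (y - 1) * E1 y z f) := nmul _ _ n2 q1
    have q3 : ¬ f ∣ E3 x z f := by
      intro hd
      exact q2 ((dvd_add_right (Dvd.dvd.mul_left hd _)).1 hk)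
    have e := dn_congr hf.mon hk
    rw [dn_mul hf.mon hf.irr (nmul _ _ (hcst H hH0) (npow _ _ hA)) q3,
      dn_mul hf.mon hf.irr (hcst H hH0) (npow _ _ hA), dn_CC hf.mon,
      dn_pow hf.mon hf.irr hA, hdA, dn_mul hf.mon hf.irr n2 q1,
      dn_mul hf.mon hf.irr (nmul _ _ (hcst G hG0) (npow _ _ hB)) hE1,
      dn_mul hf.mon hf.irr (hcst G hG0) (npow _ _ hB), dn_CC hf.mon,
      dn_pow hf.mon hf.irr hB, h2, dn_CC hf.mon] at e
    have e1 : (y - 1) * dn f cB ≤ (y - 1) * (2 * T) := Nat.mul_le_mul_left _ hdB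
    omega
  · have hk := key_dvd hx1 h.hy h.hz hf.dvd
    have q1 : ¬ f ∣ 2 * cC ^ (z - 1) := nmul _ _ n2 (npow _ _ hC)
    have q2 : ¬ f ∣ 2 * cC ^ (z - 1) * E1 y z f := nmul _ _ q1 hE1
    have q3 : ¬ f ∣ E2 x y f := by
      intro hd
      exact q2 ((dvd_add_left (Dvd.dvd.mul_left hd _)).1 hk)
    have e := dn_congr hf.mon hk
    rw [dn_mul hf.mon hf.irr q1 hE1, dn_mul hf.mon hf.irr n2 (npow _ _ hC),
      dn_pow hf.mon hf.irr hC, dn_mul hf.mon hf.irr (nmul _ _ (hcst H hH0) (npow _ _ hA)) q3,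
      dn_mul hf.mon hf.irr (hcst H hH0) (npow _ _ hA), dn_CC hf.mon,
      dn_pow hf.mon hf.irr hA, hdA, h2, dn_CC hf.mon] at e
    have e1 : (z - 1) * dn f cC ≤ (z - 1) * (2 * T) := Nat.mul_le_mul_left _ hdC
    omega

private theorem N5_arith {x y z N l : ℤ} (hN : 1 ≤ N) (hy : 1 ≤ y) (hyz : y ≤ z) (hzx : z < x)
    (hl : x * N = 2 * z * l)
    (hi : (x - 1) * (2 * N) ≤ (y - 1) * (2 * (2 * l)) + (2 * N + 2) * (N + 3)) :
    z ≤ y + N + 7 := by
  by_contra hcon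
  have hc : N + 8 ≤ z - y := by omega
  have h1 : z * ((x - 1) * (2 * N)) ≤ z * ((y - 1) * (2 * (2 * l)) + (2 * N + 2) * (N + 3)) :=
    mul_le_mul_of_nonneg_left hi (by omega)
  have h2 : z * ((y - 1) * (2 * (2 * l))) = (y - 1) * (2 * (x * N)) := by
    rw [hl]
    ring
  have h3 : 2 * N * (z * (x - 1) - x * (y - 1)) ≤ z * ((2 * N + 2) * (N + 3)) := by
    have h4 : z * ((y - 1) * (2 * (2 * l)) + (2 * N + 2) * (N + 3)) =
        (y - 1) * (2 * (x * N)) + z * ((2 * N + 2) * (N + 3)) := by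
      rw [mul_add, h2]
    rw [h4] at h1
    nlinarith
  have h5 : z * (z - y) ≤ z * (x - 1) - x * (y - 1) := by
    nlinarith [mul_nonneg (by omega : (0 : ℤ) ≤ x - z) (by omega : (0 : ℤ) ≤ z - y)]
  have h6 : 2 * N * (z * (z - y)) ≤ z * ((2 * N + 2) * (N + 3)) :=
    (mul_le_mul_of_nonneg_left h5 (by omega)).trans h3
  have h7 : 2 * N * (z - y) ≤ (2 * N + 2) * (N + 3) := by
    have h8 : z * (2 * N * (z - y)) ≤ z * ((2 * N + 2) * (N + 3)) := by
      calc z * (2 * N * (z - y)) = 2 * N * (z * (z - y)) := by ring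
        _ ≤ _ := h6
    exact le_of_mul_le_mul_left h8 (by omega)
  have h9 : 2 * N * (N + 8) ≤ 2 * N * (z - y) := mul_le_mul_of_nonneg_left hc (by omega)
  nlinarith

/-- Row N4, fourth part (EASY arithmetic). Case `y < z` (`max y z = z < x`): `T = 2 l`,
`x N = 2 z l` (`fac_top`). `(x - 1) 2 N ≤ (y - 1) 4 l + (2 N + 2) (N + 3)`; multiply by `z`, use
`z (x - 1) - x (y - 1) = x (z - y) + x - z ≥ z (z - y)`: `2 N (z - y) ≤ (2 N + 2) (N + 3)`.
Case `z < y < x`: likewise with `max y z = y`, `x N = 2 y l` and the second inequality of `dn_ineq`.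
Case `x < y`: `T = N` (`fac_td`), second inequality: `2 N (x - z) ≤ (2 N + 2) (N + 3)`.
And `(2 N + 2) (N + 3) ≤ 2 N (N + 7)` as `N ≥ 1`. -/
theorem gap {x y z : ℕ} {H G : ℤ} (h : Dat x y z H G) {f : ℤ[X][Y]} (hf : Good x y z H G f) :
    (y < z → z ≤ y + f.natDegree + 7) ∧ (z < y → y < x → y ≤ z + f.natDegree + 7) ∧
      (x < y → x ≤ z + f.natDegree + 7) := by
  obtain ⟨-, -, -, hN, -⟩ := not_dvd_abc hf
  have hy := h.hy
  have hz := h.hz
  have hx := h.hx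
  have hN' : (1 : ℤ) ≤ f.natDegree := by exact_mod_cast hN
  refine ⟨fun hyz => ?_, fun hzy hyx => ?_, fun hxy => ?_⟩
  · have hmax : max y z = z := max_eq_right hyz.le
    obtain ⟨c, l, -, -, -, hl, hT⟩ := fac_top h (by rw [hmax]; exact hx) hf.mon hf.dvd hN
    rw [hmax] at hl
    have h1 := (dn_ineq h hf hT.1).1
    have h2 : ((x : ℤ) - 1) * (2 * f.natDegree) ≤ ((y : ℤ) - 1) * (2 * (2 * l)) +
        (2 * f.natDegree + 2) * (f.natDegree + 3) := by
      have h3 := (Nat.cast_le (α := ℤ)).2 h1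
      push_cast [Nat.cast_sub (by omega : 1 ≤ x), Nat.cast_sub hy] at h3
      exact h3
    have h4 := N5_arith (x := x) (y := y) (z := z) (N := f.natDegree) (l := l) hN'
      (by exact_mod_cast hy) (by exact_mod_cast hyz.le) (by exact_mod_cast hx)
      (by exact_mod_cast hl) h2
    omega
  · have hmax : max y z = y := max_eq_left hzy.le
    obtain ⟨c, l, -, -, -, hl, hT⟩ := fac_top h (by rw [hmax]; exact hyx) hf.mon hf.dvd hN
    rw [hmax] at hl
    have h1 := (dn_ineq h hf hT.1).2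
    have h2 : ((x : ℤ) - 1) * (2 * f.natDegree) ≤ ((z : ℤ) - 1) * (2 * (2 * l)) +
        (2 * f.natDegree + 2) * (f.natDegree + 3) := by
      have h3 := (Nat.cast_le (α := ℤ)).2 h1
      push_cast [Nat.cast_sub (by omega : 1 ≤ x), Nat.cast_sub hz] at h3
      exact h3
    have h4 := N5_arith (x := x) (y := z) (z := y) (N := f.natDegree) (l := l) hN'
      (by exact_mod_cast hz) (by exact_mod_cast hzy.le) (by exact_mod_cast hyx)
      (by exact_mod_cast hl) h2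
    omega
  · have h1 := (dn_ineq h hf (fac_td h (lt_of_lt_of_le hxy (le_max_left _ _)) hf.mon hf.dvd)).2
    have h2 : ((x : ℤ) - 1) * (2 * f.natDegree) ≤ ((z : ℤ) - 1) * (2 * f.natDegree) +
        (2 * f.natDegree + 2) * (f.natDegree + 3) := by
      have h3 := (Nat.cast_le (α := ℤ)).2 h1
      push_cast [Nat.cast_sub (by omega : 1 ≤ x), Nat.cast_sub hz] at h3
      exact h3
    by_contra hcon
    have hc : (f.natDegree : ℤ) + 8 ≤ (x : ℤ) - z := by omega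
    have h9 : 2 * (f.natDegree : ℤ) * (f.natDegree + 8) ≤ 2 * f.natDegree * ((x : ℤ) - z) :=
      mul_le_mul_of_nonneg_left hc (by omega)
    nlinarith

end PX91
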