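import Mathlib

open Polynomial

namespace PX91

private theorem T1_sum (t k : ℕ) :
    ∑ i ∈ Finset.range (k + 1), (t : ℤ) ^ i ≤ ((t : ℤ) + 1) ^ k := by
  rw [add_pow]
  refine Finset.sum_le_sum fun m hm => ?_
  rw [Finset.mem_range] at hm
  have h1 : (1 : ℤ) ≤ (k.choose m : ℤ) := by
    exact_mod_cast Nat.choose_pos (by omega)
  rw [one_pow, mul_one]
  exact le_mul_of_one_le_right (by positivity) h1

private theorem T1_pw (m k : ℕ) :
    ∑ i ∈ Finset.range (k + 1), ((m : ℤ) + i) ^ i ≤ ((m : ℤ) + 1 + k) ^ k := by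
  have h1 := T1_sum (m + k) k
  have h2 : ((m + k : ℕ) : ℤ) + 1 = (m : ℤ) + 1 + k := by push_cast; ring
  rw [h2] at h1
  refine le_trans (Finset.sum_le_sum fun i hi => ?_) h1
  rw [Finset.mem_range] at hi
  push_cast
  refine pow_le_pow_left₀ (by positivity) ?_ i
  have h3 : (i : ℤ) ≤ k := by exact_mod_cast (by omega : i ≤ k)
  linarith

private def T1_Bd (m : ℕ) (P : PowerSeries ℤ) : Prop :=
  ∀ k, 0 ≤ PowerSeries.coeff k P ∧ PowerSeries.coeff k P ≤ ((m : ℤ) + k) ^ k

private theorem T1_le {m : ℕ} {P : PowerSeries ℤ} (h : T1_Bd m P) (k : ℕ) :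
    ∑ i ∈ Finset.range (k + 1), PowerSeries.coeff i P ≤ (((m + 1 : ℕ) : ℤ) + k) ^ k := by
  refine le_trans (Finset.sum_le_sum fun i _ => (h i).2) ?_
  have h1 := T1_pw m k
  push_cast
  exact h1

private theorem T1_step1 {m : ℕ} {P : PowerSeries ℤ} (h : T1_Bd m P) :
    T1_Bd (m + 1) (P * PowerSeries.mk 1) := by
  intro k
  have h1 : PowerSeries.coeff k (P * PowerSeries.mk 1) =
      ∑ i ∈ Finset.range (k + 1), PowerSeries.coeff i P := by
    rw [PowerSeries.coeff_mul, Finset.Nat.sum_antidiagonal_eq_sum_range_succ_mk]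
    refine Finset.sum_congr rfl fun i _ => ?_
    rw [PowerSeries.coeff_mk, Pi.one_apply, mul_one]
  rw [h1]
  exact ⟨Finset.sum_nonneg fun i _ => (h i).1, T1_le h k⟩

private theorem T1_step2 {m : ℕ} {P : PowerSeries ℤ} (h : T1_Bd m P) :
    T1_Bd (m + 1) ((1 + PowerSeries.X) * P) := by
  intro k
  rw [add_mul, one_mul, map_add]
  have h2 := T1_le h k
  rcases k with _ | k
  · rw [PowerSeries.coeff_zero_X_mul, add_zero]
    refine ⟨(h 0).1, ?_⟩
    rw [Finset.sum_range_one] at h2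
    exact h2
  · rw [PowerSeries.coeff_succ_X_mul]
    refine ⟨add_nonneg (h _).1 (h _).1, ?_⟩
    rw [Finset.sum_range_succ, Finset.sum_range_succ] at h2
    have h3 : 0 ≤ ∑ i ∈ Finset.range k, PowerSeries.coeff i P :=
      Finset.sum_nonneg fun i _ => (h i).1
    linarith

private theorem T1_bd (a b : ℕ) :
    T1_Bd (a + b) ((1 + PowerSeries.X) ^ b * (PowerSeries.mk 1) ^ a) := by
  induction b with
  | zero =>
    rw [pow_zero, one_mul, add_zero]
    induction a with
    | zero =>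
      intro k
      rw [pow_zero, PowerSeries.coeff_one]
      split_ifs with hk
      · rw [hk, pow_zero]
        exact ⟨zero_le_one, le_rfl⟩
      · exact ⟨le_rfl, by positivity⟩
    | succ a ih =>
      rw [pow_succ]
      exact T1_step1 ih
  | succ b ih =>
    rw [pow_succ', mul_assoc, ← add_assoc]
    exact T1_step2 ih

/-- Row T1 (ONLY MATHLIB, EASY-MEDIUM). The truncation of the power series
`(1 + X) ^ b (1 - X) ^ (-a) = ∑ a_k X ^ k` (`PowerSeries.invOneSubPow`, `PowerSeries.trunc`). Its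
coefficients are at most those of `(1 - X) ^ (-a-b)` in absolute value
(`choose b i ≤ choose (b + i - 1) i`), that is `0 ≤ a_k ≤ choose (a + b + k - 1) k ≤ (a + b + k) ^ k`.
(Any other proof of the bound is fine: induction on `b` and `a`, for example.) -/
theorem series (a b K : ℕ) : ∃ φ : ℤ[X],
    (X : ℤ[X]) ^ K ∣ (1 - X) ^ a * φ - (1 + X) ^ b ∧ (∀ k, K ≤ k → φ.coeff k = 0) ∧
      ∀ k, |φ.coeff k| ≤ ((a : ℤ) + b + k) ^ k := by
  obtain ⟨ψ, hψ⟩ : ∃ ψ : PowerSeries ℤ, ψ = (1 + PowerSeries.X) ^ b * (PowerSeries.mk 1) ^ a :=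
    ⟨_, rfl⟩
  have hB := T1_bd a b
  rw [← hψ] at hB
  have h1 : (1 - PowerSeries.X) ^ a * ψ = (1 + PowerSeries.X : PowerSeries ℤ) ^ b := by
    have h2 : (PowerSeries.mk 1 : PowerSeries ℤ) * (1 - PowerSeries.X) = 1 :=
      PowerSeries.mk_one_mul_one_sub_eq_one ℤ
    rw [hψ, mul_left_comm, ← mul_pow, mul_comm (1 - PowerSeries.X), h2, one_pow, mul_one]
  refine ⟨PowerSeries.trunc K ψ, ?_, ?_, ?_⟩
  · have h3 : (PowerSeries.X : PowerSeries ℤ) ^ K ∣
        ((PowerSeries.trunc K ψ : ℤ[X]) : PowerSeries ℤ) - ψ := by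
      rw [PowerSeries.X_pow_dvd_iff]
      intro m hm
      rw [map_sub, Polynomial.coeff_coe, PowerSeries.coeff_trunc, if_pos hm, sub_self]
    have h4 : (PowerSeries.X : PowerSeries ℤ) ^ K ∣
        (((1 - X) ^ a * PowerSeries.trunc K ψ - (1 + X) ^ b : ℤ[X]) : PowerSeries ℤ) := by
      have h5 : (((1 - X) ^ a * PowerSeries.trunc K ψ - (1 + X) ^ b : ℤ[X]) : PowerSeries ℤ) =
          (1 - PowerSeries.X) ^ a * (((PowerSeries.trunc K ψ : ℤ[X]) : PowerSeries ℤ) - ψ) := by
        rw [mul_sub, h1]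
        push_cast
        rfl
      rw [h5]
      exact Dvd.dvd.mul_left h3 _
    rw [Polynomial.X_pow_dvd_iff]
    intro d hd
    rw [PowerSeries.X_pow_dvd_iff] at h4
    rw [← Polynomial.coeff_coe]
    exact h4 d hd
  · intro k hk
    rw [PowerSeries.coeff_trunc, if_neg (by omega)]
  · intro k
    rw [PowerSeries.coeff_trunc]
    split_ifs
    · rw [abs_of_nonneg (hB k).1]
      have h6 := (hB k).2
      push_cast at h6
      exact h6
    · rw [abs_zero]
      positivity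

end PX91
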