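import Mathlib

open Polynomial

namespace PX91

private theorem cong_gen {R : Type} [CommRing R] (π : ℤ →+* R) {n z K m : ℕ} (hz : z < n) {c p q : ℤ}
    (hπ : ∀ a : ℤ, π a = 0 ↔ p ^ (2 * K) ∣ a) (hcop : IsCoprime p q)
    (hd : p ^ (2 * K) ∣ c * (p ^ 2 + q ^ 2) ^ z - (p ^ 2 - q ^ 2) ^ n) {φ : ℤ[X]}
    (hφ : (X : ℤ[X]) ^ K ∣ (1 - X) ^ (n * m) * φ - (1 + X) ^ (z * m))
    (hφK : ∀ k, K ≤ k → φ.coeff k = 0) :
    p ^ (2 * K) ∣ q ^ (2 * (n - z) * m) * q ^ (2 * K) -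
      ((-1) ^ n * c) ^ m * ∑ k ∈ Finset.range K, φ.coeff k * p ^ (2 * k) * q ^ (2 * K - 2 * k) := by
  have hpK : π p ^ (2 * K) = 0 := by
    rw [← map_pow, hπ]
  have hqu : IsUnit (π q) := by
    obtain ⟨u, v, huv⟩ := (IsCoprime.pow_left (m := 2 * K) hcop : IsCoprime (p ^ (2 * K)) q)
    refine isUnit_iff_exists_inv.2 ⟨π v, ?_⟩
    have h1 := congrArg π huv
    rw [map_add, map_mul, map_mul, map_pow, hpK, mul_zero, zero_add, map_one] at h1
    rw [mul_comm]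
    exact h1
  obtain ⟨q', hq'⟩ := isUnit_iff_exists_inv.1 hqu
  set P : R := π p with hP
  set Q : R := π q with hQ
  set T : R := P ^ 2 * q' ^ 2 with hT
  have hTQ : T * Q ^ 2 = P ^ 2 := by
    calc T * Q ^ 2 = P ^ 2 * (Q * q') ^ 2 := by rw [hT]; ring
      _ = P ^ 2 := by rw [hq', one_pow, mul_one]
  have hTK : T ^ K = 0 := by
    calc T ^ K = P ^ (2 * K) * q' ^ (2 * K) := by rw [hT, mul_pow, ← pow_mul, ← pow_mul]
      _ = 0 := by rw [hpK, zero_mul]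
  have hU1 : IsUnit (1 - T) := IsNilpotent.isUnit_one_sub ⟨K, hTK⟩
  -- the polynomial identity
  have hφT : (1 - T) ^ (n * m) * φ.eval₂ π T = (1 + T) ^ (z * m) := by
    obtain ⟨w, hw⟩ := hφ
    have h2 := congrArg (fun f : ℤ[X] => f.eval₂ π T) hw
    simp only [eval₂_sub, eval₂_mul, eval₂_pow, eval₂_one, eval₂_X, eval₂_add, hTK, zero_mul] at h2
    exact sub_eq_zero.1 h2
  -- the congruence
  set cc : R := (-1) ^ n * π c with hcc
  have h3 : cc * Q ^ (2 * z) * (1 + T) ^ z = Q ^ (2 * n) * (1 - T) ^ n := by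
    have h4 := (hπ _).2 hd
    rw [map_sub, map_mul, map_pow, map_pow, map_add, map_sub, map_pow, map_pow] at h4
    have h5 : π c * (P ^ 2 + Q ^ 2) ^ z = (P ^ 2 - Q ^ 2) ^ n := sub_eq_zero.1 h4
    have h6 : P ^ 2 + Q ^ 2 = Q ^ 2 * (1 + T) := by rw [← hTQ]; ring
    have h7 : P ^ 2 - Q ^ 2 = (-1) * (Q ^ 2 * (1 - T)) := by rw [← hTQ]; ring
    rw [h6, h7, mul_pow, mul_pow (-1 : R), mul_pow (Q ^ 2), ← pow_mul, ← pow_mul] at h5
    have h8 : ((-1 : R) ^ n) * ((-1) ^ n) = 1 := by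
      rw [← mul_pow, neg_mul_neg, one_mul, one_pow]
    calc cc * Q ^ (2 * z) * (1 + T) ^ z = (-1) ^ n * (π c * (Q ^ (2 * z) * (1 + T) ^ z)) := by
          rw [hcc]; ring
      _ = (-1) ^ n * ((-1) ^ n * (Q ^ (2 * n) * (1 - T) ^ n)) := by rw [h5]
      _ = ((-1) ^ n * (-1) ^ n) * (Q ^ (2 * n) * (1 - T) ^ n) := by ring
      _ = Q ^ (2 * n) * (1 - T) ^ n := by rw [h8, one_mul]
  have h9 : cc * (1 + T) ^ z = Q ^ (2 * (n - z)) * (1 - T) ^ n := by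
    have h10 : IsUnit (Q ^ (2 * z)) := hqu.pow _
    have h11 : 2 * n = 2 * z + 2 * (n - z) := by omega
    apply h10.mul_left_cancel
    calc Q ^ (2 * z) * (cc * (1 + T) ^ z) = cc * Q ^ (2 * z) * (1 + T) ^ z := by ring
      _ = Q ^ (2 * n) * (1 - T) ^ n := h3
      _ = Q ^ (2 * z) * (Q ^ (2 * (n - z)) * (1 - T) ^ n) := by rw [h11, pow_add]; ring
  have h12 : cc ^ m * φ.eval₂ π T = Q ^ (2 * (n - z) * m) := by
    have h13 : IsUnit ((1 - T) ^ (n * m)) := hU1.pow _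
    apply h13.mul_left_cancel
    calc (1 - T) ^ (n * m) * (cc ^ m * φ.eval₂ π T)
        = cc ^ m * ((1 - T) ^ (n * m) * φ.eval₂ π T) := by ring
      _ = (cc * (1 + T) ^ z) ^ m := by rw [hφT, mul_pow cc, ← pow_mul]
      _ = (1 - T) ^ (n * m) * Q ^ (2 * (n - z) * m) := by
          rw [h9, mul_pow, ← pow_mul, ← pow_mul]; ring
  -- the value
  have h14 : φ.eval₂ π T * Q ^ (2 * K) =
      ∑ k ∈ Finset.range K, π (φ.coeff k) * P ^ (2 * k) * Q ^ (2 * K - 2 * k) := by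
    have h15 : φ.natDegree < K ∨ φ = 0 := by
      by_cases h0 : φ = 0
      · exact Or.inr h0
      · left
        by_contra h
        exact h0 (leadingCoeff_eq_zero.1 (hφK _ (not_lt.1 h)))
    have h16 : φ.eval₂ π T = ∑ k ∈ Finset.range K, π (φ.coeff k) * T ^ k := by
      rcases h15 with h | h
      · exact eval₂_eq_sum_range' π h T
      · rw [h]
        simp
    rw [h16, Finset.sum_mul]
    refine Finset.sum_congr rfl fun k hk => ?_
    have hk' := Finset.mem_range.1 hk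
    have h17 : 2 * K = 2 * k + (2 * K - 2 * k) := by omega
    calc π (φ.coeff k) * T ^ k * Q ^ (2 * K)
        = π (φ.coeff k) * T ^ k * (Q ^ (2 * k) * Q ^ (2 * K - 2 * k)) := by
          conv_lhs => rw [h17, pow_add]
      _ = π (φ.coeff k) * (T * Q ^ 2) ^ k * Q ^ (2 * K - 2 * k) := by
          rw [mul_pow, ← pow_mul]; ring
      _ = π (φ.coeff k) * P ^ (2 * k) * Q ^ (2 * K - 2 * k) := by
          rw [hTQ, ← pow_mul]
  rw [← hπ]
  rw [map_sub, map_mul, map_mul, map_pow, map_pow, map_pow, map_mul, map_pow, map_neg, map_one, map_sum]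
  simp only [map_mul, map_pow]
  rw [sub_eq_zero, ← hP, ← hQ, ← hcc, ← h14, ← mul_assoc, h12]

/-- Row T2 (ONLY MATHLIB, MEDIUM). Work in the ring `R = ZMod (p ^ (2 K)).natAbs` or
`ℤ ⧸ Ideal.span {p ^ (2 K)}`, where `q` is a unit, and put `T = p ^ 2 / q ^ 2`, so `T ^ K = 0` and `1 - T`
is a unit. The hypothesis gives `c q ^ (2 z) (1 + T) ^ z = (-1) ^ n q ^ (2 n) (1 - T) ^ n`, so
`q ^ (2 (n - z)) (1 - T) ^ n = c' (1 + T) ^ z` with `c' = (-1) ^ n c`; its `m`-th power and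
`(1 - T) ^ (n m) φ(T) = (1 + T) ^ (z m)` (`hφ` and `T ^ K = 0`) give
`q ^ (2 (n - z) m) = c' ^ m φ(T)`; multiply by `q ^ (2 K)`:
`q ^ (2 K) φ(T) = ∑_{k < K} φ_k p ^ (2 k) q ^ (2 K - 2 k)`. (Or avoid quotients: homogenize the
polynomial identities, and cancel powers of `q` and of `q ^ 2 - p ^ 2`, coprime to `p`.) -/
theorem cong {n z K m : ℕ} (hz : z < n) {c p q : ℤ} (hcop : IsCoprime p q)
    (hd : p ^ (2 * K) ∣ c * (p ^ 2 + q ^ 2) ^ z - (p ^ 2 - q ^ 2) ^ n) {φ : ℤ[X]}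
    (hφ : (X : ℤ[X]) ^ K ∣ (1 - X) ^ (n * m) * φ - (1 + X) ^ (z * m))
    (hφK : ∀ k, K ≤ k → φ.coeff k = 0) :
    p ^ (2 * K) ∣ q ^ (2 * (n - z) * m) * q ^ (2 * K) -
      ((-1) ^ n * c) ^ m * ∑ k ∈ Finset.range K, φ.coeff k * p ^ (2 * k) * q ^ (2 * K - 2 * k) :=
  cong_gen (Ideal.Quotient.mk (Ideal.span {p ^ (2 * K)})) hz (fun a => by
    rw [← Ideal.mem_span_singleton]
    exact Ideal.Quotient.eq_zero_iff_mem) hcop hd hφ hφK

end PX91
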