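import Pool.Agent.LibPX91.T1
import Pool.Agent.LibPX91.T2
import Pool.Agent.LibPX91.E1

open Polynomial JP91
open scoped Polynomial.Bivariate

namespace PX91

/-- Reindexing `u = i + 2 k`. -/
private theorem T3_reindex (K i e : ℕ) (f : ℕ → ℤ) (p q : ℤ) :
    p ^ (2 * K) ∣ (∑ k ∈ Finset.range K, f k * (p ^ (i + 2 * k) * q ^ (e - (i + 2 * k)))) -
      ∑ u ∈ Finset.range (2 * K),
        (if i ≤ u ∧ 2 ∣ u - i then f ((u - i) / 2) else 0) * (p ^ u * q ^ (e - u)) := by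
  have h1 : ∑ u ∈ Finset.range (2 * K),
        (if i ≤ u ∧ 2 ∣ u - i then f ((u - i) / 2) else 0) * (p ^ u * q ^ (e - u)) =
      ∑ k ∈ (Finset.range K).filter (fun k => i + 2 * k < 2 * K),
        f k * (p ^ (i + 2 * k) * q ^ (e - (i + 2 * k))) := by
    simp only [ite_mul, zero_mul]
    rw [← Finset.sum_filter]
    symm
    refine Finset.sum_nbij' (fun k => i + 2 * k) (fun u => (u - i) / 2) ?_ ?_ ?_ ?_ ?_
    · intro k hk
      simp only [Finset.mem_filter, Finset.mem_range] at hk ⊢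
      omega
    · intro u hu
      simp only [Finset.mem_filter, Finset.mem_range] at hu ⊢
      omega
    · intro k hk
      simp only [Finset.mem_filter, Finset.mem_range] at hk
      omega
    · intro u hu
      simp only [Finset.mem_filter, Finset.mem_range] at hu
      omega
    · intro k hk
      have : (i + 2 * k - i) / 2 = k := by omega
      rw [this]
  rw [h1, ← Finset.sum_filter_add_sum_filter_not (Finset.range K) (fun k => i + 2 * k < 2 * K),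
    add_sub_cancel_left]
  refine Finset.dvd_sum fun k hk => ?_
  simp only [Finset.mem_filter, Finset.mem_range, not_lt] at hk
  exact Dvd.dvd.mul_left (Dvd.dvd.mul_right (pow_dvd_pow _ hk.2) _) _

/-- The congruence for one monomial. -/
private theorem T3_mono {δ K i τ m e : ℕ} {c' p q : ℤ} (hi : i ≤ τ + m * (2 * δ))
    (hi2 : i ≤ 2 * K + τ) (he : e = 2 * (2 * K) + τ) {φ : ℕ → ℤ}
    (h : p ^ (2 * K) ∣ q ^ (2 * δ * m) * q ^ (2 * K) -
      c' * ∑ k ∈ Finset.range K, φ k * p ^ (2 * k) * q ^ (2 * K - 2 * k)) :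
    p ^ (2 * K) ∣ q ^ (2 * (2 * K)) * (p ^ i * q ^ (τ + m * (2 * δ) - i)) -
      ∑ u ∈ Finset.range (2 * K),
        (if i ≤ u ∧ 2 ∣ u - i then c' * φ ((u - i) / 2) else 0) * (p ^ u * q ^ (e - u)) := by
  have h1 := T3_reindex K i e (fun k => c' * φ k) p q
  have h2 := h.mul_left (p ^ i * q ^ (2 * K + τ - i))
  have h3 : p ^ i * q ^ (2 * K + τ - i) * (q ^ (2 * δ * m) * q ^ (2 * K) -
      c' * ∑ k ∈ Finset.range K, φ k * p ^ (2 * k) * q ^ (2 * K - 2 * k)) =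
      q ^ (2 * (2 * K)) * (p ^ i * q ^ (τ + m * (2 * δ) - i)) -
      ∑ k ∈ Finset.range K, c' * φ k * (p ^ (i + 2 * k) * q ^ (e - (i + 2 * k))) := by
    rw [mul_sub]
    congr 1
    · have e1 : q ^ (2 * (2 * K)) * (p ^ i * q ^ (τ + m * (2 * δ) - i)) =
          p ^ i * q ^ (2 * (2 * K) + (τ + m * (2 * δ) - i)) := by
        rw [pow_add]; ring
      have e2 : p ^ i * q ^ (2 * K + τ - i) * (q ^ (2 * δ * m) * q ^ (2 * K)) =
          p ^ i * q ^ ((2 * K + τ - i) + (2 * δ * m + 2 * K)) := by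
        rw [pow_add, pow_add]; ring
      rw [e1, e2]
      congr 2
      have : 2 * δ * m = m * (2 * δ) := by ring
      omega
    · rw [Finset.mul_sum, Finset.mul_sum]
      refine Finset.sum_congr rfl fun k hk => ?_
      rw [Finset.mem_range] at hk
      have e3 : e - (i + 2 * k) = (2 * K + τ - i) + (2 * K - 2 * k) := by omega
      rw [e3, pow_add, pow_add]
      ring
  rw [h3] at h2
  have h4 := dvd_add h2 h1
  rw [sub_add_sub_cancel] at h4
  exact h4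

/-- The indices: the total degree and the exponent of `r`. -/
private abbrev T3_I (w : ℕ) : Type := Σ s : Fin (4 * w), Fin (s.1 + 1)

private theorem T3_card (w : ℕ) : Fintype.card (T3_I w) = 8 * w ^ 2 + 2 * w := by
  rw [Fintype.card_sigma]
  simp only [Fintype.card_fin]
  rw [Fin.sum_univ_eq_sum_range (fun i => i + 1) (4 * w)]
  have h := Finset.sum_range_id_mul_two (4 * w + 1)
  rw [Finset.sum_range_succ'] at h
  simp only [add_zero, Nat.add_sub_cancel] at h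
  nlinarith

/-- The polynomial. -/
private noncomputable def T3_P (w : ℕ) (t : T3_I w → ℤ) : ℤ[X][Y] :=
  ∑ b : T3_I w, monomial (b.1.1 - b.2.1) (monomial b.2.1 (t b))

private theorem T3_coeff (w : ℕ) (t : T3_I w → ℤ) (i j : ℕ) :
    ((T3_P w t).coeff j).coeff i =
      ∑ b : T3_I w, if b.1.1 - b.2.1 = j ∧ b.2.1 = i then t b else 0 := by
  rw [T3_P, finsetSum_coeff, finsetSum_coeff]
  refine Finset.sum_congr rfl fun b _ => ?_
  rw [coeff_monomial]
  by_cases h : b.1.1 - b.2.1 = j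
  · simp only [h, if_true, coeff_monomial, true_and]
  · simp only [h, if_false, coeff_zero, false_and]

private theorem T3_eval (w : ℕ) (t : T3_I w → ℤ) (p q : ℤ) :
    (T3_P w t).evalEval p q = ∑ b : T3_I w, t b * (p ^ b.2.1 * q ^ (b.1.1 - b.2.1)) := by
  rw [T3_P, evalEval_finsetSum]
  refine Finset.sum_congr rfl fun b _ => ?_
  rw [evalEval, eval_monomial, eval_mul, eval_monomial, eval_pow, eval_C]
  ring


/-- The matrix. -/
private def T3_A (δ : ℕ) (c' : ℤ) (φ : ℕ → ℕ → ℤ) :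
    Matrix (Fin (2 * δ) × Fin (2 * (5 * δ))) (T3_I (2 * δ)) ℤ := fun a b =>
  if b.1.1 % (2 * δ) = a.1.1 then
    (if b.2.1 ≤ a.2.1 ∧ 2 ∣ a.2.1 - b.2.1 then
      c' ^ (b.1.1 / (2 * δ)) * φ (b.1.1 / (2 * δ)) ((a.2.1 - b.2.1) / 2) else 0) else 0

private theorem T3_dvd {δ : ℕ} (hδ : 1 ≤ δ) {c' p q : ℤ} (hcop : IsCoprime p q) {φ : ℕ → ℕ → ℤ}
    (h : ∀ m, p ^ (2 * (5 * δ)) ∣ q ^ (2 * δ * m) * q ^ (2 * (5 * δ)) -
      c' ^ m * ∑ k ∈ Finset.range (5 * δ), φ m k * p ^ (2 * k) * q ^ (2 * (5 * δ) - 2 * k))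
    {t : T3_I (2 * δ) → ℤ} (ht : (T3_A δ c' φ).mulVec t = 0) :
    p ^ (2 * (5 * δ)) ∣ (T3_P (2 * δ) t).evalEval p q := by
  have hw : 0 < 2 * δ := by omega
  have hkey : p ^ (2 * (5 * δ)) ∣ q ^ (2 * (2 * (5 * δ))) * (T3_P (2 * δ) t).evalEval p q -
      ∑ a : Fin (2 * δ) × Fin (2 * (5 * δ)),
        ((T3_A δ c' φ).mulVec t) a * (p ^ a.2.1 * q ^ (2 * (2 * (5 * δ)) + a.1.1 - a.2.1)) := by
    have e1 : ∑ a : Fin (2 * δ) × Fin (2 * (5 * δ)),
        ((T3_A δ c' φ).mulVec t) a * (p ^ a.2.1 * q ^ (2 * (2 * (5 * δ)) + a.1.1 - a.2.1)) =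
        ∑ b : T3_I (2 * δ), t b * ∑ a : Fin (2 * δ) × Fin (2 * (5 * δ)),
          T3_A δ c' φ a b * (p ^ a.2.1 * q ^ (2 * (2 * (5 * δ)) + a.1.1 - a.2.1)) := by
      simp only [Matrix.mulVec, dotProduct, Finset.sum_mul, Finset.mul_sum]
      rw [Finset.sum_comm]
      refine Finset.sum_congr rfl fun b _ => Finset.sum_congr rfl fun a _ => ?_
      ring
    rw [e1, T3_eval, Finset.mul_sum, ← Finset.sum_sub_distrib]
    refine Finset.dvd_sum fun b _ => ?_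
    have e2 : ∑ a : Fin (2 * δ) × Fin (2 * (5 * δ)),
          T3_A δ c' φ a b * (p ^ a.2.1 * q ^ (2 * (2 * (5 * δ)) + a.1.1 - a.2.1)) =
        ∑ u ∈ Finset.range (2 * (5 * δ)),
        (if b.2.1 ≤ u ∧ 2 ∣ u - b.2.1 then c' ^ (b.1.1 / (2 * δ)) *
          φ (b.1.1 / (2 * δ)) ((u - b.2.1) / 2) else 0) *
          (p ^ u * q ^ (2 * (2 * (5 * δ)) + b.1.1 % (2 * δ) - u)) := by
      rw [Fintype.sum_prod_type, Finset.sum_comm,
        ← Fin.sum_univ_eq_sum_range (fun u => (if b.2.1 ≤ u ∧ 2 ∣ u - b.2.1 then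
          c' ^ (b.1.1 / (2 * δ)) * φ (b.1.1 / (2 * δ)) ((u - b.2.1) / 2) else 0) *
          (p ^ u * q ^ (2 * (2 * (5 * δ)) + b.1.1 % (2 * δ) - u)))]
      refine Finset.sum_congr rfl fun u _ => ?_
      rw [Finset.sum_eq_single (⟨b.1.1 % (2 * δ), Nat.mod_lt _ hw⟩ : Fin (2 * δ))]
      · simp only [T3_A, if_true]
      · intro τ _ hτ
        have : b.1.1 % (2 * δ) ≠ τ.1 := fun hh => hτ (Fin.ext hh.symm)
        simp only [T3_A, this, if_false, zero_mul]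
      · intro hh
        exact absurd (Finset.mem_univ _) hh
    have hs : b.1.1 % (2 * δ) + b.1.1 / (2 * δ) * (2 * δ) = b.1.1 := by
      exact Nat.mod_add_div' _ _
    have hb1 := b.1.2
    have hb2 := b.2.2
    have h5 := T3_mono (i := b.2.1) (τ := b.1.1 % (2 * δ)) (m := b.1.1 / (2 * δ))
      (e := 2 * (2 * (5 * δ)) + b.1.1 % (2 * δ)) (by omega) (by omega) rfl
      (h (b.1.1 / (2 * δ)))
    rw [hs] at h5
    rw [e2]
    have h6 := h5.mul_left (t b)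
    convert h6 using 1
    ring
  rw [ht] at hkey
  simp only [Pi.zero_apply, zero_mul, Finset.sum_const_zero, sub_zero] at hkey
  exact (IsCoprime.pow hcop).dvd_of_dvd_mul_left hkey

private theorem T3_siegel {α β : Type*} [Fintype α] [Fintype β] (A : Matrix α β ℤ) (B : ℤ)
    (hB : 1 ≤ B) (hA : ∀ i j, |A i j| ≤ B) (hn : 3 * Fintype.card α ≤ 2 * Fintype.card β)
    (hm : 0 < Fintype.card α) :
    ∃ t : β → ℤ, t ≠ 0 ∧ A.mulVec t = 0 ∧ ∀ j, |t j| ≤ (Fintype.card β * B) ^ 2 := by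
  have hlt : Fintype.card α < Fintype.card β := by omega
  obtain ⟨t, ht0, htA, htn⟩ := Int.Matrix.exists_ne_zero_int_vec_norm_le A hlt hm
  refine ⟨t, ht0, htA, fun j => ?_⟩
  have hBR : (1 : ℝ) ≤ B := by exact_mod_cast hB
  have hnR : (Fintype.card α : ℝ) < Fintype.card β := by exact_mod_cast hlt
  have hβ : (1 : ℝ) ≤ Fintype.card β := by
    have : 1 ≤ Fintype.card β := by omega
    exact_mod_cast this
  have h1 : (Fintype.card α : ℝ) / ((Fintype.card β : ℝ) - Fintype.card α) ≤ 2 := by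
    rw [div_le_iff₀ (by linarith)]
    have : (3 * Fintype.card α : ℝ) ≤ 2 * Fintype.card β := by exact_mod_cast hn
    linarith
  have h2 : ‖t‖ ≤ ((Fintype.card β : ℝ) * B) ^ (2 : ℝ) := by
    refine htn.trans ((Real.rpow_le_rpow ?_ ?_ (div_nonneg (Nat.cast_nonneg _) (by linarith))).trans
      (Real.rpow_le_rpow_of_exponent_le ?_ h1))
    · exact mul_nonneg (Nat.cast_nonneg _) (le_trans zero_le_one (le_max_left _ _))
    · refine mul_le_mul_of_nonneg_left (max_le hBR ?_) (Nat.cast_nonneg _)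
      refine (Matrix.norm_le_iff (by linarith)).2 ?_
      intro i j
      rw [Int.norm_eq_abs]
      exact_mod_cast hA i j
    · nlinarith
  have h3 : ‖t j‖ ≤ ((Fintype.card β : ℝ) * B) ^ (2 : ℝ) := (norm_le_pi_norm t j).trans h2
  rw [Int.norm_eq_abs, Real.rpow_two] at h3
  exact_mod_cast h3

private theorem T3_entry {δ n z : ℕ} (hnz : z + δ = n) (hδ : 1 ≤ δ) {c' : ℤ}
    (hc : |c'| ≤ 2 ^ (2 * δ)) {φ : ℕ → ℕ → ℤ}
    (hφ : ∀ m k, |φ m k| ≤ (((n * m : ℕ) : ℤ) + ((z * m : ℕ) : ℤ) + k) ^ k)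
    (a : Fin (2 * δ) × Fin (2 * (5 * δ))) (b : T3_I (2 * δ)) :
    |T3_A δ c' φ a b| ≤ (40 * n : ℤ) ^ (5 * δ) := by
  have hn : (1 : ℤ) ≤ n := by
    have : 1 ≤ n := by omega
    exact_mod_cast this
  have hpos : (0 : ℤ) ≤ (40 * n : ℤ) ^ (5 * δ) := by positivity
  unfold T3_A
  split_ifs with h1 h2
  · have hb := b.1.2
    have ha := a.2.2
    set m := b.1.1 / (2 * δ) with hm
    set k := (a.2.1 - b.2.1) / 2 with hk
    have hm3 : m ≤ 3 := by
      have : m < 4 := by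
        rw [hm, Nat.div_lt_iff_lt_mul (by omega)]
        exact hb
      omega
    have hk5 : k ≤ 5 * δ := by omega
    have hc1 : |c' ^ m| ≤ 64 ^ δ := by
      rw [abs_pow]
      calc |c'| ^ m ≤ (2 ^ (2 * δ)) ^ m := pow_le_pow_left₀ (abs_nonneg _) hc _
        _ ≤ (2 ^ (2 * δ)) ^ 3 := pow_le_pow_right₀ (one_le_pow₀ (by norm_num)) hm3
        _ = 64 ^ δ := by
          rw [← pow_mul, show 2 * δ * 3 = 6 * δ by ring, pow_mul]
          norm_num
    have hc2 : |φ m k| ≤ (11 * n : ℤ) ^ (5 * δ) := by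
      refine (hφ m k).trans ?_
      have h3 : ((n * m : ℕ) : ℤ) + ((z * m : ℕ) : ℤ) + k ≤ 11 * n := by
        have : n * m + z * m + k ≤ 11 * n := by
          have e1 : n * m ≤ n * 3 := Nat.mul_le_mul_left _ hm3
          have e2 : z * m ≤ z * 3 := Nat.mul_le_mul_left _ hm3
          omega
        exact_mod_cast this
      calc (((n * m : ℕ) : ℤ) + ((z * m : ℕ) : ℤ) + k) ^ k ≤ (11 * n : ℤ) ^ k :=
            pow_le_pow_left₀ (by positivity) h3 _
        _ ≤ (11 * n : ℤ) ^ (5 * δ) := pow_le_pow_right₀ (by linarith) hk5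
    rw [abs_mul]
    calc |c' ^ m| * |φ m k| ≤ 64 ^ δ * (11 * n : ℤ) ^ (5 * δ) :=
          mul_le_mul hc1 hc2 (abs_nonneg _) (by positivity)
      _ = (64 * (11 * n : ℤ) ^ 5) ^ δ := by
          rw [pow_mul (11 * n : ℤ) 5 δ]
          exact (mul_pow _ _ _).symm
      _ ≤ ((40 * n : ℤ) ^ 5) ^ δ := by
          refine pow_le_pow_left₀ (by positivity) ?_ _
          have : (0 : ℤ) ≤ (n : ℤ) ^ 5 := by positivity
          nlinarith
      _ = _ := by rw [← pow_mul]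
  · rw [abs_zero]; exact hpos
  · rw [abs_zero]; exact hpos

private theorem T3_abs {w : ℕ} {t : T3_I w → ℤ} {T p q : ℤ} (ht : ∀ b, |t b| ≤ T) (hq : 1 ≤ q)
    (hqp : q < p) : |(T3_P w t).evalEval p q| ≤ (8 * w ^ 2 + 2 * w : ℤ) * (T * p ^ (4 * w)) := by
  have hp : 1 ≤ p := by linarith
  rw [T3_eval]
  refine (Finset.abs_sum_le_sum_abs _ _).trans ?_
  have h1 : ∀ b ∈ (Finset.univ : Finset (T3_I w)),
      |t b * (p ^ b.2.1 * q ^ (b.1.1 - b.2.1))| ≤ T * p ^ (4 * w) := by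
    intro b _
    rw [abs_mul]
    refine mul_le_mul (ht b) ?_ (abs_nonneg _) ((abs_nonneg _).trans (ht b))
    rw [abs_of_nonneg (by positivity)]
    have hb1 := b.1.2
    have hb2 := b.2.2
    calc p ^ b.2.1 * q ^ (b.1.1 - b.2.1) ≤ p ^ b.2.1 * p ^ (b.1.1 - b.2.1) :=
          mul_le_mul_of_nonneg_left (pow_le_pow_left₀ (by linarith) hqp.le _) (by positivity)
      _ = p ^ (b.2.1 + (b.1.1 - b.2.1)) := (pow_add _ _ _).symm
      _ ≤ p ^ (4 * w) := pow_le_pow_right₀ hp (by omega)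
  refine (Finset.sum_le_sum h1).trans (le_of_eq ?_)
  rw [Finset.sum_const, Finset.card_univ, T3_card, nsmul_eq_mul]
  push_cast
  ring

/-- Row T3 (STRONG or MEDIUM). Let `δ = n - z`, `w = 2 δ`, `K = 5 δ` (so `2 K = 5 w`), `c' = (-1) ^ n c`, and for
`m ≤ 4` let `φ_m` be the polynomial of `series (n m) (z m) K`. The unknowns are the coefficients
`t (i, j)`, `i + j ≤ 4 w`, of `P = ∑ t (i, j) r ^ i s ^ j`: there are `(4 w + 1) (4 w + 2) / 2 = 8 w ^ 2 + 6 w + 1`.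
Write `i + j = τ + m w` with `τ < w`, `m ≤ 4`. By `cong`, modulo `p ^ (5 w)`:
`p ^ i q ^ j q ^ (10 w) = p ^ i q ^ (5 w + τ - i) (q ^ (m w) q ^ (2 K))`
`= c' ^ m ∑_{k < K} φ_m,k p ^ (i + 2 k) q ^ (10 w + τ - (i + 2 k))`, where the terms with `i + 2 k ≥ 5 w` vanish.
So `q ^ (10 w) P(p, q)` is congruent to the sum over `τ < w`, `u < 5 w` of `p ^ u q ^ (10 w + τ - u)` times
`L_{τ,u}(t) = ∑ t (i, j) c' ^ m φ_m,(u - i)/2` over the `(i, j)` with `i + j = τ + m w`, `i ≤ u`, `2 ∣ u - i`.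
These `5 w ^ 2` linear forms have integral coefficients at most
`2 ^ (4 w) (8 n + 5 n) ^ (5 w / 2) ≤ (40 n) ^ (4 w) =: A` (`|c'| ≤ 2 ^ w`, `4 n + 4 z + k ≤ 13 n`,
`16 * 13 ^ (5/2) < 40 ^ 4`). Siegel's lemma (`Int.Matrix.exists_ne_zero_int_vec_norm_le`, exponent
`5 w ^ 2 / (3 w ^ 2 + 6 w + 1) ≤ 2`) gives `t ≠ 0` with `|t| ≤ (M A) ^ 2`, `M = 8 w ^ 2 + 6 w + 1`. Then
`p ^ (5 w) ∣ q ^ (10 w) P(p, q)`, so `p ^ (5 w) ∣ P(p, q)`, and
`|P(p, q)| ≤ M (M A) ^ 2 p ^ (4 w) < p ^ (5 w)` if `p ≥ (40 n) ^ 30` (`M ≤ (40 n) ^ 2`, `w ≥ 2`). -/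
theorem tiny (n z : ℕ) (c : ℤ) (hz : z < n) (hc : 1 ≤ c) (hc' : c ≤ 2 ^ (2 * (n - z))) :
    ∃ P : ℤ[X][Y], P ≠ 0 ∧ TD P (8 * (n - z)) ∧ ∀ p q : ℤ, IsCoprime p q → 1 ≤ q → q < p →
      (40 * n : ℤ) ^ 30 ≤ p →
      p ^ (10 * (n - z)) ∣ c * (p ^ 2 + q ^ 2) ^ z - (p ^ 2 - q ^ 2) ^ n → P.evalEval p q = 0 := by
  classical
  obtain ⟨δ, hδ⟩ : ∃ δ, n - z = δ := ⟨_, rfl⟩
  rw [hδ] at hc' ⊢
  have hnz : z + δ = n := by omega
  have hδ1 : 1 ≤ δ := by omega
  have hn1 : 1 ≤ n := by omega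
  have hn : (1 : ℤ) ≤ n := by exact_mod_cast hn1
  choose φ hφ1 hφ2 hφ3 using fun m : ℕ => series (n * m) (z * m) (5 * δ)
  set c' : ℤ := (-1) ^ n * c with hc'def
  have hcabs : |c'| ≤ 2 ^ (2 * δ) := by
    rw [hc'def, abs_mul, abs_pow, abs_neg, abs_one, one_pow, one_mul, abs_of_pos (by linarith)]
    exact hc'
  have hX : (1 : ℤ) ≤ 40 * n := by linarith
  have hcardα : Fintype.card (Fin (2 * δ) × Fin (2 * (5 * δ))) = 20 * δ ^ 2 := by
    rw [Fintype.card_prod, Fintype.card_fin, Fintype.card_fin]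
    ring
  obtain ⟨t, ht0, htA, htn⟩ := T3_siegel (T3_A δ c' fun m k => (φ m).coeff k)
    ((40 * n : ℤ) ^ (5 * δ)) (one_le_pow₀ hX)
    (T3_entry hnz hδ1 hcabs (fun m k => hφ3 m k))
    (by rw [hcardα, T3_card]; nlinarith)
    (by rw [hcardα]; positivity)
  rw [T3_card] at htn
  refine ⟨T3_P (2 * δ) t, ?_, ?_, ?_⟩
  · intro h0
    apply ht0
    funext b
    have h1 := T3_coeff (2 * δ) t b.2.1 (b.1.1 - b.2.1)
    rw [h0] at h1
    simp only [coeff_zero] at h1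
    rw [Finset.sum_eq_single b] at h1
    · simp only [and_self, if_true] at h1
      exact h1.symm
    · intro b' _ hb'
      rw [if_neg]
      rintro ⟨e1, e2⟩
      apply hb'
      obtain ⟨⟨s, hs⟩, ⟨i, hi⟩⟩ := b
      obtain ⟨⟨s', hs'⟩, ⟨i', hi'⟩⟩ := b'
      simp only at e1 e2 hi hi'
      subst e2
      have : s' = s := by omega
      subst this
      rfl
    · intro hh
      exact absurd (Finset.mem_univ _) hh
  · intro i j hij
    rw [T3_coeff]
    apply Finset.sum_eq_zero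
    intro b _
    rw [if_neg]
    rintro ⟨e1, e2⟩
    have hb1 := b.1.2
    have hb2 := b.2.2
    omega
  · intro p q hcop hq hqp hp hd
    have hdvd := T3_dvd (t := t) hδ1 hcop (c' := c') (φ := fun m k => (φ m).coeff k)
      (fun m => ?_) htA
    · have habs := T3_abs htn hq hqp
      have hM : ((8 * (2 * δ) ^ 2 + 2 * (2 * δ) : ℕ) : ℤ) ≤ (40 * n : ℤ) ^ 2 := by
        have hd1 : (δ : ℤ) ≤ n := by
          have : δ ≤ n := by omega
          exact_mod_cast this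
        push_cast
        nlinarith
      have hM0 : (0 : ℤ) ≤ ((8 * (2 * δ) ^ 2 + 2 * (2 * δ) : ℕ) : ℤ) := by positivity
      have hlt : |(T3_P (2 * δ) t).evalEval p q| < p ^ (2 * (5 * δ)) := by
        have hp1 : (1 : ℤ) < p := by linarith
        have h4 : (8 * ((2 * δ : ℕ) : ℤ) ^ 2 + 2 * ((2 * δ : ℕ) : ℤ)) =
            ((8 * (2 * δ) ^ 2 + 2 * (2 * δ) : ℕ) : ℤ) := by push_cast; ring
        rw [h4] at habs
        refine lt_of_le_of_lt habs ?_
        have h5 : ((8 * (2 * δ) ^ 2 + 2 * (2 * δ) : ℕ) : ℤ) *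
            (((8 * (2 * δ) ^ 2 + 2 * (2 * δ) : ℕ) : ℤ) * (40 * n : ℤ) ^ (5 * δ)) ^ 2 ≤
            (40 * n : ℤ) ^ (16 * δ) := by
          calc _ ≤ (40 * n : ℤ) ^ 2 * ((40 * n : ℤ) ^ 2 * (40 * n : ℤ) ^ (5 * δ)) ^ 2 := by
                refine mul_le_mul hM (pow_le_pow_left₀ (by positivity)
                  (mul_le_mul_of_nonneg_right hM (by positivity)) _) (by positivity) (by positivity)
            _ = (40 * n : ℤ) ^ (6 + 10 * δ) := by
                rw [← pow_add, ← pow_mul, ← pow_add]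
                congr 1
                ring
            _ ≤ _ := pow_le_pow_right₀ hX (by omega)
        have h6 : (40 * n : ℤ) ^ (16 * δ) < p ^ (2 * δ) := by
          have h7 : (40 * n : ℤ) ^ 8 < p := by
            refine lt_of_lt_of_le ?_ hp
            exact pow_lt_pow_right₀ (by linarith) (by norm_num)
          calc (40 * n : ℤ) ^ (16 * δ) = ((40 * n : ℤ) ^ 8) ^ (2 * δ) := by
                rw [← pow_mul]; congr 1; ring
            _ < p ^ (2 * δ) := pow_lt_pow_left₀ h7 (by positivity) (by omega)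
        have h8 : (0 : ℤ) < p ^ (4 * (2 * δ)) := by positivity
        calc _ = (((8 * (2 * δ) ^ 2 + 2 * (2 * δ) : ℕ) : ℤ) *
            (((8 * (2 * δ) ^ 2 + 2 * (2 * δ) : ℕ) : ℤ) * (40 * n : ℤ) ^ (5 * δ)) ^ 2) *
              p ^ (4 * (2 * δ)) := by ring
          _ < p ^ (2 * δ) * p ^ (4 * (2 * δ)) :=
              mul_lt_mul_of_pos_right (lt_of_le_of_lt h5 h6) h8
          _ = p ^ (2 * (5 * δ)) := by rw [← pow_add]; congr 1; ring
      exact Int.eq_zero_of_abs_lt_dvd hdvd hlt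
    · have h10 : 10 * δ = 2 * (5 * δ) := by ring
      rw [h10] at hd
      have h := cong hz hcop hd (hφ1 m) (hφ2 m)
      rw [hδ] at h
      exact h

end PX91
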