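import Pool.Agent.LibPX91.W1

open Polynomial JP91
open scoped Polynomial.Bivariate

namespace PX91

private lemma T4_zero {P : ℤ[X][Y]} (h : ∀ p q : ℤ, P.evalEval (2 * p) (2 * q) = 0) : P = 0 := by
  apply Polynomial.eq_zero_of_infinite_isRoot
  apply Set.Infinite.mono (s := Set.range (fun q : ℤ => (C (2 * q) : ℤ[X])))
  · rintro _ ⟨q, rfl⟩
    show eval (C (2 * q)) P = 0
    apply Polynomial.eq_zero_of_infinite_isRoot
    apply Set.Infinite.mono (s := Set.range (fun p : ℤ => 2 * p))
    · rintro _ ⟨p, rfl⟩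
      exact h p q
    · apply Set.infinite_range_of_injective
      intro a b hab
      simpa using hab
  · apply Set.infinite_range_of_injective
    intro a b hab
    have := C_injective hab
    simpa using this

/-- The substituted polynomial with weights. -/
private noncomputable def T4_sub (P : ℤ[X][Y]) (T : ℕ) (w : ℕ → ℕ → ℤ) : ℤ[X][Y] :=
  ∑ j ∈ Finset.range (T + 1), ∑ i ∈ Finset.range (T + 1),
    C (C ((P.coeff j).coeff i * w i j)) * (C X + Y) ^ i * (C X - Y) ^ j

private lemma T4_TD {P : ℤ[X][Y]} {T : ℕ} (hT : TD P T) (w : ℕ → ℕ → ℤ) :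
    TD (T4_sub P T w) T := by
  apply TD_sum
  intro j _
  apply TD_sum
  intro i _
  by_cases hij : T < i + j
  · rw [hT i j hij, zero_mul, C_0, C_0, zero_mul, zero_mul]
    intro a b _
    simp
  · have h1 : TD (C X + Y : ℤ[X][Y]) 1 := TD_add TD_CX TD_Y
    have h2 : TD (C X - Y : ℤ[X][Y]) 1 := TD_sub TD_CX TD_Y
    exact TD_mono (TD_mul (TD_mul (TD_CC _) (TD_pow h1 i)) (TD_pow h2 j)) (by omega)

private lemma T4_eval (P : ℤ[X][Y]) (T : ℕ) (w : ℕ → ℕ → ℤ) (r s : ℤ) :
    (T4_sub P T w).evalEval r s = ∑ j ∈ Finset.range (T + 1), ∑ i ∈ Finset.range (T + 1),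
      (P.coeff j).coeff i * w i j * (r + s) ^ i * (r - s) ^ j := by
  unfold T4_sub
  rw [← coe_evalEvalRingHom, map_sum]
  apply Finset.sum_congr rfl
  intro j _
  rw [map_sum]
  apply Finset.sum_congr rfl
  intro i _
  rw [map_mul, map_mul, map_pow, map_pow, map_add, map_sub, coe_evalEvalRingHom]
  simp [evalEval]

private lemma T4_expand {P : ℤ[X][Y]} {T : ℕ} (hT : TD P T) (p q : ℤ) :
    P.evalEval p q = ∑ j ∈ Finset.range (T + 1), ∑ i ∈ Finset.range (T + 1),
      (P.coeff j).coeff i * p ^ i * q ^ j := by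
  obtain ⟨h1, h2⟩ := TD_natDegree hT
  unfold evalEval
  rw [Polynomial.eval_eq_sum_range' (p := P) (n := T + 1) (by omega), Polynomial.eval_finsetSum]
  apply Finset.sum_congr rfl
  intro j _
  rw [eval_mul, eval_pow, eval_C, Polynomial.eval_eq_sum_range' (n := T + 1)
    (by have := h2 j; omega), Finset.sum_mul]

/-- Row T4 (EASY-MEDIUM). The linear substitutions. First: `P'(r, s) = P(r + s, r - s)`; second:
`P'(r, s) = 2 ^ T P((r + s) / 2, (r - s) / 2) = ∑ c_ij 2 ^ (T - i - j) (r + s) ^ i (r - s) ^ j`.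
`P' ≠ 0`: for instance over `ℚ` (or by evaluation at infinitely many integral points: a polynomial
vanishing at all integral points is `0`). -/
theorem lin1 {P : ℤ[X][Y]} (hP : P ≠ 0) {T : ℕ} (hT : TD P T) :
    ∃ P' : ℤ[X][Y], P' ≠ 0 ∧ TD P' T ∧
      ∀ r s : ℤ, P.evalEval (r + s) (r - s) = 0 → P'.evalEval r s = 0 := by
  have key : ∀ r s : ℤ, (T4_sub P T fun _ _ => 1).evalEval r s = P.evalEval (r + s) (r - s) := by
    intro r s
    rw [T4_eval, T4_expand hT]
    simp only [mul_one]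
  refine ⟨T4_sub P T fun _ _ => 1, ?_, T4_TD hT _, ?_⟩
  · intro h0
    apply hP
    apply T4_zero
    intro p q
    have h := key (p + q) (p - q)
    rw [h0] at h
    have h1 : (p + q) + (p - q) = 2 * p := by ring
    have h2 : (p + q) - (p - q) = 2 * q := by ring
    rw [h1, h2] at h
    rw [← h]
    simp [evalEval]
  · intro r s h
    rw [key]
    exact h

theorem lin2 {P : ℤ[X][Y]} (hP : P ≠ 0) {T : ℕ} (hT : TD P T) :
    ∃ P' : ℤ[X][Y], P' ≠ 0 ∧ TD P' T ∧
      ∀ p q : ℤ, P.evalEval p q = 0 → P'.evalEval (p + q) (p - q) = 0 := by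
  have key : ∀ p q : ℤ, (T4_sub P T fun i j => 2 ^ (T - i - j)).evalEval (p + q) (p - q) =
      2 ^ T * P.evalEval p q := by
    intro p q
    rw [T4_eval, T4_expand hT, Finset.mul_sum]
    apply Finset.sum_congr rfl
    intro j _
    rw [Finset.mul_sum]
    apply Finset.sum_congr rfl
    intro i _
    by_cases hij : T < i + j
    · rw [hT i j hij]
      ring
    · have h1 : (p + q) + (p - q) = 2 * p := by ring
      have h2 : (p + q) - (p - q) = 2 * q := by ring
      rw [h1, h2, mul_pow, mul_pow]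
      have h3 : (2 : ℤ) ^ T = 2 ^ (T - i - j) * 2 ^ i * 2 ^ j := by
        rw [← pow_add, ← pow_add]
        congr 1
        omega
      rw [h3]
      ring
  refine ⟨T4_sub P T fun i j => 2 ^ (T - i - j), ?_, T4_TD hT _, ?_⟩
  · intro h0
    apply hP
    apply T4_zero
    intro p q
    have h := key (2 * p) (2 * q)
    rw [h0] at h
    have h3 : (0 : ℤ[X][Y]).evalEval (2 * p + 2 * q) (2 * p - 2 * q) = 0 := by
      simp [evalEval]
    rw [h3] at h
    have h4 : (2 : ℤ) ^ T ≠ 0 := by positivity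
    rcases mul_eq_zero.1 h.symm with h5 | h5
    · exact absurd h5 h4
    · exact h5
  · intro p q h
    rw [key, h, mul_zero]

end PX91
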