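import Pool.Agent.LibPX91.Defs
import Pool.Agent.LibJP91.B5

open Polynomial JP91
open scoped Polynomial.Bivariate

namespace PX91

/-- Row T5a (EASY-MEDIUM). The divisibility for the points of the first kind,
`H = 2 ^ x`, `G = 1`: with `p = r + s`, `q = r - s`: `2 (r² + s²) = p² + q²`, `4 r s = p² - q²`,
`r² - s² = p q`, so `FF_eval` times `2 ^ x` is
`2 ^ (x - z) (p² + q²) ^ z - (p² - q²) ^ x = 2 ^ x (p q) ^ y`. Coprime: `r + s` odd. -/
theorem div1 {x y z : ℕ} {r s : ℤ} (hx : z < x) (hs : 1 ≤ s) (hr : s < r) (hc : IsCoprime r s)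
    (hp : Odd (r + s)) (h0 : (FF x y z (2 ^ x) 1).evalEval r s = 0) :
    IsCoprime (r + s) (r - s) ∧ (r + s) ^ y ∣ 2 ^ (x - z) * ((r + s) ^ 2 + (r - s) ^ 2) ^ z -
      ((r + s) ^ 2 - (r - s) ^ 2) ^ x := by
  rw [FF_eval] at h0
  constructor
  · have h1 : IsCoprime (r + s) 2 := by
      obtain ⟨m, hm⟩ := hp
      exact ⟨1, -m, by rw [hm]; ring⟩
    have h2 : IsCoprime (r + s) r := by
      obtain ⟨a, b, hab⟩ := hc
      exact ⟨b, a - b, by rw [← hab]; ring⟩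
    obtain ⟨a, b, hab⟩ := h1.mul_right h2
    exact ⟨a + b, b, by rw [← hab]; ring⟩
  · obtain ⟨d, rfl⟩ := Nat.exists_eq_add_of_lt hx
    have h1 : z + d + 1 - z = d + 1 := by omega
    have h3 : (2 : ℤ) ^ (d + 1) * ((r + s) ^ 2 + (r - s) ^ 2) ^ z -
        ((r + s) ^ 2 - (r - s) ^ 2) ^ (z + d + 1) =
        (r + s) ^ y * (2 ^ (z + d + 1) * (r - s) ^ y) := by
      have e1 : (r + s) ^ 2 + (r - s) ^ 2 = 2 * (r ^ 2 + s ^ 2) := by ring
      have e2 : (r + s) ^ 2 - (r - s) ^ 2 = 2 * (2 * (r * s)) := by ring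
      have e3 : (r ^ 2 + s ^ 2) ^ z = 2 ^ (z + d + 1) * (r * s) ^ (z + d + 1) +
          (r ^ 2 - s ^ 2) ^ y := by linarith
      have e4 : (r ^ 2 - s ^ 2) ^ y = (r + s) ^ y * (r - s) ^ y := by
        rw [← mul_pow]
        congr 1
        ring
      rw [e1, e2, mul_pow 2 (r ^ 2 + s ^ 2), e3, e4, mul_pow 2 (2 * (r * s)), mul_pow 2 (r * s)]
      have e5 : (2 : ℤ) ^ (d + 1) * 2 ^ z = 2 ^ (z + d + 1) := by
        rw [← pow_add]
        congr 1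
        omega
      rw [← mul_assoc, e5]
      ring
    rw [h1, h3]
    exact Dvd.intro _ rfl

/-- Row T5b (EASY-MEDIUM). The points of the second kind, `H = 2 ^ z`, `G = 2 ^ (z - y)`, `r`, `s` odd:
`r = p + q`, `s = p - q`: `r² + s² = 2 (p² + q²)`, `r s = p² - q²`, `r² - s² = 4 p q`, so
`(p² + q²) ^ z - (p² - q²) ^ x = 2 ^ y (p q) ^ y`. -/
theorem div2 {x y z : ℕ} {r s : ℤ} (hx : z < x) (hyz : y < z) (hs : 1 ≤ s) (hr : s < r)
    (hc : IsCoprime r s) (h1 : Odd r) (h2 : Odd s)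
    (h0 : (FF x y z (2 ^ z) (2 ^ (z - y))).evalEval r s = 0) :
    ∃ p q : ℤ, r = p + q ∧ s = p - q ∧ 1 ≤ q ∧ q < p ∧ IsCoprime p q ∧
      p ^ y ∣ (p ^ 2 + q ^ 2) ^ z - (p ^ 2 - q ^ 2) ^ x := by
  rw [FF_eval] at h0
  obtain ⟨m, hm⟩ := h1
  obtain ⟨l, hl⟩ := h2
  refine ⟨m + l + 1, m - l, by rw [hm]; ring, by rw [hl]; ring, by omega, by omega, ?_, ?_⟩
  · obtain ⟨a, b, hab⟩ := hc
    refine ⟨a + b, a - b, ?_⟩
    rw [hm, hl] at hab
    linear_combination hab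
  · generalize hP : m + l + 1 = p
    generalize hQ : m - l = q
    have e1 : r = p + q := by rw [hm, ← hP, ← hQ]; ring
    have e2 : s = p - q := by rw [hl, ← hP, ← hQ]; ring
    rw [e1, e2] at h0
    obtain ⟨d, rfl⟩ := Nat.exists_eq_add_of_lt hyz
    have h4 : y + d + 1 - y = d + 1 := by omega
    rw [h4] at h0
    have e3 : (p + q) ^ 2 + (p - q) ^ 2 = 2 * (p ^ 2 + q ^ 2) := by ring
    have e4 : (p + q) * (p - q) = p ^ 2 - q ^ 2 := by ring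
    have e5 : (p + q) ^ 2 - (p - q) ^ 2 = 2 * 2 * (p * q) := by ring
    have e6 : (2 : ℤ) ^ (d + 1) * 2 ^ y = 2 ^ (y + d + 1) := by
      rw [← pow_add]
      congr 1
      omega
    have e7 : (2 : ℤ) ^ (y + d + 1) * ((p ^ 2 + q ^ 2) ^ (y + d + 1) - (p ^ 2 - q ^ 2) ^ x) =
        2 ^ (y + d + 1) * (p ^ y * (2 ^ y * q ^ y)) := by
      rw [e3, e4, e5, mul_pow 2 (p ^ 2 + q ^ 2), mul_pow (2 * 2) (p * q), mul_pow 2 2 y,
        mul_pow p q] at h0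
      have e8 : (2 : ℤ) ^ (d + 1) * (2 ^ y * 2 ^ y * (p ^ y * q ^ y)) =
          2 ^ (y + d + 1) * (p ^ y * (2 ^ y * q ^ y)) := by
        rw [← e6]
        ring
      rw [e8] at h0
      linarith
    have e9 := mul_left_cancel₀ (pow_ne_zero _ (two_ne_zero)) e7
    rw [e9]
    exact Dvd.intro _ rfl

/-- Row T5c (EASY). The other divisibility: `(r² + s²) ^ z - (r² - s²) ^ y = H (r s) ^ x`. -/
theorem div3 {x y z : ℕ} {H r s : ℤ} (h0 : (FF x y z H 1).evalEval r s = 0) :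
    r ^ x ∣ (r ^ 2 + s ^ 2) ^ z - (r ^ 2 - s ^ 2) ^ y := by
  rw [FF_eval] at h0
  have e1 : (r ^ 2 + s ^ 2) ^ z - (r ^ 2 - s ^ 2) ^ y = r ^ x * (H * s ^ x) := by
    rw [mul_pow, one_mul] at h0
    linarith
  rw [e1]
  exact Dvd.intro _ rfl

end PX91
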