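import Pool.Agent.LibPX91.T3
import Pool.Agent.LibPX91.T4
import Pool.Agent.LibPX91.T5
import Pool.Agent.LibJP91.A2
import Pool.Agent.LibJP91.A3
import Pool.Agent.LibJP91.B0

open Polynomial JP91
open scoped Polynomial.Bivariate

namespace PX91

theorem T6_deg {P : ℤ[X][Y]} {T : ℕ} (h : TD P T) : P.natDegree ≤ T ∧
    ∀ j, (P.coeff j).natDegree ≤ T := by
  constructor
  · rw [natDegree_le_iff_coeff_eq_zero]
    intro j hj
    ext i
    rw [coeff_zero]
    exact h i j (by omega)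
  · intro j
    rw [natDegree_le_iff_coeff_eq_zero]
    intro i hi
    exact h i j (by omega)

theorem T6_count {x y z : ℕ} {H G : ℤ} (h : Dat x y z H G) {D : ℕ} {P : ℤ[X][Y]} (hP0 : P ≠ 0)
    (hP : TD P D) (hD : ∀ f : ℤ[X][Y], Good x y z H G f → D < f.natDegree) {B : ℕ}
    (S : Finset (ℤ × ℤ)) (hS : ∀ p ∈ S, Pt x y z H G p.1 p.2)
    (hZ : ∀ p ∈ S, (B : ℤ) ≤ p.1 → P.evalEval p.1 p.2 = 0) :
    S.card ≤ 1024 * x ^ 4 + B ^ 2 := by
  classical
  obtain ⟨T, hT1, hT2, hT3⟩ := exists_factors h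
  have hzx := h.hx
  have hy2 := h.hy2
  have hm : 2 * max y z ≤ 4 * x := by
    have : max y z ≤ 2 * x := max_le (by omega) (by omega)
    omega
  have hsub : S ⊆ (T.biUnion fun f => S.filter fun p => f.evalEval p.1 p.2 = 0 ∧
      (B : ℤ) ≤ p.1) ∪ (S.filter fun p => p.1 < (B : ℤ)) := by
    intro p hp
    rw [Finset.mem_union, Finset.mem_biUnion]
    rcases lt_or_ge p.1 (B : ℤ) with hb | hb
    · exact Or.inr (Finset.mem_filter.2 ⟨hp, hb⟩)
    · left
      obtain ⟨f, hf, hf0⟩ := hT3 p.1 p.2 (hS p hp).zero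
      exact ⟨f, hf, Finset.mem_filter.2 ⟨hp, hf0, hb⟩⟩
  have h1 : ∀ f ∈ T, (S.filter fun p => f.evalEval p.1 p.2 = 0 ∧ (B : ℤ) ≤ p.1).card ≤
      256 * x ^ 3 := by
    intro f hf
    rcases (S.filter fun p => f.evalEval p.1 p.2 = 0 ∧ (B : ℤ) ≤ p.1).eq_empty_or_nonempty
      with he | ⟨p, hp⟩
    · rw [he, Finset.card_empty]
      exact Nat.zero_le _
    · obtain ⟨f1, f2, f3⟩ := hT2 f hf
      rw [Finset.mem_filter] at hp
      have hp' := hS p hp.1
      have hg : Good x y z H G f := ⟨f1, f2, f3, p.1, p.2, hp'.hs, hp'.hr, hp'.cop, hp.2.1⟩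
      have hDf := hD f hg
      have hnd : ¬ f ∣ P := fun hd => by
        have h2 := natDegree_le_of_dvd hd hP0
        have h3 := (T6_deg hP).1
        omega
      have hM : ∀ j, (f.coeff j).natDegree ≤ f.natDegree := by
        intro j
        have h2 := deg_eq h f1 f3
        rw [← h2]
        exact natDegree_coeff_le f j
      have h4 := bezout f P f.natDegree D D f1 f2 hnd hM (T6_deg hP).1 (T6_deg hP).2
        (S.filter fun p => f.evalEval p.1 p.2 = 0 ∧ (B : ℤ) ≤ p.1) (fun q hq => by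
          rw [Finset.mem_filter] at hq
          exact ⟨hq.2.1, hZ q hq.1 hq.2.2⟩)
      have h5 : f.natDegree ≤ 4 * x := by
        obtain ⟨g1, g2⟩ := FF_lead h
        have hne : FF x y z H G ≠ 0 := by
          intro h0
          rw [h0, leadingCoeff_zero] at g2
          exact not_isUnit_zero g2
        have h6 := natDegree_le_of_dvd f3 hne
        rw [g1] at h6
        omega
      refine h4.trans ?_
      calc f.natDegree * ((f.natDegree + D) * (f.natDegree + D))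
          ≤ (4 * x) * ((4 * x + 4 * x) * (4 * x + 4 * x)) := by
            have h7 : f.natDegree + D ≤ 4 * x + 4 * x := by omega
            exact Nat.mul_le_mul h5 (Nat.mul_le_mul h7 h7)
        _ = 256 * x ^ 3 := by ring
  have h2 : (S.filter fun p => p.1 < (B : ℤ)).card ≤ B ^ 2 := by
    have h3 : (S.filter fun p => p.1 < (B : ℤ)) ⊆
        (Finset.Ico (0 : ℤ) B) ×ˢ (Finset.Ico (0 : ℤ) B) := by
      intro p hp
      rw [Finset.mem_filter] at hp
      obtain ⟨hp1, hp2⟩ := hp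
      have hp' := hS p hp1
      have a1 := hp'.hs
      have a2 := hp'.hr
      rw [Finset.mem_product, Finset.mem_Ico, Finset.mem_Ico]
      omega
    refine (Finset.card_le_card h3).trans ?_
    rw [Finset.card_product, Int.card_Ico, sub_zero, Int.toNat_natCast, pow_two]
  calc S.card ≤ _ := Finset.card_le_card hsub
    _ ≤ _ := Finset.card_union_le _ _
    _ ≤ (∑ f ∈ T, (S.filter fun p => f.evalEval p.1 p.2 = 0 ∧ (B : ℤ) ≤ p.1).card) +
        (S.filter fun p => p.1 < (B : ℤ)).card := by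
        exact Nat.add_le_add_right Finset.card_biUnion_le _
    _ ≤ (∑ f ∈ T, 256 * x ^ 3) + B ^ 2 := Nat.add_le_add (Finset.sum_le_sum h1) h2
    _ = T.card * (256 * x ^ 3) + B ^ 2 := by rw [Finset.sum_const, smul_eq_mul]
    _ ≤ (4 * x) * (256 * x ^ 3) + B ^ 2 :=
        Nat.add_le_add_right (Nat.mul_le_mul_right _ (hT1.trans hm)) _
    _ = 1024 * x ^ 4 + B ^ 2 := by ring

/-- the polynomial of the first kind -/
theorem T6_first {x y z : ℕ} (hx : z < x) (hy : 10 * (x - z) ≤ y) :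
    ∃ P : ℤ[X][Y], P ≠ 0 ∧ TD P (8 * (x - z)) ∧ ∀ r s : ℤ, Pt x y z (2 ^ x) 1 r s →
      Odd (r + s) → (40 * x : ℤ) ^ 30 ≤ r → P.evalEval r s = 0 := by
  obtain ⟨P, h1, h2, h3⟩ := tiny x z (2 ^ (x - z)) hx (one_le_pow₀ (by norm_num))
    (pow_le_pow_right₀ (by norm_num) (by omega))
  obtain ⟨P', h4, h5, h6⟩ := lin1 h1 h2
  refine ⟨P', h4, h5, fun r s hp ho hr => h6 r s ?_⟩
  have a1 := hp.hs
  have a2 := hp.hr
  obtain ⟨h7, h8⟩ := div1 hx a1 a2 hp.cop ho hp.zero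
  exact h3 (r + s) (r - s) h7 (by omega) (by omega) (by linarith)
    ((pow_dvd_pow _ hy).trans h8)

/-- the polynomial of the second kind -/
theorem T6_second {x y z : ℕ} (hx : z < x) (hyz : y < z) (hy : 10 * (x - z) ≤ y) :
    ∃ P : ℤ[X][Y], P ≠ 0 ∧ TD P (8 * (x - z)) ∧ ∀ r s : ℤ,
      Pt x y z (2 ^ z) (2 ^ (z - y)) r s → Odd r → Odd s → 2 * (40 * x : ℤ) ^ 30 ≤ r →
      P.evalEval r s = 0 := by
  obtain ⟨P, h1, h2, h3⟩ := tiny x z 1 hx le_rfl (one_le_pow₀ (by norm_num))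
  obtain ⟨P', h4, h5, h6⟩ := lin2 h1 h2
  refine ⟨P', h4, h5, fun r s hp o1 o2 hr => ?_⟩
  obtain ⟨p, q, rfl, rfl, h7, h8, h9, h10⟩ := div2 hx hyz hp.hs hp.hr hp.cop o1 o2 hp.zero
  refine h6 p q (h3 p q h9 h7 h8 (by linarith) ?_)
  rw [one_mul]
  exact (pow_dvd_pow _ hy).trans h10

/-- the polynomial in the case (b) -/
theorem T6_third {x y z : ℕ} (hzy : z < y) (hy : 10 * (y - z) ≤ x) :
    ∃ P : ℤ[X][Y], P ≠ 0 ∧ TD P (8 * (y - z)) ∧ ∀ (H r s : ℤ), Pt x y z H 1 r s →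
      (40 * y : ℤ) ^ 30 ≤ r → P.evalEval r s = 0 := by
  obtain ⟨P, h1, h2, h3⟩ := tiny y z 1 hzy le_rfl (one_le_pow₀ (by norm_num))
  refine ⟨P, h1, h2, fun H r s hp hr => ?_⟩
  refine h3 r s hp.cop hp.hs hp.hr hr ?_
  rw [one_mul]
  exact (pow_dvd_pow _ hy).trans (div3 hp.zero)

/-- the polynomial in all cases -/
theorem T6_poly {x y z : ℕ} {H G : ℤ} (h : Dat x y z H G) {n : ℕ}
    (hn : (y < z ∧ n = x ∧ 10 * (n - z) ≤ y) ∨ (z < y ∧ y < x ∧ n = y ∧ 10 * (n - z) ≤ x) ∨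
      (x < y ∧ n = x ∧ 10 * (n - z) ≤ y)) :
    ∃ P : ℤ[X][Y], P ≠ 0 ∧ TD P (8 * (n - z)) ∧ ∀ r s : ℤ, Pt x y z H G r s →
      Par x y z H G r s → 2 * (80 * x : ℤ) ^ 30 ≤ r → P.evalEval r s = 0 := by
  have hx := h.hx
  have hb : ∀ m : ℕ, m ≤ 2 * x → (40 * m : ℤ) ^ 30 ≤ (80 * x : ℤ) ^ 30 := by
    intro m hm
    refine pow_le_pow_left₀ (by positivity) ?_ 30
    have : (m : ℤ) ≤ 2 * x := by exact_mod_cast hm
    linarith
  have hb0 : (0 : ℤ) ≤ (80 * x : ℤ) ^ 30 := by positivity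
  have hne : (2 : ℤ) ^ x ≠ 2 ^ z := fun he =>
    absurd (pow_right_injective₀ (by norm_num : (0 : ℤ) < 2) (by norm_num) he) (by omega)
  rcases hn with ⟨h1, rfl, h2⟩ | ⟨h1, h2, rfl, h3⟩ | ⟨h1, rfl, h2⟩
  · by_cases hH : H = 2 ^ n
    · obtain ⟨P, a1, a2, a3⟩ := T6_first hx h2
      refine ⟨P, a1, a2, fun r s hp hpar hr => ?_⟩
      rcases hpar with ⟨_, hG, ho⟩ | ⟨_, hH', _⟩
      · subst hH hG
        exact a3 r s hp ho (by linarith [hb n (by omega)])
      · exact absurd (hH.symm.trans hH') hne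
    · obtain ⟨P, a1, a2, a3⟩ := T6_second hx h1 h2
      refine ⟨P, a1, a2, fun r s hp hpar hr => ?_⟩
      rcases hpar with ⟨hH', _⟩ | ⟨_, hH', hG, o1, o2⟩
      · exact absurd hH' hH
      · subst hH' hG
        exact a3 r s hp o1 o2 (by linarith [hb n (by omega)])
  · obtain ⟨P, a1, a2, a3⟩ := T6_third h1 h3
    refine ⟨P, a1, a2, fun r s hp _ hr => ?_⟩
    have hG := h.hG h1
    subst hG
    exact a3 H r s hp (by linarith [hb n (by omega)])
  · obtain ⟨P, a1, a2, a3⟩ := T6_first hx h2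
    refine ⟨P, a1, a2, fun r s hp hpar hr => ?_⟩
    rcases hpar with ⟨hH, hG, ho⟩ | ⟨hyz, _⟩
    · subst hH hG
      exact a3 r s hp ho (by linarith [hb n (by omega)])
    · omega

/-- Row T5d (MEDIUM). The count. `P` from `tiny n z c`, and from it `P'` of total degree `≤ 8 δ`,
`δ = n - z`, which vanishes at all points of the curve with large `r`:
* first kind (`H = 2 ^ x`, `G = 1`), cases (a), (c), `n = x`: `c = 2 ^ (x - z)`, `div1`, `lin1`, for
  `r + s ≥ (40 n) ^ 30`; in case (c) too;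
* second kind (only `y < z`, case (a)), `n = x`: `c = 1`, `div2`, `lin2`, for `p = (r + s) / 2 ≥ (40 n) ^ 30`;
* case (b), `n = y` (then the point is of the first kind, `G = 1`): `c = 1`, `div3`, `P' = P`, for
  `r ≥ (40 n) ^ 30`.
(`10 δ` is at most the exponent in the divisibility.) As `P'` has degree `≤ 8 δ < N = f.natDegree` in
`s` for each good factor `f` (monic), `¬ f ∣ P'`, and `bezout` (`M = N`, `a = b = 8 δ`) bounds the number of
points of `S` on `f` with `r ≥ 2 (40 n) ^ 30` by `N (N + 8 δ) ^ 2 ≤ (2 N) ^ 3`; `N ≤ 2 max y z ≤ 4 x`; there are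
at most `4 x` factors (`exists_factors`; a factor with a point of `S` is `Good`). The other points
satisfy `1 ≤ s < r < 2 (40 n) ^ 30`, `n ≤ 2 x`: at most `(2 (80 x) ^ 30) ^ 2`. -/
theorem tiny_card : ∃ K : ℕ, ∀ (x y z : ℕ) (H G : ℤ), Dat x y z H G → ∀ n : ℕ,
    ((y < z ∧ n = x ∧ 10 * (n - z) ≤ y) ∨ (z < y ∧ y < x ∧ n = y ∧ 10 * (n - z) ≤ x) ∨
      (x < y ∧ n = x ∧ 10 * (n - z) ≤ y)) →
    (∀ f : ℤ[X][Y], Good x y z H G f → 8 * (n - z) < f.natDegree) →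
    ∀ S : Finset (ℤ × ℤ), (∀ p ∈ S, Pt x y z H G p.1 p.2 ∧ Par x y z H G p.1 p.2) →
      S.card ≤ K * x ^ K := by
  refine ⟨1024 + 4 * 80 ^ 60, fun x y z H G h n hn hg S hS => ?_⟩
  obtain ⟨P, h1, h2, h3⟩ := T6_poly h hn
  have h4 := T6_count h h1 h2 hg (B := 2 * (80 * x) ^ 30) S (fun p hp => (hS p hp).1)
    (fun p hp hb => h3 p.1 p.2 (hS p hp).1 (hS p hp).2 (by exact_mod_cast hb))
  have hx : 1 ≤ x := by
    have := h.hx
    omega
  refine h4.trans ?_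
  generalize hK : (1024 + 4 * 80 ^ 60 : ℕ) = K
  have hK4 : 4 ≤ K := by rw [← hK]; norm_num
  have hK60 : 60 ≤ K := by rw [← hK]; norm_num
  calc 1024 * x ^ 4 + (2 * (80 * x) ^ 30) ^ 2 = 1024 * x ^ 4 + (4 * 80 ^ 60) * x ^ 60 := by ring
    _ ≤ 1024 * x ^ K + (4 * 80 ^ 60) * x ^ K :=
        Nat.add_le_add (Nat.mul_le_mul_left _ (Nat.pow_le_pow_right hx hK4))
          (Nat.mul_le_mul_left _ (Nat.pow_le_pow_right hx hK60))
    _ = K * x ^ K := by rw [← add_mul, hK]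

end PX91
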