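import Pool.Agent.LibPX91.Defs
import Pool.Agent.LibJP91.A2
import Pool.Agent.LibJP91.A9
import Pool.Agent.LibJP91.A10
import Pool.Agent.LibJP91.D7

open Polynomial JP91
open scoped Polynomial.Bivariate

namespace PX91

private theorem V1_factor {K₀ : ℕ} (hK₀ : ∀ (f : ℤ[X][Y]) (N M e L B : ℕ), f.Monic →
    Irreducible f → f.natDegree = N → (∀ j, (f.coeff j).natDegree ≤ M) → 1 ≤ e → e < N → 1 ≤ B →
    ∀ S : Finset (ℤ × ℤ), (∀ p ∈ S, |p.1| ≤ B ∧ |p.2| ≤ B ∧ f.evalEval p.1 p.2 = 0 ∧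
      |(derivative f).evalEval p.1 p.2| ≤ 2 ^ L) →
    (S.card : ℝ) ≤ K₀ * (((N + M + 1 : ℕ) : ℝ) * (L + 1)) ^ K₀ * (B : ℝ) ^ (4 / ((e : ℝ) + 2)))
    {e x y z : ℕ} {H G : ℤ} (he : 1 ≤ e) (h : Dat x y z H G)
    (hx : ∀ f : ℤ[X][Y], Good x y z H G f → e < f.natDegree) {b : ℕ} {f : ℤ[X][Y]}
    (hf : f.Monic) (hi : Irreducible f) (hd : f ∣ FF x y z H G) (S : Finset (ℤ × ℤ))
    (hS : ∀ p ∈ S, Pt x y z H G p.1 p.2 ∧ p.1 ≤ 2 ^ b ∧ f.evalEval p.1 p.2 = 0) :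
    (S.card : ℝ) ≤ K₀ * (14409 * ((x : ℝ) * (b + 1)) ^ 3) ^ K₀ *
      (2 : ℝ) ^ (4 * (b : ℝ) / ((e : ℝ) + 2)) := by
  rcases S.eq_empty_or_nonempty with rfl | ⟨p, hp⟩
  · rw [Finset.card_empty, Nat.cast_zero]
    positivity
  have hx1 : 1 ≤ x := by have := h.hx; omega
  have hgood : Good x y z H G f := by
    obtain ⟨h1, -, h3⟩ := hS p hp
    exact ⟨hf, hi, hd, p.1, p.2, h1.hs, h1.hr, h1.cop, h3⟩
  have heN : e < f.natDegree := hx f hgood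
  have hFF := FF_lead h
  have hFF0 : FF x y z H G ≠ 0 := by
    intro h0
    have h1 := hFF.2
    rw [h0, leadingCoeff_zero] at h1
    exact not_isUnit_zero h1
  have hN : f.natDegree ≤ 4 * x := by
    have h1 := natDegree_le_of_dvd hd hFF0
    rw [hFF.1] at h1
    have h2 := h.hy2
    have h3 := h.hx
    have h4 : max y z ≤ 2 * z := max_le (by omega) (by omega)
    omega
  have hM : ∀ j, (f.coeff j).natDegree ≤ f.natDegree := by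
    intro j
    exact (natDegree_coeff_le f j).trans (deg_eq h hf hd).le
  have hB : (((2 ^ b : ℕ)) : ℤ) = 2 ^ b := by push_cast; rfl
  have hkey := hK₀ f f.natDegree f.natDegree e (100 * (b + 1) * (x + y + z) ^ 2) (2 ^ b)
    hf hi rfl hM he heN (Nat.one_le_two_pow) S (by
      intro q hq
      obtain ⟨h1, h2, h3⟩ := hS q hq
      have hs := h1.hs
      have hr := h1.hr
      have h4 : |q.1| ≤ (2 : ℤ) ^ b := by
        rw [abs_le]; constructor <;> omega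
      have h5 : |q.2| ≤ (2 : ℤ) ^ b := by
        rw [abs_le]; constructor <;> omega
      rw [hB]
      exact ⟨h4, h5, h3, der_bound h hf hd h4 h5⟩)
  have hpow : (((2 ^ b : ℕ)) : ℝ) ^ (4 / ((e : ℝ) + 2)) =
      (2 : ℝ) ^ (4 * (b : ℝ) / ((e : ℝ) + 2)) := by
    push_cast
    rw [← Real.rpow_natCast 2 b, ← Real.rpow_mul (by norm_num)]
    congr 1
    ring
  rw [hpow] at hkey
  refine hkey.trans ?_
  apply mul_le_mul_of_nonneg_right _ (by positivity)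
  apply mul_le_mul_of_nonneg_left _ (Nat.cast_nonneg _)
  apply pow_le_pow_left₀ (by positivity)
  have hxr : (1 : ℝ) ≤ x := by exact_mod_cast hx1
  have hb : (1 : ℝ) ≤ (b : ℝ) + 1 := by
    have : (0 : ℝ) ≤ b := Nat.cast_nonneg b
    linarith
  have h1 : ((f.natDegree + f.natDegree + 1 : ℕ) : ℝ) ≤ 9 * x := by
    have h2 : f.natDegree + f.natDegree + 1 ≤ 9 * x := by omega
    exact_mod_cast h2
  have h2 : ((x + y + z : ℕ) : ℝ) ≤ 4 * x := by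
    have h3 := h.hy2
    have h4 := h.hx
    have h5 : x + y + z ≤ 4 * x := by omega
    exact_mod_cast h5
  have h3 : ((100 * (b + 1) * (x + y + z) ^ 2 : ℕ) : ℝ) + 1 ≤
      1601 * (x : ℝ) ^ 2 * ((b : ℝ) + 1) := by
    have h4 : ((100 * (b + 1) * (x + y + z) ^ 2 : ℕ) : ℝ) =
        100 * ((b : ℝ) + 1) * ((x + y + z : ℕ) : ℝ) ^ 2 := by
      push_cast; ring
    rw [h4]
    have h5 : ((x + y + z : ℕ) : ℝ) ^ 2 ≤ (4 * (x : ℝ)) ^ 2 :=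
      pow_le_pow_left₀ (Nat.cast_nonneg _) h2 2
    have h6 : 100 * ((b : ℝ) + 1) * ((x + y + z : ℕ) : ℝ) ^ 2 ≤
        100 * ((b : ℝ) + 1) * (4 * (x : ℝ)) ^ 2 :=
      mul_le_mul_of_nonneg_left h5 (by positivity)
    have h7 : (1 : ℝ) ≤ (x : ℝ) ^ 2 * ((b : ℝ) + 1) := by
      have h8 : (1 : ℝ) ≤ (x : ℝ) ^ 2 := one_le_pow₀ hxr
      nlinarith
    nlinarith
  calc ((f.natDegree + f.natDegree + 1 : ℕ) : ℝ) *
        (((100 * (b + 1) * (x + y + z) ^ 2 : ℕ) : ℝ) + 1)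
      ≤ (9 * x) * (1601 * (x : ℝ) ^ 2 * ((b : ℝ) + 1)) := by
        apply mul_le_mul h1 h3 (by positivity) (by positivity)
    _ = 14409 * ((x : ℝ) ^ 3 * ((b : ℝ) + 1)) := by ring
    _ ≤ 14409 * ((x : ℝ) * ((b : ℝ) + 1)) ^ 3 := by
        rw [mul_pow]
        apply mul_le_mul_of_nonneg_left _ (by norm_num)
        apply mul_le_mul_of_nonneg_left _ (by positivity)
        calc (b : ℝ) + 1 = ((b : ℝ) + 1) ^ 1 := (pow_one _).symm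
          _ ≤ ((b : ℝ) + 1) ^ 3 := pow_le_pow_right₀ hb (by norm_num)

/-- Row V1 (EASY: adapt the proof of `JP91.large_exp`, Pool/Agent/LibJP91/Z3.lean, whose auxiliary
lemmas can be copied). The p-adic determinant method for all factors: `T` from `exists_factors` (at most
`2 max y z ≤ 4 x` elements), each point of `S` lies on some `f ∈ T`, which is then `Good`, so
`e < f.natDegree`; `pdet` with `B = 2 ^ b`, `der_bound`. -/
theorem box : ∃ K : ℕ, ∀ (e x y z : ℕ) (H G : ℤ), 1 ≤ e → Dat x y z H G →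
    (∀ f : ℤ[X][Y], Good x y z H G f → e < f.natDegree) → ∀ b : ℕ, ∀ S : Finset (ℤ × ℤ),
    (∀ p ∈ S, Pt x y z H G p.1 p.2 ∧ p.1 ≤ 2 ^ b) →
    (S.card : ℝ) ≤ K * ((x : ℝ) * (b + 1)) ^ K * (2 : ℝ) ^ (4 * (b : ℝ) / ((e : ℝ) + 2)) := by
  classical
  obtain ⟨K₀, hK₀⟩ := pdet
  refine ⟨4 * K₀ * 14409 ^ K₀ + 3 * K₀ + 1, ?_⟩
  intro e x y z H G he h hx b S hS
  obtain ⟨T, hT, hT1, hT2⟩ := exists_factors h
  have hx1 : (1 : ℝ) ≤ x := by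
    have := h.hx
    exact_mod_cast (by omega : 1 ≤ x)
  have hb0 : (0 : ℝ) ≤ b := Nat.cast_nonneg b
  have hcov : S ⊆ T.biUnion fun f => S.filter fun p => f.evalEval p.1 p.2 = 0 := by
    intro p hp
    obtain ⟨f, hf, hf'⟩ := hT2 p.1 p.2 (hS p hp).1.zero
    rw [Finset.mem_biUnion]
    exact ⟨f, hf, Finset.mem_filter.2 ⟨hp, hf'⟩⟩
  have h1 : (S.card : ℝ) ≤ ∑ f ∈ T, ((S.filter fun p => f.evalEval p.1 p.2 = 0).card : ℝ) := by
    have h2 := (Finset.card_le_card hcov).trans Finset.card_biUnion_le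
    exact_mod_cast h2
  have h2 : ∀ f ∈ T, ((S.filter fun p => f.evalEval p.1 p.2 = 0).card : ℝ) ≤
      K₀ * (14409 * ((x : ℝ) * (b + 1)) ^ 3) ^ K₀ * (2 : ℝ) ^ (4 * (b : ℝ) / ((e : ℝ) + 2)) := by
    intro f hf
    obtain ⟨h3, h4, h5⟩ := hT1 f hf
    refine V1_factor hK₀ he h hx h3 h4 h5 _ ?_
    intro p hp
    rw [Finset.mem_filter] at hp
    exact ⟨(hS p hp.1).1, (hS p hp.1).2, hp.2⟩
  have h3 := h1.trans (Finset.sum_le_card_nsmul T _ _ h2)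
  rw [nsmul_eq_mul] at h3
  refine h3.trans ?_
  have h4 : (T.card : ℝ) ≤ 4 * x := by
    have h5 := h.hy2
    have h6 := h.hx
    have h7 : max y z ≤ 2 * z := max_le (by omega) (by omega)
    have h8 : T.card ≤ 4 * x := by omega
    exact_mod_cast h8
  obtain ⟨w, hw⟩ : ∃ w : ℝ, w = (x : ℝ) * (b + 1) := ⟨_, rfl⟩
  have hw1 : 1 ≤ w := by rw [hw]; nlinarith
  have hxw : (x : ℝ) ≤ w := by rw [hw]; nlinarith
  rw [← hw]
  obtain ⟨Q, hQ⟩ : ∃ Q : ℝ, Q = (2 : ℝ) ^ (4 * (b : ℝ) / ((e : ℝ) + 2)) := ⟨_, rfl⟩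
  have hQ0 : 0 ≤ Q := by rw [hQ]; positivity
  rw [← hQ]
  have h5 : (T.card : ℝ) * (K₀ * (14409 * w ^ 3) ^ K₀ * Q) ≤
      (4 * K₀ * 14409 ^ K₀) * w ^ (3 * K₀ + 1) * Q := by
    have h6 : (T.card : ℝ) ≤ 4 * w := h4.trans (by linarith)
    calc (T.card : ℝ) * (K₀ * (14409 * w ^ 3) ^ K₀ * Q)
        ≤ (4 * w) * (K₀ * (14409 * w ^ 3) ^ K₀ * Q) :=
          mul_le_mul_of_nonneg_right h6 (by positivity)
      _ = (4 * K₀ * 14409 ^ K₀) * w ^ (3 * K₀ + 1) * Q := by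
          rw [mul_pow, ← pow_mul, pow_succ]; ring
  refine h5.trans ?_
  apply mul_le_mul_of_nonneg_right _ hQ0
  have h7 : w ^ (3 * K₀ + 1) ≤ w ^ (4 * K₀ * 14409 ^ K₀ + 3 * K₀ + 1) :=
    pow_le_pow_right₀ hw1 (by omega)
  have h8 : (4 * K₀ * 14409 ^ K₀ : ℝ) ≤ ((4 * K₀ * 14409 ^ K₀ + 3 * K₀ + 1 : ℕ) : ℝ) := by
    push_cast
    have h9 : (0 : ℝ) ≤ K₀ := Nat.cast_nonneg _
    linarith
  exact mul_le_mul h8 h7 (by positivity) (Nat.cast_nonneg _)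

/-- Row V1, second part (EASY, from the first). If `b ≤ c₀ e` and `b ≤ x ^ 2` then the count is at most
`K x ^ K`, `K = K(c₀)`. -/
theorem box_nat (c₀ : ℕ) : ∃ K : ℕ, ∀ (e x y z : ℕ) (H G : ℤ), 1 ≤ e → Dat x y z H G →
    (∀ f : ℤ[X][Y], Good x y z H G f → e < f.natDegree) → ∀ b : ℕ, b ≤ c₀ * e → b ≤ c₀ * x →
    ∀ S : Finset (ℤ × ℤ), (∀ p ∈ S, Pt x y z H G p.1 p.2 ∧ p.1 ≤ 2 ^ b) →
    S.card ≤ K * x ^ K := by
  obtain ⟨K, hK⟩ := box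
  refine ⟨K * (c₀ + 1) ^ K * 2 ^ (4 * c₀) + 2 * K, ?_⟩
  intro e x y z H G he h hx b hb1 hb2 S hS
  have h1 := hK e x y z H G he h hx b S hS
  have hxn : 1 ≤ x := by have := h.hx; omega
  have hxr : (1 : ℝ) ≤ x := by exact_mod_cast hxn
  have hb0 : (0 : ℝ) ≤ b := Nat.cast_nonneg b
  have hc0 : (0 : ℝ) ≤ c₀ := Nat.cast_nonneg c₀
  have he0 : (0 : ℝ) ≤ e := Nat.cast_nonneg e
  have h2 : (2 : ℝ) ^ (4 * (b : ℝ) / ((e : ℝ) + 2)) ≤ (2 : ℝ) ^ (4 * c₀) := by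
    rw [← Real.rpow_natCast 2 (4 * c₀)]
    refine Real.rpow_le_rpow_of_exponent_le (by norm_num) ?_
    have h3 : (b : ℝ) ≤ c₀ * e := by exact_mod_cast hb1
    rw [div_le_iff₀ (by positivity)]
    push_cast
    nlinarith
  have h4 : (x : ℝ) * (b + 1) ≤ ((c₀ : ℝ) + 1) * x ^ 2 := by
    have h3 : (b : ℝ) ≤ c₀ * x := by exact_mod_cast hb2
    have h5 : (b : ℝ) + 1 ≤ (c₀ + 1) * x := by nlinarith
    calc (x : ℝ) * (b + 1) ≤ x * ((c₀ + 1) * x) := mul_le_mul_of_nonneg_left h5 (by positivity)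
      _ = ((c₀ : ℝ) + 1) * x ^ 2 := by ring
  have h6 : (S.card : ℝ) ≤ ((K * (c₀ + 1) ^ K * 2 ^ (4 * c₀) * x ^ (2 * K) : ℕ) : ℝ) := by
    calc (S.card : ℝ) ≤ K * ((x : ℝ) * (b + 1)) ^ K * (2 : ℝ) ^ (4 * (b : ℝ) / ((e : ℝ) + 2)) := h1
      _ ≤ K * (((c₀ : ℝ) + 1) * x ^ 2) ^ K * (2 : ℝ) ^ (4 * c₀) := by gcongr
      _ = ((K * (c₀ + 1) ^ K * 2 ^ (4 * c₀) * x ^ (2 * K) : ℕ) : ℝ) := by
          push_cast
          rw [mul_pow, ← pow_mul]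
          ring
  have h7 : S.card ≤ K * (c₀ + 1) ^ K * 2 ^ (4 * c₀) * x ^ (2 * K) := by exact_mod_cast h6
  refine h7.trans ?_
  refine Nat.mul_le_mul (Nat.le_add_right _ _) ?_
  exact Nat.pow_le_pow_right hxn (Nat.le_add_left _ _)

end PX91
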