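import Pool.Agent.LibPX91.E9
import Pool.Agent.LibPX91.N5
import Pool.Agent.LibPX91.T6
import Pool.Agent.LibPX91.V1

open Polynomial JP91
open scoped Polynomial.Bivariate

namespace PX91

/-- points of a box -/
private theorem v2_box (R : ℕ) (S : Finset (ℤ × ℤ)) (hS : ∀ p ∈ S, 1 ≤ p.2 ∧ p.2 < p.1 ∧ p.1 ≤ 2 ^ R) :
    S.card ≤ 2 ^ R * 2 ^ R := by
  have h1 : S ⊆ Finset.Icc (1 : ℤ) (2 ^ R) ×ˢ Finset.Icc (1 : ℤ) (2 ^ R) := by
    intro p hp
    obtain ⟨h2, h3, h4⟩ := hS p hp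
    rw [Finset.mem_product, Finset.mem_Icc, Finset.mem_Icc]
    exact ⟨⟨by linarith, h4⟩, h2, by linarith⟩
  refine (Finset.card_le_card h1).trans ?_
  rw [Finset.card_product, Int.card_Icc]
  have h5 : ((2 : ℤ) ^ R + 1 - 1).toNat = 2 ^ R := by
    rw [add_sub_cancel_right]
    have : ((2 : ℤ) ^ R) = ((2 ^ R : ℕ) : ℤ) := by push_cast; rfl
    rw [this, Int.toNat_natCast]
  rw [h5]

/-- far points -/
private theorem v2_far {x y z : ℕ} {H G : ℤ} (h : Dat x y z H G) (hyz : y < z)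
    (h2 : 2 ^ z + G * 2 ^ y ≤ 2 * H) {k : ℕ} (hk : k = 20 * x / (2 * (x - z)) + 1)
    (S : Finset (ℤ × ℤ)) (hS : ∀ p ∈ S, Pt x y z H G p.1 p.2 ∧ 2 ^ (6 * k) ≤ p.1) :
    S.card ≤ 2000 * x ^ 4 := by
  classical
  obtain ⟨T, hT1, hT2, hT3⟩ := exists_factors h
  have h1 : S ⊆ T.biUnion fun f => S.filter fun p => f.evalEval p.1 p.2 = 0 := by
    intro p hp
    obtain ⟨f, hf, hfp⟩ := hT3 p.1 p.2 (hS p hp).1.zero
    exact Finset.mem_biUnion.2 ⟨f, hf, Finset.mem_filter.2 ⟨hp, hfp⟩⟩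
  have h3 : ∀ f ∈ T, (S.filter fun p => f.evalEval p.1 p.2 = 0).card ≤ 1000 * x ^ 3 := by
    intro f hf
    rcases (S.filter fun p => f.evalEval p.1 p.2 = 0).eq_empty_or_nonempty with h0 | ⟨p, hp⟩
    · rw [h0, Finset.card_empty]
      exact Nat.zero_le _
    · obtain ⟨hp1, hp2⟩ := Finset.mem_filter.1 hp
      obtain ⟨hm, hi, hd⟩ := hT2 f hf
      have hgood : Good x y z H G f :=
        ⟨hm, hi, hd, p.1, p.2, (hS p hp1).1.hs, (hS p hp1).1.hr, (hS p hp1).1.cop, hp2⟩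
      refine far_card h hyz h2 hgood hk _ fun q hq => ?_
      obtain ⟨hq1, hq2⟩ := Finset.mem_filter.1 hq
      exact ⟨(hS q hq1).1.hs, (hS q hq1).1.hr, hq2, (hS q hq1).2⟩
  have h4 : S.card ≤ ∑ f ∈ T, 1000 * x ^ 3 :=
    (Finset.card_le_card h1).trans (Finset.card_biUnion_le.trans (Finset.sum_le_sum h3))
  rw [Finset.sum_const, smul_eq_mul] at h4
  have h5 : T.card ≤ 2 * x := by
    have := h.hx
    have : max y z = z := max_eq_right hyz.le
    omega
  calc S.card ≤ T.card * (1000 * x ^ 3) := h4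
    _ ≤ 2 * x * (1000 * x ^ 3) := Nat.mul_le_mul_right _ h5
    _ = 2000 * x ^ 4 := by ring

/-- the bound of `k` -/
private theorem v2_k {x z : ℕ} (hx : z < x) : 20 * x / (2 * (x - z)) + 1 ≤ 10 * x + 1 := by
  have h1 : 20 * x / (2 * (x - z)) ≤ 10 * x := by
    apply Nat.div_le_of_le_mul
    have h2 : 1 ≤ x - z := by omega
    calc 20 * x = 2 * 1 * (10 * x) := by ring
      _ ≤ 2 * (x - z) * (10 * x) := by gcongr
  omega

/-- near points, with the threshold `M` in place of `10 ^ 4` -/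
private theorem v2_near (M : ℕ) (hM : 10 ^ 4 ≤ M) : ∃ K : ℕ, ∀ (x y z : ℕ) (H G : ℤ), Dat x y z H G → y < z →
    ∀ k : ℕ, k = 20 * x / (2 * (x - z)) + 1 →
    ∀ S : Finset (ℤ × ℤ), (∀ p ∈ S, Pt x y z H G p.1 p.2 ∧ Par x y z H G p.1 p.2 ∧ p.1 ≤ 2 ^ (6 * k)) →
      S.card ≤ K * x ^ K := by
  obtain ⟨K0, hK0⟩ := box_nat 4000
  obtain ⟨K1, hK1⟩ := tiny_card
  set KA : ℕ := 2 ^ (6 * (10 * M + 1)) * 2 ^ (6 * (10 * M + 1)) with hKA
  refine ⟨K0 + K1 + KA, fun x y z H G h hyz k hk S hS => ?_⟩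
  have hx := h.hx
  have hz := h.hz
  have hx1 : 1 ≤ x := by omega
  have hk1 : k ≤ 10 * x + 1 := hk ▸ v2_k hx
  set δ := x - z with hδ
  have hδ1 : 1 ≤ δ := by omega
  have hmono : ∀ a b : ℕ, a ≤ K0 + K1 + KA → b ≤ K0 + K1 + KA → a * x ^ b ≤ (K0 + K1 + KA) * x ^ (K0 + K1 + KA) :=
    fun a b ha hb => Nat.mul_le_mul ha (Nat.pow_le_pow_right hx1 hb)
  by_cases hxM : x ≤ M
  · have h1 : S.card ≤ KA := by
      refine (v2_box (6 * (10 * M + 1)) S fun p hp => ?_).trans le_rfl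
      obtain ⟨h2, -, h3⟩ := hS p hp
      refine ⟨h2.hs, h2.hr, h3.trans ?_⟩
      exact pow_le_pow_right₀ (by norm_num) (by omega)
    calc S.card ≤ KA * x ^ 0 := by rw [pow_zero, mul_one]; exact h1
      _ ≤ _ := hmono _ _ (by omega) (by omega)
  · have hxM' : 10 ^ 4 < x := by omega
    have hbox : ∀ e : ℕ, 1 ≤ e → (∀ f : ℤ[X][Y], Good x y z H G f → e < f.natDegree) →
        6 * k ≤ 4000 * e → S.card ≤ (K0 + K1 + KA) * x ^ (K0 + K1 + KA) := by
      intro e he hf hb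
      refine (hK0 e x y z H G he h hf (6 * k) hb (by omega) S fun p hp => ⟨(hS p hp).1, (hS p hp).2.2⟩).trans ?_
      exact hmono _ _ (by omega) (by omega)
    by_cases hB : x ≤ 256 * δ ^ 2
    · -- second case
      set s := Nat.sqrt x with hs
      have hs1 : s * s ≤ x := Nat.sqrt_le x
      have hs2 : x < (s + 1) * (s + 1) := Nat.lt_succ_sqrt x
      have hs3 : 100 ≤ s := by
        by_contra hlt
        have : s + 1 ≤ 100 := by omega
        nlinarith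
      have h16 : x ≤ 16 * δ * (s + 1) := by
        by_contra hlt
        push Not at hlt
        have h5 : (16 * δ * (s + 1)) * (16 * δ * (s + 1)) < x * x := Nat.mul_self_lt_mul_self hlt
        have h6 : (16 * δ * (s + 1)) * (16 * δ * (s + 1)) = (256 * δ ^ 2) * ((s + 1) * (s + 1)) := by ring
        rw [h6] at h5
        have h7 : x * x ≤ (256 * δ ^ 2) * ((s + 1) * (s + 1)) := Nat.mul_le_mul hB hs2.le
        omega
      have hk2 : k ≤ 160 * (s + 1) + 1 := by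
        rw [hk]
        have : 20 * x / (2 * δ) ≤ 160 * (s + 1) := by
          apply Nat.div_le_of_le_mul
          nlinarith
        omega
      refine hbox (s / 2) (by omega) ?_ (by omega)
      intro f hf
      by_contra hle
      push Not at hle
      have h5 := exp_le h hf
      have h6 : (2 * f.natDegree + 2) * (f.natDegree + 3) ≤ (s + 2) * (s / 2 + 3) := by
        apply Nat.mul_le_mul <;> omega
      have h7 : (s + 2) * (s / 2 + 3) * 2 ≤ (s + 2) * (s + 6) := by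
        rw [mul_assoc]
        apply Nat.mul_le_mul_left
        omega
      nlinarith
    · push Not at hB
      by_cases hC : x ≤ 8 * (z - y)
      · -- third case
        refine hbox (x / 8 - 9) (by omega) ?_ (by omega)
        intro f hf
        have h5 := (gap h hf).1 hyz
        omega
      · -- fourth case
        have hδ2 : 256 * δ ≤ 256 * δ ^ 2 := by nlinarith
        have h5 : 10 * (x - z) ≤ y := by omega
        refine (hK1 x y z H G h x (Or.inl ⟨hyz, rfl, h5⟩) ?_ S fun p hp => ⟨(hS p hp).1, (hS p hp).2.1⟩).trans ?_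
        · intro f hf
          by_contra hle
          push Not at hle
          have h6 := exp_le h hf
          have h7 : (2 * f.natDegree + 2) * (f.natDegree + 3) ≤ (16 * δ + 2) * (8 * δ + 3) := by
            apply Nat.mul_le_mul <;> omega
          nlinarith
        · exact hmono _ _ (by omega) (by omega)

/-- Row V2 (MEDIUM). Case `y < z`. `h2`: `H = 2 ^ x`, `G = 1` or `H = 2 ^ z`, `G = 2 ^ (z - y)` (`Par`;
if `S` is empty there is nothing to prove): `2 ^ z + G 2 ^ y ≤ 2 H`. Let `δ = x - z`,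
`k = 20 x / (2 δ) + 1 ≤ 10 x / δ + 1`. Points with `r ≥ 2 ^ (6 k)`: each lies on a good factor `f`
(`exists_factors`, at most `2 z ≤ 2 x`), `far_card`: at most `2 x * 1000 x ^ 3`. The other points,
`r < 2 ^ (6 k)`:
* `x ≤ 10 ^ 4`: `k ≤ 10 ^ 5 + 1`, at most `(2 ^ (6 k)) ^ 2 ≤ K` points;
* `x > 10 ^ 4`, `x ≤ 256 δ ^ 2`: then `k ≤ 160 √x + 1`; with `e = ⌊√x⌋ / 2` (`Nat.sqrt x / 2`):
  `(2 e + 2) (e + 3) + 1 < x`, so `e < f.natDegree` for all good `f` by `exp_le`; `b = 6 k ≤ 4000 e`,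
  `box_nat`;
* `x > 10 ^ 4`, `256 δ ^ 2 < x`, `x ≤ 8 (z - y)`: `gap` gives `f.natDegree ≥ x / 8 - 7 > e = x / 8 - 9`,
  and `b = 6 k ≤ 60 x + 6 ≤ 1000 e`; `box_nat`;
* `x > 10 ^ 4`, `256 δ ^ 2 < x`, `8 (z - y) < x`: all points at once by `tiny_card` with `n = x`:
  `10 δ ≤ y` as `y > z - x / 8 = 7 x / 8 - δ`, and `8 δ < f.natDegree`, because otherwise `exp_le` would give
  `x ≤ (16 δ + 2) (8 δ + 3) + 1 = 128 δ ^ 2 + 64 δ + 7 < x / 2 + 4 √x + 7 < x`. -/
theorem caseI : ∃ K : ℕ, ∀ (x y z : ℕ) (H G : ℤ), Dat x y z H G → y < z →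
    ∀ S : Finset (ℤ × ℤ), (∀ p ∈ S, Pt x y z H G p.1 p.2 ∧ Par x y z H G p.1 p.2) →
      S.card ≤ K * x ^ K := by
  classical
  obtain ⟨K, hK⟩ := v2_near (10 ^ 4) le_rfl
  refine ⟨K + 2004, fun x y z H G h hyz S hS => ?_⟩
  have hx := h.hx
  have hz := h.hz
  have hx1 : 1 ≤ x := by omega
  rcases S.eq_empty_or_nonempty with h0 | ⟨p0, hp0⟩
  · rw [h0, Finset.card_empty]
    exact Nat.zero_le _
  have h2 : 2 ^ z + G * 2 ^ y ≤ 2 * H := by
    have hzx : (2 : ℤ) ^ z ≤ 2 ^ x := pow_le_pow_right₀ (by norm_num) hx.le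
    have hyx : (2 : ℤ) ^ y ≤ 2 ^ x := pow_le_pow_right₀ (by norm_num) (by omega)
    rcases (hS p0 hp0).2 with ⟨h3, h4, -⟩ | ⟨-, h3, h4, -⟩
    · rw [h3, h4]
      linarith
    · rw [h3, h4, ← pow_add, Nat.sub_add_cancel hyz.le]
      linarith
  set k := 20 * x / (2 * (x - z)) + 1 with hk
  have h3 : (S.filter fun p => 2 ^ (6 * k) ≤ p.1).card ≤ 2000 * x ^ 4 :=
    v2_far h hyz h2 hk _ fun p hp => ⟨(hS p (Finset.mem_filter.1 hp).1).1, (Finset.mem_filter.1 hp).2⟩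
  have h4 : (S.filter fun p => ¬ 2 ^ (6 * k) ≤ p.1).card ≤ K * x ^ K :=
    hK x y z H G h hyz k hk _ fun p hp => ⟨(hS p (Finset.mem_filter.1 hp).1).1,
      (hS p (Finset.mem_filter.1 hp).1).2, (not_le.1 (Finset.mem_filter.1 hp).2).le⟩
  have h5 := Finset.card_filter_add_card_filter_not (s := S) (fun p : ℤ × ℤ => 2 ^ (6 * k) ≤ p.1)
  have h6 : 2000 * x ^ 4 ≤ 2000 * x ^ (K + 2004) :=
    Nat.mul_le_mul_left _ (Nat.pow_le_pow_right hx1 (by omega))
  have h7 : K * x ^ K ≤ K * x ^ (K + 2004) :=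
    Nat.mul_le_mul_left _ (Nat.pow_le_pow_right hx1 (by omega))
  calc S.card ≤ 2000 * x ^ (K + 2004) + K * x ^ (K + 2004) := by omega
    _ = (K + 2000) * x ^ (K + 2004) := by ring
    _ ≤ (K + 2004) * x ^ (K + 2004) := Nat.mul_le_mul_right _ (by omega)

end PX91
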