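import Pool.Agent.LibPX91.V3
import Pool.Agent.LibPX91.N5
import Pool.Agent.LibPX91.T6
import Pool.Agent.LibPX91.V1

open Polynomial JP91
open scoped Polynomial.Bivariate

namespace PX91

private theorem V3b_far (E : ℕ) (S : Finset (ℤ × ℤ))
    (hS : ∀ p ∈ S, 1 ≤ p.2 ∧ p.2 < p.1 ∧ p.1 ≤ 2 ^ E) : S.card ≤ (2 ^ E) * (2 ^ E) := by
  have h1 : S ⊆ (Finset.Icc (1 : ℤ) (2 ^ E)) ×ˢ (Finset.Icc (1 : ℤ) (2 ^ E)) := by
    intro p hp
    obtain ⟨h1, h2, h3⟩ := hS p hp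
    rw [Finset.mem_product, Finset.mem_Icc, Finset.mem_Icc]
    refine ⟨⟨?_, ?_⟩, ⟨?_, ?_⟩⟩ <;> linarith
  have h2 := Finset.card_le_card h1
  rw [Finset.card_product, Int.card_Icc] at h2
  have e : ((2 : ℤ) ^ E + 1 - 1).toNat = 2 ^ E := by
    rw [add_sub_cancel_right]
    have : ((2 : ℤ) ^ E) = ((2 ^ E : ℕ) : ℤ) := by push_cast; rfl
    rw [this, Int.toNat_natCast]
  rwa [e] at h2

private theorem V3b_mono {K L x : ℕ} (hx : 1 ≤ x) (h : K ≤ L) : K * x ^ K ≤ L * x ^ L :=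
  Nat.mul_le_mul h (Nat.pow_le_pow_right hx h)

/-- Row V3b (MEDIUM). Case `z < y`, `x ≠ y`. Let `κ = min x y - z ≥ 1` and `n = min x y`.
* `4096 κ ^ 2 < z`: `tiny_card` with this `n`, `n - z = κ`: `10 κ ≤ z ≤ max x y`, and `8 κ < f.natDegree`,
  because otherwise `exp_le` would give `x ≤ (16 κ + 2) (8 κ + 3) + 1 ≤ 199 κ ^ 2 < z < x`;
* `z ≤ 4096 κ ^ 2`, `κ < 16`: `z ≤ 2 ^ 20`, `r ^ 4 ≤ r ^ (4 κ) ≤ 2 ^ (z + κ) ≤ 2 ^ (2 ^ 20 + 16)`: boundedly many
  points;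
* `z ≤ 4096 κ ^ 2`, `16 ≤ κ`: `gap` gives `κ ≤ f.natDegree + 7` for all good `f`, so `e = κ - 8` satisfies
  `e < f.natDegree`; `r ≤ 2 ^ b` with `b = z / (4 κ) + 2 ≤ 1024 κ + 2 ≤ 3000 e` (`far3`), `box_nat`. -/
theorem caseIII : ∃ K : ℕ, ∀ (x y z : ℕ) (H G : ℤ), Dat x y z H G → z < y → x ≠ y →
    ∀ S : Finset (ℤ × ℤ), (∀ p ∈ S, Pt x y z H G p.1 p.2 ∧ Par x y z H G p.1 p.2) →
      S.card ≤ K * x ^ K := by
  obtain ⟨K1, hK1⟩ := tiny_card
  obtain ⟨K2, hK2⟩ := box_nat 3000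
  obtain ⟨E, hE⟩ : ∃ E : ℕ, E = 2 ^ 20 + 16 := ⟨_, rfl⟩
  refine ⟨K1 + K2 + 2 ^ E * 2 ^ E, ?_⟩
  intro x y z H G h hzy hxy S hS
  have hzx := h.hx
  have hx1 : 1 ≤ x := by omega
  obtain ⟨κ, hκ1, hκ2, hκ0, hκ⟩ : ∃ κ : ℕ, z + κ ≤ x ∧ z + κ ≤ y ∧ 1 ≤ κ ∧
      ((y < x ∧ z + κ = y) ∨ (x < y ∧ z + κ = x)) := by
    rcases Nat.lt_or_gt_of_ne hxy with h1 | h1
    · exact ⟨x - z, by omega, by omega, by omega, Or.inr ⟨h1, by omega⟩⟩
    · exact ⟨y - z, by omega, by omega, by omega, Or.inl ⟨h1, by omega⟩⟩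
  have hfar : ∀ p ∈ S, p.1 ^ (4 * κ) ≤ 2 ^ (z + κ) := fun p hp =>
    far3 h hzy hκ1 hκ2 (hS p hp).1
  rcases Nat.lt_or_ge (4096 * κ ^ 2) z with hc | hc
  · -- tiny
    have h10 : 10 * κ ≤ z := by nlinarith
    have hdeg : ∀ f : ℤ[X][Y], Good x y z H G f → 8 * κ < f.natDegree := by
      intro f hf
      by_contra hcon
      push Not at hcon
      have h1 := exp_le h hf
      have h2 : (2 * f.natDegree + 2) * (f.natDegree + 3) + 1 ≤
          (2 * (8 * κ) + 2) * (8 * κ + 3) + 1 := by gcongr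
      have h3 : κ ≤ κ ^ 2 := by nlinarith
      nlinarith
    have h4 : S.card ≤ K1 * x ^ K1 := by
      rcases hκ with ⟨h1, h2⟩ | ⟨h1, h2⟩
      · refine hK1 x y z H G h y (Or.inr (Or.inl ⟨hzy, h1, rfl, ?_⟩)) ?_ S hS
        · have : y - z = κ := by omega
          rw [this]
          omega
        · have : y - z = κ := by omega
          rw [this]
          exact hdeg
      · refine hK1 x y z H G h x (Or.inr (Or.inr ⟨h1, rfl, ?_⟩)) ?_ S hS
        · have : x - z = κ := by omega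
          rw [this]
          omega
        · have : x - z = κ := by omega
          rw [this]
          exact hdeg
    exact h4.trans (V3b_mono hx1 (by omega))
  · rcases Nat.lt_or_ge κ 16 with h16 | h16
    · -- boundedly many points
      have h5 : S.card ≤ 2 ^ E * 2 ^ E := by
        apply V3b_far
        intro p hp
        have hPt := (hS p hp).1
        have h1 := hPt.hs
        have h2 := hPt.hr
        refine ⟨h1, h2, ?_⟩
        have h3 := hfar p hp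
        have h4 : p.1 ≤ p.1 ^ (4 * κ) := le_self_pow₀ (by linarith) (by omega)
        have h6 : z + κ ≤ E := by
          have : κ ^ 2 ≤ 15 ^ 2 := Nat.pow_le_pow_left (by omega) 2
          have e20 : (2 : ℕ) ^ 20 = 1048576 := by norm_num
          rw [hE, e20]
          omega
        exact h4.trans (h3.trans (pow_le_pow_right₀ (by norm_num) h6))
      have h6 : 2 ^ E * 2 ^ E ≤ K1 + K2 + 2 ^ E * 2 ^ E := Nat.le_add_left _ _
      calc S.card ≤ 2 ^ E * 2 ^ E := h5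
        _ ≤ (K1 + K2 + 2 ^ E * 2 ^ E) := h6
        _ ≤ (K1 + K2 + 2 ^ E * 2 ^ E) * x ^ (K1 + K2 + 2 ^ E * 2 ^ E) :=
          Nat.le_mul_of_pos_right _ (Nat.pow_pos hx1)
    · -- the determinant method
      have hdeg : ∀ f : ℤ[X][Y], Good x y z H G f → κ - 8 < f.natDegree := by
        intro f hf
        obtain ⟨-, h2, h3⟩ := gap h hf
        rcases hκ with ⟨h4, h5⟩ | ⟨h4, h5⟩
        · have := h2 hzy h4
          omega
        · have := h3 h4
          omega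
      have hb1 : z / (4 * κ) ≤ 1024 * κ := by
        apply Nat.div_le_of_le_mul
        nlinarith
      have hb2 : z < 4 * κ * (z / (4 * κ) + 1) := Nat.lt_mul_div_succ z (by omega)
      have h5 : S.card ≤ K2 * x ^ K2 := by
        refine hK2 (κ - 8) x y z H G (by omega) h hdeg (z / (4 * κ) + 2) (by omega)
          (by omega) S ?_
        intro p hp
        refine ⟨(hS p hp).1, ?_⟩
        have h3 := hfar p hp
        have h6 : z + κ ≤ (z / (4 * κ) + 2) * (4 * κ) := by nlinarith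
        have h7 : p.1 ^ (4 * κ) ≤ (2 ^ (z / (4 * κ) + 2)) ^ (4 * κ) := by
          rw [← pow_mul]
          exact h3.trans (pow_le_pow_right₀ (by norm_num) h6)
        exact le_of_pow_le_pow_left₀ (by omega) (by positivity) h7
      exact h5.trans (V3b_mono hx1 (by omega))

end PX91
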