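import Mathlib

namespace PX91

/-- Row V4 (ONLY MATHLIB, EASY-MEDIUM). Equal exponents. `c` is odd (`a`, `b` coprime, so of opposite
parity: two odd squares have a sum `≡ 2` modulo `4`), `c > 2`, and coprime to `b`. Modulo `c`:
`a² ≡ - b²`. If `x` is odd, `a ^ x ≡ - b ^ x` gives `a ^ (2 x) ≡ b ^ (2 x)`, but `a ^ (2 x) ≡ - b ^ (2 x)`, so
`c ∣ 2 b ^ (2 x)`, impossible. If `x = 2 k`, `k` even: `a ^ x ≡ b ^ x`, `c ∣ 2 b ^ x`, impossible. If
`x = 2 k`, `k` odd: `k = 1` gives `z = 2`, excluded; `k ≥ 3`: `a ^ (2 k) + b ^ (2 k) = (a² + b²) S`, with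
`S ≡ k b ^ (2 (k - 1))` modulo `a² + b² = c²` (`Odd.nat_add_dvd_pow_add_pow`, geometric sum), and
`a ^ x + b ^ x > c²`, so `z ≥ 3` and `c ∣ S`, `c ∣ k`, `c ≤ k ≤ x`. -/
theorem eq_exp {a b c x z : ℕ} (ha : 0 < a) (hb : 0 < b) (hc : a.Coprime b)
    (h2 : a ^ 2 + b ^ 2 = c ^ 2) (hx : 0 < x) (hz : 0 < z) (h : a ^ x + b ^ x = c ^ z)
    (hne : ¬ (x = 2 ∧ z = 2)) : c ≤ x := by
  have hcodd : c % 2 = 1 := by
    by_contra hcon
    have hc0 : c % 2 = 0 := by omega
    obtain ⟨m, hm⟩ : ∃ m, c = 2 * m := ⟨c / 2, by omega⟩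
    have hsq : ∀ n : ℕ, n ^ 2 % 4 = (if n % 2 = 0 then 0 else 1) := by
      intro n
      have h4 : n % 4 = 0 ∨ n % 4 = 1 ∨ n % 4 = 2 ∨ n % 4 = 3 := by omega
      rcases h4 with h4 | h4 | h4 | h4
      · have : n % 2 = 0 := by omega
        simp [this, Nat.pow_mod, h4]
      · have : n % 2 = 1 := by omega
        simp [this, Nat.pow_mod, h4]
      · have : n % 2 = 0 := by omega
        simp [this, Nat.pow_mod, h4]
      · have : n % 2 = 1 := by omega
        simp [this, Nat.pow_mod, h4]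
    have h1 := hsq a
    have h3 := hsq b
    have h4 := hsq c
    rw [if_pos hc0] at h4
    have ha2 : a % 2 = 0 := by
      by_contra hh
      rw [if_neg hh] at h1
      split_ifs at h3 <;> omega
    have hb2 : b % 2 = 0 := by
      by_contra hh
      rw [if_neg hh] at h3
      split_ifs at h1 <;> omega
    have : 2 ∣ Nat.gcd a b := Nat.dvd_gcd (by omega) (by omega)
    rw [hc.gcd_eq_one] at this
    omega
  have hc1 : c ≠ 1 := by
    intro h1
    rw [h1] at h2
    have := Nat.pow_pos (n := 2) ha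
    have := Nat.pow_pos (n := 2) hb
    simp only [one_pow] at h2
    omega
  have hc3 : 3 ≤ c := by omega
  have hcb : b.Coprime c := by
    have h1 : (b ^ 2).Coprime (c ^ 2) := by
      rw [← h2]
      have : (b ^ 2).Coprime (a ^ 2) := Nat.Coprime.pow 2 2 hc.symm
      simpa using this
    exact (Nat.coprime_pow_left_iff (by norm_num) _ _).1
      ((Nat.coprime_pow_right_iff (by norm_num) _ _).1 h1)
  haveI : NeZero c := ⟨by omega⟩
  have hbu : IsUnit ((b : ℕ) : ZMod c) := (ZMod.isUnit_iff_coprime b c).2 hcb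
  have e2 : ((a : ℕ) : ZMod c) ^ 2 = - ((b : ℕ) : ZMod c) ^ 2 := by
    have := congrArg (Nat.cast : ℕ → ZMod c) h2
    push_cast at this
    rw [ZMod.natCast_self, zero_pow (by norm_num)] at this
    exact eq_neg_of_add_eq_zero_left this
  have ex : ((a : ℕ) : ZMod c) ^ x + ((b : ℕ) : ZMod c) ^ x = 0 := by
    have := congrArg (Nat.cast : ℕ → ZMod c) h
    push_cast at this
    rw [ZMod.natCast_self, zero_pow (by omega)] at this
    exact this
  have h2ne : ∀ n : ℕ, (2 : ZMod c) * ((b : ℕ) : ZMod c) ^ n ≠ 0 := by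
    intro n hn
    have h1 : (2 : ZMod c) = 0 := ((hbu.pow n).mul_left_eq_zero).1 hn
    have h3 : ((2 : ℕ) : ZMod c) = 0 := by exact_mod_cast h1
    rw [ZMod.natCast_eq_zero_iff] at h3
    exact absurd (Nat.le_of_dvd (by norm_num) h3) (by omega)
  rcases Nat.even_or_odd x with hxe | hxo
  · obtain ⟨k, hk⟩ := hxe
    have hk' : x = 2 * k := by omega
    have ek : ((a : ℕ) : ZMod c) ^ x = (- ((b : ℕ) : ZMod c) ^ 2) ^ k := by
      rw [hk', pow_mul, e2]
    rcases Nat.even_or_odd k with hke | hko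
    · exfalso
      apply h2ne x
      rw [ek, hke.neg_pow, ← pow_mul, ← hk'] at ex
      rw [two_mul]; exact ex
    · have hk1 : k ≠ 1 := by
        intro h1
        have hx2 : x = 2 := by omega
        apply hne
        refine ⟨hx2, ?_⟩
        rw [hx2, h2] at h
        exact (Nat.pow_right_injective (by omega : 2 ≤ c) h).symm
      have hk3 : 3 ≤ k := by
        obtain ⟨r, hr⟩ := hko
        omega
      -- z ≥ 3
      have hz3 : 3 ≤ z := by
        by_contra hcon
        have hz2 : z ≤ 2 := by omega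
        have h1 : c ^ z ≤ c ^ 2 := Nat.pow_le_pow_right (by omega) hz2
        rw [← h, ← h2] at h1
        have hax : a ^ 2 ≤ a ^ x := Nat.pow_le_pow_right ha (by omega)
        have hbx : b ^ 2 ≤ b ^ x := Nat.pow_le_pow_right hb (by omega)
        have hae : a ^ x = a ^ 2 := by omega
        have hbe : b ^ x = b ^ 2 := by omega
        have ha1 : a = 1 := by
          by_contra hh
          have := Nat.pow_right_injective (by omega : 2 ≤ a) hae
          omega
        have hb1 : b = 1 := by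
          by_contra hh
          have := Nat.pow_right_injective (by omega : 2 ≤ b) hbe
          omega
        rw [ha1, hb1] at h2
        have : 3 ^ 2 ≤ c ^ 2 := Nat.pow_le_pow_left hc3 2
        omega
      -- the geometric sum
      have hS : (∑ i ∈ Finset.range k, ((a : ℤ) ^ 2) ^ i * (-((b : ℤ) ^ 2)) ^ (k - 1 - i)) *
          ((c : ℤ) ^ 2) = (c : ℤ) ^ 2 * (c : ℤ) ^ (z - 2) := by
        have h1 := (Commute.all ((a : ℤ) ^ 2) (-((b : ℤ) ^ 2))).geom_sum₂_mul k
        have h3 : ((a : ℤ) ^ 2) - (-((b : ℤ) ^ 2)) = (c : ℤ) ^ 2 := by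
          rw [sub_neg_eq_add]; exact_mod_cast h2
        rw [h3] at h1
        rw [h1, hko.neg_pow, sub_neg_eq_add, ← pow_mul, ← pow_mul, ← hk', ← pow_add,
          show 2 + (z - 2) = z by omega]
        exact_mod_cast h
      have hc0 : (c : ℤ) ^ 2 ≠ 0 := by
        have : (c : ℤ) ≠ 0 := by exact_mod_cast (by omega : c ≠ 0)
        exact pow_ne_zero 2 this
      have hS' : (∑ i ∈ Finset.range k, ((a : ℤ) ^ 2) ^ i * (-((b : ℤ) ^ 2)) ^ (k - 1 - i)) =
          (c : ℤ) ^ (z - 2) := by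
        apply mul_right_cancel₀ hc0
        rw [hS]; ring
      have hcast := congrArg (Int.cast : ℤ → ZMod c) hS'
      push_cast at hcast
      rw [ZMod.natCast_self, zero_pow (by omega)] at hcast
      have hsum : (∑ i ∈ Finset.range k, (((a : ℕ) : ZMod c) ^ 2) ^ i *
          (-(((b : ℕ) : ZMod c) ^ 2)) ^ (k - 1 - i)) =
          (k : ZMod c) * (-(((b : ℕ) : ZMod c) ^ 2)) ^ (k - 1) := by
        rw [Finset.sum_congr rfl (g := fun _ => (-(((b : ℕ) : ZMod c) ^ 2)) ^ (k - 1))]
        · rw [Finset.sum_const, Finset.card_range, nsmul_eq_mul]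
        · intro i hi
          have hi' := Finset.mem_range.1 hi
          rw [e2, ← pow_add]
          congr 1
          omega
      rw [hsum] at hcast
      have hu : IsUnit ((-(((b : ℕ) : ZMod c) ^ 2)) ^ (k - 1)) := ((hbu.pow 2).neg).pow (k - 1)
      have hk0 : (k : ZMod c) = 0 := (hu.mul_left_eq_zero).1 hcast
      rw [ZMod.natCast_eq_zero_iff] at hk0
      have := Nat.le_of_dvd (by omega) hk0
      omega
  · exfalso
    apply h2ne (2 * x)
    have e1 : ((a : ℕ) : ZMod c) ^ x = - ((b : ℕ) : ZMod c) ^ x := eq_neg_of_add_eq_zero_left ex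
    have e3 : ((a : ℕ) : ZMod c) ^ (2 * x) = ((b : ℕ) : ZMod c) ^ (2 * x) := by
      rw [mul_comm 2 x, pow_mul, e1, neg_sq, ← pow_mul]
    have e4 : ((a : ℕ) : ZMod c) ^ (2 * x) = - ((b : ℕ) : ZMod c) ^ (2 * x) := by
      rw [pow_mul, e2, hxo.neg_pow, ← pow_mul]
    rw [e3] at e4
    rw [two_mul]
    nth_rewrite 1 [e4]
    exact neg_add_cancel _

end PX91
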