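import Pool.Agent.LibPX91.V2
import Pool.Agent.LibPX91.V3b
import Pool.Agent.LibPX91.V4
import Pool.Agent.LibPX91.V5

open Polynomial JP91
open scoped Polynomial.Bivariate

namespace PX91

private theorem V6_fin {α : Type*} (s : Set α) (B : ℕ)
    (h : ∀ S : Finset α, (∀ p ∈ S, p ∈ s) → S.card ≤ B) :
    ∃ F : Finset α, F.card ≤ B ∧ ∀ p ∈ s, p ∈ F := by
  by_cases hs : s.Finite
  · refine ⟨hs.toFinset, h _ fun p hp => (hs.mem_toFinset.1 hp), fun p hp => hs.mem_toFinset.2 hp⟩
  · obtain ⟨t, ht, htc⟩ := Set.Infinite.exists_subset_card_eq (Set.not_finite.1 hs) (B + 1)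
    have := h t fun p hp => ht hp
    omega

/-- Row V6a (EASY-MEDIUM). The number of primitive triples with a solution with exponents `≤ E`,
other than `(2, 2, 2)`, is at most `K E ^ K`. If `x = y` then `c ≤ x ≤ E` (`eq_exp`): at most
`(E + 1) ^ 3` triples. Otherwise `param` gives `(a, b, c) = tau i (r, s)` with `(r, s)` in one of the sets
`{Pt X Y Z H G r s ∧ Par X Y Z H G r s}`, `X, Y, Z ≤ E`, `X ≠ Y`, `(H, G) ∈ {(2 ^ X, 1), (2 ^ Z, 2 ^ (Z - Y))}`,
`Dat X Y Z H G`: at most `4 * 2 * (E + 1) ^ 3` choices of `i`, `(H, G)`, `(X, Y, Z)`, and each set has at most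
`K' E ^ K'` elements (`caseI`, `caseIII`; `Y ≠ Z`; a set all of whose finite subsets have at most `B`
elements is finite with at most `B` elements). -/
theorem count_exp : ∃ K : ℕ, ∀ E : ℕ, ∃ T : Finset (ℕ × ℕ × ℕ), T.card ≤ K * E ^ K ∧
    ∀ a b c x y z : ℕ, a.Coprime b → JB95.Sol a b c x y z → x ≤ E → y ≤ E → z ≤ E →
      (a, b, c) ∈ T := by
  classical
  obtain ⟨K1, h1⟩ := caseI
  obtain ⟨K3, h3⟩ := caseIII
  refine ⟨64 * (K1 + K3) + 8, fun E => ?_⟩
  rcases Nat.eq_zero_or_pos E with rfl | hE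
  · refine ⟨∅, by simp, ?_⟩
    intro a b c x y z hab h hx hy hz
    exact absurd h.2.2.2.1 (by omega)
  have key : ∀ (U V W : ℕ) (H G : ℤ), ∃ F : Finset (ℤ × ℤ),
      F.card ≤ (K1 + K3) * E ^ (K1 + K3) ∧ (Dat U V W H G → U ≠ V → U ≤ E →
        ∀ r s : ℤ, Pt U V W H G r s → Par U V W H G r s → (r, s) ∈ F) := by
    intro U V W H G
    by_cases hD : Dat U V W H G ∧ U ≠ V ∧ U ≤ E
    · obtain ⟨hD, hXY, hXE⟩ := hD
      obtain ⟨F, hF1, hF2⟩ := V6_fin
        {p : ℤ × ℤ | Pt U V W H G p.1 p.2 ∧ Par U V W H G p.1 p.2}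
        ((K1 + K3) * E ^ (K1 + K3)) (by
          intro S hS
          rcases lt_or_gt_of_ne hD.hyz with hyz | hyz
          · calc S.card ≤ K1 * U ^ K1 := h1 U V W H G hD hyz S fun p hp => hS p hp
              _ ≤ (K1 + K3) * E ^ (K1 + K3) :=
                Nat.mul_le_mul (by omega) ((Nat.pow_le_pow_left hXE _).trans
                  (Nat.pow_le_pow_right hE (by omega)))
          · calc S.card ≤ K3 * U ^ K3 := h3 U V W H G hD hyz hXY S fun p hp => hS p hp
              _ ≤ (K1 + K3) * E ^ (K1 + K3) :=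
                Nat.mul_le_mul (by omega) ((Nat.pow_le_pow_left hXE _).trans
                  (Nat.pow_le_pow_right hE (by omega))))
      exact ⟨F, hF1, fun _ _ _ r s hr hs => hF2 (r, s) ⟨hr, hs⟩⟩
    · exact ⟨∅, by simp, fun a b c => absurd ⟨a, b, c⟩ hD⟩
  choose F hF1 hF2 using key
  let Hf : ℕ → ℕ → ℕ → Bool → ℤ := fun U _ W k => if k then 2 ^ U else 2 ^ W
  let Gf : ℕ → ℕ → ℕ → Bool → ℤ := fun _ V W k => if k then 1 else 2 ^ (W - V)
  let R := Finset.range (E + 1)
  let I : Finset (Fin 4 × Bool × ℕ × ℕ × ℕ) := Finset.univ ×ˢ Finset.univ ×ˢ R ×ˢ R ×ˢ R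
  refine ⟨(R ×ˢ R ×ˢ R) ∪ I.biUnion fun q =>
    (F q.2.2.1 q.2.2.2.1 q.2.2.2.2 (Hf q.2.2.1 q.2.2.2.1 q.2.2.2.2 q.2.1)
      (Gf q.2.2.1 q.2.2.2.1 q.2.2.2.2 q.2.1)).image (tau q.1), ?_, ?_⟩
  · have hR : R.card = E + 1 := Finset.card_range _
    have hI : I.card = 8 * (E + 1) ^ 3 := by
      simp only [I, Finset.card_product, Finset.card_univ, Fintype.card_fin, Fintype.card_bool, hR]
      ring
    have hRR : (R ×ˢ R ×ˢ R).card = (E + 1) ^ 3 := by
      simp only [Finset.card_product, hR]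
      ring
    have hE3 : (E + 1) ^ 3 ≤ 8 * E ^ 3 := by
      calc (E + 1) ^ 3 ≤ (2 * E) ^ 3 := Nat.pow_le_pow_left (by omega) 3
        _ = 8 * E ^ 3 := by ring
    have hb : (I.biUnion fun q =>
        (F q.2.2.1 q.2.2.2.1 q.2.2.2.2 (Hf q.2.2.1 q.2.2.2.1 q.2.2.2.2 q.2.1)
          (Gf q.2.2.1 q.2.2.2.1 q.2.2.2.2 q.2.1)).image (tau q.1)).card ≤
        I.card * ((K1 + K3) * E ^ (K1 + K3)) := by
      refine Finset.card_biUnion_le_card_mul _ _ _ fun q _ => ?_
      exact Finset.card_image_le.trans (hF1 _ _ _ _ _)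
    have hpow : E ^ 3 ≤ E ^ (64 * (K1 + K3) + 8) := Nat.pow_le_pow_right hE (by omega)
    have hpow2 : E ^ 3 * E ^ (K1 + K3) ≤ E ^ (64 * (K1 + K3) + 8) := by
      rw [← pow_add]
      exact Nat.pow_le_pow_right hE (by omega)
    calc _ ≤ (E + 1) ^ 3 + 8 * (E + 1) ^ 3 * ((K1 + K3) * E ^ (K1 + K3)) := by
          refine (Finset.card_union_le _ _).trans ?_
          rw [hRR]
          rw [hI] at hb
          exact Nat.add_le_add_left hb _
      _ ≤ 8 * E ^ 3 + 8 * (8 * E ^ 3) * ((K1 + K3) * E ^ (K1 + K3)) :=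
          Nat.add_le_add hE3 (Nat.mul_le_mul_right _ (Nat.mul_le_mul_left _ hE3))
      _ = 8 * E ^ 3 + 64 * (K1 + K3) * (E ^ 3 * E ^ (K1 + K3)) := by ring
      _ ≤ 8 * E ^ (64 * (K1 + K3) + 8) + 64 * (K1 + K3) * E ^ (64 * (K1 + K3) + 8) :=
          Nat.add_le_add (Nat.mul_le_mul_left _ hpow) (Nat.mul_le_mul_left _ hpow2)
      _ = (64 * (K1 + K3) + 8) * E ^ (64 * (K1 + K3) + 8) := by ring
  · intro a b c x y z hab h hx hy hz
    rw [Finset.mem_union]
    by_cases hxy : x = y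
    · left
      subst hxy
      obtain ⟨ha, hb, h2, hx0, _, hz0, he, hne⟩ := h
      have hc : c ≤ x := eq_exp ha hb hab h2 hx0 hz0 he (fun hh => hne ⟨hh.1, hh.1, hh.2⟩)
      have hac : a ≤ c := by
        by_contra hcon
        push Not at hcon
        have h5 : c ^ 2 < a ^ 2 := Nat.pow_lt_pow_left hcon (by norm_num)
        omega
      have hbc : b ≤ c := by
        by_contra hcon
        push Not at hcon
        have h5 : c ^ 2 < b ^ 2 := Nat.pow_lt_pow_left hcon (by norm_num)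
        omega
      simp only [R, Finset.mem_product, Finset.mem_range]
      omega
    · right
      obtain ⟨i, U, V, W, H, G, r, s, hD, hP, hPar, hXY, hZ, ht⟩ := param hab h
      have hXE : U ≤ E := by omega
      have hYE : V ≤ E := by omega
      have hZE : W ≤ E := by omega
      have hne : U ≠ V := by omega
      rw [Finset.mem_biUnion]
      rcases hPar with ⟨hH, hG, hodd⟩ | ⟨hYZ, hH, hG, hodd1, hodd2⟩
      · refine ⟨(i, true, U, V, W), ?_, ?_⟩
        · simp only [I, R, Finset.mem_product, Finset.mem_univ, Finset.mem_range, true_and]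
          omega
        · rw [Finset.mem_image]
          refine ⟨(r, s), ?_, ht.symm⟩
          have h6 : Hf U V W true = H := by simp [Hf, hH]
          have h7 : Gf U V W true = G := by simp [Gf, hG]
          show (r, s) ∈ F U V W (Hf U V W true) (Gf U V W true)
          rw [h6, h7]
          exact hF2 U V W H G hD hne hXE r s hP (Or.inl ⟨hH, hG, hodd⟩)
      · refine ⟨(i, false, U, V, W), ?_, ?_⟩
        · simp only [I, R, Finset.mem_product, Finset.mem_univ, Finset.mem_range, true_and]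
          omega
        · rw [Finset.mem_image]
          refine ⟨(r, s), ?_, ht.symm⟩
          have h6 : Hf U V W false = H := by simp [Hf, hH]
          have h7 : Gf U V W false = G := by simp [Gf, hG]
          show (r, s) ∈ F U V W (Hf U V W false) (Gf U V W false)
          rw [h6, h7]
          exact hF2 U V W H G hD hne hXE r s hP (Or.inr ⟨hYZ, hH, hG, hodd1, hodd2⟩)

end PX91
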