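import Pool.Agent.LibPX91.Defs

open Polynomial JP91
open scoped Polynomial.Bivariate

namespace PX91

/-- Row W1 (ONLY MATHLIB, EASY). The total degree. The coefficient of `r ^ i s ^ j` in `P * Q` is the
sum over `i₁ + i₂ = i`, `j₁ + j₂ = j` of the products of the coefficients (`coeff_mul` twice); if
`S + T < i + j` then `S < i₁ + j₁` or `T < i₂ + j₂`. -/
theorem TD_mul {R : Type*} [CommRing R] {P Q : R[X][Y]} {S T : ℕ} (hP : TD P S) (hQ : TD Q T) :
    TD (P * Q) (S + T) := by
  intro i j h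
  rw [coeff_mul, finsetSum_coeff]
  refine Finset.sum_eq_zero fun x hx => ?_
  rw [coeff_mul]
  refine Finset.sum_eq_zero fun y hy => ?_
  rw [Finset.HasAntidiagonal.mem_antidiagonal] at hx hy
  rcases lt_or_ge S (y.1 + x.1) with h1 | h1
  · rw [hP y.1 x.1 h1, zero_mul]
  · rw [hQ y.2 x.2 (by omega), mul_zero]

theorem TD_add {R : Type*} [CommRing R] {P Q : R[X][Y]} {T : ℕ} (hP : TD P T) (hQ : TD Q T) :
    TD (P + Q) T := by
  intro i j h
  rw [coeff_add, coeff_add, hP i j h, hQ i j h, add_zero]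

theorem TD_sub {R : Type*} [CommRing R] {P Q : R[X][Y]} {T : ℕ} (hP : TD P T) (hQ : TD Q T) :
    TD (P - Q) T := by
  intro i j h
  rw [coeff_sub, coeff_sub, hP i j h, hQ i j h, sub_zero]

theorem TD_mono {R : Type*} [CommRing R] {P : R[X][Y]} {S T : ℕ} (hP : TD P S) (h : S ≤ T) :
    TD P T := by
  exact fun i j hij => hP i j (lt_of_le_of_lt h hij)

theorem TD_pow {R : Type*} [CommRing R] {P : R[X][Y]} {T : ℕ} (hP : TD P T) (n : ℕ) :
    TD (P ^ n) (T * n) := by
  induction n with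
  | zero =>
    intro i j h
    rw [pow_zero, coeff_one]
    split_ifs with hj
    · rw [coeff_one, if_neg (by omega)]
    · rw [coeff_zero]
  | succ n ih =>
    rw [pow_succ, mul_add_one]
    exact TD_mul ih hP

theorem TD_sum {R : Type*} [CommRing R] {ι : Type*} (s : Finset ι) (P : ι → R[X][Y]) {T : ℕ}
    (hP : ∀ i ∈ s, TD (P i) T) : TD (∑ i ∈ s, P i) T := by
  classical
  induction s using Finset.induction_on with
  | empty =>
    intro i j _
    rw [Finset.sum_empty, coeff_zero, coeff_zero]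
  | insert a s ha ih =>
    rw [Finset.sum_insert ha]
    exact TD_add (hP a (Finset.mem_insert_self a s))
      (ih fun i hi => hP i (Finset.mem_insert_of_mem hi))

theorem TD_CC {R : Type*} [CommRing R] (a : R) : TD (C (C a) : R[X][Y]) 0 := by
  intro i j h
  rw [coeff_C]
  split_ifs with hj
  · rw [coeff_C, if_neg (by omega)]
  · rw [coeff_zero]

theorem TD_CX {R : Type*} [CommRing R] : TD (C X : R[X][Y]) 1 := by
  intro i j h
  rw [coeff_C]
  split_ifs with hj
  · rw [coeff_X, if_neg (by omega)]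
  · rw [coeff_zero]

theorem TD_Y {R : Type*} [CommRing R] : TD (Y : R[X][Y]) 1 := by
  intro i j h
  rw [coeff_X]
  split_ifs with hj
  · rw [coeff_one, if_neg (by omega)]
  · rw [coeff_zero]

theorem TD_cC : TD cC 2 ∧ TD cB 2 ∧ TD cA 2 := by
  have h1 : TD ((C X : ℤ[X][Y]) ^ 2) 2 := TD_mono (TD_pow TD_CX 2) (by norm_num)
  have h2 : TD ((Y : ℤ[X][Y]) ^ 2) 2 := TD_mono (TD_pow TD_Y 2) (by norm_num)
  exact ⟨TD_add h1 h2, TD_sub h1 h2, TD_mul TD_CX TD_Y⟩

/-- Every polynomial has a total degree. -/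
theorem TD_exists {R : Type*} [CommRing R] {Q : R[X][Y]} (hQ : Q ≠ 0) :
    ∃ T i j : ℕ, TD Q T ∧ i + j = T ∧ (Q.coeff j).coeff i ≠ 0 := by
  classical
  have hex : ∃ T, TD Q T := by
    refine ⟨Q.natDegree + ∑ j ∈ Finset.range (Q.natDegree + 1), (Q.coeff j).natDegree,
      fun i j h => ?_⟩
    rcases lt_or_ge Q.natDegree j with hj | hj
    · rw [coeff_eq_zero_of_natDegree_lt hj, coeff_zero]
    · apply coeff_eq_zero_of_natDegree_lt
      have h1 : (Q.coeff j).natDegree ≤
          ∑ j ∈ Finset.range (Q.natDegree + 1), (Q.coeff j).natDegree :=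
        Finset.single_le_sum (f := fun j => (Q.coeff j).natDegree) (fun _ _ => Nat.zero_le _)
          (Finset.mem_range.2 (by omega))
      omega
  obtain ⟨T, hT, hmin⟩ : ∃ T, TD Q T ∧ ∀ m, m < T → ¬ TD Q m :=
    ⟨Nat.find hex, Nat.find_spec hex, fun m hm => Nat.find_min hex hm⟩
  obtain ⟨j, hj⟩ : ∃ j, Q.coeff j ≠ 0 := by
    by_contra h
    push Not at h
    exact hQ (Polynomial.ext fun j => by rw [h j, coeff_zero])
  obtain ⟨i, hi⟩ : ∃ i, (Q.coeff j).coeff i ≠ 0 := by
    by_contra h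
    push Not at h
    exact hj (Polynomial.ext fun i => by rw [h i, coeff_zero])
  rcases Nat.eq_zero_or_pos T with h0 | h0
  · subst h0
    have h1 : i + j = 0 := by
      by_contra h
      exact hi (hT i j (by omega))
    exact ⟨0, i, j, hT, h1, hi⟩
  · have h1 := hmin (T - 1) (by omega)
    unfold TD at h1
    push Not at h1
    obtain ⟨i', j', h2, h3⟩ := h1
    have h4 : i' + j' ≤ T := by
      by_contra h
      exact h3 (hT i' j' (by omega))
    exact ⟨_, i', j', hT, by omega, h3⟩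

/-- The degrees in `s` and `r` of a polynomial of total degree at most `T`. -/
theorem TD_natDegree {R : Type*} [CommRing R] {Q : R[X][Y]} {T : ℕ} (hQ : TD Q T) :
    Q.natDegree ≤ T ∧ ∀ j, (Q.coeff j).natDegree ≤ T := by
  refine ⟨natDegree_le_iff_coeff_eq_zero.2 fun j hj => Polynomial.ext fun i => ?_,
    fun j => natDegree_le_iff_coeff_eq_zero.2 fun i hi => hQ i j (by omega)⟩
  rw [coeff_zero]
  exact hQ i j (by omega)

end PX91
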