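import Pool.Agent.LibPX91.W1

open Polynomial JP91
open scoped Polynomial.Bivariate

namespace PX91

/-- Row W2 (EASY). Product with a polynomial whose top form is `c (r s) ^ l`: in the sum for the
coefficient of `r ^ i s ^ j`, `i + j = 2 l + T`, only the terms with `i₁ + j₁ = 2 l`,
`i₂ + j₂ = T` survive, and among them only `i₁ = j₁ = l`. -/
theorem top_mul {R : Type*} [CommRing R] {f g : R[X][Y]} {l T : ℕ} {c : R} (hf : Top f l c)
    (hg : TD g T) {i j : ℕ} (hij : i + j = 2 * l + T) :
    ((f * g).coeff j).coeff i = if l ≤ i ∧ l ≤ j then c * (g.coeff (j - l)).coeff (i - l) else 0 := by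
  have key : ∀ i₁ i₂ j₁ j₂ : ℕ, i₁ + i₂ = i → j₁ + j₂ = j → ¬ (i₁ = l ∧ j₁ = l) →
      (f.coeff j₁).coeff i₁ * (g.coeff j₂).coeff i₂ = 0 := by
    intro i₁ i₂ j₁ j₂ h1 h2 h3
    rcases lt_trichotomy (i₁ + j₁) (2 * l) with h | h | h
    · rw [hg i₂ j₂ (by omega), mul_zero]
    · rw [hf.2 i₁ j₁ h, if_neg (by rintro rfl; exact h3 ⟨rfl, by omega⟩), zero_mul]
    · rw [hf.1 i₁ j₁ h, zero_mul]
  rw [coeff_mul, finset_sum_coeff]
  simp only [coeff_mul]
  split_ifs with hl
  · rw [Finset.sum_eq_single (l, j - l), Finset.sum_eq_single (l, i - l)]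
    · rw [hf.2 l l (by omega), if_pos rfl]
    · rintro ⟨i₁, i₂⟩ h1 h2
      rw [Finset.HasAntidiagonal.mem_antidiagonal] at h1
      refine key _ _ _ _ h1 (by omega) ?_
      rintro ⟨h3, -⟩
      apply h2
      have h3' : i₁ = l := h3
      have h1' : i₁ + i₂ = i := h1
      rw [Prod.mk.injEq]
      omega
    · intro h
      exact absurd (Finset.HasAntidiagonal.mem_antidiagonal.2 (by omega)) h
    · rintro ⟨j₁, j₂⟩ h1 h2
      rw [Finset.HasAntidiagonal.mem_antidiagonal] at h1
      refine Finset.sum_eq_zero ?_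
      rintro ⟨i₁, i₂⟩ h3
      rw [Finset.HasAntidiagonal.mem_antidiagonal] at h3
      refine key _ _ _ _ h3 h1 ?_
      rintro ⟨-, h4⟩
      apply h2
      have h4' : j₁ = l := h4
      have h1' : j₁ + j₂ = j := h1
      rw [Prod.mk.injEq]
      omega
    · intro h
      exact absurd (Finset.HasAntidiagonal.mem_antidiagonal.2 (by omega)) h
  · refine Finset.sum_eq_zero ?_
    rintro ⟨j₁, j₂⟩ h1
    rw [Finset.HasAntidiagonal.mem_antidiagonal] at h1
    refine Finset.sum_eq_zero ?_
    rintro ⟨i₁, i₂⟩ h3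
    rw [Finset.HasAntidiagonal.mem_antidiagonal] at h3
    refine key _ _ _ _ h3 h1 ?_
    rintro ⟨h4, h5⟩
    apply hl
    have h4' : i₁ = l := h4
    have h5' : j₁ = l := h5
    have h1' : j₁ + j₂ = j := h1
    have h3' : i₁ + i₂ = i := h3
    omega

/-- Row W2, second part (EASY). If `f * g` has total degree `≤ T` then `g` has total degree
`≤ T - 2 l`: take `(i, j)` from `TD_exists` for `g`; the coefficient of `f * g` at `(i + l, j + l)` is
`c` times that of `g`, not `0`. -/
theorem td_cofactor {R : Type*} [CommRing R] [IsDomain R] {f g : R[X][Y]} {l T : ℕ} {c : R}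
    (hf : Top f l c) (hc : c ≠ 0) (h : TD (f * g) T) :
    ∀ i j : ℕ, T < 2 * l + (i + j) → (g.coeff j).coeff i = 0 := by
  intro i j hij
  by_cases hg : g = 0
  · rw [hg]
    simp
  · obtain ⟨T', i₀, j₀, h1, h2, h3⟩ := TD_exists hg
    have h4 := top_mul hf h1 (i := i₀ + l) (j := j₀ + l) (by omega)
    rw [if_pos ⟨by omega, by omega⟩, Nat.add_sub_cancel, Nat.add_sub_cancel] at h4
    have h5 : ¬ T < (i₀ + l) + (j₀ + l) := by
      intro h6
      rw [h _ _ h6] at h4
      exact mul_ne_zero hc h3 h4.symm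
    exact h1 i j (by omega)

/-- Row W2, third part (EASY). A nonzero polynomial without monomials divisible by `(r s) ^ l` is not
a multiple of `f`. -/
theorem not_dvd_of_supp {R : Type*} [CommRing R] [IsDomain R] {f P : R[X][Y]} {l : ℕ} {c : R}
    (hf : Top f l c) (hc : c ≠ 0) (hP : P ≠ 0)
    (hs : ∀ i j : ℕ, (P.coeff j).coeff i ≠ 0 → i < l ∨ j < l) : ¬ f ∣ P := by
  rintro ⟨g, rfl⟩
  have hg : g ≠ 0 := right_ne_zero_of_mul hP
  obtain ⟨T', i₀, j₀, h1, h2, h3⟩ := TD_exists hg
  have h4 := top_mul hf h1 (i := i₀ + l) (j := j₀ + l) (by omega)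
  rw [if_pos ⟨by omega, by omega⟩, Nat.add_sub_cancel, Nat.add_sub_cancel] at h4
  have h5 := hs (i₀ + l) (j₀ + l) (by rw [h4]; exact mul_ne_zero hc h3)
  omega

/-- Row W2, fourth part (EASY, from the second). A multiple of `f` of total degree `≤ T` has no
monomial of degree exactly `T` with `j < l`. -/
theorem top_dvd {R : Type*} [CommRing R] [IsDomain R] {f M : R[X][Y]} {l T : ℕ} {c : R}
    (hf : Top f l c) (hc : c ≠ 0) (hd : f ∣ M) (hM : TD M T) {i j : ℕ} (hij : i + j = T)
    (hj : j < l) : (M.coeff j).coeff i = 0 := by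
  obtain ⟨g, rfl⟩ := hd
  have h1 := td_cofactor hf hc hM
  rcases Nat.lt_or_ge T (2 * l) with h | h
  · have hg : g = 0 := by
      ext j' i'
      rw [h1 i' j' (by omega)]
      simp
    rw [hg, mul_zero]
    simp
  · have h2 : TD g (T - 2 * l) := fun i' j' h' => h1 i' j' (by omega)
    rw [top_mul hf h2 (by omega), if_neg (by omega)]

/-- Row W2, fifth part (EASY). The number of monomials: `(D + 1) (D + 2) / 2` minus
`(D - 2 l + 1) (D - 2 l + 2) / 2`. -/
theorem card_Mo {l D : ℕ} (h : 2 * l ≤ D) : (Mo l D).card = l * (2 * D + 3 - 2 * l) := by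
  have hA : ((Mo l D).filter fun p => p.1 < l).card = ∑ i ∈ Finset.range l, (D + 1 - i) := by
    have h1 : ((Finset.range l).sigma fun i => Finset.range (D + 1 - i)).card =
        ∑ i ∈ Finset.range l, (D + 1 - i) := by
      rw [Finset.card_sigma]
      simp
    rw [← h1]
    refine Finset.card_bij' (fun p _ => (⟨p.1, p.2⟩ : Σ _ : ℕ, ℕ)) (fun p _ => (p.1, p.2)) ?_ ?_ ?_ ?_
    · rintro ⟨i, j⟩ hp
      simp only [Mo, Finset.mem_filter, Finset.mem_product, Finset.mem_range] at hp
      simp only [Finset.mem_sigma, Finset.mem_range]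
      omega
    · rintro ⟨i, j⟩ hp
      simp only [Finset.mem_sigma, Finset.mem_range] at hp
      simp only [Mo, Finset.mem_filter, Finset.mem_product, Finset.mem_range]
      omega
    · intro p _
      rfl
    · intro p _
      rfl
  have hB : ((Mo l D).filter fun p => ¬ p.1 < l).card =
      ∑ i ∈ Finset.range l, (D + 1 - i - l) := by
    have h1 : ((Finset.range l).sigma fun i => Finset.range (D + 1 - i - l)).card =
        ∑ i ∈ Finset.range l, (D + 1 - i - l) := by
      rw [Finset.card_sigma]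
      simp
    rw [← h1]
    refine Finset.card_bij' (fun p _ => (⟨p.2, p.1 - l⟩ : Σ _ : ℕ, ℕ)) (fun p _ => (p.2 + l, p.1))
      ?_ ?_ ?_ ?_
    · rintro ⟨i, j⟩ hp
      simp only [Mo, Finset.mem_filter, Finset.mem_product, Finset.mem_range] at hp
      simp only [Finset.mem_sigma, Finset.mem_range]
      omega
    · rintro ⟨i, j⟩ hp
      simp only [Finset.mem_sigma, Finset.mem_range] at hp
      simp only [Mo, Finset.mem_filter, Finset.mem_product, Finset.mem_range]
      omega
    · rintro ⟨i, j⟩ hp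
      simp only [Mo, Finset.mem_filter, Finset.mem_product, Finset.mem_range] at hp
      show ((i - l) + l, j) = (i, j)
      rw [Nat.sub_add_cancel (by omega)]
    · rintro ⟨i, j⟩ _
      simp
  have hs : ∀ n ≤ l, ∑ i ∈ Finset.range n, ((D + 1 - i) + (D + 1 - i - l)) =
      n * (2 * D + 3 - l - n) := by
    intro n
    induction n with
    | zero => intro _; simp
    | succ n ih =>
      intro hn
      rw [Finset.sum_range_succ, ih (by omega)]
      obtain ⟨e, he⟩ : ∃ e, D = 2 * l + e := ⟨D - 2 * l, by omega⟩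
      obtain ⟨k, hk⟩ : ∃ k, l = n + 1 + k := ⟨l - (n + 1), by omega⟩
      have e1 : 2 * D + 3 - l - n = 2 * n + 3 * k + 2 * e + 6 := by omega
      have e2 : D + 1 - n = n + 2 * k + e + 3 := by omega
      have e3 : n + 2 * k + e + 3 - l = k + e + 2 := by omega
      have e4 : 2 * D + 3 - l - (n + 1) = 2 * n + 3 * k + 2 * e + 5 := by omega
      rw [e1, e2, e3, e4]
      ring
  have h2 := Finset.card_filter_add_card_filter_not (s := Mo l D) (fun p : ℕ × ℕ => p.1 < l)
  rw [← h2, hA, hB, ← Finset.sum_add_distrib, hs l le_rfl]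
  congr 1
  omega

end PX91
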